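import Pool.Agent.Helper96.AG.N1

/-!
# Project AG (MP_a499ba_nt, Q2), block N1b

`GM_eq`: every `n ≥ 1` is `a^2 b` with `b` squarefree in exactly one way (`sq_rep` with `z' = 0`, `φ = gf T`, `gf_sq`), so `GM T N = ∑_{a ≤ √N} ∑_{b ≤ N/a^2, sqfree} rf T b = ∑_{a ≤ √N} MM T (N/a^2)`.
`NG_top`: `SM (N+1) z = Icc 1 z` for `z ≤ N`.
-/

set_option autoImplicit false

namespace Pool.Agent.Helper96.AG

open Finset Pool.Agent.Helper5.RM Pool.Agent.Helper96.AF

theorem GM_eq (T : Finset ℕ) (N : ℕ) : GM T N = ∑ a ∈ Finset.Icc 1 (Nat.sqrt N), MM T (N / a ^ 2) := by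
  have h0 : GM T N = ∑ n ∈ Finset.Ioc 0 N, gf T n := by
    unfold GM
    rfl
  rw [h0, sq_rep 0 N (gf T)]
  rw [Finset.sum_comm' (t' := Finset.Icc 1 (Nat.sqrt N))
    (s' := fun a => (Finset.Icc 1 (N / a ^ 2)).filter Squarefree)]
  · refine Finset.sum_congr rfl fun a ha => ?_
    rw [Finset.mem_Icc] at ha
    unfold MM
    rw [Finset.sum_filter]
    refine Finset.sum_congr rfl fun b _ => ?_
    split_ifs with hb
    · exact gf_sq T a b ha.1 hb
    · unfold rf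
      rw [if_neg hb]
  · intro b a
    simp only [Finset.mem_filter, Finset.mem_Icc]
    constructor
    · rintro ⟨⟨⟨h1, _⟩, h3⟩, ⟨h4, h5⟩, h6, h7⟩
      refine ⟨⟨⟨h1, ?_⟩, h3⟩, h4, h5⟩
      rw [Nat.le_div_iff_mul_le (by positivity), mul_comm]
      exact h7
    · rintro ⟨⟨⟨h1, h2⟩, h3⟩, h4, h5⟩
      rw [Nat.le_div_iff_mul_le (by positivity), mul_comm] at h2
      refine ⟨⟨⟨h1, ?_⟩, h3⟩, ⟨h4, h5⟩, by positivity, h2⟩
      exact (Nat.le_mul_of_pos_left _ (by positivity)).trans h2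

theorem NG_top (T : Finset ℕ) (N : ℕ) : NG T (N + 1) N = GM T N := by
  rw [GM_eq]
  unfold NG
  refine Finset.sum_congr rfl fun a _ => ?_
  unfold NN MM SM
  rw [Finset.filter_true_of_mem]
  intro n hn p hp
  rw [Finset.mem_Icc] at hn
  have h1 := Nat.le_of_mem_primeFactors hp
  have h2 := hn.2.trans (Nat.div_le_self N (a ^ 2))
  omega

end Pool.Agent.Helper96.AG
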