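import Pool.Agent.Helper96.AG.N1b

/-!
# Project AG (MP_a499ba_nt, Q2), block N2

Recursions and decompositions (as in AF/D1, AF/N1). PROOF of `NG_step`: sum `NN_step` over `a ≤ √z`; `z / a^2 / y = z / y / a^2` (`Nat.div_div_eq_div_mul`, `mul_comm`) and the terms with
`a > √(z/y)` vanish (`NN T y 0 = 0`). `NG_step'`: `NN_step'`. `GM_dec`: from `y` to `N` with `NG_step`, `NG_step'` (induction on the upper end: `NG T (y' + 1) N = NG T (y+1) N + ∑_{p ∈ PP y' \\ PP y} ..`),
`NG_top`. `NG_dec`: sum `NN_dec` over `a ≤ √n`: `n / a^2 / b = n / b / a^2`; the `b ∈ SB r y n` not in `SB r y (n/a^2)` have `n / a^2 / b = 0`, and `a > √(n/b)` gives `0` again.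
`NG_sum`: interchange: `NG T y z = ∑_a ∑_{b ∈ SM y (z/a^2)} rf T b`, and `a^2 b ≤ z` iff `a ≤ √(z/b)`.
-/

set_option autoImplicit false

namespace Pool.Agent.Helper96.AG

open Finset Pool.Agent.Helper5.RM Pool.Agent.Helper96.AF

theorem NG_zero (T : Finset ℕ) (y : ℕ) : NG T y 0 = 0 := by
  unfold NG
  rw [Nat.sqrt_zero]
  rfl

private lemma NN_zero' (T : Finset ℕ) (y : ℕ) : NN T y 0 = 0 := by
  unfold NN SM
  rfl

/-- the range of `a` can be extended -/
lemma NG_ext (T : Finset ℕ) (y z A : ℕ) (hA : Nat.sqrt z ≤ A) :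
    NG T y z = ∑ a ∈ Finset.Icc 1 A, NN T y (z / a ^ 2) := by
  unfold NG
  refine Finset.sum_subset (Finset.Icc_subset_Icc le_rfl hA) fun a ha ha' => ?_
  rw [Finset.mem_Icc] at ha ha'
  have h1 : Nat.sqrt z < a := by omega
  have h2 : z < a ^ 2 := by
    rw [Nat.sqrt_lt'] at h1
    exact h1
  rw [Nat.div_eq_of_lt h2, NN_zero']

theorem NG_step (T : Finset ℕ) (y z : ℕ) (hy : y.Prime) : NG T (y + 1) z = NG T y z + sg T y * NG T y (z / y) := by
  have h1 : NG T y (z / y) = ∑ a ∈ Finset.Icc 1 (Nat.sqrt z), NN T y (z / y / a ^ 2) :=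
    NG_ext T y (z / y) _ (Nat.sqrt_le_sqrt (Nat.div_le_self z y))
  rw [h1, Finset.mul_sum]
  unfold NG
  rw [← Finset.sum_add_distrib]
  refine Finset.sum_congr rfl fun a _ => ?_
  rw [NN_step T y (z / a ^ 2) hy, Nat.div_div_eq_div_mul, Nat.div_div_eq_div_mul, mul_comm (a ^ 2) y]

theorem NG_step' (T : Finset ℕ) (y z : ℕ) (hy : ¬ y.Prime) : NG T (y + 1) z = NG T y z := by
  unfold NG
  exact Finset.sum_congr rfl fun a _ => NN_step' T y (z / a ^ 2) hy

theorem GM_dec (T : Finset ℕ) (y N : ℕ) (hy : y ≤ N) :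
    GM T N = NG T (y + 1) N + ∑ p ∈ PP N \ PP y, sg T p * NG T p (N / p) := by
  have key : ∀ y', y ≤ y' → NG T (y' + 1) N = NG T (y + 1) N + ∑ p ∈ PP y' \ PP y, sg T p * NG T p (N / p) := by
    intro y' hy'
    induction y', hy' using Nat.le_induction with
    | base => rw [Finset.sdiff_self, Finset.sum_empty, add_zero]
    | succ y' hy' ih =>
      by_cases hp : (y' + 1).Prime
      · have h1 : PP (y' + 1) \ PP y = insert (y' + 1) (PP y' \ PP y) := by
          ext q
          rw [Finset.mem_insert, Finset.mem_sdiff, Finset.mem_sdiff, mem_PP, mem_PP, mem_PP]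
          constructor
          · rintro ⟨⟨h1, h2⟩, h3⟩
            rcases Nat.lt_or_ge q (y' + 1) with h4 | h4
            · exact Or.inr ⟨⟨h1, by omega⟩, h3⟩
            · exact Or.inl (by omega)
          · rintro (rfl | ⟨⟨h1, h2⟩, h3⟩)
            · exact ⟨⟨hp, le_rfl⟩, fun h => by omega⟩
            · exact ⟨⟨h1, by omega⟩, h3⟩
        have h2 : (y' + 1) ∉ PP y' \ PP y := by
          rw [Finset.mem_sdiff, mem_PP]
          rintro ⟨⟨_, h⟩, _⟩
          omega
        rw [NG_step T (y' + 1) N hp, ih, h1, Finset.sum_insert h2]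
        ring
      · have h1 : PP (y' + 1) \ PP y = PP y' \ PP y := by
          ext q
          rw [Finset.mem_sdiff, Finset.mem_sdiff, mem_PP, mem_PP, mem_PP]
          constructor
          · rintro ⟨⟨h1, h2⟩, h3⟩
            refine ⟨⟨h1, ?_⟩, h3⟩
            rcases Nat.lt_or_ge q (y' + 1) with h4 | h4
            · omega
            · exact absurd ((show q = y' + 1 by omega) ▸ h1) hp
          · rintro ⟨⟨h1, h2⟩, h3⟩
            exact ⟨⟨h1, by omega⟩, h3⟩
        rw [NG_step' T (y' + 1) N hp, ih, h1]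
  rw [← NG_top T N]
  exact key N hy

theorem NG_dec (r y n : ℕ) (T : Finset ℕ) (hy : Y r < y) :
    NG T y n = ∑ b ∈ (SB r y n).filter Squarefree, rf T b * NG T (Y r + 1) (n / b) := by
  have h1 : ∀ b, NG T (Y r + 1) (n / b) = ∑ a ∈ Finset.Icc 1 (Nat.sqrt n), NN T (Y r + 1) (n / b / a ^ 2) :=
    fun b => NG_ext T _ _ _ (Nat.sqrt_le_sqrt (Nat.div_le_self n b))
  have h2 : ∀ a, NN T y (n / a ^ 2) = ∑ b ∈ (SB r y n).filter Squarefree, rf T b * NN T (Y r + 1) (n / b / a ^ 2) := by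
    intro a
    rw [NN_dec r y (n / a ^ 2) T hy]
    have h3 : (SB r y (n / a ^ 2)).filter Squarefree ⊆ (SB r y n).filter Squarefree := by
      intro b
      unfold SB
      rw [Finset.mem_filter, Finset.mem_filter, Finset.mem_filter, Finset.mem_filter, Finset.mem_Icc, Finset.mem_Icc]
      rintro ⟨⟨⟨h4, h5⟩, h6⟩, h7⟩
      exact ⟨⟨⟨h4, h5.trans (Nat.div_le_self _ _)⟩, h6⟩, h7⟩
    have h4 : ∀ b, n / b / a ^ 2 = n / a ^ 2 / b := by
      intro b
      rw [Nat.div_div_eq_div_mul, Nat.div_div_eq_div_mul, mul_comm]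
    rw [← Finset.sum_subset h3]
    · exact Finset.sum_congr rfl fun b _ => by rw [h4]
    · intro b hb hb'
      have h5 : n / a ^ 2 < b := by
        by_contra h6
        apply hb'
        unfold SB at hb ⊢
        rw [Finset.mem_filter, Finset.mem_filter, Finset.mem_Icc] at hb ⊢
        exact ⟨⟨⟨hb.1.1.1, by omega⟩, hb.1.2⟩, hb.2⟩
      rw [h4, Nat.div_eq_of_lt h5, NN_zero', mul_zero]
  have h3 : NG T y n = ∑ a ∈ Finset.Icc 1 (Nat.sqrt n),
      ∑ b ∈ (SB r y n).filter Squarefree, rf T b * NN T (Y r + 1) (n / b / a ^ 2) := by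
    unfold NG
    exact Finset.sum_congr rfl fun a _ => h2 a
  rw [h3, Finset.sum_comm]
  refine Finset.sum_congr rfl fun b _ => ?_
  rw [h1, Finset.mul_sum]

theorem NG_sum (T : Finset ℕ) (y z : ℕ) :
    NG T y z = ∑ b ∈ (SM y z).filter Squarefree, rf T b * (Nat.sqrt (z / b) : ℝ) := by
  classical
  have h1 : ∀ a, 1 ≤ a → NN T y (z / a ^ 2) = ∑ b ∈ (SM y z).filter Squarefree, if a ≤ Nat.sqrt (z / b) then rf T b else 0 := by
    intro a ha
    rw [← Finset.sum_filter]
    unfold NN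
    symm
    refine Finset.sum_subset ?_ ?_
    · intro b
      rw [Finset.mem_filter, Finset.mem_filter, mem_SM, mem_SM]
      rintro ⟨⟨⟨⟨h1, h2⟩, h3⟩, _⟩, h4⟩
      refine ⟨⟨h1, ?_⟩, h3⟩
      rw [Nat.le_sqrt', Nat.le_div_iff_mul_le (by omega)] at h4
      rw [Nat.le_div_iff_mul_le (by positivity), mul_comm]
      exact h4
    · intro b hb hb'
      apply rf_not
      intro hsq
      apply hb'
      rw [Finset.mem_filter, Finset.mem_filter, mem_SM]
      rw [mem_SM] at hb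
      obtain ⟨⟨h1, h2⟩, h3⟩ := hb
      refine ⟨⟨⟨⟨h1, h2.trans (Nat.div_le_self _ _)⟩, h3⟩, hsq⟩, ?_⟩
      rw [Nat.le_sqrt', Nat.le_div_iff_mul_le (by omega)]
      rw [Nat.le_div_iff_mul_le (by positivity)] at h2
      rwa [mul_comm]
  have h2 : NG T y z = ∑ a ∈ Finset.Icc 1 (Nat.sqrt z),
      ∑ b ∈ (SM y z).filter Squarefree, if a ≤ Nat.sqrt (z / b) then rf T b else 0 := by
    unfold NG
    refine Finset.sum_congr rfl fun a ha => ?_
    rw [Finset.mem_Icc] at ha
    exact h1 a ha.1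
  rw [h2, Finset.sum_comm]
  refine Finset.sum_congr rfl fun b _ => ?_
  rw [← Finset.sum_filter, Finset.sum_const, nsmul_eq_mul, mul_comm]
  congr 2
  have h3 : (Finset.Icc 1 (Nat.sqrt z)).filter (fun a => a ≤ Nat.sqrt (z / b)) = Finset.Icc 1 (Nat.sqrt (z / b)) := by
    ext a
    rw [Finset.mem_filter, Finset.mem_Icc, Finset.mem_Icc]
    have := Nat.sqrt_le_sqrt (Nat.div_le_self z b)
    omega
  rw [h3, Nat.card_Icc]
  omega

end Pool.Agent.Helper96.AG
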