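import Pool.Agent.Helper96.AG.Bas
import Pool.Agent.Helper96.AF.E1a
import Pool.Agent.Helper96.AF.E1c

/-!
# Project AG (MP_a499ba_nt, Q2), block E1b

Plancherel identity. PROOF: as AF/E1c (`int_dd`), with the additional factor `DA A t`: `DA A t * ∏ (1 + sg p^(-1/2-it)) = ∑_{a ≤ A} ∑_{U ⊆ S} wal T U (a^2 n_U)^(-1/2) (a^2 n_U)^(-it)`, `n_U = ∏_{p ∈ U} p`; the square of the norm, integrated
against `ww` (`cos_int`), gives `∑ wal wal / max (a^2 n_U, a'^2 n_V)`. (It is enough to prove the general identity: for finitely many real coefficients `c_i` and naturals `m_i ≥ 1`,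
`∫ ‖∑ c_i m_i^(-1/2-it)‖^2 ww t dt = ∑_{i,i'} c_i c_i'/max (m_i, m_i')` (`gen_int`), then specialise.)
-/

set_option autoImplicit false

namespace Pool.Agent.Helper96.AG

open Finset Pool.Agent.Helper5.RM Pool.Agent.Helper96.AF

private lemma E1b_cpow (m : ℕ) (hm : 1 ≤ m) (t : ℝ) : (m : ℂ) ^ (-(1 / 2 + (t : ℂ) * Complex.I)) = zz m t := by
  have hm0 : (m : ℂ) ≠ 0 := by exact_mod_cast (by omega : m ≠ 0)
  have hmr : (0 : ℝ) < m := by exact_mod_cast hm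
  unfold zz
  have h1 : (((Real.sqrt m)⁻¹ : ℝ) : ℂ) = Complex.exp (((-(Real.log m / 2) : ℝ) : ℂ)) := by
    rw [← Complex.ofReal_exp]
    congr 1
    rw [Real.sqrt_eq_rpow, Real.rpow_def_of_pos hmr, ← Real.exp_neg]
    congr 1
    ring
  rw [h1, ← Complex.exp_add, Complex.cpow_def_of_ne_zero hm0]
  congr 1
  have h2 : Complex.log (m : ℂ) = ((Real.log m : ℝ) : ℂ) := by
    rw [Complex.ofReal_log hmr.le, Complex.ofReal_natCast]
  rw [h2]
  push_cast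
  ring

theorem gen_int {ι : Type} (s : Finset ι) (c : ι → ℝ) (m : ι → ℕ) (hm : ∀ i ∈ s, 1 ≤ m i) :
    ∫ t : ℝ, ‖∑ i ∈ s, (c i : ℂ) * (m i : ℂ) ^ (-(1 / 2 + (t : ℂ) * Complex.I))‖ ^ 2 * ww t =
      ∑ i ∈ s, ∑ i' ∈ s, c i * c i' / ((max (m i) (m i') : ℕ) : ℝ) := by
  have hpt : ∀ t : ℝ, ‖∑ i ∈ s, (c i : ℂ) * (m i : ℂ) ^ (-(1 / 2 + (t : ℂ) * Complex.I))‖ ^ 2 * ww t =
      ∑ i ∈ s, ∑ j ∈ s,
        (c i * c j * ((Real.sqrt (m i))⁻¹ * (Real.sqrt (m j))⁻¹)) *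
          (Real.cos ((Real.log (m i) - Real.log (m j)) * t) * ww t) := by
    intro t
    have h1 : ∑ i ∈ s, (c i : ℂ) * (m i : ℂ) ^ (-(1 / 2 + (t : ℂ) * Complex.I)) =
        ∑ i ∈ s, (c i : ℂ) * zz (m i) t :=
      Finset.sum_congr rfl fun i hi => by rw [E1b_cpow (m i) (hm i hi) t]
    rw [h1, ← Complex.normSq_eq_norm_sq, normSq_sum, Finset.sum_mul]
    refine Finset.sum_congr rfl fun U _ => ?_
    rw [Finset.sum_mul]
    refine Finset.sum_congr rfl fun V _ => ?_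
    rw [zz_zz]
    ring
  simp only [hpt]
  rw [MeasureTheory.integral_finsetSum]
  · refine Finset.sum_congr rfl fun i hi => ?_
    rw [MeasureTheory.integral_finsetSum]
    · refine Finset.sum_congr rfl fun j hj => ?_
      rw [MeasureTheory.integral_const_mul, cos_int, mul_assoc, exp_max _ _ (hm i hi) (hm j hj), mul_one_div]
    · intro V _
      exact (integrable_cos_ww _).const_mul _
  · intro U _
    refine MeasureTheory.integrable_finsetSum _ fun V _ => ?_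
    exact (integrable_cos_ww _).const_mul _

theorem prod_DA (A : ℕ) (S T : Finset ℕ) (hS : ∀ p ∈ S, p.Prime) (t : ℝ) :
    (∏ p ∈ S, (1 + (1 : ℝ) / p)) * (‖DA A t‖ ^ 2 * dd S T t) =
      ‖∑ i ∈ (Finset.Icc 1 A) ×ˢ S.powerset,
        ((wal T i.2 : ℝ) : ℂ) * ((i.1 ^ 2 * ∏ p ∈ i.2, p : ℕ) : ℂ) ^ (-(1 / 2 + (t : ℂ) * Complex.I))‖ ^ 2 := by
  have h1 : (∏ p ∈ S, (1 + (1 : ℝ) / p)) * (‖DA A t‖ ^ 2 * dd S T t) =
      ‖DA A t‖ ^ 2 * ((∏ p ∈ S, (1 + (1 : ℝ) / p)) * dd S T t) := by ring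
  rw [h1, prod_dd S T hS t, Complex.normSq_eq_norm_sq, ← mul_pow, ← norm_mul]
  congr 2
  unfold DA
  rw [Finset.sum_mul_sum, ← Finset.sum_product']
  refine Finset.sum_congr rfl fun i hi => ?_
  obtain ⟨hi1, hi2⟩ := Finset.mem_product.1 hi
  have ha : 1 ≤ i.1 := (Finset.mem_Icc.1 hi1).1
  have ha0 : (i.1 : ℂ) ≠ 0 := by exact_mod_cast (by omega : i.1 ≠ 0)
  have hU : 1 ≤ ∏ p ∈ i.2, p :=
    Finset.prod_pos fun p hp => (hS p (Finset.mem_powerset.1 hi2 hp)).pos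
  rw [← E1b_cpow _ hU t]
  have h2 : (((i.1 ^ 2 * ∏ p ∈ i.2, p : ℕ)) : ℂ) ^ (-(1 / 2 + (t : ℂ) * Complex.I)) =
      (i.1 : ℂ) ^ (-(1 + 2 * (t : ℂ) * Complex.I)) * ((∏ p ∈ i.2, p : ℕ) : ℂ) ^ (-(1 / 2 + (t : ℂ) * Complex.I)) := by
    rw [Nat.cast_mul, Complex.natCast_mul_natCast_cpow, Nat.cast_pow]
    congr 1
    rw [← Complex.natCast_cpow_natCast_mul]
    congr 1
    push_cast
    ring
  rw [h2]
  ring

end Pool.Agent.Helper96.AG
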