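import Pool.Agent.Helper96.AG.Bas
import Pool.Agent.Helper96.AF.E2
import Pool.Agent.Helper96.AF.E7

/-!
# Project AG (MP_a499ba_nt, Q2), block E2

Weights and truncated masses. `WG_mono`: cases. `integrable_WG`: bounded near `0`, `|t|^(-3/2)` at infinity. `DG_mono`: from `WG_mono` and integrability of `dd * WG`.
-/

set_option autoImplicit false

namespace Pool.Agent.Helper96.AG

open Finset Pool.Agent.Helper5.RM Pool.Agent.Helper96.AF

theorem WG_mono {L L' : ℝ} (h1 : 1 ≤ L) (h : L ≤ L') (t : ℝ) : WG L t ≤ WG L' t := by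
  have hL : 0 < L := by linarith
  have hL' : 0 < L' := by linarith
  have h2 : 1 / L' ≤ 1 / L := one_div_le_one_div_of_le hL h
  have h3 : 1 / L ≤ 1 := by rw [div_le_one hL]; exact h1
  unfold WG
  by_cases ha : |t| ≤ 1 / L'
  · rw [if_pos ha, if_pos (ha.trans h2)]
    exact pow_le_pow_left₀ hL.le h 2
  · rw [if_neg ha]
    by_cases hb : |t| ≤ 1 / L
    · rw [if_pos hb, if_pos (hb.trans h3)]
      have ht : 0 < |t| := lt_trans (by positivity) (not_le.1 ha)
      rw [← sq_abs t, le_div_iff₀ (by positivity), ← mul_pow]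
      rw [le_div_iff₀ hL] at hb
      exact pow_le_one₀ (by positivity) (by linarith [mul_comm L |t|])
    · rw [if_neg hb]

private lemma meas_WG (L : ℝ) : Measurable (WG L) := by
  unfold WG
  refine Measurable.ite (measurableSet_le (by fun_prop) measurable_const) measurable_const ?_
  refine Measurable.ite (measurableSet_le (by fun_prop) measurable_const) (by fun_prop) ?_
  exact (measurable_id.abs).pow_const _

private lemma WG_bound {L : ℝ} (hL : 1 ≤ L) (t : ℝ) : WG L t ≤ L ^ 2 * ((1 + |t|) / 2) ^ (-(3 / 2) : ℝ) := by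
  have hL2 : 1 ≤ L ^ 2 := one_le_pow₀ hL
  have h0 : 0 < (1 + |t|) / 2 := by positivity
  by_cases ht : |t| ≤ 1
  · have h1 : 1 ≤ ((1 + |t|) / 2) ^ (-(3 / 2) : ℝ) :=
      Real.one_le_rpow_of_pos_of_le_one_of_nonpos h0 (by linarith) (by norm_num)
    have h2 := (WG_le hL ht).1
    have h3 : L ^ 2 * 1 ≤ L ^ 2 * ((1 + |t|) / 2) ^ (-(3 / 2) : ℝ) := mul_le_mul_of_nonneg_left h1 (by positivity)
    linarith
  · have hL0 : 0 < L := by linarith
    have h1 : ¬ |t| ≤ 1 / L := by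
      intro h
      apply ht
      refine h.trans ?_
      rw [div_le_one hL0]; exact hL
    unfold WG
    rw [if_neg h1, if_neg ht]
    have h2 : |t| ^ (-(3 / 2) : ℝ) ≤ ((1 + |t|) / 2) ^ (-(3 / 2) : ℝ) :=
      Real.rpow_le_rpow_of_nonpos h0 (by linarith [not_le.1 ht]) (by norm_num)
    have h3 : 0 ≤ ((1 + |t|) / 2) ^ (-(3 / 2) : ℝ) := by positivity
    nlinarith

theorem integrable_WG {L : ℝ} (hL : 1 ≤ L) : MeasureTheory.Integrable (WG L) := by
  have h1 : MeasureTheory.Integrable (fun t : ℝ => (1 + ‖t‖) ^ (-(3 / 2) : ℝ)) := by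
    apply integrable_one_add_norm
    simp
    norm_num
  have h2 : MeasureTheory.Integrable (fun t : ℝ => L ^ 2 * ((1 + |t|) / 2) ^ (-(3 / 2) : ℝ)) := by
    have h3 := (h1.mul_const (((2 : ℝ) ^ (-(3 / 2) : ℝ))⁻¹)).const_mul (L ^ 2)
    refine h3.congr (Filter.Eventually.of_forall fun t => ?_)
    show L ^ 2 * ((1 + ‖t‖) ^ (-(3 / 2) : ℝ) * ((2 : ℝ) ^ (-(3 / 2) : ℝ))⁻¹) = L ^ 2 * ((1 + |t|) / 2) ^ (-(3 / 2) : ℝ)
    rw [Real.div_rpow (by positivity) (by norm_num), Real.norm_eq_abs, div_eq_mul_inv ((1 + |t|) ^ _)]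
  refine h2.mono' (meas_WG L).aestronglyMeasurable (Filter.Eventually.of_forall fun t => ?_)
  rw [Real.norm_eq_abs, abs_of_nonneg (WG_nonneg L t)]
  exact WG_bound hL t

theorem integrable_dd_WG {L : ℝ} (hL : 1 ≤ L) (r : ℕ) (T : Finset ℕ) :
    MeasureTheory.Integrable (fun t => dd (PP (Y r)) T t * WG L t) := by
  have h0 := (integrable_WG hL).const_mul (2 ^ (PP (Y r)).card)
  refine h0.mono' ((continuous_dd _ T).aestronglyMeasurable.mul (meas_WG L).aestronglyMeasurable)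
    (Filter.Eventually.of_forall fun t => ?_)
  have hS : ∀ p ∈ PP (Y r), 2 ≤ p := fun p hp => two_le_of_mem_PP hp
  have h1 := dd_nonneg hS T t
  have h2 := WG_nonneg L t
  rw [Real.norm_eq_abs, abs_of_nonneg (mul_nonneg h1 h2)]
  exact mul_le_mul_of_nonneg_right (dd_le _ hS T t) h2

theorem DG_mono {L L' : ℝ} (h1 : 1 ≤ L) (h : L ≤ L') (r : ℕ) (T : Finset ℕ) : DG L r T ≤ DG L' r T := by
  unfold DG
  refine MeasureTheory.integral_mono (integrable_dd_WG h1 r T) (integrable_dd_WG (h1.trans h) r T) fun t => ?_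
  exact mul_le_mul_of_nonneg_left (WG_mono h1 h t) (dd_nonneg (fun p hp => two_le_of_mem_PP hp) T t)

end Pool.Agent.Helper96.AG
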