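import Pool.Agent.Helper96.AG.E1a
import Pool.Agent.Helper96.AG.E1b
import Pool.Agent.Helper96.AG.N2
import Pool.Agent.Helper96.AG.E2
import Pool.Agent.Helper96.AF.E1b
import Pool.Agent.Helper96.AF.ZI

/-!
# Project AG (MP_a499ba_nt, Q2), block E1c

PROOF of `plancherelG`: `double_max` (AF/E1b) with `s` = the image of `(Icc 1 (√Z)) ×ˢ (PP y).powerset` under `(a, U) ↦ a^2 ∏_{p ∈ U} p` (injective), `f (a^2 ∏ U) = wal T U`; for `n ≤ Z`, `∑_{m ∈ s, m ≤ n} f m = NG T (y+1) n`;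
then `gen_int`, `prod_DA`. `IG_le`: `y = Y r`, `mertens_prod`, `DA_WG` with `A = √Z` (`Z ≥ 1`; for `Z = 0` the left side is `0`), integrability of both sides (`dd` is bounded and continuous, `WG L` is bounded by `L^2 + 1` and integrable: use E2 or prove it).
-/

set_option autoImplicit false

namespace Pool.Agent.Helper96.AG

open Finset Pool.Agent.Helper5.RM Pool.Agent.Helper96.AF

private lemma e1c_sqf_prod (U : Finset ℕ) (hU : ∀ p ∈ U, p.Prime) : Squarefree (∏ p ∈ U, p) := by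
  induction U using Finset.induction_on with
  | empty => simp
  | insert q U hq ih =>
    rw [Finset.prod_insert hq]
    have hqp := hU q (Finset.mem_insert_self q U)
    have hU' : ∀ p ∈ U, p.Prime := fun p hp => hU p (Finset.mem_insert_of_mem hp)
    have hc : Nat.Coprime q (∏ p ∈ U, p) := by
      apply Nat.Coprime.prod_right
      intro p hp
      rw [Nat.coprime_primes hqp (hU' p hp)]
      rintro rfl
      exact hq hp
    rw [Nat.squarefree_mul hc]
    exact ⟨hqp.prime.squarefree, ih hU'⟩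

private lemma e1c_prime {y : ℕ} {U : Finset ℕ} (hU : U ∈ (PP y).powerset) : ∀ p ∈ U, p.Prime :=
  fun _ hp => (mem_PP.1 (Finset.mem_powerset.1 hU hp)).1

private lemma e1c_pos {y : ℕ} {U : Finset ℕ} (hU : U ∈ (PP y).powerset) : 0 < ∏ p ∈ U, p :=
  Finset.prod_pos fun p hp => (e1c_prime hU p hp).pos

/-- `NN` as a sum over sets of primes -/
private lemma e1c_NN (T : Finset ℕ) (y n : ℕ) :
    NN T (y + 1) n = ∑ U ∈ (PP y).powerset.filter (fun U => ∏ p ∈ U, p ≤ n), wal T U := by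
  classical
  set P := (PP y).powerset.filter (fun U => ∏ p ∈ U, p ≤ n) with hP
  have hinj : Set.InjOn (fun U : Finset ℕ => ∏ p ∈ U, p) (P : Set (Finset ℕ)) := by
    intro U hU V hV h
    have hU' := (Finset.mem_filter.1 (Finset.mem_coe.1 hU)).1
    have hV' := (Finset.mem_filter.1 (Finset.mem_coe.1 hV)).1
    have e1 := Nat.primeFactors_prod (e1c_prime hU')
    have e2 := Nat.primeFactors_prod (e1c_prime hV')
    simp only at h
    rw [← e1, ← e2, h]
  have h1 : ∑ U ∈ P, wal T U = ∑ m ∈ P.image (fun U => ∏ p ∈ U, p), rf T m := by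
    rw [Finset.sum_image hinj]
    refine Finset.sum_congr rfl fun U hU => ?_
    have hU' := (Finset.mem_filter.1 hU).1
    rw [rf_sqf (e1c_sqf_prod U (e1c_prime hU')), Nat.primeFactors_prod (e1c_prime hU')]
  rw [h1]
  unfold NN
  symm
  apply Finset.sum_subset
  · intro m hm
    obtain ⟨U, hU, rfl⟩ := Finset.mem_image.1 hm
    rw [hP, Finset.mem_filter] at hU
    rw [mem_SM]
    refine ⟨⟨e1c_pos hU.1, hU.2⟩, ?_⟩
    rw [Nat.primeFactors_prod (e1c_prime hU.1)]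
    intro p hp
    have := (mem_PP.1 (Finset.mem_powerset.1 hU.1 hp)).2
    omega
  · intro m hm hm'
    by_cases hsq : Squarefree m
    · exfalso
      apply hm'
      rw [mem_SM] at hm
      refine Finset.mem_image.2 ⟨m.primeFactors, ?_, Nat.prod_primeFactors_of_squarefree hsq⟩
      rw [hP, Finset.mem_filter, Finset.mem_powerset]
      refine ⟨?_, ?_⟩
      · intro p hp
        rw [mem_PP]
        have := hm.2 p hp
        exact ⟨Nat.prime_of_mem_primeFactors hp, by omega⟩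
      · rw [Nat.prod_primeFactors_of_squarefree hsq]
        exact hm.1.2
    · exact rf_not hsq

/-- `NG` as a sum over pairs -/
private lemma e1c_NG (T : Finset ℕ) (y n A : ℕ) (hA : Nat.sqrt n ≤ A) :
    NG T (y + 1) n = ∑ i ∈ ((Finset.Icc 1 A) ×ˢ (PP y).powerset).filter (fun i => i.1 ^ 2 * ∏ p ∈ i.2, p ≤ n), wal T i.2 := by
  classical
  rw [Finset.sum_filter, Finset.sum_product]
  unfold NG
  have h1 : ∀ a ∈ Finset.Icc 1 A, (∑ U ∈ (PP y).powerset, if a ^ 2 * ∏ p ∈ U, p ≤ n then wal T U else 0) =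
      if a ∈ Finset.Icc 1 (Nat.sqrt n) then NN T (y + 1) (n / a ^ 2) else 0 := by
    intro a ha
    rw [Finset.mem_Icc] at ha
    have ha2 : 0 < a ^ 2 := by have := ha.1; positivity
    split_ifs with h
    · rw [e1c_NN, Finset.sum_filter]
      refine Finset.sum_congr rfl fun U _ => ?_
      have e : (a ^ 2 * ∏ p ∈ U, p ≤ n) ↔ (∏ p ∈ U, p ≤ n / a ^ 2) := by
        rw [Nat.le_div_iff_mul_le ha2, mul_comm]
      simp only [e]
    · refine Finset.sum_eq_zero fun U hU => ?_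
      rw [if_neg]
      intro hc
      apply h
      rw [Finset.mem_Icc]
      refine ⟨ha.1, Nat.le_sqrt'.2 ?_⟩
      exact le_trans (Nat.le_mul_of_pos_right _ (e1c_pos hU)) hc
  dsimp only
  rw [Finset.sum_congr rfl h1, ← Finset.sum_filter]
  refine Finset.sum_congr ?_ fun _ _ => rfl
  ext a
  simp only [Finset.mem_filter, Finset.mem_Icc]
  omega

theorem plancherelG (y Z : ℕ) (T : Finset ℕ) :
    ∑ n ∈ Finset.Icc 1 Z, NG T (y + 1) n ^ 2 / ((n : ℝ) * (n + 1)) ≤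
      (∏ p ∈ PP y, (1 + (1 : ℝ) / p)) * ∫ t, ‖DA (Nat.sqrt Z) t‖ ^ 2 * dd (PP y) T t * ww t := by
  classical
  set I : Finset (ℕ × Finset ℕ) := (Finset.Icc 1 (Nat.sqrt Z)) ×ˢ (PP y).powerset with hI
  set mm : ℕ × Finset ℕ → ℕ := fun i => i.1 ^ 2 * ∏ p ∈ i.2, p with hmm
  set c : ℕ × Finset ℕ → ℝ := fun i => wal T i.2 with hc
  have hm1 : ∀ i ∈ I, 1 ≤ mm i := by
    intro i hi
    rw [hI, Finset.mem_product, Finset.mem_Icc] at hi
    have h1 := hi.1.1
    have h2 := e1c_pos hi.2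
    have h3 : 0 < i.1 ^ 2 := by positivity
    exact Nat.mul_pos h3 h2
  set s : Finset ℕ := I.image mm with hs
  set f : ℕ → ℝ := fun m => ∑ i ∈ I.filter (fun i => mm i = m), c i with hf
  have hs1 : ∀ m ∈ s, 1 ≤ m := by
    intro m hm
    obtain ⟨i, hi, rfl⟩ := Finset.mem_image.1 hm
    exact hm1 i hi
  have h1 := double_max s hs1 f Z
  have h2 : ∀ g : ℕ → ℝ, ∑ m ∈ s, f m * g m = ∑ i ∈ I, c i * g (mm i) := by
    intro g
    rw [← Finset.sum_fiberwise_of_maps_to (s := I) (t := s) (g := mm) (fun i hi => Finset.mem_image_of_mem mm hi)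
      (fun i => c i * g (mm i))]
    refine Finset.sum_congr rfl fun m _ => ?_
    rw [hf]
    dsimp only
    rw [Finset.sum_mul]
    refine Finset.sum_congr rfl fun i hi => ?_
    rw [(Finset.mem_filter.1 hi).2]
  have h3 : ∑ m ∈ s, ∑ m' ∈ s, f m * f m' / ((max m m' : ℕ) : ℝ) =
      ∑ i ∈ I, ∑ i' ∈ I, c i * c i' / ((max (mm i) (mm i') : ℕ) : ℝ) := by
    have e1 : ∀ m, ∑ m' ∈ s, f m * f m' / ((max m m' : ℕ) : ℝ) =
        f m * ∑ i' ∈ I, c i' * (((max m (mm i') : ℕ) : ℝ))⁻¹ := by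
      intro m
      rw [← h2 (fun m' => (((max m m' : ℕ) : ℝ))⁻¹), Finset.mul_sum]
      refine Finset.sum_congr rfl fun m' _ => ?_
      rw [div_eq_mul_inv]
      ring
    rw [Finset.sum_congr rfl fun m _ => e1 m, h2 (fun m => ∑ i' ∈ I, c i' * (((max m (mm i') : ℕ) : ℝ))⁻¹)]
    refine Finset.sum_congr rfl fun i _ => ?_
    rw [Finset.mul_sum]
    refine Finset.sum_congr rfl fun i' _ => ?_
    rw [div_eq_mul_inv]
    ring
  have h4 : ∀ n ∈ Finset.Icc 1 Z, NG T (y + 1) n = ∑ m ∈ s.filter (· ≤ n), f m := by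
    intro n hn
    rw [Finset.mem_Icc] at hn
    rw [e1c_NG T y n (Nat.sqrt Z) (Nat.sqrt_le_sqrt hn.2), Finset.sum_filter, Finset.sum_filter]
    have e1 := h2 (fun m => if m ≤ n then 1 else 0)
    simp only [mul_ite, mul_one, mul_zero] at e1
    rw [e1]
  have h5 : (∏ p ∈ PP y, (1 + (1 : ℝ) / p)) * ∫ t, ‖DA (Nat.sqrt Z) t‖ ^ 2 * dd (PP y) T t * ww t =
      ∑ i ∈ I, ∑ i' ∈ I, c i * c i' / ((max (mm i) (mm i') : ℕ) : ℝ) := by
    rw [← gen_int I c mm hm1, ← MeasureTheory.integral_const_mul]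
    congr 1
    funext t
    rw [← mul_assoc, prod_DA (Nat.sqrt Z) (PP y) T (fun p hp => (mem_PP.1 hp).1) t]
  rw [h5, ← h3]
  refine le_trans (le_of_eq ?_) h1
  refine Finset.sum_congr rfl fun n hn => ?_
  rw [h4 n hn]

theorem IG_le : ∃ C : ℝ, 0 < C ∧ ∀ (r Z : ℕ) (T : Finset ℕ), 1 ≤ Z → IG r Z T ≤ C * DG (1 + Real.log Z) r T := by
  obtain ⟨C1, hC1, h1⟩ := mertens_prod
  obtain ⟨C2, hC2, h2⟩ := DA_WG
  refine ⟨C1 * C2, mul_pos hC1 hC2, fun r Z T hZ => ?_⟩
  have hL : 1 ≤ 1 + Real.log Z := by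
    have := Real.log_nonneg (show (1 : ℝ) ≤ Z by exact_mod_cast hZ)
    linarith
  have hA1 : 1 ≤ Nat.sqrt Z := Nat.sqrt_pos.2 hZ
  have hA2 : Nat.sqrt Z ≤ Z := Nat.sqrt_le_self Z
  have hd : ∀ t, 0 ≤ dd (PP (Y r)) T t := fun t => dd_nonneg (fun p hp => two_le_of_mem_PP hp) T t
  have h3 : ∫ t, ‖DA (Nat.sqrt Z) t‖ ^ 2 * dd (PP (Y r)) T t * ww t ≤ C2 * DG (1 + Real.log Z) r T := by
    unfold DG
    rw [← MeasureTheory.integral_const_mul]
    refine MeasureTheory.integral_mono_of_nonneg ?_ ((integrable_dd_WG hL r T).const_mul C2) ?_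
    · exact Filter.Eventually.of_forall fun t =>
        mul_nonneg (mul_nonneg (sq_nonneg _) (hd t)) (ww_pos t).le
    · refine Filter.Eventually.of_forall fun t => ?_
      have h4 := mul_le_mul_of_nonneg_left (h2 (Nat.sqrt Z) Z t hA1 hA2) (hd t)
      dsimp only
      linarith
  have h0 : 0 ≤ ∫ t, ‖DA (Nat.sqrt Z) t‖ ^ 2 * dd (PP (Y r)) T t * ww t :=
    MeasureTheory.integral_nonneg fun t => mul_nonneg (mul_nonneg (sq_nonneg _) (hd t)) (ww_pos t).le
  unfold IG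
  rw [div_le_iff₀ (by positivity)]
  refine (plancherelG (Y r) Z T).trans ?_
  calc (∏ p ∈ PP (Y r), (1 + (1 : ℝ) / p)) * ∫ t, ‖DA (Nat.sqrt Z) t‖ ^ 2 * dd (PP (Y r)) T t * ww t
      ≤ (C1 * 2 ^ r) * ∫ t, ‖DA (Nat.sqrt Z) t‖ ^ 2 * dd (PP (Y r)) T t * ww t := mul_le_mul_of_nonneg_right (h1 r) h0
    _ ≤ (C1 * 2 ^ r) * (C2 * DG (1 + Real.log Z) r T) := mul_le_mul_of_nonneg_left h3 (by positivity)
    _ = _ := by ring

end Pool.Agent.Helper96.AG
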