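import Pool.Agent.Helper96.AG.D3
import Pool.Agent.Helper96.AF.D4
import Pool.Agent.Helper96.AF.D5
import Pool.Agent.Helper96.AF.ZI

/-!
# Project AG (MP_a499ba_nt, Q2), block D7

PROOF: as AF/D6 (`JJ_mom`) and AF/D7 (`JJ_tail`) with `NG`, `HG`, `JG`, `IG`, `av_HG`.
-/

set_option autoImplicit false

namespace Pool.Agent.Helper96.AG

open Finset Pool.Agent.Helper5.RM Pool.Agent.Helper96.AF

theorem JG_mom : ∃ c0 : ℝ, 0 ≤ c0 ∧ ∀ (q r Z : ℕ) (T0 : Finset ℕ), 1 ≤ q → T0 ⊆ PP (Y r) →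
    av (BL r) (fun T => JG r Z (T0 ∪ T) ^ q) ≤ (4 * Real.exp (c0 * (2 * q - 1)) * IG r Z T0) ^ q := by
  obtain ⟨c0, hc0, hc⟩ := block_sum
  refine ⟨c0, hc0, fun q r Z T0 hq h0 => ?_⟩
  have hqR : (1 : ℝ) ≤ q := by exact_mod_cast hq
  have hw0 : (0 : ℝ) ≤ 2 * (q : ℝ) - 1 := by linarith
  have hcast : ((2 * q - 1 : ℕ) : ℝ) = 2 * (q : ℝ) - 1 := by
    rw [Nat.cast_sub (by omega)]
    push_cast
    ring
  set g : ℕ → ℝ := fun m => NG T0 (Y r + 1) m ^ 2 with hg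
  set cc : ℕ → ℝ := fun n => ∑ b ∈ (SB r (Y (r + 1) + 1) n).filter Squarefree,
        (2 * (q : ℝ) - 1) ^ om b * NG T0 (Y r + 1) (n / b) ^ 2 with hcc
  have hcc0 : ∀ n, 0 ≤ cc n := fun n =>
    Finset.sum_nonneg fun b _ => mul_nonneg (pow_nonneg hw0 _) (sq_nonneg _)
  have hJ : ∀ T, JG r Z T = ∑ n ∈ Finset.Icc 1 Z, (1 / ((n : ℝ) * (n + 1) * 2 ^ r)) * HG r T n := by
    intro T
    unfold JG
    rw [Finset.sum_div]
    refine Finset.sum_congr rfl fun n _ => ?_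
    rw [div_div, one_div, div_eq_inv_mul]
  have h1 : av (BL r) (fun T => JG r Z (T0 ∪ T) ^ q) ≤
      (∑ n ∈ Finset.Icc 1 Z, (1 / ((n : ℝ) * (n + 1) * 2 ^ r)) * (4 * cc n)) ^ q := by
    have h2 := minkowski (ι := ℕ) (BL r) (Finset.Icc 1 Z) q hq (fun n => 1 / ((n : ℝ) * (n + 1) * 2 ^ r))
      (fun n => 4 * cc n) (fun n T => HG r (T0 ∪ T) n) (fun n _ => by positivity)
      (fun n _ => mul_nonneg (by norm_num) (hcc0 n)) (fun n _ T => HG_nonneg r _ n) (fun n _ => ?_)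
    · refine le_of_eq_of_le ?_ h2
      congr 1
      funext T
      rw [hJ]
    · refine (av_HG q hq r n T0 h0).trans ?_
      rw [mul_pow]
      refine mul_le_mul_of_nonneg_right ?_ (pow_nonneg (hcc0 n) q)
      calc (4 : ℝ) = 4 ^ 1 := (pow_one 4).symm
        _ ≤ 4 ^ q := pow_le_pow_right₀ (by norm_num) hq
  refine h1.trans (pow_le_pow_left₀ ?_ ?_ q)
  · exact Finset.sum_nonneg fun n _ => mul_nonneg (by positivity) (mul_nonneg (by norm_num) (hcc0 n))
  · have h3 := log_conv r Z (2 * q - 1) g (fun n => sq_nonneg _)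
    rw [hcast] at h3
    have h4 : ∏ p ∈ BL r, (1 + (2 * (q : ℝ) - 1) / p) ≤ Real.exp (c0 * (2 * q - 1)) := by
      calc ∏ p ∈ BL r, (1 + (2 * (q : ℝ) - 1) / p) ≤ ∏ p ∈ BL r, Real.exp ((2 * (q : ℝ) - 1) / p) := by
            refine Finset.prod_le_prod (fun p _ => ?_) (fun p _ => ?_)
            · have : 0 ≤ (2 * (q : ℝ) - 1) / p := div_nonneg hw0 (Nat.cast_nonneg p)
              linarith
            · rw [add_comm]
              exact Real.add_one_le_exp _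
        _ = Real.exp ((2 * (q : ℝ) - 1) * ∑ p ∈ BL r, (1 : ℝ) / p) := by
            rw [← Real.exp_sum, Finset.mul_sum]
            congr 1
            refine Finset.sum_congr rfl fun p _ => ?_
            rw [mul_one_div]
        _ ≤ Real.exp (c0 * (2 * q - 1)) := by
            rw [mul_comm c0]
            exact Real.exp_le_exp.2 (mul_le_mul_of_nonneg_left (hc r) hw0)
    have h5 : ∑ n ∈ Finset.Icc 1 Z, (1 / ((n : ℝ) * (n + 1) * 2 ^ r)) * (4 * cc n) =
        4 / 2 ^ r * ∑ n ∈ Finset.Icc 1 Z, cc n / ((n : ℝ) * (n + 1)) := by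
      rw [Finset.mul_sum]
      refine Finset.sum_congr rfl fun n _ => ?_
      rw [one_div, mul_inv, div_eq_mul_inv, div_eq_mul_inv]
      ring
    have h6 : 0 ≤ ∑ m ∈ Finset.Icc 1 Z, g m / ((m : ℝ) * (m + 1)) :=
      Finset.sum_nonneg fun m _ => div_nonneg (sq_nonneg _) (by positivity)
    rw [h5]
    calc 4 / 2 ^ r * ∑ n ∈ Finset.Icc 1 Z, cc n / ((n : ℝ) * (n + 1))
        ≤ 4 / 2 ^ r * (Real.exp (c0 * (2 * q - 1)) * ∑ m ∈ Finset.Icc 1 Z, g m / ((m : ℝ) * (m + 1))) := by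
          refine mul_le_mul_of_nonneg_left ?_ (by positivity)
          exact h3.trans (mul_le_mul_of_nonneg_right h4 h6)
      _ = 4 * Real.exp (c0 * (2 * q - 1)) * IG r Z T0 := by
          unfold IG
          ring

private lemma d7_av_zero {S : Finset ℕ} {F : Finset ℕ → ℝ} (hF : ∀ T, 0 ≤ F T) (h : av S F ≤ 0) :
    ∀ T ⊆ S, F T = 0 := by
  unfold av at h
  have h2 : (0 : ℝ) < 2 ^ S.card := by positivity
  have h3 : ∑ T ∈ S.powerset, F T ≤ 0 := by
    rw [div_le_iff₀ h2, zero_mul] at h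
    exact h
  have h4 : ∑ T ∈ S.powerset, F T = 0 := le_antisymm h3 (Finset.sum_nonneg fun T _ => hF T)
  intro T hT
  exact (Finset.sum_eq_zero_iff_of_nonneg fun T _ => hF T).1 h4 T (Finset.mem_powerset.2 hT)

theorem JG_tail (δ : ℝ) (hδ : 0 < δ) : ∃ C : ℝ, 0 < C ∧ ∀ r Z : ℕ, 1 ≤ r →
    pr (PP (Y (r + 1))) (fun T => (r : ℝ) ^ δ * IG r Z T < JG r Z T) ≤ C / (r : ℝ) ^ 2 := by
  obtain ⟨c0, hc0, hmom⟩ := JG_mom
  set q : ℕ := ⌈2 / δ⌉₊ with hqdef
  have hq : 1 ≤ q := Nat.one_le_iff_ne_zero.2 (Nat.ceil_pos.2 (by positivity)).ne'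
  have hδq : 2 ≤ δ * q := by
    have h1 : 2 / δ ≤ q := Nat.le_ceil _
    rw [div_le_iff₀ hδ] at h1
    linarith
  refine ⟨(4 * Real.exp (c0 * (2 * q - 1))) ^ q, by positivity, fun r Z hr => ?_⟩
  set C : ℝ := (4 * Real.exp (c0 * (2 * q - 1))) ^ q with hC
  have hCpos : 0 < C := by positivity
  have hr1 : (1 : ℝ) ≤ r := by exact_mod_cast hr
  have hr0 : (0 : ℝ) < r := by linarith
  have hfib : ∀ T0 ⊆ PP (Y r), pr (BL r) (fun T => (r : ℝ) ^ δ * IG r Z (T0 ∪ T) < JG r Z (T0 ∪ T)) ≤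
      C / (r : ℝ) ^ 2 := by
    intro T0 h0
    have hII : ∀ T ⊆ BL r, IG r Z (T0 ∪ T) = IG r Z T0 := by
      intro T hT
      refine IG_congr fun p _ hp => ?_
      have h7 : p ∉ T := fun h => by
        have h8 := (mem_BL.1 (hT h)).2.1
        omega
      simp [h7]
    have hm := hmom q r Z T0 hq h0
    rcases (IG_nonneg r Z T0).eq_or_lt with h1 | h1
    · rw [← h1, mul_zero, zero_pow (by omega)] at hm
      have h2 := d7_av_zero (F := fun T => JG r Z (T0 ∪ T) ^ q)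
        (fun T => pow_nonneg (JG_nonneg r Z _) q) hm
      have h3 : pr (BL r) (fun T => (r : ℝ) ^ δ * IG r Z (T0 ∪ T) < JG r Z (T0 ∪ T)) ≤
          pr (BL r) (fun _ => False) := by
        refine pr_mono fun T hT hlt => ?_
        rw [hII T hT, ← h1, mul_zero] at hlt
        have h4 : JG r Z (T0 ∪ T) = 0 := pow_eq_zero_iff (by omega) |>.1 (h2 T hT)
        rw [h4] at hlt
        exact lt_irrefl _ hlt
      refine h3.trans ?_
      have h5 : pr (BL r) (fun _ => False) = 0 := by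
        unfold pr av
        simp
      rw [h5]
      positivity
    · have hcpos : 0 < (r : ℝ) ^ δ * IG r Z T0 := mul_pos (Real.rpow_pos_of_pos hr0 δ) h1
      have hmk := markov_pow (S := BL r) (F := fun T => JG r Z (T0 ∪ T)) q
        (fun T _ => JG_nonneg r Z _) hcpos hm
      refine (pr_mono fun T hT hlt => ?_).trans (hmk.trans ?_)
      · rw [hII T hT] at hlt
        exact hlt.le
      · rw [mul_pow _ (IG r Z T0) q, mul_pow _ (IG r Z T0) q, ← hC]
        have hI : IG r Z T0 ^ q ≠ 0 := (pow_pos h1 q).ne'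
        rw [mul_div_mul_right _ _ hI]
        refine div_le_div_of_nonneg_left hCpos.le (by positivity) ?_
        rw [← Real.rpow_natCast ((r : ℝ) ^ δ) q, ← Real.rpow_mul hr0.le, ← Real.rpow_two]
        exact Real.rpow_le_rpow_of_exponent_le hr1 hδq
  rw [PP_Y_succ]
  unfold pr
  rw [av_union (BL_disj r)]
  calc _ ≤ av (PP (Y r)) (fun _ => C / (r : ℝ) ^ 2) := av_mono fun T0 h0 => hfib T0 h0
    _ = C / (r : ℝ) ^ 2 := by
      unfold av
      rw [Finset.sum_const, Finset.card_powerset, nsmul_eq_mul]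
      push_cast
      field_simp

end Pool.Agent.Helper96.AG
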