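import Pool.Agent.Helper96.AG.E10
import Pool.Agent.Helper96.AG.D7
import Pool.Agent.Helper96.AG.E1c
import Pool.Agent.Helper96.AF.F1

/-!
# Project AG (MP_a499ba_nt, Q2), block F1

PROOF: as AF/F1 (`chaos_as`, `JJ_as`), with `g j = (2^j)^(-δ/32)`. In `JG_as`: `Z = Y (R+1)`, `1 + log Z ≤ 2^(R+2) ≤ 2^r r 2^(c+3)` for `R - (log2 R + c) ≤ r`, `R` large (`2^(log2 R) ≤ R ≤ 2 r`), so `IG_le`, `DG_mono` with `B = 2^(c+3)` and `chaosG_as`.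
-/

set_option autoImplicit false

namespace Pool.Agent.Helper96.AG

open Finset Pool.Agent.Helper5.RM Pool.Agent.Helper96.AF

open MeasureTheory ProbabilityTheory

theorem chaosG_as (δ : ℝ) (hδ : 0 < δ) (hδ2 : δ ≤ 1 / 2) (B : ℕ) (hB : 1 ≤ B) {Ω : Type*} [MeasurableSpace Ω] (μ : Measure Ω)
    (ε : ℕ → Ω → ℝ) (hM : Unif μ ε) :
    ∀ᵐ ω ∂μ, ∃ R0 : ℕ, ∀ r, R0 ≤ r → DG (2 ^ r * r * B) r (TT ε ω (Y r)) ≤ 2 * (r : ℝ) ^ (-(1 / 2) + δ) := by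
  obtain ⟨K1, hK1⟩ := chaosG δ hδ hδ2 B hB
  have hg : Summable (fun j : ℕ => (((2 ^ j : ℕ) : ℝ)) ^ (-(δ / 32))) := by
    have h0 : (fun j : ℕ => (((2 ^ j : ℕ) : ℝ)) ^ (-(δ / 32))) = fun j : ℕ => ((2 : ℝ) ^ (-(δ / 32))) ^ j := by
      funext j
      push_cast
      rw [← Real.rpow_natCast, ← Real.rpow_mul (by norm_num), ← Real.rpow_natCast, ← Real.rpow_mul (by norm_num), mul_comm]
    rw [h0]
    exact summable_geometric_of_lt_one (by positivity) (Real.rpow_lt_one_of_one_lt_of_neg (by norm_num) (by linarith))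
  have key := bcU μ ε hM (fun j => Y (2 * 2 ^ j))
    (fun j T => ∃ r ∈ Finset.Icc (2 ^ j : ℕ) (2 * 2 ^ j : ℕ),
      (((2 ^ j : ℕ) : ℝ)) ^ (-(1 / 2) + δ) < DG ((2 : ℝ) ^ r * (r : ℝ) * (B : ℝ)) r T) _ hg K1
    (fun j hj => hK1 (2 ^ j) (hj.trans (Nat.lt_two_pow_self).le))
  filter_upwards [key] with ω hω
  obtain ⟨i1, hi1⟩ := hω
  refine ⟨2 ^ i1, fun r hr => ?_⟩
  have hr0 : r ≠ 0 := by
    have : 0 < 2 ^ i1 := by positivity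
    omega
  have hj1 : 2 ^ Nat.log 2 r ≤ r := Nat.pow_log_le_self 2 hr0
  have hj2 : r < 2 ^ (Nat.log 2 r + 1) := Nat.lt_pow_succ_log_self (by norm_num) r
  have hj3 : i1 ≤ Nat.log 2 r := by
    have := Nat.log_mono_right (b := 2) hr
    rwa [Nat.log_pow (by norm_num)] at this
  set j := Nat.log 2 r with hj
  have hno := hi1 j hj3
  have hr2 : r ≤ 2 * 2 ^ j := by
    rw [pow_succ] at hj2
    omega
  have hle : DG (2 ^ r * r * B) r (TT ε ω (Y (2 * 2 ^ j))) ≤ (((2 ^ j : ℕ) : ℝ)) ^ (-(1 / 2) + δ) := by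
    by_contra hc
    exact hno ⟨r, Finset.mem_Icc.2 ⟨hj1, hr2⟩, not_le.1 hc⟩
  have hD : DG (2 ^ r * r * B) r (TT ε ω (Y r)) = DG (2 ^ r * r * B) r (TT ε ω (Y (2 * 2 ^ j))) :=
    DG_congr fun p hp h => F1_TT_iff ε ω hp h (h.trans (Y_mono hr2))
  rw [hD]
  refine hle.trans ?_
  have hrr : (0 : ℝ) < r := by
    have : 0 < r := Nat.pos_of_ne_zero hr0
    exact_mod_cast this
  have := F1_half (x := ((2 ^ j : ℕ) : ℝ)) (y := r) (s := 1 / 2 - δ) hrr (by exact_mod_cast hr2) (by linarith) (by linarith)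
  rw [show -(1 / 2) + δ = -(1 / 2 - δ) by ring]
  exact this

/-- the union bound in `JG_as` -/
lemma F1G_union (δ C : ℝ) (hC : 0 < C) (c : ℕ)
    (hJ : ∀ r Z : ℕ, 1 ≤ r → pr (PP (Y (r + 1))) (fun T => (r : ℝ) ^ δ * IG r Z T < JG r Z T) ≤ C / (r : ℝ) ^ 2)
    (R : ℕ) (hR1 : 2 ≤ R) (hR : 2 * (Nat.log 2 R + c) ≤ R) :
    pr (PP (Y (R + 1))) (fun T => ∃ r ∈ Finset.Icc (R - (Nat.log 2 R + c)) R,
      (r : ℝ) ^ δ * IG r (Y (R + 1)) T < JG r (Y (R + 1)) T) ≤ (4 * C * (c + 4)) * (R : ℝ) ^ (-(3 / 2) : ℝ) := by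
  have hRr : (2 : ℝ) ≤ R := by exact_mod_cast hR1
  refine (pr_exists _ _ _).trans ?_
  have h1 : ∀ r ∈ Finset.Icc (R - (Nat.log 2 R + c)) R,
      pr (PP (Y (R + 1))) (fun T => (r : ℝ) ^ δ * IG r (Y (R + 1)) T < JG r (Y (R + 1)) T) ≤ 4 * C / (R : ℝ) ^ 2 := by
    intro r hr
    rw [Finset.mem_Icc] at hr
    have hr2 : R ≤ 2 * r := by omega
    have hr1 : 1 ≤ r := by omega
    have e1 : pr (PP (Y (R + 1))) (fun T => (r : ℝ) ^ δ * IG r (Y (R + 1)) T < JG r (Y (R + 1)) T) =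
        pr (PP (Y (r + 1))) (fun T => (r : ℝ) ^ δ * IG r (Y (R + 1)) T < JG r (Y (R + 1)) T) := by
      unfold pr
      refine av_restrict (PP_Y_mono (by omega)) _ fun T => ?_
      have e2 : IG r (Y (R + 1)) T = IG r (Y (R + 1)) (T ∩ PP (Y (r + 1))) := by
        refine IG_congr fun p hp h => ?_
        rw [Finset.mem_inter, mem_PP]
        exact ⟨fun hT => ⟨hT, hp, h.trans (Y_mono (by omega))⟩, fun hT => hT.1⟩
      have e3 : JG r (Y (R + 1)) T = JG r (Y (R + 1)) (T ∩ PP (Y (r + 1))) := by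
        refine JG_congr fun p hp h _ => ?_
        rw [Finset.mem_inter, mem_PP]
        exact ⟨fun hT => ⟨hT, hp, h⟩, fun hT => hT.1⟩
      beta_reduce
      rw [← e2, ← e3]
    rw [e1]
    refine (hJ r _ hr1).trans ?_
    have hrr : (0 : ℝ) < r := by exact_mod_cast hr1
    have hr3 : (R : ℝ) ≤ 2 * r := by exact_mod_cast hr2
    rw [div_le_div_iff₀ (by positivity) (by positivity)]
    have : (R : ℝ) ^ 2 ≤ 4 * (r : ℝ) ^ 2 := by nlinarith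
    nlinarith
  refine (Finset.sum_le_card_nsmul _ _ _ h1).trans ?_
  rw [nsmul_eq_mul, Nat.card_Icc]
  have h2 : ((R + 1 - (R - (Nat.log 2 R + c)) : ℕ) : ℝ) ≤ (c + 4) * (R : ℝ) ^ ((1 : ℝ) / 2) := by
    have h3 : R + 1 - (R - (Nat.log 2 R + c)) = Nat.log 2 R + c + 1 := by omega
    rw [h3]
    push_cast
    have h4 := F1_log (R := R) (by omega)
    have h5 : 1 ≤ (R : ℝ) ^ ((1 : ℝ) / 2) := Real.one_le_rpow (by linarith) (by norm_num)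
    have h6 : (0 : ℝ) ≤ c := Nat.cast_nonneg c
    nlinarith
  have h7 : (R : ℝ) ^ (-(3 / 2) : ℝ) * (R : ℝ) ^ 2 = (R : ℝ) ^ ((1 : ℝ) / 2) := by
    rw [← Real.rpow_natCast, ← Real.rpow_add (by linarith)]
    norm_num
  have h8 : (R : ℝ) ^ ((1 : ℝ) / 2) * (4 * C / (R : ℝ) ^ 2) = 4 * C * (R : ℝ) ^ (-(3 / 2) : ℝ) := by
    rw [← h7]
    have : (R : ℝ) ^ 2 ≠ 0 := by positivity
    field_simp
  calc ((R + 1 - (R - (Nat.log 2 R + c)) : ℕ) : ℝ) * (4 * C / (R : ℝ) ^ 2)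
      ≤ ((c + 4) * (R : ℝ) ^ ((1 : ℝ) / 2)) * (4 * C / (R : ℝ) ^ 2) := mul_le_mul_of_nonneg_right h2 (by positivity)
    _ = (c + 4) * ((R : ℝ) ^ ((1 : ℝ) / 2) * (4 * C / (R : ℝ) ^ 2)) := by ring
    _ = _ := by rw [h8]; ring

/-- the logarithm of `Y (R + 1)` compared with `2 ^ r * r` -/
lemma F1G_log {R r c : ℕ} (hR0 : R ≠ 0) (h1 : R - (Nat.log 2 R + c) ≤ r) (h2 : R ≤ 2 * r) :
    1 + Real.log (Y (R + 1)) ≤ 2 ^ r * r * ((2 ^ (c + 3) : ℕ) : ℝ) := by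
  rw [log_Y]
  have h3 : Real.log 2 ≤ 1 := by have := Real.log_two_lt_d9; linarith
  have h4 : (1 : ℝ) ≤ 2 ^ (R + 1) := one_le_pow₀ (by norm_num)
  have h5 : (1 : ℝ) + 2 ^ (R + 1) * Real.log 2 ≤ 2 ^ (R + 2) := by
    rw [pow_succ 2 (R + 1)]
    nlinarith
  have h6 : 2 ^ (R + 2) ≤ 2 ^ r * r * 2 ^ (c + 3) := by
    have a1 : R + 2 ≤ r + Nat.log 2 R + c + 2 := by omega
    have a2 : 2 ^ Nat.log 2 R ≤ 2 * r := (Nat.pow_log_le_self 2 hR0).trans h2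
    calc 2 ^ (R + 2) ≤ 2 ^ (r + Nat.log 2 R + c + 2) := Nat.pow_le_pow_right (by norm_num) a1
      _ = 2 ^ r * 2 ^ Nat.log 2 R * 2 ^ (c + 2) := by rw [← pow_add, ← pow_add]; congr 1
      _ ≤ 2 ^ r * (2 * r) * 2 ^ (c + 2) := by gcongr
      _ = 2 ^ r * r * 2 ^ (c + 3) := by ring
  refine h5.trans ?_
  exact_mod_cast h6

theorem JG_as (δ : ℝ) (hδ : 0 < δ) (hδ2 : δ ≤ 1 / 8) (c : ℕ) {Ω : Type*} [MeasurableSpace Ω] (μ : Measure Ω)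
    (ε : ℕ → Ω → ℝ) (hM : Unif μ ε) :
    ∀ᵐ ω ∂μ, ∃ R0 : ℕ, ∀ R, R0 ≤ R → ∀ N ≤ Y (R + 1),
      ∑ r ∈ Finset.Icc (R - (Nat.log 2 R + c)) R, JG r N (TT ε ω N) ≤ (R : ℝ) ^ (-(1 / 2) + 3 * δ) := by
  obtain ⟨C, hC, hJ⟩ := JG_tail δ hδ
  obtain ⟨C2, hC2, hII⟩ := IG_le
  have ev1 : ∀ᶠ R : ℕ in Filter.atTop, 2 ≤ R ∧ 2 * (Nat.log 2 R + c) ≤ R := by
    have := F1_ev 2 1 one_pos c
    filter_upwards [this, Filter.eventually_ge_atTop 2] with R hR hR2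
    refine ⟨hR2, ?_⟩
    rw [Real.rpow_one] at hR
    have h3 : (((Nat.log 2 R + c + 1) * 2 : ℕ) : ℝ) ≤ (R : ℝ) := by
      push_cast at hR ⊢
      linarith
    have h4 : (Nat.log 2 R + c + 1) * 2 ≤ R := by exact_mod_cast h3
    omega
  obtain ⟨R1, hR1⟩ := Filter.eventually_atTop.1 ev1
  have hg : Summable (fun R : ℕ => (4 * C * (c + 4)) * (R : ℝ) ^ (-(3 / 2) : ℝ)) :=
    (Real.summable_nat_rpow.2 (by norm_num)).mul_left _
  have key := bcU μ ε hM (fun R => Y (R + 1))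
    (fun R T => ∃ r ∈ Finset.Icc (R - (Nat.log 2 R + c)) R, (r : ℝ) ^ δ * IG r (Y (R + 1)) T < JG r (Y (R + 1)) T)
    _ hg R1 (fun R hR => F1G_union δ C hC c hJ R (hR1 R hR).1 (hR1 R hR).2)
  obtain ⟨R2, hR2⟩ := Filter.eventually_atTop.1 (F1_ev (4 * C2) δ hδ c)
  filter_upwards [key, chaosG_as δ hδ (by linarith) (2 ^ (c + 3)) Nat.one_le_two_pow μ ε hM] with ω hω hD
  obtain ⟨i1, hi1⟩ := hω
  obtain ⟨i2, hi2⟩ := hD
  refine ⟨max (max R1 R2) (max i1 (2 * i2)), fun R hR N hN => ?_⟩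
  have g1 : R1 ≤ R := (le_max_left _ _).trans ((le_max_left _ _).trans hR)
  have g2 : R2 ≤ R := (le_max_right _ _).trans ((le_max_left _ _).trans hR)
  have g3 : i1 ≤ R := (le_max_left _ _).trans ((le_max_right _ _).trans hR)
  have g4 : 2 * i2 ≤ R := (le_max_right _ _).trans ((le_max_right _ _).trans hR)
  obtain ⟨g5, g6⟩ := hR1 R g1
  have hRr : (2 : ℝ) ≤ R := by exact_mod_cast g5
  have hno := hi1 R g3
  have hterm : ∀ r ∈ Finset.Icc (R - (Nat.log 2 R + c)) R, JG r N (TT ε ω N) ≤ (4 * C2) * (R : ℝ) ^ (-(1 / 2) + 2 * δ) := by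
    intro r hr
    have hr' := Finset.mem_Icc.1 hr
    have hr2 : R ≤ 2 * r := by omega
    have hr3 : (R : ℝ) ≤ 2 * r := by exact_mod_cast hr2
    have hr0 : (0 : ℝ) < r := by linarith
    have a1 : JG r N (TT ε ω N) = JG r N (TT ε ω (Y (R + 1))) :=
      JG_congr fun p hp _ h => F1_TT_iff ε ω hp h (h.trans hN)
    have a2 : JG r N (TT ε ω (Y (R + 1))) ≤ JG r (Y (R + 1)) (TT ε ω (Y (R + 1))) := JG_mono hN _
    have a3 : JG r (Y (R + 1)) (TT ε ω (Y (R + 1))) ≤ (r : ℝ) ^ δ * IG r (Y (R + 1)) (TT ε ω (Y (R + 1))) := by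
      by_contra hc
      exact hno ⟨r, hr, not_le.1 hc⟩
    have hYp : 1 ≤ Y (R + 1) := Y_pos _
    have hL1 : 1 ≤ 1 + Real.log (Y (R + 1)) := by
      have := Real.log_nonneg (show (1 : ℝ) ≤ (Y (R + 1) : ℝ) by exact_mod_cast hYp)
      linarith
    have a4 : IG r (Y (R + 1)) (TT ε ω (Y (R + 1))) ≤
        C2 * DG (2 ^ r * r * ((2 ^ (c + 3) : ℕ) : ℝ)) r (TT ε ω (Y (R + 1))) :=
      (hII r _ _ hYp).trans (mul_le_mul_of_nonneg_left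
        (DG_mono hL1 (F1G_log (by omega) hr'.1 hr2) r _) hC2.le)
    have a5 : DG (2 ^ r * r * ((2 ^ (c + 3) : ℕ) : ℝ)) r (TT ε ω (Y (R + 1))) =
        DG (2 ^ r * r * ((2 ^ (c + 3) : ℕ) : ℝ)) r (TT ε ω (Y r)) :=
      DG_congr fun p hp h => F1_TT_iff ε ω hp (h.trans (Y_mono (by omega))) h
    have a6 : DG (2 ^ r * r * ((2 ^ (c + 3) : ℕ) : ℝ)) r (TT ε ω (Y r)) ≤ 2 * (r : ℝ) ^ (-(1 / 2) + δ) := hi2 r (by omega)
    rw [a1]
    refine (a2.trans a3).trans ?_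
    have a7 : IG r (Y (R + 1)) (TT ε ω (Y (R + 1))) ≤ C2 * (2 * (r : ℝ) ^ (-(1 / 2) + δ)) := by
      rw [a5] at a4
      exact a4.trans (mul_le_mul_of_nonneg_left a6 hC2.le)
    have a8 : (r : ℝ) ^ δ * (C2 * (2 * (r : ℝ) ^ (-(1 / 2) + δ))) = 2 * C2 * (r : ℝ) ^ (-(1 / 2 - 2 * δ)) := by
      have b1 : (r : ℝ) ^ (-(1 / 2 - 2 * δ)) = (r : ℝ) ^ δ * (r : ℝ) ^ (-(1 / 2) + δ) := by
        rw [← Real.rpow_add hr0]
        congr 1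
        ring
      rw [b1]
      ring
    have a9 := F1_half (x := (r : ℝ)) (y := R) (s := 1 / 2 - 2 * δ) (by linarith) hr3 (by linarith) (by linarith)
    calc (r : ℝ) ^ δ * IG r (Y (R + 1)) (TT ε ω (Y (R + 1)))
        ≤ (r : ℝ) ^ δ * (C2 * (2 * (r : ℝ) ^ (-(1 / 2) + δ))) := mul_le_mul_of_nonneg_left a7 (by positivity)
      _ = 2 * C2 * (r : ℝ) ^ (-(1 / 2 - 2 * δ)) := a8
      _ ≤ 2 * C2 * (2 * (R : ℝ) ^ (-(1 / 2 - 2 * δ))) := mul_le_mul_of_nonneg_left a9 (by positivity)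
      _ = _ := by rw [show -(1 / 2) + 2 * δ = -(1 / 2 - 2 * δ) by ring]; ring
  refine (Finset.sum_le_card_nsmul _ _ _ hterm).trans ?_
  have h3 : R + 1 - (R - (Nat.log 2 R + c)) = Nat.log 2 R + c + 1 := by omega
  rw [nsmul_eq_mul, Nat.card_Icc, h3]
  have h4 := hR2 R g2
  have hRp : (0 : ℝ) < R := by linarith
  calc ((Nat.log 2 R + c + 1 : ℕ) : ℝ) * (4 * C2 * (R : ℝ) ^ (-(1 / 2) + 2 * δ))
      = (((Nat.log 2 R + c + 1 : ℕ) : ℝ) * (4 * C2)) * (R : ℝ) ^ (-(1 / 2) + 2 * δ) := by ring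
    _ ≤ (R : ℝ) ^ δ * (R : ℝ) ^ (-(1 / 2) + 2 * δ) := mul_le_mul_of_nonneg_right h4 (by positivity)
    _ = _ := by
        rw [← Real.rpow_add hRp]
        congr 1
        ring

end Pool.Agent.Helper96.AG
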