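import Pool.Agent.Helper96.AG.F3

/-!
# Project AG (MP_a499ba_nt, Q2), block F4

PROOF: as AF/F4, with `gs ε ω n = gf (TT ε ω N) n` for `n ≤ N` (almost surely all `ε p ω = ±1`, `ae_pm`).
-/

set_option autoImplicit false

namespace Pool.Agent.Helper96.AG

open Finset Pool.Agent.Helper5.RM Pool.Agent.Helper96.AF

open MeasureTheory ProbabilityTheory

/-- deterministic part -/
lemma F4G_large (δ δ₀ : ℝ) (hδ0 : 0 < δ₀) (hδ1 : 2 * δ₀ ≤ δ) (M : ℕ → ℝ) (R0 k0 : ℕ)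
    (hT : ∀ R, R0 ≤ R → ∀ N ∈ TPG R, M N ^ 2 ≤ 108 * N * (R : ℝ) ^ (1 / 2 + 4 * δ₀))
    (hO : ∀ k, k0 ≤ k → alG k ≤ k ∧ ∀ N ∈ Finset.Ico (2 ^ k) (2 ^ (k + 1)),
      (M N - M (2 ^ (k - alG k) * (N / 2 ^ (k - alG k)))) ^ 2 ≤ 2 ^ k) :
    ∃ N0 : ℕ, ∀ N : ℕ, N0 ≤ N →
      |M N| ≤ 12 * Real.sqrt N * ((Nat.log 2 (Nat.log 2 N) : ℕ) : ℝ) ^ (1 / 4 + δ) := by
  refine ⟨2 ^ (max (2 ^ (max R0 1)) k0), fun N hN => ?_⟩
  set k := Nat.log 2 N with hk
  set R := Nat.log 2 k with hR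
  have hN0 : N ≠ 0 := by
    rintro rfl
    have : 0 < 2 ^ (max (2 ^ (max R0 1)) k0) := by positivity
    omega
  have hkle : max (2 ^ (max R0 1)) k0 ≤ k := by
    rw [hk]
    exact Nat.le_log_of_pow_le (by norm_num) hN
  have hk1 : 2 ^ (max R0 1) ≤ k := (le_max_left _ _).trans hkle
  have hk0 : k0 ≤ k := (le_max_right _ _).trans hkle
  have hRle : max R0 1 ≤ R := by
    rw [hR]
    exact Nat.le_log_of_pow_le (by norm_num) hk1
  have hR0 : R0 ≤ R := (le_max_left _ _).trans hRle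
  have hR1 : 1 ≤ R := (le_max_right _ _).trans hRle
  have hkne : k ≠ 0 := by
    have : 0 < 2 ^ (max R0 1) := by positivity
    omega
  have h2k : 2 ^ k ≤ N := Nat.pow_log_le_self 2 hN0
  have hk2 : N < 2 ^ (k + 1) := Nat.lt_pow_succ_log_self (by norm_num) N
  have h2R : 2 ^ R ≤ k := Nat.pow_log_le_self 2 hkne
  have hR2 : k < 2 ^ (R + 1) := Nat.lt_pow_succ_log_self (by norm_num) k
  obtain ⟨hal, hoct⟩ := hO k hk0
  have hoct' := hoct N (Finset.mem_Ico.2 ⟨h2k, hk2⟩)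
  set N' := 2 ^ (k - alG k) * (N / 2 ^ (k - alG k)) with hN'
  have hN'le : N' ≤ N := Nat.mul_div_le N _
  have hN'ge : 2 ^ k ≤ N' := by
    have h1 : 2 ^ alG k ≤ N / 2 ^ (k - alG k) := by
      rw [Nat.le_div_iff_mul_le (by positivity), ← pow_add]
      have : alG k + (k - alG k) = k := by omega
      rw [this]
      exact h2k
    calc 2 ^ k = 2 ^ (k - alG k) * 2 ^ alG k := by
          rw [← pow_add, Nat.sub_add_cancel hal]
      _ ≤ N' := Nat.mul_le_mul_left _ h1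
  have hlog : Nat.log 2 N' = k :=
    (Nat.log_eq_iff (Or.inl hkne)).2 ⟨hN'ge, hN'le.trans_lt hk2⟩
  have hTP : N' ∈ TPG R := by
    unfold TPG
    rw [Finset.mem_filter, Finset.mem_Ico, hlog]
    refine ⟨⟨?_, ?_⟩, Dvd.intro _ rfl⟩
    · unfold Y
      exact (Nat.pow_le_pow_right (by norm_num) h2R).trans hN'ge
    · unfold Y
      exact (hN'le.trans_lt hk2).trans_le (Nat.pow_le_pow_right (by norm_num) hR2)
  have hM' := hT R hR0 N' hTP
  have hRr : (1 : ℝ) ≤ R := by exact_mod_cast hR1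
  have hRp : (0 : ℝ) < R := by linarith
  have hNr : (N' : ℝ) ≤ N := by exact_mod_cast hN'le
  have h2kr : (2 : ℝ) ^ k ≤ N := by exact_mod_cast h2k
  have hsN : 0 ≤ Real.sqrt N := Real.sqrt_nonneg _
  have hsq : Real.sqrt N ^ 2 = N := Real.sq_sqrt (by positivity)
  have e1 : |M N'| ≤ 11 * Real.sqrt N * (R : ℝ) ^ (1 / 4 + 2 * δ₀) := by
    have hpow : ((R : ℝ) ^ (1 / 4 + 2 * δ₀)) ^ 2 = (R : ℝ) ^ (1 / 2 + 4 * δ₀) := by
      rw [← Real.rpow_natCast, ← Real.rpow_mul hRp.le]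
      congr 1
      push_cast
      ring
    refine abs_le_of_sq_le_sq ?_ (by positivity)
    calc M N' ^ 2 ≤ 108 * N' * (R : ℝ) ^ (1 / 2 + 4 * δ₀) := hM'
      _ ≤ 108 * N * (R : ℝ) ^ (1 / 2 + 4 * δ₀) := by
          have : 0 ≤ (R : ℝ) ^ (1 / 2 + 4 * δ₀) := by positivity
          exact mul_le_mul_of_nonneg_right (mul_le_mul_of_nonneg_left hNr (by norm_num)) this
      _ ≤ 121 * N * (R : ℝ) ^ (1 / 2 + 4 * δ₀) := by
          have : 0 ≤ (N : ℝ) * (R : ℝ) ^ (1 / 2 + 4 * δ₀) := by positivity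
          linarith
      _ = (11 * Real.sqrt N * (R : ℝ) ^ (1 / 4 + 2 * δ₀)) ^ 2 := by
          rw [mul_pow, mul_pow, hsq, hpow]
          ring
  have e2 : |M N - M N'| ≤ Real.sqrt N := by
    refine abs_le_of_sq_le_sq ?_ hsN
    rw [hsq]
    exact hoct'.trans h2kr
  have e3 : (R : ℝ) ^ (1 / 4 + 2 * δ₀) ≤ (R : ℝ) ^ (1 / 4 + δ) :=
    Real.rpow_le_rpow_of_exponent_le hRr (by linarith)
  have e4 : 1 ≤ (R : ℝ) ^ (1 / 4 + δ) := Real.one_le_rpow hRr (by linarith)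
  have e5 : |M N| ≤ |M N'| + |M N - M N'| := by
    have : M N = M N' + (M N - M N') := by ring
    calc |M N| = |M N' + (M N - M N')| := by rw [← this]
      _ ≤ _ := abs_add_le _ _
  calc |M N| ≤ |M N'| + |M N - M N'| := e5
    _ ≤ 11 * Real.sqrt N * (R : ℝ) ^ (1 / 4 + 2 * δ₀) + Real.sqrt N := add_le_add e1 e2
    _ ≤ 11 * Real.sqrt N * (R : ℝ) ^ (1 / 4 + δ) + Real.sqrt N * (R : ℝ) ^ (1 / 4 + δ) := by
        refine add_le_add ?_ ?_
        · exact mul_le_mul_of_nonneg_left e3 (by positivity)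
        · exact le_mul_of_one_le_right hsN e4
    _ = 12 * Real.sqrt N * (R : ℝ) ^ (1 / 4 + δ) := by ring

/-- `log2 log2 N ≤ 3 log log x` for `N ≤ x` -/
lemma F4G_loglog (x : ℝ) (N : ℕ) (hx : Real.exp (Real.exp 1) ≤ x) (hN : (N : ℝ) ≤ x) :
    ((Nat.log 2 (Nat.log 2 N) : ℕ) : ℝ) ≤ 3 * Real.log (Real.log x) := by
  have hxpos : 0 < x := (Real.exp_pos _).trans_le hx
  have hl1 : Real.exp 1 ≤ Real.log x := (Real.le_log_iff_exp_le hxpos).2 hx
  have hlpos : 0 < Real.log x := (Real.exp_pos _).trans_le hl1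
  have hl2 : 1 ≤ Real.log (Real.log x) := (Real.le_log_iff_exp_le hlpos).2 hl1
  have hlog2 : (1 / 2 : ℝ) < Real.log 2 := by
    have := Real.log_two_gt_d9
    linarith
  set k := Nat.log 2 N with hk
  set R := Nat.log 2 k with hR
  rcases Nat.eq_zero_or_pos k with h0 | hkpos
  · have : R = 0 := by rw [hR, h0]; simp
    rw [this]
    push_cast
    linarith
  · have hN0 : N ≠ 0 := by
      rintro rfl
      simp at hk
      omega
    have h2k : (2 : ℝ) ^ k ≤ x := by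
      have : 2 ^ k ≤ N := Nat.pow_log_le_self 2 hN0
      exact (by exact_mod_cast this : (2 : ℝ) ^ k ≤ N).trans hN
    have h2R : (2 : ℝ) ^ R ≤ k := by exact_mod_cast Nat.pow_log_le_self 2 (by omega : k ≠ 0)
    have h3 : (k : ℝ) * Real.log 2 ≤ Real.log x := by
      have := Real.log_le_log (by positivity) h2k
      rwa [Real.log_pow] at this
    have h4 : (k : ℝ) ≤ 2 * Real.log x := by
      have hk' : (0 : ℝ) ≤ k := by positivity
      have := mul_le_mul_of_nonneg_left hlog2.le hk'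
      linarith
    have h5 : (R : ℝ) * Real.log 2 ≤ Real.log 2 + Real.log (Real.log x) := by
      have := Real.log_le_log (by positivity) (h2R.trans h4)
      rwa [Real.log_pow, Real.log_mul (by norm_num) hlpos.ne'] at this
    rcases le_or_gt (R : ℝ) 1 with hR1 | hR1
    · linarith
    · have := mul_le_mul_of_nonneg_left hlog2.le (by linarith : (0 : ℝ) ≤ R - 1)
      linarith

/-- the random model of the Liouville function -/
noncomputable def gs {Ω : Type*} (ε : ℕ → Ω → ℝ) (ω : Ω) (n : ℕ) : ℝ :=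
  ∏ p ∈ n.primeFactors, ε p ω ^ n.factorization p

lemma gs_eq {Ω : Type*} (ε : ℕ → Ω → ℝ) (ω : Ω) (h : ∀ p, ε p ω = -1 ∨ ε p ω = 1) (M n : ℕ) (hn : n ≤ M) :
    gs ε ω n = gf (TT ε ω M) n := by
  unfold gs gf TT
  apply Finset.prod_congr rfl
  intro p hp
  have hpM : p ∈ PP M := primeFactors_subset_PP hn hp
  congr 1
  unfold sg
  rcases h p with h1 | h1
  · rw [if_pos (Finset.mem_filter.2 ⟨hpM, h1⟩), h1]
  · rw [if_neg, h1]
    intro hmem
    have := (Finset.mem_filter.1 hmem).2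
    rw [h1] at this
    norm_num at this

theorem almost_sureG (δ : ℝ) (hδ : 0 < δ) {Ω : Type*} [MeasurableSpace Ω] (μ : Measure Ω)
    (ε : ℕ → Ω → ℝ) (hM : Unif μ ε)
    (hpm : ∀ᵐ ω ∂μ, ∀ p, ε p ω = -1 ∨ ε p ω = 1) :
    ∀ᵐ ω ∂μ, ∃ C : ℝ, ∀ x : ℝ, 3 ≤ x →
      |∑ n ∈ Finset.Icc 1 ⌊x⌋₊, ∏ p ∈ n.primeFactors, ε p ω ^ n.factorization p| ≤
        C * Real.sqrt x * Real.log (Real.log x) ^ (1 / 4 + δ) := by
  change ∀ᵐ ω ∂μ, ∃ C : ℝ, ∀ x : ℝ, 3 ≤ x →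
      |∑ n ∈ Finset.Icc 1 ⌊x⌋₊, gs ε ω n| ≤
        C * Real.sqrt x * Real.log (Real.log x) ^ (1 / 4 + δ)
  have hδ0 : 0 < min δ 1 / 8 := by
    have : 0 < min δ 1 := lt_min hδ one_pos
    linarith
  have hδ1 : min δ 1 / 8 ≤ 1 / 8 := by
    have : min δ 1 ≤ 1 := min_le_right _ _
    linarith
  have hδ2 : 2 * (min δ 1 / 8) ≤ δ := by
    have : min δ 1 ≤ δ := min_le_left _ _
    linarith
  filter_upwards [testG_as (min δ 1 / 8) hδ0 hδ1 μ ε hM, octaveG_as μ ε hM,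
    hpm] with ω hA hB hpm
  obtain ⟨R0, hA⟩ := hA
  obtain ⟨k0, hB⟩ := hB
  obtain ⟨N0, hN0⟩ := F4G_large δ (min δ 1 / 8) hδ0 hδ2 (fun N => GM (TT ε ω N) N) R0 k0 hA hB
  have hsum : ∀ N : ℕ, ∑ n ∈ Finset.Icc 1 N, gs ε ω n = GM (TT ε ω N) N := by
    intro N
    unfold GM
    refine Finset.sum_congr rfl fun n hn => ?_
    exact gs_eq ε ω hpm N n (Finset.mem_Icc.1 hn).2
  -- small x
  set X0 : ℝ := max (N0 + 1 : ℝ) (Real.exp (Real.exp 1)) with hX0
  set B : ℝ := ∑ n ∈ Finset.Icc 1 ⌊X0⌋₊, |gs ε ω n| with hB0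
  have hBnn : 0 ≤ B := Finset.sum_nonneg fun _ _ => abs_nonneg _
  have hlog3 : 1 < Real.log 3 := by
    rw [Real.lt_log_iff_exp_lt (by norm_num)]
    exact Real.exp_one_lt_three
  have hll3 : 0 < Real.log (Real.log 3) := Real.log_pos hlog3
  set c : ℝ := Real.log (Real.log 3) ^ (1 / 4 + δ) with hc
  have hcpos : 0 < c := Real.rpow_pos_of_pos hll3 _
  refine ⟨max (12 * 3 ^ (1 / 4 + δ)) (B / c), fun x hx => ?_⟩
  have hxpos : 0 < x := by linarith
  have hlx : Real.log 3 ≤ Real.log x := Real.log_le_log (by norm_num) hx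
  have hllx : Real.log (Real.log 3) ≤ Real.log (Real.log x) :=
    Real.log_le_log (by linarith) hlx
  have hcx : c ≤ Real.log (Real.log x) ^ (1 / 4 + δ) :=
    Real.rpow_le_rpow hll3.le hllx (by linarith)
  have hsx : 1 ≤ Real.sqrt x := by
    rw [Real.one_le_sqrt]
    linarith
  have hll : 0 < Real.log (Real.log x) := hll3.trans_le hllx
  have hpos : 0 ≤ Real.sqrt x * Real.log (Real.log x) ^ (1 / 4 + δ) :=
    mul_nonneg (Real.sqrt_nonneg _) (Real.rpow_nonneg hll.le _)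
  rcases le_or_gt X0 x with hbig | hsmall
  · have hN : N0 ≤ ⌊x⌋₊ := by
      refine Nat.le_floor ?_
      have := (le_max_left (N0 + 1 : ℝ) (Real.exp (Real.exp 1))).trans hbig
      linarith
    have hfl : ((⌊x⌋₊ : ℕ) : ℝ) ≤ x := Nat.floor_le hxpos.le
    have h3 := hN0 ⌊x⌋₊ hN
    have h4 := F4G_loglog x ⌊x⌋₊ ((le_max_right _ _).trans hbig) hfl
    rw [hsum]
    calc |GM (TT ε ω ⌊x⌋₊) ⌊x⌋₊|
        ≤ 12 * Real.sqrt (⌊x⌋₊ : ℕ) * ((Nat.log 2 (Nat.log 2 ⌊x⌋₊) : ℕ) : ℝ) ^ (1 / 4 + δ) := h3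
      _ ≤ 12 * Real.sqrt x * (3 * Real.log (Real.log x)) ^ (1 / 4 + δ) := by
          refine mul_le_mul ?_ ?_ (by positivity) (by positivity)
          · exact mul_le_mul_of_nonneg_left (Real.sqrt_le_sqrt hfl) (by norm_num)
          · exact Real.rpow_le_rpow (by positivity) h4 (by linarith)
      _ = (12 * 3 ^ (1 / 4 + δ)) * (Real.sqrt x * Real.log (Real.log x) ^ (1 / 4 + δ)) := by
          rw [Real.mul_rpow (by norm_num) hll.le]
          ring
      _ ≤ max (12 * 3 ^ (1 / 4 + δ)) (B / c) * (Real.sqrt x * Real.log (Real.log x) ^ (1 / 4 + δ)) :=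
          mul_le_mul_of_nonneg_right (le_max_left _ _) hpos
      _ = _ := by ring
  · have h3 : |∑ n ∈ Finset.Icc 1 ⌊x⌋₊, gs ε ω n| ≤ B := by
      refine (Finset.abs_sum_le_sum_abs _ _).trans ?_
      refine Finset.sum_le_sum_of_subset_of_nonneg ?_ fun _ _ _ => abs_nonneg _
      exact Finset.Icc_subset_Icc le_rfl (Nat.floor_le_floor hsmall.le)
    calc |∑ n ∈ Finset.Icc 1 ⌊x⌋₊, gs ε ω n| ≤ B := h3
      _ = B / c * c := by field_simp
      _ ≤ B / c * (Real.sqrt x * Real.log (Real.log x) ^ (1 / 4 + δ)) := by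
          refine mul_le_mul_of_nonneg_left ?_ (by positivity)
          calc c ≤ 1 * Real.log (Real.log x) ^ (1 / 4 + δ) := by rw [one_mul]; exact hcx
            _ ≤ _ := mul_le_mul_of_nonneg_right hsx (Real.rpow_nonneg hll.le _)
      _ ≤ max (12 * 3 ^ (1 / 4 + δ)) (B / c) * (Real.sqrt x * Real.log (Real.log x) ^ (1 / 4 + δ)) :=
          mul_le_mul_of_nonneg_right (le_max_right _ _) hpos
      _ = _ := by ring

end Pool.Agent.Helper96.AG
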