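import Pool.Agent.Helper96.AG.Bas
import Pool.Agent.Helper96.AF.ZI
import Pool.Agent.Helper96.AF.E5
import Pool.Agent.Helper96.AF.E2

/-!
# Project AG (MP_a499ba_nt, Q2), block E4

Near `0` the products at `t` and at `0` agree. PROOF of `av_ratio`: independence (induction with `av_insert`): the average is `∏ (1/2) ((1+θt)/(1+θ0) + (1-θt)/(1-θ0)) = ∏ (1 - θt θ0)/(1 - θ0^2) = ∏ (1 + θ0 (θ0 - θt)/(1 - θ0^2))`, `θ0 = th p 0`, `θt = th p t = θ0 cos (t log p)`,
`0 ≤ θ0 - θt ≤ θ0 (t log p)^2/2`, `1 - θ0^2 ≥ 1/9`, `θ0^2 ≤ 4/p`: `≤ exp (18 t^2 ∑ (log p)^2/p)`, `∑_{p ≤ Y j} (log p)^2/p ≤ log (Y j) C (1 + log (Y j)) ≤ C 4^j` (`logp_sum`, `log_Y`).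
`BJ_mean`: `dd t 1_{dd 0 ≤ x} ≤ x * (dd t/dd 0)`. `BJ_aw`: `BJ K η j T` only depends on `T ∩ PP (Y j)`: `av_restrict`/`av_dd_union`.
-/

set_option autoImplicit false

namespace Pool.Agent.Helper96.AG

open Finset Pool.Agent.Helper5.RM Pool.Agent.Helper96.AF

private lemma e4_av_lin (S : Finset ℕ) (a b : ℕ → ℝ) :
    av S (fun T => ∏ p ∈ S, (a p + sg T p * b p)) = ∏ p ∈ S, a p := by
  induction S using Finset.induction_on with
  | empty => simp [av_empty]
  | insert q S hq ih =>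
    rw [av_insert hq]
    have h1 : av S (fun T => ∏ p ∈ insert q S, (a p + sg T p * b p)) =
        (a q + b q) * av S (fun T => ∏ p ∈ S, (a p + sg T p * b p)) := by
      rw [← av_mul_left]
      refine av_congr fun T hT => ?_
      have hqT : q ∉ T := fun h => hq (hT h)
      simp only [Finset.prod_insert hq, sg_not_mem hqT, one_mul]
    have h2 : av S (fun T => ∏ p ∈ insert q S, (a p + sg (insert q T) p * b p)) =
        (a q - b q) * av S (fun T => ∏ p ∈ S, (a p + sg T p * b p)) := by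
      rw [← av_mul_left]
      refine av_congr fun T hT => ?_
      simp only [Finset.prod_insert hq, sg_mem (Finset.mem_insert_self q T)]
      congr 1
      · ring
      · refine Finset.prod_congr rfl fun p hp => ?_
        have hpq : p ≠ q := fun h => hq (h ▸ hp)
        rw [sg_insert_of_ne hpq]
    rw [h1, h2, ih, Finset.prod_insert hq]
    ring

private lemma e4_ratio (s a b : ℝ) (hs : s * s = 1) (hb : 0 < 1 - b ^ 2) (hb' : 1 + s * b ≠ 0) :
    (1 + s * a) / (1 + s * b) = (1 - a * b) / (1 - b ^ 2) + s * ((a - b) / (1 - b ^ 2)) := by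
  rw [div_eq_iff hb']
  field_simp
  linear_combination (-(b * (a - b))) * hs

private lemma e4_sg_sq (T : Finset ℕ) (p : ℕ) : sg T p * sg T p = 1 := by
  have h := abs_sg T p
  rw [← abs_mul_abs_self, h, one_mul]

private lemma e4_term {p : ℕ} (hp : 2 ≤ p) (t : ℝ) :
    (1 - th p t * th p 0) / (1 - th p 0 ^ 2) ≤ Real.exp (18 * t ^ 2 * (Real.log p ^ 2 / p)) := by
  have h1 := th_sq_le hp 0
  have h2 := th_sq_le' (by omega : 1 ≤ p) 0
  have hp0 : (0 : ℝ) < p := by exact_mod_cast (by omega : 0 < p)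
  have h3 : 0 < 1 - th p 0 ^ 2 := by linarith
  have h4 : th p t = th p 0 * Real.cos (t * Real.log p) := by
    unfold th
    rw [zero_mul, Real.cos_zero]
    ring
  have h5 : 1 - (t * Real.log p) ^ 2 / 2 ≤ Real.cos (t * Real.log p) := Real.one_sub_sq_div_two_le_cos
  refine le_trans ?_ (Real.add_one_le_exp _)
  rw [div_le_iff₀ h3, h4]
  have h6 : th p 0 ^ 2 * (1 - Real.cos (t * Real.log p)) ≤ 4 / p * ((t * Real.log p) ^ 2 / 2) := by
    apply mul_le_mul h2 (by linarith) (by linarith [Real.cos_le_one (t * Real.log p)]) (by positivity)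
  have h7 : 0 ≤ 18 * t ^ 2 * (Real.log p ^ 2 / p) := by positivity
  have h8 : 18 * t ^ 2 * (Real.log p ^ 2 / p) * (1 / 9) ≤ 18 * t ^ 2 * (Real.log p ^ 2 / p) * (1 - th p 0 ^ 2) := by
    apply mul_le_mul_of_nonneg_left _ h7
    linarith
  have h9 : 18 * t ^ 2 * (Real.log p ^ 2 / p) * (1 / 9) = 4 / p * ((t * Real.log p) ^ 2 / 2) := by ring
  nlinarith

theorem av_ratio : ∃ C : ℝ, 0 < C ∧ ∀ (j : ℕ) (t : ℝ), |t| ≤ 1 / 2 ^ j →
    av (PP (Y j)) (fun T => dd (PP (Y j)) T t / dd (PP (Y j)) T 0) ≤ C := by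
  obtain ⟨C, hC, hlog⟩ := logp_sum
  refine ⟨Real.exp (18 * (2 * C)), Real.exp_pos _, fun j t ht => ?_⟩
  have h1 : av (PP (Y j)) (fun T => dd (PP (Y j)) T t / dd (PP (Y j)) T 0) =
      ∏ p ∈ PP (Y j), (1 - th p t * th p 0) / (1 - th p 0 ^ 2) := by
    rw [← e4_av_lin (PP (Y j)) (fun p => (1 - th p t * th p 0) / (1 - th p 0 ^ 2))
      (fun p => (th p t - th p 0) / (1 - th p 0 ^ 2))]
    refine av_congr fun T _ => ?_
    unfold dd
    rw [← Finset.prod_div_distrib]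
    refine Finset.prod_congr rfl fun p hp => ?_
    have hp2 := two_le_of_mem_PP hp
    exact e4_ratio _ _ _ (e4_sg_sq T p) (by linarith [th_sq_le hp2 0]) (fac_pos hp2 T 0).ne'
  rw [h1]
  have h2 : ∏ p ∈ PP (Y j), (1 - th p t * th p 0) / (1 - th p 0 ^ 2) ≤
      ∏ p ∈ PP (Y j), Real.exp (18 * t ^ 2 * (Real.log p ^ 2 / p)) := by
    refine Finset.prod_le_prod (fun p hp => ?_) fun p hp => e4_term (two_le_of_mem_PP hp) t
    have hp2 := two_le_of_mem_PP hp
    have ha := abs_lt.1 (abs_th_lt_one hp2 t)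
    have hb := abs_lt.1 (abs_th_lt_one hp2 0)
    have hc := th_sq_le hp2 0
    refine div_nonneg ?_ (by linarith)
    nlinarith
  refine h2.trans ?_
  rw [← Real.exp_sum, Real.exp_le_exp, ← Finset.mul_sum]
  have h3 : t ^ 2 ≤ 1 / 4 ^ j := by
    rw [← sq_abs]
    calc |t| ^ 2 ≤ (1 / 2 ^ j) ^ 2 := pow_le_pow_left₀ (abs_nonneg _) ht 2
      _ = 1 / 4 ^ j := by rw [div_pow, one_pow, ← pow_mul, mul_comm j 2, pow_mul]; norm_num
  have hlogY : Real.log (Y j) = 2 ^ j * Real.log 2 := log_Y j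
  have hl2 : Real.log 2 ≤ 1 := by linarith [Real.log_two_lt_d9]
  have hl0 : 0 < Real.log 2 := Real.log_pos (by norm_num)
  have h4 : ∑ p ∈ PP (Y j), Real.log p ^ 2 / p ≤ Real.log (Y j) * (C * (1 + Real.log (Y j))) := by
    refine le_trans ?_ (mul_le_mul_of_nonneg_left (hlog (Y j) (Y_pos j)) ?_)
    · rw [Finset.mul_sum]
      refine Finset.sum_le_sum fun p hp => ?_
      have hp' := mem_PP.1 hp
      have hp0 : (0 : ℝ) < p := by exact_mod_cast hp'.1.pos
      have hlp : 0 ≤ Real.log p := Real.log_natCast_nonneg p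
      have hle : Real.log p ≤ Real.log (Y j) := Real.log_le_log hp0 (by exact_mod_cast hp'.2)
      rw [sq, mul_div_assoc]
      exact mul_le_mul_of_nonneg_right hle (by positivity)
    · rw [hlogY]; positivity
  have h5 : Real.log (Y j) * (C * (1 + Real.log (Y j))) ≤ 2 * C * 4 ^ j := by
    rw [hlogY]
    have hj : (1 : ℝ) ≤ 2 ^ j := one_le_pow₀ (by norm_num)
    have h6 : (2 : ℝ) ^ j * Real.log 2 ≤ 2 ^ j := mul_le_of_le_one_right (by positivity) hl2
    have h7 : (4 : ℝ) ^ j = 2 ^ j * 2 ^ j := by rw [← mul_pow]; norm_num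
    calc (2 : ℝ) ^ j * Real.log 2 * (C * (1 + 2 ^ j * Real.log 2)) ≤ 2 ^ j * (C * (2 ^ j + 2 ^ j)) := by
          gcongr
      _ = 2 * C * 4 ^ j := by rw [h7]; ring
  have h8 : 0 ≤ ∑ p ∈ PP (Y j), Real.log p ^ 2 / (p : ℝ) := Finset.sum_nonneg fun p _ => by positivity
  calc 18 * t ^ 2 * ∑ p ∈ PP (Y j), Real.log p ^ 2 / (p : ℝ) ≤ 18 * (1 / 4 ^ j) * (2 * C * 4 ^ j) := by
        gcongr
        exact h4.trans h5
    _ = 18 * (2 * C) := by
        field_simp

private lemma e4_xj_nonneg (K : ℕ) (η : ℝ) (j : ℕ) : 0 ≤ xj K η j := by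
  unfold xj
  positivity

open Classical in
theorem BJ_mean : ∃ C : ℝ, 0 < C ∧ ∀ (K j r : ℕ) (η t : ℝ), |t| ≤ 1 / 2 ^ j → j ≤ r →
    av (PP (Y r)) (fun T => if BJ K η j T then dd (PP (Y r)) T t else 0) ≤ C * xj K η j := by
  obtain ⟨C, hC, hav⟩ := av_ratio
  refine ⟨C, hC, fun K j r η t ht hjr => ?_⟩
  have hsub : PP (Y j) ⊆ PP (Y r) := PP_Y_mono hjr
  have hun : PP (Y r) = PP (Y j) ∪ (PP (Y r) \ PP (Y j)) := (Finset.union_sdiff_of_subset hsub).symm
  have h1 : av (PP (Y r)) (fun T => if BJ K η j T then dd (PP (Y r)) T t else 0) =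
      av (PP (Y j)) (fun T => if BJ K η j T then dd (PP (Y j)) T t else 0) := by
    conv_lhs => rw [hun, av_union Finset.disjoint_sdiff]
    refine av_congr fun T hT => ?_
    have hB : ∀ T' ⊆ PP (Y r) \ PP (Y j), (BJ K η j (T ∪ T') ↔ BJ K η j T) := by
      intro T' hT'
      apply BJ_congr
      intro p hp hpY
      rw [Finset.mem_union]
      constructor
      · rintro (h | h)
        · exact h
        · exact absurd (mem_PP.2 ⟨hp, hpY⟩) (Finset.mem_sdiff.1 (hT' h)).2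
      · exact fun h => Or.inl h
    by_cases h : BJ K η j T
    · rw [if_pos h, ← av_dd_union (PP (Y j)) (PP (Y r) \ PP (Y j)) Finset.disjoint_sdiff T hT t]
      refine av_congr fun T' hT' => ?_
      rw [if_pos ((hB T' hT').2 h)]
    · rw [if_neg h]
      refine Eq.trans (av_congr fun T' hT' => ?_) (av_const (PP (Y r) \ PP (Y j)) 0)
      rw [if_neg (fun h' => h ((hB T' hT').1 h'))]
  rw [h1]
  have h2 : av (PP (Y j)) (fun T => if BJ K η j T then dd (PP (Y j)) T t else 0) ≤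
      av (PP (Y j)) (fun T => xj K η j * (dd (PP (Y j)) T t / dd (PP (Y j)) T 0)) := by
    refine av_mono fun T _ => ?_
    have hS : ∀ p ∈ PP (Y j), 2 ≤ p := fun p hp => two_le_of_mem_PP hp
    have ha := dd_nonneg hS T t
    have hb := dd_pos hS T 0
    split_ifs with h
    · unfold BJ at h
      rw [mul_div_assoc', le_div_iff₀ hb, mul_comm]
      exact mul_le_mul_of_nonneg_right h ha
    · exact mul_nonneg (e4_xj_nonneg K η j) (div_nonneg ha hb.le)
  refine h2.trans ?_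
  rw [av_mul_left, mul_comm]
  exact mul_le_mul_of_nonneg_right (hav j t ht) (e4_xj_nonneg K η j)

open Classical in
theorem BJ_aw : ∃ C : ℝ, 0 < C ∧ ∀ (K j r : ℕ) (η t : ℝ), |t| ≤ 1 / 2 ^ j → j ≤ r →
    aw (PP (Y r)) (fun p => th p t) (fun T => if BJ K η j T then 1 else 0) ≤ C * xj K η j := by
  obtain ⟨C, hC, h⟩ := BJ_mean
  refine ⟨C, hC, fun K j r η t ht hjr => ?_⟩
  refine le_trans (le_of_eq ?_) (h K j r η t ht hjr)
  unfold aw
  refine av_congr fun T _ => ?_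
  have h2 : ∏ p ∈ PP (Y r), (1 + sg T p * th p t) = dd (PP (Y r)) T t := rfl
  beta_reduce
  rw [h2]
  split_ifs <;> simp

end Pool.Agent.Helper96.AG
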