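import Pool.Agent.Helper96.AG.Q3

/-!
# Project AG (MP_a499ba_nt, Q2), block A2

Fourth moments. PROOF: `GM T (2^i q) - GM T (2^i (q-1)) = ∑_{b sqfree} rf T b * cN (2^i (q-1)) (2^i q) b` (`sq_rep` or `GM_eq`/`NG_top`/`NG_sum`); `hyper_sqf` with `k = 2`: `E (..)^4 ≤ (∑ 3^(om b) c^2)^2 ≤ (∑ c^2) (∑ 9^(om b) c^2)`
(Cauchy-Schwarz), `∑ c^2 ≤ 2^i (3 + log (2^i q)) ≤ 2^i (k + 4)` (`sum_sq_cN`: `q ≥ 2^(k-i) + 1`, so `2^i q ≤ 2 * 2^i (q-1)`), then `sum_w_cN`.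
`bin_term'`: as `bin_term` of AF/A1; for `2^k ≤ N < 2^(k+1)`, `i < k`, `q = N/2^i` odd we have `q ≥ 2^(k-i)`, which is even, so `2^(k-i) < q < 2^(k+1-i)`.
-/

set_option autoImplicit false

namespace Pool.Agent.Helper96.AG

open Finset Pool.Agent.Helper5.RM Pool.Agent.Helper96.AF

private lemma GM_diff (T : Finset ℕ) {a b : ℕ} (h : a ≤ b) :
    GM T b - GM T a = ∑ n ∈ (Finset.Icc 1 b).filter Squarefree, rf T n * (cN a b n : ℝ) := by
  have hI : ∀ m : ℕ, Finset.Icc 1 m = Finset.Ioc 0 m := fun m => by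
    ext x
    simp [Finset.mem_Icc, Finset.mem_Ioc, Nat.succ_le_iff]
  have h1 : GM T b - GM T a = ∑ n ∈ Finset.Ioc a b, gf T n := by
    unfold GM
    rw [hI, hI, ← Finset.sum_Ioc_consecutive (gf T) (Nat.zero_le a) h, add_sub_cancel_left]
  rw [h1, sq_rep a b (gf T)]
  refine Finset.sum_congr rfl fun n hn => ?_
  rw [Finset.mem_filter, Finset.mem_Icc] at hn
  have h2 : ∀ m ∈ (Finset.Icc 1 (Nat.sqrt b)).filter (fun m => a < m ^ 2 * n ∧ m ^ 2 * n ≤ b),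
      gf T (m ^ 2 * n) = rf T n := by
    intro m hm
    rw [Finset.mem_filter, Finset.mem_Icc] at hm
    exact gf_sq T m n hm.1.1 hn.2
  rw [Finset.sum_congr rfl h2, Finset.sum_const, card_cN a b n h hn.1.1, nsmul_eq_mul, mul_comm]

private lemma int4 (X a b : ℕ) (hab : a ≤ b) (hb : b ≤ X) :
    av (PP X) (fun T => (GM T b - GM T a) ^ 4) ≤
      (∑ n ∈ (Finset.Icc 1 b).filter Squarefree, (cN a b n : ℝ) ^ 2) *
        ∑ n ∈ (Finset.Icc 1 b).filter Squarefree, (9 : ℝ) ^ om n * (cN a b n : ℝ) ^ 2 := by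
  have h1 := hyper_sqf 2 (by norm_num) (PP X) ((Finset.Icc 1 b).filter Squarefree) (fun n hn => by
    rw [Finset.mem_filter, Finset.mem_Icc] at hn
    exact ⟨hn.2, primeFactors_subset_PP (hn.1.2.trans hb)⟩) (fun n => ((cN a b n : ℝ) : ℂ))
  have e1 : av (PP X) (fun T => (GM T b - GM T a) ^ 4) =
      av (PP X) (fun T => ‖∑ n ∈ (Finset.Icc 1 b).filter Squarefree,
        (rf T n : ℂ) * ((cN a b n : ℝ) : ℂ)‖ ^ (2 * 2)) := by
    refine av_congr fun T _ => ?_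
    have : ∑ n ∈ (Finset.Icc 1 b).filter Squarefree, (rf T n : ℂ) * ((cN a b n : ℝ) : ℂ) =
        ((GM T b - GM T a : ℝ) : ℂ) := by
      rw [GM_diff T hab]
      push_cast
      rfl
    rw [this, Complex.norm_real, Real.norm_eq_abs]
    have h4 : |GM T b - GM T a| ^ (2 * 2) = (|GM T b - GM T a| ^ 2) ^ 2 := by ring
    rw [h4, sq_abs]
    ring
  rw [e1]
  refine h1.trans ?_
  have h2 := Finset.sum_mul_sq_le_sq_mul_sq ((Finset.Icc 1 b).filter Squarefree)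
    (fun n => (cN a b n : ℝ)) (fun n => (3 : ℝ) ^ om n * (cN a b n : ℝ))
  have h8 : (2 * ((2 : ℕ) : ℝ) - 1) = 3 := by norm_num
  have e2 : ∑ n ∈ (Finset.Icc 1 b).filter Squarefree, (2 * ((2 : ℕ) : ℝ) - 1) ^ om n *
      ‖((cN a b n : ℝ) : ℂ)‖ ^ 2 =
      ∑ n ∈ (Finset.Icc 1 b).filter Squarefree, (cN a b n : ℝ) * ((3 : ℝ) ^ om n * (cN a b n : ℝ)) := by
    refine Finset.sum_congr rfl fun n _ => ?_
    rw [h8, Complex.norm_real, Real.norm_eq_abs, sq_abs]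
    ring
  have e3 : ∑ n ∈ (Finset.Icc 1 b).filter Squarefree, ((3 : ℝ) ^ om n * (cN a b n : ℝ)) ^ 2 =
      ∑ n ∈ (Finset.Icc 1 b).filter Squarefree, (9 : ℝ) ^ om n * (cN a b n : ℝ) ^ 2 := by
    refine Finset.sum_congr rfl fun n _ => ?_
    have h9 : (9 : ℝ) = 3 ^ 2 := by norm_num
    rw [h9, pow_right_comm, mul_pow]
  rw [e2]
  rw [e3] at h2
  exact h2

theorem av_intG4 (k i : ℕ) (hi : i ≤ k) :
    av (PP (2 ^ (k + 1))) (fun T => ∑ q ∈ Finset.Ioc (2 ^ (k - i)) (2 ^ (k + 1 - i)),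
      (GM T (2 ^ i * q) - GM T (2 ^ i * (q - 1))) ^ 4) ≤
      2 ^ i * ((k : ℝ) + 4) * (3 * 2 ^ (k + 1) * ((k : ℝ) + 2) ^ 10) := by
  have hX : 2 ^ i * 2 ^ (k + 1 - i) = 2 ^ (k + 1) := by
    rw [← pow_add]
    congr 1
    omega
  rw [av_sum]
  have h1 : ∀ q ∈ Finset.Ioc (2 ^ (k - i)) (2 ^ (k + 1 - i)),
      av (PP (2 ^ (k + 1))) (fun T => (GM T (2 ^ i * q) - GM T (2 ^ i * (q - 1))) ^ 4) ≤
        2 ^ i * ((k : ℝ) + 4) * ∑ b ∈ (Finset.Icc 1 (2 ^ (k + 1))).filter Squarefree,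
          (9 : ℝ) ^ om b * (cN (2 ^ i * (q - 1)) (2 ^ i * q) b : ℝ) ^ 2 := by
    intro q hq
    rw [Finset.mem_Ioc] at hq
    have hp : 1 ≤ 2 ^ (k - i) := Nat.one_le_two_pow
    have hq1 : 1 ≤ q - 1 := by omega
    have hpi : 1 ≤ 2 ^ i := Nat.one_le_two_pow
    have hzz : 2 ^ i * (q - 1) ≤ 2 ^ i * q := Nat.mul_le_mul_left _ (Nat.sub_le _ _)
    have hzX : 2 ^ i * q ≤ 2 ^ (k + 1) := by rw [← hX]; exact Nat.mul_le_mul_left _ hq.2
    have h := int4 (2 ^ (k + 1)) (2 ^ i * (q - 1)) (2 ^ i * q) hzz hzX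
    refine h.trans ?_
    have hs := sum_sq_cN (2 ^ i * (q - 1)) (2 ^ i * q) (by nlinarith) hzz (by
      have : q ≤ 2 * (q - 1) := by omega
      calc 2 ^ i * q ≤ 2 ^ i * (2 * (q - 1)) := Nat.mul_le_mul_left _ this
        _ = 2 * (2 ^ i * (q - 1)) := by ring)
    have hs2 : ∑ b ∈ (Finset.Icc 1 (2 ^ i * q)).filter Squarefree,
        (cN (2 ^ i * (q - 1)) (2 ^ i * q) b : ℝ) ^ 2 ≤ 2 ^ i * ((k : ℝ) + 4) := by
      refine hs.trans ?_
      have e1 : (((2 ^ i * q : ℕ) : ℝ) - ((2 ^ i * (q - 1) : ℕ) : ℝ)) = 2 ^ i := by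
        push_cast
        rw [Nat.cast_sub (by omega)]
        push_cast
        ring
      rw [e1]
      refine mul_le_mul_of_nonneg_left ?_ (by positivity)
      have hlog : Real.log ((2 ^ i * q : ℕ) : ℝ) ≤ (k : ℝ) + 1 := by
        have hle : ((2 ^ i * q : ℕ) : ℝ) ≤ 2 ^ (k + 1) := by exact_mod_cast hzX
        have hpos : (0 : ℝ) < ((2 ^ i * q : ℕ) : ℝ) := by
          have : 0 < 2 ^ i * q := Nat.mul_pos (by positivity) (by omega)
          exact_mod_cast this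
        refine (Real.log_le_log hpos hle).trans ?_
        rw [Real.log_pow]
        have h3 : Real.log 2 ≤ 1 := by
          have := Real.log_two_lt_d9
          linarith
        push_cast
        have : (0 : ℝ) ≤ (k : ℝ) + 1 := by positivity
        nlinarith
      linarith
    have hmono : ∑ n ∈ (Finset.Icc 1 (2 ^ i * q)).filter Squarefree,
        (9 : ℝ) ^ om n * (cN (2 ^ i * (q - 1)) (2 ^ i * q) n : ℝ) ^ 2 ≤
        ∑ b ∈ (Finset.Icc 1 (2 ^ (k + 1))).filter Squarefree,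
          (9 : ℝ) ^ om b * (cN (2 ^ i * (q - 1)) (2 ^ i * q) b : ℝ) ^ 2 := by
      refine Finset.sum_le_sum_of_subset_of_nonneg ?_ fun n _ _ => by positivity
      exact Finset.filter_subset_filter _ (Finset.Icc_subset_Icc le_rfl hzX)
    exact mul_le_mul hs2 hmono (Finset.sum_nonneg fun n _ => by positivity) (by positivity)
  refine (Finset.sum_le_sum h1).trans ?_
  rw [← Finset.mul_sum]
  exact mul_le_mul_of_nonneg_left (sum_w_cN k i hi) (by positivity)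

theorem bin_term' (F : ℕ → ℝ) (k i N : ℕ) (hi : i < k) (h1 : 2 ^ k ≤ N) (h2 : N < 2 ^ (k + 1)) :
    (F (2 ^ i * (N / 2 ^ i)) - F (2 ^ (i + 1) * (N / 2 ^ (i + 1)))) ^ 4 ≤
      ∑ q ∈ Finset.Ioc (2 ^ (k - i)) (2 ^ (k + 1 - i)), (F (2 ^ i * q) - F (2 ^ i * (q - 1))) ^ 4 := by
  have hdiv : N / 2 ^ (i + 1) = (N / 2 ^ i) / 2 := by
    rw [pow_succ, Nat.div_div_eq_div_mul]
  rw [hdiv]
  have hpi : 0 < 2 ^ i := by positivity
  have hlo : 2 ^ (k - i) ≤ N / 2 ^ i := by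
    rw [Nat.le_div_iff_mul_le hpi, ← pow_add]
    have : k - i + i = k := by omega
    rw [this]
    exact h1
  have hup : N / 2 ^ i < 2 ^ (k + 1 - i) := by
    rw [Nat.div_lt_iff_lt_mul hpi, ← pow_add]
    have : k + 1 - i + i = k + 1 := by omega
    rw [this]
    exact h2
  have hev : 2 ^ (k - i) = 2 * 2 ^ (k - i - 1) := by
    rw [← pow_succ']
    congr 1
    omega
  set q := N / 2 ^ i with hq
  have hnn : ∀ r : ℕ, 0 ≤ (F (2 ^ i * r) - F (2 ^ i * (r - 1))) ^ 4 := fun r => by positivity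
  rcases Nat.even_or_odd q with he | ho
  · obtain ⟨r, hr⟩ := he
    have h1 : 2 ^ (i + 1) * (q / 2) = 2 ^ i * q := by
      have : q / 2 = r := by omega
      rw [this, hr, pow_succ]; ring
    rw [h1, sub_self]
    have : (0 : ℝ) ^ 4 = 0 := by norm_num
    rw [this]
    exact Finset.sum_nonneg fun r _ => hnn r
  · obtain ⟨r, hr⟩ := ho
    have h1 : 2 ^ (i + 1) * (q / 2) = 2 ^ i * (q - 1) := by
      have h2 : q / 2 = r := by omega
      have h3 : q - 1 = 2 * r := by omega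
      rw [h2, h3, pow_succ]; ring
    rw [h1]
    exact Finset.single_le_sum (f := fun q => (F (2 ^ i * q) - F (2 ^ i * (q - 1))) ^ 4)
      (fun r _ => hnn r) (Finset.mem_Ioc.2 ⟨by omega, hup.le⟩)

end Pool.Agent.Helper96.AG
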