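import Pool.Agent.Helper96.AG.A2
import Pool.Agent.Helper96.AF.A1

/-!
# Project AG (MP_a499ba_nt, Q2), block A3

The octave bound (cf. AF/A3). PROOF: `j = k - a`; `bin_dec` (AF/A1), `bin_term'`, `av_intG4`: the average of the sup of the 4-th powers is `≤ k^3 * 2^(k-a) (k+4) * 3 * 2^(k+1) (k+2)^10 ≤ 12 * 4^k (k+2)^14 / 2^a ≤ 12 * 4^k/(k+2)^6 ≤ 2 * 4^k/(k+2)^2`
(`k + 4 ≤ 2 (k+2)`, `(k+2)^4 ≥ 16`). Markov at `4^k`.
-/

set_option autoImplicit false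

namespace Pool.Agent.Helper96.AG

open Finset Pool.Agent.Helper5.RM Pool.Agent.Helper96.AF

theorem octaveG (k a : ℕ) (hak : a ≤ k) (ha : ((k : ℝ) + 2) ^ 20 ≤ 2 ^ a) :
    pr (PP (2 ^ (k + 1))) (fun T => ∃ N ∈ Finset.Ico (2 ^ k) (2 ^ (k + 1)),
      (2 : ℝ) ^ k < (GM T N - GM T (2 ^ (k - a) * (N / 2 ^ (k - a)))) ^ 2) ≤ 2 / ((k : ℝ) + 2) ^ 2 := by
  obtain ⟨j, hj⟩ : ∃ j, j = k - a := ⟨_, rfl⟩
  rw [← hj]
  have hjk : j ≤ k := by omega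
  set FF : Finset ℕ → ℝ := fun T => (j : ℝ) ^ 3 * ∑ i ∈ Finset.range j, ∑ q ∈ Finset.Ioc (2 ^ (k - i)) (2 ^ (k + 1 - i)),
    (GM T (2 ^ i * q) - GM T (2 ^ i * (q - 1))) ^ 4 with hFF
  have hFF0 : ∀ T, 0 ≤ FF T := fun T => by
    rw [hFF]
    exact mul_nonneg (by positivity) (Finset.sum_nonneg fun i _ => Finset.sum_nonneg fun q _ => by positivity)
  have hk0 : (0 : ℝ) < (k : ℝ) + 2 := by positivity
  have hE : av (PP (2 ^ (k + 1))) FF ≤ 6 * ((k : ℝ) + 2) ^ 14 * 2 ^ j * 2 ^ (k + 1) := by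
    rw [hFF, av_mul_left, av_sum]
    have h1 : ∑ i ∈ Finset.range j, av (PP (2 ^ (k + 1))) (fun T => ∑ q ∈ Finset.Ioc (2 ^ (k - i)) (2 ^ (k + 1 - i)),
        (GM T (2 ^ i * q) - GM T (2 ^ i * (q - 1))) ^ 4) ≤
        ∑ i ∈ Finset.range j, (2 : ℝ) ^ i * (((k : ℝ) + 4) * (3 * 2 ^ (k + 1) * ((k : ℝ) + 2) ^ 10)) := by
      refine Finset.sum_le_sum fun i hi => ?_
      have hi' := Finset.mem_range.1 hi
      refine (av_intG4 k i (by omega)).trans (le_of_eq ?_)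
      ring
    have h2 : ∑ i ∈ Finset.range j, (2 : ℝ) ^ i * (((k : ℝ) + 4) * (3 * 2 ^ (k + 1) * ((k : ℝ) + 2) ^ 10)) ≤
        2 ^ j * (((k : ℝ) + 4) * (3 * 2 ^ (k + 1) * ((k : ℝ) + 2) ^ 10)) := by
      rw [← Finset.sum_mul]
      refine mul_le_mul_of_nonneg_right ?_ (by positivity)
      have h3 : ∑ i ∈ Finset.range j, (2 : ℝ) ^ i = 2 ^ j - 1 := by
        rw [geom_sum_eq (by norm_num)]
        norm_num
      rw [h3]
      linarith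
    have h4 : (j : ℝ) ^ 3 ≤ ((k : ℝ) + 2) ^ 3 := by
      refine pow_le_pow_left₀ (by positivity) ?_ 3
      have : (j : ℝ) ≤ k := by exact_mod_cast hjk
      linarith
    calc (j : ℝ) ^ 3 * ∑ i ∈ Finset.range j, av (PP (2 ^ (k + 1))) (fun T => ∑ q ∈ Finset.Ioc (2 ^ (k - i)) (2 ^ (k + 1 - i)),
          (GM T (2 ^ i * q) - GM T (2 ^ i * (q - 1))) ^ 4)
        ≤ ((k : ℝ) + 2) ^ 3 * (2 ^ j * (((k : ℝ) + 4) * (3 * 2 ^ (k + 1) * ((k : ℝ) + 2) ^ 10))) := by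
          refine mul_le_mul h4 (h1.trans h2) ?_ (by positivity)
          exact Finset.sum_nonneg fun i _ => av_nonneg fun T _ => Finset.sum_nonneg fun q _ => by positivity
      _ = 3 * ((k : ℝ) + 2) ^ 13 * 2 ^ j * 2 ^ (k + 1) * ((k : ℝ) + 4) := by ring
      _ ≤ 3 * ((k : ℝ) + 2) ^ 13 * 2 ^ j * 2 ^ (k + 1) * (2 * ((k : ℝ) + 2)) := by
          refine mul_le_mul_of_nonneg_left ?_ (by positivity)
          linarith [(Nat.cast_nonneg k : (0 : ℝ) ≤ k)]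
      _ = 6 * ((k : ℝ) + 2) ^ 14 * 2 ^ j * 2 ^ (k + 1) := by ring
  have hsub : pr (PP (2 ^ (k + 1))) (fun T => ∃ N ∈ Finset.Ico (2 ^ k) (2 ^ (k + 1)),
      (2 : ℝ) ^ k < (GM T N - GM T (2 ^ j * (N / 2 ^ j))) ^ 2) ≤
      pr (PP (2 ^ (k + 1))) (fun T => (2 : ℝ) ^ (2 * k) ≤ FF T) := by
    refine pr_mono fun T _ hT => ?_
    obtain ⟨N, hN, hlt⟩ := hT
    have hN2 := (Finset.mem_Ico.1 hN).2
    set x := GM T N - GM T (2 ^ j * (N / 2 ^ j)) with hx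
    have h1 : (2 : ℝ) ^ (2 * k) ≤ x ^ 4 := by
      have h2 : (2 : ℝ) ^ (2 * k) = (2 ^ k) ^ 2 := by rw [← pow_mul, mul_comm]
      have h3 : x ^ 4 = (x ^ 2) ^ 2 := by ring
      rw [h2, h3]
      exact pow_le_pow_left₀ (by positivity) hlt.le 2
    refine h1.trans ((bin_dec (fun N => GM T N) j N).trans ?_)
    rw [hFF]
    refine mul_le_mul_of_nonneg_left (Finset.sum_le_sum fun i hi => ?_) (by positivity)
    have hi' := Finset.mem_range.1 hi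
    exact bin_term' (fun N => GM T N) k i N (by omega) (Finset.mem_Ico.1 hN).1 hN2
  refine hsub.trans ((markov (fun T _ => hFF0 T) (by positivity) hE).trans ?_)
  have h6 : 6 * ((k : ℝ) + 2) ^ 14 * 2 ^ j * 2 ^ (k + 1) / 2 ^ (2 * k) = 12 * ((k : ℝ) + 2) ^ 14 / 2 ^ a := by
    rw [div_eq_div_iff (by positivity) (by positivity)]
    have h7 : (2 : ℝ) ^ k = 2 ^ j * 2 ^ a := by
      rw [← pow_add]
      congr 1
      omega
    have h8 : (2 : ℝ) ^ (2 * k) = 2 ^ k * 2 ^ k := by rw [← pow_add]; congr 1; omega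
    rw [h8, pow_succ]
    nth_rewrite 2 [h7]
    ring
  rw [h6]
  have hk2 : (2 : ℝ) ≤ (k : ℝ) + 2 := by linarith [(Nat.cast_nonneg k : (0 : ℝ) ≤ k)]
  calc 12 * ((k : ℝ) + 2) ^ 14 / 2 ^ a ≤ 12 * ((k : ℝ) + 2) ^ 14 / ((k : ℝ) + 2) ^ 20 :=
        div_le_div_of_nonneg_left (by positivity) (by positivity) ha
    _ = 12 / ((k : ℝ) + 2) ^ 6 := by
        rw [div_eq_div_iff (by positivity) (by positivity)]
        ring
    _ ≤ 2 / ((k : ℝ) + 2) ^ 2 := by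
        rw [div_le_div_iff₀ (by positivity) (by positivity)]
        have h9 : (2 : ℝ) ^ 4 ≤ ((k : ℝ) + 2) ^ 4 := pow_le_pow_left₀ (by norm_num) hk2 4
        have h10 : 2 * ((k : ℝ) + 2) ^ 6 = 2 * ((k : ℝ) + 2) ^ 4 * ((k : ℝ) + 2) ^ 2 := by ring
        rw [h10]
        refine mul_le_mul_of_nonneg_right ?_ (by positivity)
        linarith

end Pool.Agent.Helper96.AG
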