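import Pool.Agent.Helper96.AG.N2
import Pool.Agent.Helper5.RM.AZ2

/-!
# Project AG (MP_a499ba_nt, Q2), block B1

Azuma. PROOF: `GM_dec` with `y = Y r`: `GM - NG = ∑_{p ∈ PP N} sg T p * v p T`, `v p T = if p ∈ PP (Y r) then 0 else NG T p (N/p)` (`NG_pred`); `azuma` (Helper5/RM/AZ2) with a one-point index set; see AF/B1.
-/

set_option autoImplicit false

namespace Pool.Agent.Helper96.AG

open Finset Pool.Agent.Helper5.RM Pool.Agent.Helper96.AF

theorem azumaG (r N : ℕ) (hN : Y r ≤ N) (K v0 : ℝ) (hK : 0 < K) (hv0 : 0 ≤ v0) :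
    pr (PP N) (fun T => 2 * K * v0 < (GM T N - NG T (Y r + 1) N) ^ 2 ∧ VG r N T ≤ v0) ≤ 2 * Real.exp (-K) := by
  classical
  set v : ℕ → Finset ℕ → ℝ := fun p T => if p ∈ PP (Y r) then 0 else NG T p (N / p) with hv
  have hsub : PP (Y r) ⊆ PP N := PP_mono hN
  have h := azuma (PP N) ({()} : Finset Unit) (fun p _ T => ((v p T : ℝ) : ℂ))
    (fun p _ _ _ T => by
      simp only [hv]
      by_cases hp : p ∈ PP (Y r)
      · rw [if_pos hp, if_pos hp]
      · rw [if_neg hp, if_neg hp]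
        have := NG_pred p (N / p) T
        simp only at this
        rw [this]) K v0 hK hv0
  refine le_trans (pr_mono fun T _ hT => ?_) h
  obtain ⟨h1, h2⟩ := hT
  rw [Finset.sum_singleton]
  have hsplit : ∀ F : ℕ → ℝ, ∑ p ∈ PP N, (if p ∈ PP (Y r) then 0 else F p) =
      ∑ p ∈ PP N \ PP (Y r), F p := by
    intro F
    rw [← Finset.sum_sdiff hsub]
    have e1 : ∑ p ∈ PP (Y r), (if p ∈ PP (Y r) then 0 else F p) = 0 :=
      Finset.sum_eq_zero fun p hp => by rw [if_pos hp]
    rw [e1, add_zero]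
    refine Finset.sum_congr rfl fun p hp => ?_
    rw [if_neg (Finset.mem_sdiff.1 hp).2]
  constructor
  · have e1 : (∑ p ∈ PP N, (sg T p : ℂ) * ((v p T : ℝ) : ℂ)) =
        ((∑ p ∈ PP N, sg T p * v p T : ℝ) : ℂ) := by
      push_cast
      rfl
    rw [e1, Complex.norm_real, Real.norm_eq_abs, sq_abs]
    have e2 : ∑ p ∈ PP N, sg T p * v p T = GM T N - NG T (Y r + 1) N := by
      rw [GM_dec T (Y r) N hN, add_sub_cancel_left, ← hsplit]
      refine Finset.sum_congr rfl fun p _ => ?_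
      simp only [hv]
      split_ifs <;> simp
    rw [e2]
    exact h1
  · refine le_trans (le_of_eq ?_) h2
    unfold VG
    rw [← hsplit]
    refine Finset.sum_congr rfl fun p _ => ?_
    rw [Finset.sum_singleton, Complex.norm_real, Real.norm_eq_abs, sq_abs]
    simp only [hv]
    split_ifs <;> simp

end Pool.Agent.Helper96.AG
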