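import Pool.Agent.Helper96.AG.Defs

/-!
# Project AG, basic lemmas
-/

set_option autoImplicit false

namespace Pool.Agent.Helper96.AG

open Finset Pool.Agent.Helper5.RM Pool.Agent.Helper96.AF

/-- `NG T y z` only depends on the primes `< y` and `≤ z` in `T` -/
lemma NG_congr {T T' : Finset ℕ} {y z : ℕ} (h : ∀ p, p.Prime → p < y → p ≤ z → (p ∈ T ↔ p ∈ T')) :
    NG T y z = NG T' y z := by
  unfold NG
  refine Finset.sum_congr rfl fun a _ => NN_congr fun p hp h1 h2 => h p hp h1 (h2.trans (Nat.div_le_self _ _))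

lemma gf_congr {T T' : Finset ℕ} {n : ℕ} (h : ∀ p ∈ n.primeFactors, (p ∈ T ↔ p ∈ T')) : gf T n = gf T' n := by
  unfold gf
  exact Finset.prod_congr rfl fun p hp => by rw [sg_congr (h p hp)]

lemma GM_congr {T T' : Finset ℕ} {N : ℕ} (h : ∀ p, p.Prime → p ≤ N → (p ∈ T ↔ p ∈ T')) :
    GM T N = GM T' N := by
  unfold GM
  refine Finset.sum_congr rfl fun n hn => gf_congr fun p hp => ?_
  rw [Finset.mem_Icc] at hn
  exact h p (Nat.prime_of_mem_primeFactors hp) ((Nat.le_of_mem_primeFactors hp).trans hn.2)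

lemma NG_pred (y z : ℕ) : Pred y (fun T => NG T y z) := by
  intro T
  refine NG_congr fun p _ hp _ => ?_
  simp [hp]

lemma HG_nonneg (r : ℕ) (T : Finset ℕ) (n : ℕ) : 0 ≤ HG r T n := by
  unfold HG
  refine le_trans (sq_nonneg (NG T (Y r + 1) n)) (Finset.le_sup' (fun y => NG T y n ^ 2) ?_)
  rw [Finset.mem_Icc]
  exact ⟨le_rfl, Nat.succ_le_succ (Y_mono (Nat.le_succ r))⟩

lemma le_HG {r y : ℕ} (T : Finset ℕ) (n : ℕ) (h1 : Y r < y) (h2 : y ≤ Y (r + 1) + 1) :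
    NG T y n ^ 2 ≤ HG r T n := by
  unfold HG
  exact Finset.le_sup' (fun y => NG T y n ^ 2) (Finset.mem_Icc.2 ⟨h1, h2⟩)

lemma HG_congr {r : ℕ} {T T' : Finset ℕ} {n : ℕ}
    (h : ∀ p, p.Prime → p ≤ Y (r + 1) → p ≤ n → (p ∈ T ↔ p ∈ T')) : HG r T n = HG r T' n := by
  unfold HG
  refine Finset.sup'_congr (GG_ne r) rfl fun y hy => ?_
  rw [Finset.mem_Icc] at hy
  rw [NG_congr (T := T) (T' := T') fun p hp h1 h2 => h p hp (by omega) h2]

lemma JG_nonneg (r Z : ℕ) (T : Finset ℕ) : 0 ≤ JG r Z T := by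
  unfold JG
  refine div_nonneg (Finset.sum_nonneg fun n _ => ?_) (by positivity)
  have := HG_nonneg r T n
  positivity

lemma JG_mono {r Z Z' : ℕ} (h : Z ≤ Z') (T : Finset ℕ) : JG r Z T ≤ JG r Z' T := by
  unfold JG
  refine div_le_div_of_nonneg_right ?_ (by positivity)
  refine Finset.sum_le_sum_of_subset_of_nonneg (Finset.Icc_subset_Icc le_rfl h) fun n _ _ => ?_
  have := HG_nonneg r T n
  positivity

lemma JG_congr {r Z : ℕ} {T T' : Finset ℕ}
    (h : ∀ p, p.Prime → p ≤ Y (r + 1) → p ≤ Z → (p ∈ T ↔ p ∈ T')) : JG r Z T = JG r Z T' := by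
  unfold JG
  congr 1
  refine Finset.sum_congr rfl fun n hn => ?_
  rw [Finset.mem_Icc] at hn
  rw [HG_congr (T := T) (T' := T') fun p hp h1 h2 => h p hp h1 (h2.trans hn.2)]

lemma IG_nonneg (r Z : ℕ) (T : Finset ℕ) : 0 ≤ IG r Z T := by
  unfold IG
  refine div_nonneg (Finset.sum_nonneg fun n _ => ?_) (by positivity)
  positivity

lemma IG_congr {r Z : ℕ} {T T' : Finset ℕ} (h : ∀ p, p.Prime → p ≤ Y r → (p ∈ T ↔ p ∈ T')) :
    IG r Z T = IG r Z T' := by
  unfold IG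
  congr 1
  refine Finset.sum_congr rfl fun n _ => ?_
  rw [NG_congr (T := T) (T' := T') fun p hp h1 _ => h p hp (by omega)]

lemma VG_congr {r N : ℕ} {T T' : Finset ℕ} (h : ∀ p, p.Prime → p ≤ N → (p ∈ T ↔ p ∈ T')) :
    VG r N T = VG r N T' := by
  unfold VG
  refine Finset.sum_congr rfl fun p _ => ?_
  rw [NG_congr (T := T) (T' := T') fun q hq _ h2 => h q hq (h2.trans (Nat.div_le_self N p))]

lemma FP_congr {y : ℕ} {T T' : Finset ℕ} (h : ∀ p, p.Prime → p ≤ y → (p ∈ T ↔ p ∈ T')) : FP y T = FP y T' := by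
  unfold FP
  refine Finset.prod_congr rfl fun p hp => ?_
  rw [mem_PP] at hp
  rw [sg_congr (h p hp.1 hp.2)]

lemma dd_congr {S T T' : Finset ℕ} (h : ∀ p ∈ S, (p ∈ T ↔ p ∈ T')) (t : ℝ) : dd S T t = dd S T' t := by
  unfold dd
  exact Finset.prod_congr rfl fun p hp => by rw [sg_congr (h p hp)]

lemma DG_congr {L : ℝ} {r : ℕ} {T T' : Finset ℕ} (h : ∀ p, p.Prime → p ≤ Y r → (p ∈ T ↔ p ∈ T')) :
    DG L r T = DG L r T' := by
  unfold DG
  congr 1
  funext t
  rw [dd_congr (T' := T') fun p hp => h p (mem_PP.1 hp).1 (mem_PP.1 hp).2]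

lemma BJ_congr {K : ℕ} {η : ℝ} {j : ℕ} {T T' : Finset ℕ} (h : ∀ p, p.Prime → p ≤ Y j → (p ∈ T ↔ p ∈ T')) :
    BJ K η j T ↔ BJ K η j T' := by
  unfold BJ
  rw [dd_congr (T' := T') fun p hp => h p (mem_PP.1 hp).1 (mem_PP.1 hp).2]

lemma WG_nonneg (L t : ℝ) : 0 ≤ WG L t := by
  unfold WG
  split_ifs <;> positivity

/-- on `|t| ≤ 1` the weight is at most `L^2` and at most `1/t^2` -/
lemma WG_le {L : ℝ} (hL : 1 ≤ L) {t : ℝ} (ht : |t| ≤ 1) : WG L t ≤ L ^ 2 ∧ (t ≠ 0 → WG L t ≤ 1 / t ^ 2) := by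
  have hL0 : 0 < L := by linarith
  unfold WG
  constructor
  · split_ifs with h1
    · exact le_rfl
    · rw [not_le] at h1
      have h2 : 0 < |t| := lt_trans (by positivity) h1
      rw [← sq_abs t, div_le_iff₀ (by positivity), ← mul_pow]
      rw [div_lt_iff₀ hL0] at h1
      have : 1 ≤ L * |t| := by linarith [mul_comm L |t|]
      exact one_le_pow₀ this
  · intro h0
    have h2 : 0 < |t| := abs_pos.2 h0
    split_ifs with h1
    · rw [← sq_abs t, le_div_iff₀ (by positivity), ← mul_pow]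
      rw [le_div_iff₀ hL0] at h1
      have : L * |t| ≤ 1 := by linarith [mul_comm L |t|]
      exact pow_le_one₀ (by positivity) this
    · exact le_rfl

end Pool.Agent.Helper96.AG
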