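import Pool.Agent.Helper96.AG.C1
import Pool.Agent.Helper96.AG.C4

/-!
# Project AG (MP_a499ba_nt, Q2), block C5

PROOF: cf. AF/C5 (no small primes here). `r0 = R - (log2 R + c)`, `H = 2^((A+8) R)`; `PP N \ PP (Y r0)` is the disjoint union of the `(BL r).filter (· ≤ N)`, `r0 ≤ r ≤ R`; `block_gen` with `u p m = NG T p m`, `gg = HG r T` (`le_HG`, `HG_nonneg`): `VG r0 N T ≤ C N ∑ JG r N T + ∑ ERG r N H T`.
Markov for `∑ ERG` at `N/2^R` with `av_ERG`: `≤ (R+1) 2 (N/H)(1 + log N)(3 + log N) 2^R/N ≤ 2^(-A R)` for large `R` (`3 + log N ≤ 2^(R+2)`).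
-/

set_option autoImplicit false

namespace Pool.Agent.Helper96.AG

open Finset Pool.Agent.Helper5.RM Pool.Agent.Helper96.AF

private lemma c5_cube_le_two_pow : ∀ R : ℕ, 10 ≤ R → R ^ 3 ≤ 2 ^ R := by
  intro R hR
  induction R, hR using Nat.le_induction with
  | base => norm_num
  | succ n hn ih =>
    rw [pow_succ 2 n]
    nlinarith [Nat.mul_le_mul hn (Nat.mul_le_mul hn hn), Nat.mul_le_mul hn (Nat.mul_self_le_mul_self hn),
      mul_le_mul hn (le_refl (n * n)) (Nat.zero_le _) (Nat.zero_le _), Nat.mul_le_mul hn (le_refl n)]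

/-- the sum over the large primes is at most the blocks -/
private lemma c5_VG_split (r0 R N : ℕ) (hN : N < Y (R + 1)) (h0 : r0 ≤ R) (T : Finset ℕ) :
    VG r0 N T ≤ ∑ r ∈ Finset.Icc r0 R, ∑ p ∈ (BL r).filter (· ≤ N), NG T p (N / p) ^ 2 := by
  have hsub : PP N \ PP (Y r0) ⊆ (Finset.Icc r0 R).biUnion (fun r => (BL r).filter (· ≤ N)) := by
    intro p hp
    rw [Finset.mem_sdiff, mem_PP, mem_PP] at hp
    obtain ⟨hp, hp'⟩ := hp
    have h : Y r0 < p := by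
      by_contra h
      exact hp' ⟨hp.1, not_lt.1 h⟩
    have hex : ∃ r, p ≤ Y (r + 1) ∧ r0 ≤ r := ⟨R, (hp.2.trans hN.le), h0⟩
    classical
    obtain ⟨h1, h2⟩ := Nat.find_spec hex
    set r := Nat.find hex with hr
    rw [Finset.mem_biUnion]
    refine ⟨r, Finset.mem_Icc.2 ⟨h2, Nat.find_min' hex ⟨hp.2.trans hN.le, h0⟩⟩, ?_⟩
    rw [Finset.mem_filter, mem_BL]
    refine ⟨⟨hp.1, ?_, h1⟩, hp.2⟩
    rcases Nat.eq_or_lt_of_le h2 with h3 | h3
    · rw [← h3]; exact h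
    · by_contra h4
      rw [not_lt] at h4
      have h5 : r - 1 + 1 = r := by omega
      have := Nat.find_min hex (m := r - 1) (by omega)
      exact this ⟨by rw [h5]; exact h4, by omega⟩
  unfold VG
  refine (Finset.sum_le_sum_of_subset_of_nonneg hsub fun p _ _ => sq_nonneg _).trans ?_
  rw [Finset.sum_biUnion]
  intro r _ s _ hrs
  rw [Function.onFun, Finset.disjoint_left]
  intro p hp hp'
  rw [Finset.mem_filter, mem_BL] at hp hp'
  rcases Nat.lt_or_gt_of_ne hrs with h | h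
  · have := Y_mono (show r + 1 ≤ s from h)
    omega
  · have := Y_mono (show s + 1 ≤ r from h)
    omega

private lemma c5_log_le (R N : ℕ) (hR : 1 ≤ R) (hN0 : 1 ≤ N) (hN : N < Y (R + 1)) :
    1 + Real.log N ≤ 2 ^ (R + 1) := by
  have h0 : (0 : ℝ) < N := by exact_mod_cast hN0
  have h1 : Real.log N ≤ Real.log (Y (R + 1)) := Real.log_le_log h0 (by exact_mod_cast hN.le)
  rw [log_Y] at h1
  have h2 := Real.log_two_lt_d9
  have h3 : (4 : ℝ) ≤ 2 ^ (R + 1) := by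
    calc (4 : ℝ) = 2 ^ 2 := by norm_num
      _ ≤ 2 ^ (R + 1) := pow_le_pow_right₀ (by norm_num) (by omega)
  nlinarith

theorem VG_bound : ∀ A c : ℕ, ∃ (R1 : ℕ) (C : ℝ), 0 < C ∧ ∀ R N : ℕ, R1 ≤ R → Y R ≤ N → N < Y (R + 1) →
    pr (PP N) (fun T => C * N * (∑ r ∈ Finset.Icc (R - (Nat.log 2 R + c)) R, JG r N T) + N / 2 ^ R <
      VG (R - (Nat.log 2 R + c)) N T) ≤ 1 / 2 ^ (A * R) := by
  intro A c
  obtain ⟨C, hC, hblock⟩ := block_gen
  refine ⟨max 10 (4 * (A + 8) * 2 ^ c), C, hC, ?_⟩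
  intro R N hR1 hN1 hN2
  have hR10 : 10 ≤ R := (le_max_left _ _).trans hR1
  have hRK : 4 * (A + 8) * 2 ^ c ≤ R := (le_max_right _ _).trans hR1
  have hN0 : 1 ≤ N := (Y_pos R).trans_le hN1
  have hNpos : (0 : ℝ) < N := by exact_mod_cast hN0
  obtain ⟨m, hm⟩ : ∃ m, m = Nat.log 2 R + c := ⟨_, rfl⟩
  rw [← hm]
  -- sizes
  have hL1 : 2 ^ Nat.log 2 R ≤ R := Nat.pow_log_le_self 2 (by omega)
  have hm1 : 2 ^ m ≤ R * 2 ^ c := by
    rw [hm, pow_add]; exact Nat.mul_le_mul_right _ hL1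
  have hbig : 2 ^ m * (4 * (A + 8) * R) ≤ 2 ^ R := by
    calc 2 ^ m * (4 * (A + 8) * R) ≤ (R * 2 ^ c) * (4 * (A + 8) * R) := Nat.mul_le_mul_right _ hm1
      _ = (4 * (A + 8) * 2 ^ c) * (R * R) := by ring
      _ ≤ R * (R * R) := Nat.mul_le_mul_right _ hRK
      _ = R ^ 3 := by ring
      _ ≤ 2 ^ R := c5_cube_le_two_pow R hR10
  have hmR : m < R := by
    have h1 : 2 ^ m < 2 ^ R := by
      refine lt_of_lt_of_le ?_ hbig
      have h3 : 4 * 8 * 10 ≤ 4 * (A + 8) * R :=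
        Nat.mul_le_mul (Nat.mul_le_mul_left 4 (Nat.le_add_left 8 A)) hR10
      exact lt_mul_of_one_lt_right (by positivity) (by omega)
    exact (Nat.pow_lt_pow_iff_right (by norm_num)).1 h1
  obtain ⟨r0, hr0⟩ : ∃ r0, r0 = R - m := ⟨_, rfl⟩
  rw [← hr0]
  have hr0m : r0 + m = R := by omega
  have hr0R : r0 ≤ R := by omega
  have h2r0 : 4 * (A + 8) * R ≤ 2 ^ r0 := by
    have h1 : 2 ^ m * (4 * (A + 8) * R) ≤ 2 ^ m * 2 ^ r0 := by
      rw [← pow_add, add_comm m r0, hr0m]; exact hbig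
    exact Nat.le_of_mul_le_mul_left h1 (by positivity)
  obtain ⟨H, hH⟩ : ∃ H, H = 2 ^ ((A + 8) * R) := ⟨_, rfl⟩
  have hH1 : 2 ≤ H := by
    rw [hH]
    calc 2 = 2 ^ 1 := by norm_num
      _ ≤ 2 ^ ((A + 8) * R) := Nat.pow_le_pow_right (by norm_num) (by nlinarith)
  have hHY : ∀ r, r0 ≤ r → H ^ 4 ≤ Y r := by
    intro r hr
    refine le_trans ?_ (Y_mono hr)
    rw [hH, ← pow_mul]
    unfold Y
    refine Nat.pow_le_pow_right (by norm_num) ?_
    calc (A + 8) * R * 4 = 4 * (A + 8) * R := by ring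
      _ ≤ 2 ^ r0 := h2r0
  have hlogN := c5_log_le R N (by omega) hN0 hN2
  have hlogN0 : 0 ≤ Real.log N := Real.log_nonneg (by exact_mod_cast hN0)
  have hlogN' : 3 + Real.log N ≤ 2 ^ (R + 2) := by
    have h3 : (4 : ℝ) ≤ 2 ^ (R + 1) := by
      calc (4 : ℝ) = 2 ^ 2 := by norm_num
        _ ≤ 2 ^ (R + 1) := pow_le_pow_right₀ (by norm_num) (by omega)
    have h4 : (2 : ℝ) ^ (R + 2) = 2 ^ (R + 1) + 2 ^ (R + 1) := by ring
    rw [h4]
    linarith
  -- the decomposition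
  have hdec : ∀ T ⊆ PP N, C * N * (∑ r ∈ Finset.Icc r0 R, JG r N T) + N / 2 ^ R < VG r0 N T →
      (N : ℝ) / 2 ^ R ≤ ∑ r ∈ Finset.Icc r0 R, ERG r N H T := by
    intro T _ hT
    by_contra hcon
    rw [not_le] at hcon
    have h1 := c5_VG_split r0 R N hN2 hr0R T
    have h2 : ∑ r ∈ Finset.Icc r0 R, ∑ p ∈ (BL r).filter (· ≤ N), NG T p (N / p) ^ 2 ≤
        ∑ r ∈ Finset.Icc r0 R, (C * N * JG r N T + ERG r N H T) := by
      refine Finset.sum_le_sum fun r hr => ?_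
      exact hblock r N H (fun p m => NG T p m) (fun m => HG r T m) hH1
        (hHY r (Finset.mem_Icc.1 hr).1) (fun m => HG_nonneg r T m) (fun p hp m => by
          rw [mem_BL] at hp
          exact le_HG T m hp.2.1 (hp.2.2.trans (Nat.le_succ _)))
    rw [Finset.sum_add_distrib, ← Finset.mul_sum] at h2
    linarith
  refine (pr_mono hdec).trans ?_
  have hav : av (PP N) (fun T => ∑ r ∈ Finset.Icc r0 R, ERG r N H T) ≤
      (R + 1) * (2 * (N / H) * (1 + Real.log N) * (3 + Real.log N)) := by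
    rw [av_sum]
    refine (Finset.sum_le_card_nsmul _ _ (2 * (N / H) * (1 + Real.log N) * (3 + Real.log N))
      fun r _ => av_ERG r N H hN0 hH1).trans ?_
    rw [nsmul_eq_mul, Nat.card_Icc]
    have h1 : ((R + 1 - r0 : ℕ) : ℝ) ≤ R + 1 := by
      have : R + 1 - r0 ≤ R + 1 := Nat.sub_le _ _
      exact_mod_cast this
    exact mul_le_mul_of_nonneg_right h1 (by positivity)
  refine (markov (fun T _ => Finset.sum_nonneg fun r _ => ?_) (by positivity) hav).trans ?_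
  · unfold ERG
    exact Finset.sum_nonneg fun p _ => mul_nonneg (by positivity) (Finset.sum_nonneg fun m _ => sq_nonneg _)
  have hR2 : ((R : ℝ) + 1) ≤ 2 ^ R := by
    have h1 : R < 2 ^ R := Nat.lt_two_pow_self
    exact_mod_cast h1
  have hHr : (H : ℝ) = 2 ^ ((A + 8) * R) := by rw [hH]; push_cast; rfl
  calc (R + 1) * (2 * ((N : ℝ) / H) * (1 + Real.log N) * (3 + Real.log N)) / (N / 2 ^ R)
      = (R + 1) * 2 * (1 + Real.log N) * (3 + Real.log N) * 2 ^ R / H := by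
        have : (0 : ℝ) < H := by rw [hHr]; positivity
        field_simp
    _ ≤ 2 ^ R * 2 * 2 ^ (R + 1) * 2 ^ (R + 2) * 2 ^ R / H := by gcongr
    _ = 2 ^ (4 * R + 4) / 2 ^ ((A + 8) * R) := by
        have e : (2 : ℝ) ^ (4 * R + 4) = 2 ^ R * 2 * 2 ^ (R + 1) * 2 ^ (R + 2) * 2 ^ R := by ring
        rw [hHr, e]
    _ ≤ 1 / 2 ^ (A * R) := by
        rw [div_le_div_iff₀ (by positivity) (by positivity), one_mul, ← pow_add]
        refine pow_le_pow_right₀ (by norm_num) ?_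
        nlinarith

end Pool.Agent.Helper96.AG
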