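import Pool.Agent.Helper96.AG.N2
import Pool.Agent.Helper96.AF.D2
import Pool.Agent.Helper5.RM.HC4

/-!
# Project AG (MP_a499ba_nt, Q2), block D3

PROOF: as AF/D3a and AF/D3b with `NG`, `NG_step`, `NG_step'`, `NG_dec`, `HG` in place of `NN`, `NN_step`, `NN_step'`, `NN_dec`, `GG`.
-/

set_option autoImplicit false

namespace Pool.Agent.Helper96.AG

open Finset Pool.Agent.Helper5.RM Pool.Agent.Helper96.AF

private lemma abs_pow_le_mid (a b : ℝ) {q : ℕ} (hq : 1 ≤ q) : |a| ^ q ≤ (|a + b| ^ q + |a - b| ^ q) / 2 := by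
  have h1 : 2 * |a| ≤ |a + b| + |a - b| := by
    have h2 := abs_add_le (a + b) (a - b)
    have h3 : a + b + (a - b) = 2 * a := by ring
    rw [h3, abs_mul, abs_two] at h2
    exact h2
  have h4 : (2 * |a|) ^ q ≤ 2 ^ (q - 1) * (|a + b| ^ q + |a - b| ^ q) :=
    (pow_le_pow_left₀ (by positivity) h1 q).trans (add_pow_le (abs_nonneg _) (abs_nonneg _) q)
  have h5 : (2 : ℝ) ^ q = 2 ^ (q - 1) * 2 := by rw [← pow_succ]; congr 1; omega
  rw [mul_pow, h5, mul_assoc] at h4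
  have h6 := le_of_mul_le_mul_left h4 (by positivity)
  linarith

theorem av_HG_doob (q : ℕ) (hq : 1 ≤ q) (r n : ℕ) (T0 : Finset ℕ) (h0 : T0 ⊆ PP (Y r)) :
    av (BL r) (fun T => HG r (T0 ∪ T) n ^ q) ≤
      4 * av (BL r) (fun T => NG (T0 ∪ T) (Y (r + 1) + 1) n ^ (2 * q)) := by
  have hy : Y r + 1 ≤ Y (r + 1) + 1 := Nat.succ_le_succ (Y_mono (Nat.le_succ r))
  have hNf : ∀ (y z : ℕ) (T : Finset ℕ), NG (T0 ∪ T.filter (· < y)) y z = NG (T0 ∪ T) y z := by
    intro y z T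
    refine NG_congr fun p _ hp _ => ?_
    simp [hp]
  have hy0 : ∀ y, Y r + 1 ≤ y → y ∉ T0 := by
    intro y hy1 hy2
    have := (mem_PP.1 (h0 hy2)).2
    omega
  have hD := doob (BL r) (fun y T => |NG (T0 ∪ T.filter (· < y)) y n| ^ q) (Y r + 1) (Y (r + 1) + 1) hy
    (fun y T => by positivity)
    (fun y T => by
      show |NG (T0 ∪ T.filter (· < y)) y n| ^ q = |NG (T0 ∪ (T.filter (· < y)).filter (· < y)) y n| ^ q
      rw [hNf, hNf y n (T.filter (· < y)), hNf])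
    (fun y hy1 hy2 hyB T hT => by
      show |NG (T0 ∪ T.filter (· < y)) y n| ^ q ≤ (|NG (T0 ∪ T.filter (· < y + 1)) (y + 1) n| ^ q +
        |NG (T0 ∪ (insert y T).filter (· < y + 1)) (y + 1) n| ^ q) / 2
      rw [hNf, hNf, hNf, NG_step _ _ _ (mem_BL.1 hyB).1, NG_step _ _ _ (mem_BL.1 hyB).1]
      have hyT : y ∉ T0 ∪ T := by
        rw [Finset.mem_union, not_or]
        refine ⟨hy0 y hy1, fun h => ?_⟩
        have := (Finset.mem_filter.1 (hT h)).2
        omega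
      have hyT' : y ∈ T0 ∪ insert y T := Finset.mem_union_right _ (Finset.mem_insert_self y T)
      have hc : ∀ z, NG (T0 ∪ insert y T) y z = NG (T0 ∪ T) y z := by
        intro z
        refine NG_congr fun p _ hp _ => ?_
        rw [Finset.mem_union, Finset.mem_union, Finset.mem_insert]
        have : p ≠ y := hp.ne
        tauto
      rw [sg_not_mem hyT, sg_mem hyT', hc, hc, one_mul, neg_one_mul, ← sub_eq_add_neg]
      exact abs_pow_le_mid _ _ hq)
    (fun y hy1 hy2 hyB T hT => by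
      show |NG (T0 ∪ T.filter (· < y)) y n| ^ q ≤ |NG (T0 ∪ T.filter (· < y + 1)) (y + 1) n| ^ q
      have hyp : ¬ y.Prime := fun h => hyB (mem_BL.2 ⟨h, by omega, by omega⟩)
      rw [hNf, hNf, NG_step' _ _ _ hyp])
  refine le_trans (le_trans (av_mono fun T hT => ?_) hD) ?_
  · show HG r (T0 ∪ T) n ^ q ≤
      ((Finset.Icc (Y r + 1) (Y (r + 1) + 1)).sup' (Finset.nonempty_Icc.2 hy)
        (fun y => |NG (T0 ∪ T.filter (· < y)) y n| ^ q)) ^ 2
    obtain ⟨y, hy1, hy2⟩ := Finset.exists_mem_eq_sup' (GG_ne r) (fun y => NG (T0 ∪ T) y n ^ 2)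
    have h1 : HG r (T0 ∪ T) n = NG (T0 ∪ T) y n ^ 2 := by
      unfold HG; exact hy2
    have h2 : |NG (T0 ∪ T.filter (· < y)) y n| ^ q ≤
        (Finset.Icc (Y r + 1) (Y (r + 1) + 1)).sup' (Finset.nonempty_Icc.2 hy)
          (fun y => |NG (T0 ∪ T.filter (· < y)) y n| ^ q) :=
      Finset.le_sup' (fun y => |NG (T0 ∪ T.filter (· < y)) y n| ^ q) hy1
    calc HG r (T0 ∪ T) n ^ q = (|NG (T0 ∪ T.filter (· < y)) y n| ^ q) ^ 2 := by
          rw [h1, hNf, ← sq_abs, ← pow_mul, ← pow_mul, mul_comm]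
      _ ≤ _ := pow_le_pow_left₀ (by positivity) h2 2
  · refine mul_le_mul_of_nonneg_left (le_of_eq (av_congr fun T hT => ?_)) (by norm_num)
    show (|NG (T0 ∪ T.filter (· < Y (r + 1) + 1)) (Y (r + 1) + 1) n| ^ q) ^ 2 = _
    rw [hNf, ← pow_mul, mul_comm, pow_mul, sq_abs, ← pow_mul]

theorem av_HG (q : ℕ) (hq : 1 ≤ q) (r n : ℕ) (T0 : Finset ℕ) (h0 : T0 ⊆ PP (Y r)) :
    av (BL r) (fun T => HG r (T0 ∪ T) n ^ q) ≤
      4 * (∑ b ∈ (SB r (Y (r + 1) + 1) n).filter Squarefree,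
        (2 * (q : ℝ) - 1) ^ om b * NG T0 (Y r + 1) (n / b) ^ 2) ^ q := by
  refine (av_HG_doob q hq r n T0 h0).trans ?_
  refine mul_le_mul_of_nonneg_left ?_ (by norm_num)
  have hyp := hyper_sqf q hq (BL r) ((SB r (Y (r + 1) + 1) n).filter Squarefree) (fun b hb => by
    rw [Finset.mem_filter, SB, Finset.mem_filter] at hb
    refine ⟨hb.2, fun p hp => ?_⟩
    rw [mem_BL]
    exact ⟨Nat.prime_of_mem_primeFactors hp, (hb.1.2 p hp).1, Nat.lt_succ_iff.1 (hb.1.2 p hp).2⟩)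
    (fun b => ((NG T0 (Y r + 1) (n / b) : ℝ) : ℂ))
  have e1 : av (BL r) (fun T => NG (T0 ∪ T) (Y (r + 1) + 1) n ^ (2 * q)) =
      av (BL r) (fun T => ‖∑ b ∈ (SB r (Y (r + 1) + 1) n).filter Squarefree,
        (rf T b : ℂ) * ((NG T0 (Y r + 1) (n / b) : ℝ) : ℂ)‖ ^ (2 * q)) := by
    refine av_congr fun T hT => ?_
    have hT' : T ⊆ BL r := by simpa using hT
    have h1 : ∑ b ∈ (SB r (Y (r + 1) + 1) n).filter Squarefree,
        (rf T b : ℂ) * ((NG T0 (Y r + 1) (n / b) : ℝ) : ℂ) =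
        ((NG (T0 ∪ T) (Y (r + 1) + 1) n : ℝ) : ℂ) := by
      rw [NG_dec r (Y (r + 1) + 1) n (T0 ∪ T) (Nat.lt_succ_of_le (Y_mono (Nat.le_succ r)))]
      push_cast
      refine Finset.sum_congr rfl fun b hb => ?_
      rw [Finset.mem_filter, SB, Finset.mem_filter] at hb
      have h2 : rf (T0 ∪ T) b = rf T b := by
        refine rf_congr fun p hp => ?_
        have h3 : p ∉ T0 := fun h => by
          have h4 := (mem_PP.1 (h0 h)).2
          have h5 := (hb.1.2 p hp).1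
          omega
        simp [h3]
      have h6 : NG (T0 ∪ T) (Y r + 1) (n / b) = NG T0 (Y r + 1) (n / b) := by
        refine NG_congr fun p _ hp1 _ => ?_
        have h7 : p ∉ T := fun h => by
          have h8 := (mem_BL.1 (hT' h)).2.1
          omega
        simp [h7]
      rw [h2, h6]
    rw [h1, Complex.norm_real, Real.norm_eq_abs, pow_mul, pow_mul, sq_abs]
  rw [e1]
  refine hyp.trans (le_of_eq ?_)
  congr 1
  refine Finset.sum_congr rfl fun b _ => ?_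
  rw [Complex.norm_real, Real.norm_eq_abs, sq_abs]

end Pool.Agent.Helper96.AG
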