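import Pool.Agent.Helper96.AF.D1

/-!
# Project AG (MP_a499ba_nt, Q2), definitions

Random model of the Liouville function: `gf` is completely multiplicative with independent signs at the primes.
Theorem: almost surely `|∑_{n ≤ x} gf n| ≤ C √x (log log x)^(1/4 + δ)`. Same method as project AF
(`Pool/Agent/Helper96/AF`); here `n = a^2 b`, `b` squarefree, and everything is a sum over `a`.
-/

set_option autoImplicit false

namespace Pool.Agent.Helper96.AG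

open Finset Pool.Agent.Helper5.RM Pool.Agent.Helper96.AF

/-- the random completely multiplicative function -/
noncomputable def gf (T : Finset ℕ) (n : ℕ) : ℝ := ∏ p ∈ n.primeFactors, sg T p ^ n.factorization p

/-- its partial sums -/
noncomputable def GM (T : Finset ℕ) (N : ℕ) : ℝ := ∑ n ∈ Finset.Icc 1 N, gf T n

/-- the sum of `gf T n` over the `n = a^2 b ≤ z`, `b` squarefree with all primes `< y` -/
noncomputable def NG (T : Finset ℕ) (y z : ℕ) : ℝ := ∑ a ∈ Finset.Icc 1 (Nat.sqrt z), NN T y (z / a ^ 2)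

/-- the conditional variance of the primes `> Y r` -/
noncomputable def VG (r N : ℕ) (T : Finset ℕ) : ℝ := ∑ p ∈ PP N \ PP (Y r), NG T p (N / p) ^ 2

/-- the maximum over `y ∈ [Y r + 1, Y (r+1) + 1]` of `NG T y n ^ 2` -/
noncomputable def HG (r : ℕ) (T : Finset ℕ) (n : ℕ) : ℝ :=
  (Finset.Icc (Y r + 1) (Y (r + 1) + 1)).sup' (GG_ne r) (fun y => NG T y n ^ 2)

/-- the logarithmic mean of `HG` -/
noncomputable def JG (r Z : ℕ) (T : Finset ℕ) : ℝ :=
  (∑ n ∈ Finset.Icc 1 Z, HG r T n / ((n : ℝ) * (n + 1))) / 2 ^ r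

/-- the logarithmic mean of `NG T (Y r + 1) n ^ 2` -/
noncomputable def IG (r Z : ℕ) (T : Finset ℕ) : ℝ :=
  (∑ n ∈ Finset.Icc 1 Z, NG T (Y r + 1) n ^ 2 / ((n : ℝ) * (n + 1))) / 2 ^ r

/-- the number of `a` with `z' < a^2 b ≤ z` -/
def cN (z' z b : ℕ) : ℕ := Nat.sqrt (z / b) - Nat.sqrt (z' / b)

/-- `∏_{p ≤ y} (1 + ε_p / √p)` -/
noncomputable def FP (y : ℕ) (T : Finset ℕ) : ℝ := ∏ p ∈ PP y, (1 + sg T p / Real.sqrt p)

/-- `∑_{a ≤ A} a^(-1-2it)` -/
noncomputable def DA (A : ℕ) (t : ℝ) : ℂ := ∑ a ∈ Finset.Icc 1 A, (a : ℂ) ^ (-(1 + 2 * (t : ℂ) * Complex.I))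

/-- the weight, an upper bound (up to a constant) for `‖DA A t‖^2 * ww t` when `L = 1 + log Z`, `A^2 ≤ Z` -/
noncomputable def WG (L t : ℝ) : ℝ :=
  if |t| ≤ 1 / L then L ^ 2 else if |t| ≤ 1 then 1 / t ^ 2 else |t| ^ (-(3 / 2) : ℝ)

/-- the weighted total mass of the chaos at level `r` -/
noncomputable def DG (L : ℝ) (r : ℕ) (T : Finset ℕ) : ℝ := ∫ t, dd (PP (Y r)) T t * WG L t

/-- the levels for the product at `t = 0` -/
noncomputable def xj (K : ℕ) (η : ℝ) (j : ℕ) : ℝ := (K : ℝ) ^ η * (3 / 8) ^ j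

/-- the product at `0` is small at level `j` -/
def BJ (K : ℕ) (η : ℝ) (j : ℕ) (T : Finset ℕ) : Prop := dd (PP (Y j)) T 0 ≤ xj K η j

open Classical in
/-- truncated mass with weight `w` on the set `A` -/
noncomputable def TX (A : Set ℝ) (w : ℝ → ℝ) (a : ℝ) (r : ℕ) (T : Finset ℕ) : ℝ :=
  ∫ t in A, (if AA a r T t then dd (PP (Y r)) T t * w t else 0)

/-- the points with `1 < |t| ≤ K` -/
def Afar (K : ℕ) : Set ℝ := {t | 1 < |t| ∧ |t| ≤ K}

/-- the points with `2^(-j-1) < |t| ≤ 2^(-j)` -/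
def Aj (j : ℕ) : Set ℝ := {t | 1 / 2 ^ (j + 1) < |t| ∧ |t| ≤ 1 / 2 ^ j}

/-- number of dyadic pieces near `0` which need the barrier -/
def J0 (K : ℕ) : ℕ := 20 * (Nat.log 2 K + 1)

open Classical in
/-- the truncated total mass of `2^(-J0) < |t| ≤ K` -/
noncomputable def TG (K : ℕ) (η a : ℝ) (r : ℕ) (T : Finset ℕ) : ℝ :=
  TX (Afar K) (fun t => |t| ^ (-(3 / 2) : ℝ)) a r T +
    ∑ j ∈ Finset.range (J0 K), (if BJ K η j T then 4 ^ (j + 1) * TX (Aj j) (fun _ => 1) a r T else 0)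

/-- the mass of `|t| > K` -/
noncomputable def TF (K r : ℕ) (T : Finset ℕ) : ℝ :=
  ∫ t in {t : ℝ | (K : ℝ) < |t|}, dd (PP (Y r)) T t * |t| ^ (-(3 / 2) : ℝ)

open Classical in
/-- the mass near `0`, without barrier -/
noncomputable def TN (K : ℕ) (η L : ℝ) (r : ℕ) (T : Finset ℕ) : ℝ :=
  ∑ j ∈ Finset.Ico (J0 K) r, (if BJ K η j T then 4 ^ (j + 1) * ∫ t in Aj j, dd (PP (Y r)) T t else 0) +
    (if BJ K η r T then L ^ 2 * ∫ t in {t : ℝ | |t| ≤ 1 / 2 ^ r}, dd (PP (Y r)) T t else 0)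

end Pool.Agent.Helper96.AG
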