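import Pool.Agent.Helper96.AG.E2
import Pool.Agent.Helper96.AG.E4

/-!
# Project AG (MP_a499ba_nt, Q2), block E8

PROOF of `TF_*`: as AF/E8 (`TA_*`), `∫_{|t|>K} |t|^(-3/2) = 4/√K`. `TN_mean`: interchange average and integral, `BJ_mean`, lengths of `Aj j` (`2^(-j)`) and of `|t| ≤ 2^(-r)` (`2 * 2^(-r)`): `∑_{J0 ≤ j < r} 4^(j+1) 2^(-j) C K^η (3/8)^j ≤ C K^η (3/4)^(J0) * 16` and `L^2 * 2 * 2^(-r) * C K^η (3/8)^r`.
-/

set_option autoImplicit false

namespace Pool.Agent.Helper96.AG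

open Finset Pool.Agent.Helper5.RM Pool.Agent.Helper96.AF

private lemma h74_two_le (r : ℕ) : ∀ p ∈ PP (Y r), 2 ≤ p := fun _ hp => two_le_of_mem_PP hp

private lemma h74_meas (K : ℕ) : MeasurableSet {t : ℝ | (K : ℝ) < |t|} :=
  measurableSet_lt measurable_const (by fun_prop)

private lemma h74_int {K : ℕ} (hK : 1 ≤ K) (r : ℕ) (T : Finset ℕ) :
    MeasureTheory.IntegrableOn (fun t : ℝ => dd (PP (Y r)) T t * |t| ^ (-(3 / 2) : ℝ))
      {t : ℝ | (K : ℝ) < |t|} := by
  have h := (integrable_dd_WG (le_refl (1 : ℝ)) r T).integrableOn (s := {t : ℝ | (K : ℝ) < |t|})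
  refine h.congr_fun (fun t ht => ?_) (h74_meas K)
  have hK0 : (1 : ℝ) ≤ K := by exact_mod_cast hK
  have ht1 : ¬ |t| ≤ 1 := by
    have : (K : ℝ) < |t| := ht
    intro h'
    linarith
  show dd (PP (Y r)) T t * WG 1 t = dd (PP (Y r)) T t * |t| ^ (-(3 / 2) : ℝ)
  unfold WG
  rw [if_neg (by rw [div_one]; exact ht1), if_neg ht1]

theorem TF_nonneg (K r : ℕ) (T : Finset ℕ) : 0 ≤ TF K r T := by
  unfold TF
  exact MeasureTheory.integral_nonneg fun t =>
    mul_nonneg (dd_nonneg (h74_two_le r) T t) (Real.rpow_nonneg (abs_nonneg t) _)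

theorem TF_dep (K r : ℕ) (T : Finset ℕ) : TF K r T = TF K r (T ∩ PP (Y r)) := by
  unfold TF
  refine MeasureTheory.integral_congr_ae (Filter.Eventually.of_forall fun t => ?_)
  show dd (PP (Y r)) T t * |t| ^ (-(3 / 2) : ℝ) = dd (PP (Y r)) (T ∩ PP (Y r)) t * |t| ^ (-(3 / 2) : ℝ)
  rw [dd_congr (T := T) (T' := T ∩ PP (Y r)) (fun p hp => by simp [hp])]

private lemma h74_av_mul (S : Finset ℕ) (F : Finset ℕ → ℝ) (c : ℝ) :
    av S (fun T => F T * c) = av S F * c := by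
  rw [mul_comm, ← av_mul_left]
  exact av_congr fun T _ => mul_comm _ _

theorem TF_mart (K r : ℕ) (hK : 1 ≤ K) (T0 : Finset ℕ) (hT0 : T0 ⊆ PP (Y r)) :
    av (BL r) (fun T => TF K (r + 1) (T0 ∪ T)) = TF K r T0 := by
  unfold TF
  rw [av_integral (BL r) (fun T t => dd (PP (Y (r + 1))) (T0 ∪ T) t * |t| ^ (-(3 / 2) : ℝ)) _
    (fun T _ => h74_int hK (r + 1) (T0 ∪ T))]
  refine MeasureTheory.integral_congr_ae (Filter.Eventually.of_forall fun t => ?_)
  show av (BL r) (fun T => dd (PP (Y (r + 1))) (T0 ∪ T) t * |t| ^ (-(3 / 2) : ℝ)) =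
    dd (PP (Y r)) T0 t * |t| ^ (-(3 / 2) : ℝ)
  rw [h74_av_mul, PP_Y_succ, av_dd_union _ _ (BL_disj r) T0 hT0 t]

theorem TF_mean (K r : ℕ) (hK : 1 ≤ K) : av (PP (Y r)) (TF K r) ≤ 4 / Real.sqrt K := by
  have hK0 : (0 : ℝ) < K := by exact_mod_cast hK
  have h1 : av (PP (Y r)) (TF K r) = ∫ t in {t : ℝ | (K : ℝ) < |t|}, |t| ^ (-(3 / 2) : ℝ) := by
    unfold TF
    rw [av_integral (PP (Y r)) (fun T t => dd (PP (Y r)) T t * |t| ^ (-(3 / 2) : ℝ)) _
      (fun T _ => h74_int hK r T)]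
    refine MeasureTheory.integral_congr_ae (Filter.Eventually.of_forall fun t => ?_)
    show av (PP (Y r)) (fun T => dd (PP (Y r)) T t * |t| ^ (-(3 / 2) : ℝ)) = |t| ^ (-(3 / 2) : ℝ)
    rw [h74_av_mul, av_dd, one_mul]
  have hmeas := h74_meas K
  have h2 : ∫ t in {t : ℝ | (K : ℝ) < |t|}, |t| ^ (-(3 / 2) : ℝ) =
      2 * ∫ t in Set.Ioi (K : ℝ), t ^ (-(3 / 2) : ℝ) := by
    rw [← MeasureTheory.integral_indicator hmeas]
    have h3 := integral_comp_abs (f := (Set.Ioi (K : ℝ)).indicator (fun t : ℝ => t ^ (-(3 / 2) : ℝ)))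
    have h4 : (fun x : ℝ => (Set.Ioi (K : ℝ)).indicator (fun t : ℝ => t ^ (-(3 / 2) : ℝ)) |x|) =
        {t : ℝ | (K : ℝ) < |t|}.indicator (fun t : ℝ => |t| ^ (-(3 / 2) : ℝ)) := by
      funext x
      by_cases hx : (K : ℝ) < |x|
      · rw [Set.indicator_of_mem (show |x| ∈ Set.Ioi (K : ℝ) from hx),
          Set.indicator_of_mem (show x ∈ {t : ℝ | (K : ℝ) < |t|} from hx)]
      · rw [Set.indicator_of_notMem (show |x| ∉ Set.Ioi (K : ℝ) from hx),
          Set.indicator_of_notMem (show x ∉ {t : ℝ | (K : ℝ) < |t|} from hx)]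
    rw [h4] at h3
    rw [h3, MeasureTheory.setIntegral_indicator measurableSet_Ioi]
    congr 2
    have h5 : Set.Ioi (0 : ℝ) ∩ Set.Ioi (K : ℝ) = Set.Ioi (K : ℝ) :=
      Set.inter_eq_right.2 (Set.Ioi_subset_Ioi hK0.le)
    rw [h5]
  rw [h1, h2, integral_Ioi_rpow_of_lt (by norm_num) hK0]
  have h8 : (-(3 / 2) : ℝ) + 1 = -(1 / 2) := by norm_num
  rw [h8, Real.rpow_neg hK0.le, ← Real.sqrt_eq_rpow]
  have h9 : 0 < Real.sqrt K := Real.sqrt_pos.2 hK0
  apply le_of_eq
  field_simp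
  norm_num

open Classical in
private lemma h74_set (C : ℝ) (hC : 0 < C) (S : Finset ℕ) (P : Finset ℕ → Prop) (A : Set ℝ) (c x : ℝ) (j : ℕ)
    (hc : 0 ≤ c) (hx : 0 ≤ x) (hA : MeasurableSet A) (hA1 : ∀ t ∈ A, |t| ≤ 1 / 2 ^ j)
    (h : ∀ t : ℝ, |t| ≤ 1 / 2 ^ j → av S (fun T => if P T then dd S T t else 0) ≤ C * x) :
    av S (fun T => if P T then c * ∫ t in A, dd S T t else 0) ≤ c * (C * x * (2 / 2 ^ j)) := by
  have hsub : A ⊆ Set.Icc (-(1 / 2 ^ j) : ℝ) (1 / 2 ^ j) := fun t ht => abs_le.1 (hA1 t ht)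
  have hfin : MeasureTheory.volume A ≠ ⊤ :=
    ne_top_of_le_ne_top (by rw [Real.volume_Icc]; exact ENNReal.ofReal_ne_top) (MeasureTheory.measure_mono hsub)
  have hint : ∀ T : Finset ℕ, MeasureTheory.IntegrableOn (fun t => if P T then dd S T t else 0) A := by
    intro T
    by_cases hP : P T
    · simp only [if_pos hP]
      exact ((continuous_dd S T).integrableOn_Icc).mono_set hsub
    · simp only [if_neg hP]
      exact MeasureTheory.integrableOn_zero
  have h1 : av S (fun T => if P T then c * ∫ t in A, dd S T t else 0) =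
      c * ∫ t in A, av S (fun T => if P T then dd S T t else 0) := by
    rw [← av_integral S (fun T t => if P T then dd S T t else 0) A (fun T _ => hint T), ← av_mul_left]
    refine av_congr fun T _ => ?_
    by_cases hP : P T
    · simp only [if_pos hP]
    · simp only [if_neg hP]
      simp
  rw [h1]
  refine mul_le_mul_of_nonneg_left ?_ hc
  have hint2 : MeasureTheory.IntegrableOn (fun t => av S (fun T => if P T then dd S T t else 0)) A := by
    unfold av
    exact (MeasureTheory.integrable_finsetSum _ fun T _ => hint T).div_const _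
  calc ∫ t in A, av S (fun T => if P T then dd S T t else 0) ≤ ∫ _ in A, C * x := by
        refine MeasureTheory.setIntegral_mono_on hint2 (MeasureTheory.integrableOn_const hfin) hA
          fun t ht => h t (hA1 t ht)
    _ = MeasureTheory.volume.real A * (C * x) := by rw [MeasureTheory.setIntegral_const, smul_eq_mul]
    _ ≤ (2 / 2 ^ j) * (C * x) := by
        refine mul_le_mul_of_nonneg_right ?_ (by positivity)
        calc MeasureTheory.volume.real A ≤ MeasureTheory.volume.real (Set.Icc (-(1 / 2 ^ j) : ℝ) (1 / 2 ^ j)) :=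
              MeasureTheory.measureReal_mono hsub (by rw [Real.volume_Icc]; exact ENNReal.ofReal_ne_top)
          _ = 2 / 2 ^ j := by
              rw [Real.volume_real_Icc_of_le (by have : (0 : ℝ) < 1 / 2 ^ j := by positivity
                                                 linarith)]
              ring
    _ = C * x * (2 / 2 ^ j) := by ring

private lemma h74_geom (a b : ℕ) : ∑ j ∈ Finset.Ico a b, (3 / 4 : ℝ) ^ j ≤ 4 * (3 / 4) ^ a := by
  by_cases h : a ≤ b
  · rw [geom_sum_Ico (by norm_num) h]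
    have : (0 : ℝ) < (3 / 4) ^ b := by positivity
    have e : ((3 / 4 : ℝ) ^ b - (3 / 4) ^ a) / (3 / 4 - 1) = 4 * (3 / 4) ^ a - 4 * (3 / 4) ^ b := by ring
    rw [e]
    linarith
  · rw [Finset.Ico_eq_empty (by omega), Finset.sum_empty]
    positivity

theorem TN_mean : ∃ C : ℝ, 0 < C ∧ ∀ (K r : ℕ) (η L : ℝ), 1 ≤ K → J0 K ≤ r →
    av (PP (Y r)) (TN K η L r) ≤ C * (K : ℝ) ^ η * ((3 / 4) ^ J0 K + L ^ 2 * (3 / 16) ^ r) := by
  classical
  obtain ⟨C, hC, hB⟩ := BJ_mean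
  refine ⟨32 * C, by positivity, ?_⟩
  intro K r η L hK hJ
  have hKη : 0 ≤ (K : ℝ) ^ η := by positivity
  unfold TN
  rw [av_add, av_sum]
  have h1 : ∀ j ∈ Finset.Ico (J0 K) r,
      av (PP (Y r)) (fun T => if BJ K η j T then 4 ^ (j + 1) * ∫ t in Aj j, dd (PP (Y r)) T t else 0) ≤
        8 * C * (K : ℝ) ^ η * (3 / 4) ^ j := by
    intro j hj
    rw [Finset.mem_Ico] at hj
    have hm : MeasurableSet (Aj j) := by
      have m1 : MeasurableSet {t : ℝ | 1 / 2 ^ (j + 1) < |t|} := measurableSet_lt measurable_const (by fun_prop)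
      have m2 : MeasurableSet {t : ℝ | |t| ≤ 1 / 2 ^ j} := measurableSet_le (by fun_prop) measurable_const
      exact m1.inter m2
    have h2 := h74_set C hC (PP (Y r)) (fun T => BJ K η j T) (Aj j) (4 ^ (j + 1)) (xj K η j) j (by positivity)
      (by unfold xj; positivity) hm (fun t ht => ht.2) (fun t ht => by
        convert hB K j r η t ht hj.2.le)
    refine le_trans (le_of_eq ?_) (h2.trans (le_of_eq ?_))
    · refine av_congr fun T _ => ?_
      congr
    · unfold xj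
      have e : (3 / 4 : ℝ) ^ j = 4 ^ j * (3 / 8) ^ j / 2 ^ j := by
        rw [← mul_pow, ← div_pow]
        norm_num
      rw [e, pow_succ]
      ring
  have h3 : av (PP (Y r)) (fun T => if BJ K η r T then
      L ^ 2 * ∫ t in {t : ℝ | |t| ≤ 1 / 2 ^ r}, dd (PP (Y r)) T t else 0) ≤
        2 * C * (K : ℝ) ^ η * (L ^ 2 * (3 / 16) ^ r) := by
    have hm : MeasurableSet {t : ℝ | |t| ≤ 1 / 2 ^ r} := measurableSet_le (by fun_prop) measurable_const
    have h2 := h74_set C hC (PP (Y r)) (fun T => BJ K η r T) {t : ℝ | |t| ≤ 1 / 2 ^ r} (L ^ 2) (xj K η r) r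
      (by positivity) (by unfold xj; positivity) hm (fun t ht => ht) (fun t ht => by
        convert hB K r r η t ht le_rfl)
    refine le_trans (le_of_eq ?_) (h2.trans (le_of_eq ?_))
    · refine av_congr fun T _ => ?_
      congr
    · unfold xj
      have e : (3 / 16 : ℝ) ^ r = (3 / 8) ^ r / 2 ^ r := by
        rw [← div_pow]
        norm_num
      rw [e]
      ring
  have h4 := Finset.sum_le_sum h1
  rw [← Finset.mul_sum] at h4
  have h5 := mul_le_mul_of_nonneg_left (h74_geom (J0 K) r) (show 0 ≤ 8 * C * (K : ℝ) ^ η by positivity)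
  have h6 : 0 ≤ C * (K : ℝ) ^ η * (L ^ 2 * (3 / 16) ^ r) := by positivity
  calc _ ≤ 8 * C * (K : ℝ) ^ η * (4 * (3 / 4) ^ J0 K) + 2 * C * (K : ℝ) ^ η * (L ^ 2 * (3 / 16) ^ r) :=
        add_le_add (h4.trans h5) h3
    _ ≤ 32 * C * (K : ℝ) ^ η * ((3 / 4) ^ J0 K + L ^ 2 * (3 / 16) ^ r) := by nlinarith

end Pool.Agent.Helper96.AG
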