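import Pool.Agent.Helper96.AG.E2

/-!
# Project AG (MP_a499ba_nt, Q2), block E9

The decomposition on the good event. PROOF: `∫` over `ℝ` is the sum over `|t| > K`, `Afar K`, the `Aj j` (`j < r`) and `|t| ≤ 2^(-r)` (disjoint measurable sets, union `ℝ`; integrability: `integrable_dd_WG`). On `|t| > 1`: `WG = |t|^(-3/2)` (`1/L ≤ 1`). On `Aj j`: `WG_le`: `WG ≤ 1/t^2 ≤ 4^(j+1)`; on
`|t| ≤ 2^(-r)`: `WG ≤ L^2`. For `|t| ≤ K`, `l ≤ r ≤ 2K`, `⌊2^l t⌋ ∈ [-K 2^l, K 2^l]`, so `AA (C0 log K) r T t` holds by `hbar`; `BJ` holds by `hB`.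
-/

set_option autoImplicit false

namespace Pool.Agent.Helper96.AG

open Finset Pool.Agent.Helper5.RM Pool.Agent.Helper96.AF

private lemma two_le_PP (r : ℕ) : ∀ p ∈ PP (Y r), 2 ≤ p := fun _ hp => two_le_of_mem_PP hp

private lemma meas_lt (c : ℝ) : MeasurableSet {t : ℝ | c < |t|} :=
  measurableSet_lt measurable_const continuous_abs.measurable

private lemma meas_le (c : ℝ) : MeasurableSet {t : ℝ | |t| ≤ c} :=
  measurableSet_le continuous_abs.measurable measurable_const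

private lemma meas_Aj (j : ℕ) : MeasurableSet (Aj j) := (meas_lt _).inter (meas_le _)

private lemma meas_Afar (K : ℕ) : MeasurableSet (Afar K) := (meas_lt _).inter (meas_le _)

/-- the dyadic decomposition near `0` -/
private lemma dyadic {g : ℝ → ℝ} (hg : MeasureTheory.Integrable g) (r : ℕ) :
    ∫ t in {t : ℝ | |t| ≤ 1}, g t =
      (∑ j ∈ Finset.range r, (∫ t in Aj j, g t)) + (∫ t in {t : ℝ | |t| ≤ 1 / 2 ^ r}, g t) := by
  induction r with
  | zero => simp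
  | succ r ih =>
    rw [ih, Finset.sum_range_succ, add_assoc]
    congr 1
    have e : {t : ℝ | |t| ≤ 1 / 2 ^ r} = Aj r ∪ {t : ℝ | |t| ≤ 1 / 2 ^ (r + 1)} := by
      ext t
      simp only [Aj, Set.mem_ofPred_eq, Set.mem_union]
      have h1 : (1 : ℝ) / 2 ^ (r + 1) ≤ 1 / 2 ^ r := by
        apply one_div_le_one_div_of_le (by positivity)
        exact pow_le_pow_right₀ (by norm_num) (Nat.le_succ r)
      constructor
      · intro h
        rcases le_or_gt (|t|) (1 / 2 ^ (r + 1)) with h2 | h2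
        · exact Or.inr h2
        · exact Or.inl ⟨h2, h⟩
      · rintro (h | h)
        · exact h.2
        · exact h.trans h1
    rw [e, MeasureTheory.setIntegral_union ?_ (meas_le _) hg.integrableOn hg.integrableOn]
    rw [Set.disjoint_left]
    intro t h1 h2
    exact absurd h1.1 (not_lt.2 h2)

private lemma AA_of {K r : ℕ} {c : ℝ} {T : Finset ℕ} (hr2 : r ≤ 2 * K)
    (hbar : ∀ l ∈ Finset.Icc 1 (2 * K), ∀ j ∈ Finset.Icc (-((K : ℤ) * 2 ^ l)) ((K : ℤ) * 2 ^ l), UU l T j ≤ Real.exp c)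
    {t : ℝ} (ht : |t| ≤ K) : AA c r T t := by
  intro l hl
  rw [Finset.mem_Icc] at hl
  obtain ⟨h1, h2⟩ := abs_le.1 ht
  have hp : (0 : ℝ) < 2 ^ l := by positivity
  refine hbar l (Finset.mem_Icc.2 ⟨hl.1, hl.2.trans hr2⟩) _ (Finset.mem_Icc.2 ⟨?_, ?_⟩)
  · rw [Int.le_floor]
    push_cast
    nlinarith
  · have h3 : ((⌊2 ^ l * t⌋ : ℤ) : ℝ) ≤ 2 ^ l * t := Int.floor_le _
    have h4 : ((⌊2 ^ l * t⌋ : ℤ) : ℝ) ≤ ((((K : ℤ) * 2 ^ l : ℤ)) : ℝ) := by
      push_cast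
      nlinarith
    exact_mod_cast h4

private lemma intOn_dd (r : ℕ) (T : Finset ℕ) (A : Set ℝ) (hA : A ⊆ Set.Icc (-1 : ℝ) 1) :
    MeasureTheory.IntegrableOn (dd (PP (Y r)) T) A :=
  ((continuous_dd _ _).integrableOn_Icc).mono_set hA

private lemma Aj_sub (j : ℕ) : Aj j ⊆ Set.Icc (-1 : ℝ) 1 := by
  intro t ht
  have h1 : (1 : ℝ) / 2 ^ j ≤ 1 := by
    rw [div_le_one (by positivity)]
    exact one_le_pow₀ (by norm_num)
  exact abs_le.1 (ht.2.trans h1)

private lemma near_sub (j : ℕ) : {t : ℝ | |t| ≤ 1 / 2 ^ j} ⊆ Set.Icc (-1 : ℝ) 1 := by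
  intro t ht
  have h1 : (1 : ℝ) / 2 ^ j ≤ 1 := by
    rw [div_le_one (by positivity)]
    exact one_le_pow₀ (by norm_num)
  exact abs_le.1 (le_trans ht h1)

/-- the bound on `Aj j` -/
private lemma Aj_le {L : ℝ} (hL : 1 ≤ L) (r : ℕ) (T : Finset ℕ) (j : ℕ) :
    ∫ t in Aj j, dd (PP (Y r)) T t * WG L t ≤ 4 ^ (j + 1) * ∫ t in Aj j, dd (PP (Y r)) T t := by
  rw [← MeasureTheory.integral_const_mul]
  refine MeasureTheory.setIntegral_mono_on (integrable_dd_WG hL r T).integrableOn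
    ((intOn_dd r T _ (Aj_sub j)).const_mul _) (meas_Aj j) fun t ht => ?_
  have hd := dd_nonneg (two_le_PP r) T t
  have ht1 := abs_le.2 (Aj_sub j ht)
  have h0 : 0 < |t| := lt_trans (by positivity) ht.1
  have h1 := (WG_le hL ht1).2 (abs_pos.1 h0)
  have h2 : 1 / t ^ 2 ≤ 4 ^ (j + 1) := by
    rw [← sq_abs t, div_le_iff₀ (by positivity)]
    have h3 : (1 / 2 ^ (j + 1) : ℝ) ^ 2 ≤ |t| ^ 2 := by
      exact pow_le_pow_left₀ (by positivity) ht.1.le 2
    have h4 : (4 : ℝ) ^ (j + 1) * (1 / 2 ^ (j + 1)) ^ 2 = 1 := by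
      have : (4 : ℝ) ^ (j + 1) = (2 ^ (j + 1)) ^ 2 := by
        rw [← pow_mul, mul_comm, pow_mul]; norm_num
      rw [this, ← mul_pow, mul_one_div_cancel (by positivity), one_pow]
    calc (1 : ℝ) = 4 ^ (j + 1) * (1 / 2 ^ (j + 1)) ^ 2 := h4.symm
      _ ≤ 4 ^ (j + 1) * |t| ^ 2 := by gcongr
  calc dd (PP (Y r)) T t * WG L t ≤ dd (PP (Y r)) T t * 4 ^ (j + 1) :=
        mul_le_mul_of_nonneg_left (h1.trans h2) hd
    _ = _ := mul_comm _ _

theorem DG_le (K r : ℕ) (η L c : ℝ) (T : Finset ℕ) (hK : 1 ≤ K) (hr : J0 K ≤ r) (hr2 : r ≤ 2 * K) (hL : 1 ≤ L)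
    (hbar : ∀ l ∈ Finset.Icc 1 (2 * K), ∀ j ∈ Finset.Icc (-((K : ℤ) * 2 ^ l)) ((K : ℤ) * 2 ^ l), UU l T j ≤ Real.exp c)
    (hB : ∀ j ∈ Finset.Icc 0 (2 * K), BJ K η j T) :
    DG L r T ≤ TG K η c r T + TF K r T + TN K η L r T := by
  classical
  have hK1 : (1 : ℝ) ≤ K := by exact_mod_cast hK
  have hL0 : 0 < L := by linarith
  have hg := integrable_dd_WG hL r T
  have hBJ : ∀ j, j ≤ 2 * K → BJ K η j T := fun j hj => hB j (Finset.mem_Icc.2 ⟨Nat.zero_le _, hj⟩)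
  have hWfar : ∀ t : ℝ, 1 < |t| → WG L t = |t| ^ (-(3 / 2) : ℝ) := by
    intro t ht
    unfold WG
    have h1 : 1 / L ≤ 1 := by rw [div_le_one hL0]; exact hL
    rw [if_neg (not_le.2 (lt_of_le_of_lt h1 ht)), if_neg (not_le.2 ht)]
  -- decomposition
  have e1 : DG L r T = (∫ t in {t : ℝ | |t| ≤ 1}, dd (PP (Y r)) T t * WG L t) +
      (∫ t in {t : ℝ | 1 < |t|}, dd (PP (Y r)) T t * WG L t) := by
    unfold DG
    rw [← MeasureTheory.integral_add_compl (meas_le 1) hg]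
    have e : {t : ℝ | |t| ≤ 1}ᶜ = {t : ℝ | 1 < |t|} := by
      ext t
      simp
    rw [e]
  have e2 : ∫ t in {t : ℝ | 1 < |t|}, dd (PP (Y r)) T t * WG L t =
      (∫ t in Afar K, dd (PP (Y r)) T t * WG L t) +
        (∫ t in {t : ℝ | (K : ℝ) < |t|}, dd (PP (Y r)) T t * WG L t) := by
    have e : {t : ℝ | 1 < |t|} = Afar K ∪ {t : ℝ | (K : ℝ) < |t|} := by
      ext t
      simp only [Afar, Set.mem_ofPred_eq, Set.mem_union]
      constructor
      · intro h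
        rcases le_or_gt (|t|) K with h2 | h2
        · exact Or.inl ⟨h, h2⟩
        · exact Or.inr h2
      · rintro (h | h)
        · exact h.1
        · exact lt_of_le_of_lt hK1 h
    rw [e, MeasureTheory.setIntegral_union ?_ (meas_lt _) hg.integrableOn hg.integrableOn]
    rw [Set.disjoint_left]
    intro t h1 h2
    exact absurd h1.2 (not_le.2 h2)
  -- the far part
  have b1 : ∫ t in {t : ℝ | (K : ℝ) < |t|}, dd (PP (Y r)) T t * WG L t = TF K r T := by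
    unfold TF
    refine MeasureTheory.setIntegral_congr_fun (meas_lt _) fun t ht => ?_
    show dd (PP (Y r)) T t * WG L t = dd (PP (Y r)) T t * |t| ^ (-(3 / 2) : ℝ)
    rw [hWfar t (lt_of_le_of_lt hK1 ht)]
  have b2 : ∫ t in Afar K, dd (PP (Y r)) T t * WG L t =
      TX (Afar K) (fun t => |t| ^ (-(3 / 2) : ℝ)) c r T := by
    unfold TX
    refine MeasureTheory.setIntegral_congr_fun (meas_Afar K) fun t ht => ?_
    simp only
    rw [if_pos (AA_of hr2 hbar ht.2), hWfar t ht.1]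
  -- the pieces
  have b3 : ∀ j ∈ Finset.range (J0 K), ∫ t in Aj j, dd (PP (Y r)) T t * WG L t ≤
      (if BJ K η j T then 4 ^ (j + 1) * TX (Aj j) (fun _ => 1) c r T else 0) := by
    intro j hj
    rw [Finset.mem_range] at hj
    rw [if_pos (hBJ j (by omega))]
    have e : TX (Aj j) (fun _ => 1) c r T = ∫ t in Aj j, dd (PP (Y r)) T t := by
      unfold TX
      refine MeasureTheory.setIntegral_congr_fun (meas_Aj j) fun t ht => ?_
      have h1 : |t| ≤ K := (abs_le.2 (Aj_sub j ht)).trans hK1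
      simp only
      rw [if_pos (AA_of hr2 hbar h1), mul_one]
    rw [e]
    exact Aj_le hL r T j
  have b4 : ∀ j ∈ Finset.Ico (J0 K) r, ∫ t in Aj j, dd (PP (Y r)) T t * WG L t ≤
      (if BJ K η j T then 4 ^ (j + 1) * ∫ t in Aj j, dd (PP (Y r)) T t else 0) := by
    intro j hj
    rw [Finset.mem_Ico] at hj
    rw [if_pos (hBJ j (by omega))]
    exact Aj_le hL r T j
  have b5 : ∫ t in {t : ℝ | |t| ≤ 1 / 2 ^ r}, dd (PP (Y r)) T t * WG L t ≤
      (if BJ K η r T then L ^ 2 * ∫ t in {t : ℝ | |t| ≤ 1 / 2 ^ r}, dd (PP (Y r)) T t else 0) := by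
    rw [if_pos (hBJ r hr2), ← MeasureTheory.integral_const_mul]
    refine MeasureTheory.setIntegral_mono_on hg.integrableOn
      ((intOn_dd r T _ (near_sub r)).const_mul _) (meas_le _) fun t ht => ?_
    have hd := dd_nonneg (two_le_PP r) T t
    have ht1 := abs_le.2 (near_sub r ht)
    have h1 := (WG_le hL ht1).1
    calc dd (PP (Y r)) T t * WG L t ≤ dd (PP (Y r)) T t * L ^ 2 := mul_le_mul_of_nonneg_left h1 hd
      _ = _ := mul_comm _ _
  have e3 := dyadic hg r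
  have e4 : ∑ j ∈ Finset.range r, (∫ t in Aj j, dd (PP (Y r)) T t * WG L t) =
      ∑ j ∈ Finset.range (J0 K), (∫ t in Aj j, dd (PP (Y r)) T t * WG L t) +
      ∑ j ∈ Finset.Ico (J0 K) r, (∫ t in Aj j, dd (PP (Y r)) T t * WG L t) :=
    (Finset.sum_range_add_sum_Ico _ hr).symm
  have c1 := Finset.sum_le_sum b3
  have c2 := Finset.sum_le_sum b4
  have f1 : TG K η c r T = TX (Afar K) (fun t => |t| ^ (-(3 / 2) : ℝ)) c r T +
    ∑ j ∈ Finset.range (J0 K), (if BJ K η j T then 4 ^ (j + 1) * TX (Aj j) (fun _ => 1) c r T else 0) := by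
    unfold TG
    congr 1
  have f2 : TN K η L r T = ∑ j ∈ Finset.Ico (J0 K) r,
      (if BJ K η j T then 4 ^ (j + 1) * ∫ t in Aj j, dd (PP (Y r)) T t else 0) +
    (if BJ K η r T then L ^ 2 * ∫ t in {t : ℝ | |t| ≤ 1 / 2 ^ r}, dd (PP (Y r)) T t else 0) := by
    unfold TN
    congr 1
  rw [e1, e2, b1, b2, e3, e4, f1, f2]
  linarith

end Pool.Agent.Helper96.AG
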