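import Pool.Agent.Helper96.AG.S2

/-!
# Project AG (MP_a499ba_nt, Q2), block S3

See the header of S2 for the proofs of `BJ_prob` and `FP_prob`.
-/

set_option autoImplicit false

namespace Pool.Agent.Helper96.AG

open Finset Pool.Agent.Helper5.RM Pool.Agent.Helper96.AF

/-- the mean of `dd^(1/4)` at `t = 0`, level `j`, computed with more signs -/
private lemma s3_av : ∃ C : ℝ, 0 < C ∧ ∀ j M : ℕ, j ≤ M →
    av (PP (Y M)) (fun T => dd (PP (Y j)) T 0 ^ (1 / 4 : ℝ)) ≤ C * ((2 : ℝ) ^ (-(3 / 8) : ℝ)) ^ j := by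
  obtain ⟨C, hC, h⟩ := th0
  refine ⟨Real.exp (3 / 32 * C), Real.exp_pos _, fun j M hjM => ?_⟩
  have h1 : av (PP (Y M)) (fun T => dd (PP (Y j)) T 0 ^ (1 / 4 : ℝ)) =
      av (PP (Y j)) (fun T => dd (PP (Y j)) T 0 ^ (1 / 4 : ℝ)) := by
    refine av_restrict (PP_Y_mono hjM) _ fun T => ?_
    rw [dd_congr (T := T) (T' := T ∩ PP (Y j)) fun p hp => by simp [hp]]
  rw [h1]
  refine (av_quarter (PP (Y j)) (fun p hp => two_le_of_mem_PP hp) 0).trans ?_
  have h2 : ((2 : ℝ) ^ (-(3 / 8) : ℝ)) ^ j = Real.exp (-(3 / 8) * j * Real.log 2) := by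
    rw [← Real.rpow_natCast, ← Real.rpow_mul (by norm_num), Real.rpow_def_of_pos (by norm_num)]
    congr 1
    ring
  rw [h2, ← Real.exp_add]
  refine Real.exp_le_exp.2 ?_
  have := h j
  linarith

theorem BJ_prob : ∃ C : ℝ, 0 < C ∧ ∀ K : ℕ, 1 ≤ K → ∀ η : ℝ, 0 ≤ η →
    pr (PP (Y (2 * K))) (fun T => ∃ j ∈ Finset.Icc 0 (2 * K), ¬ BJ K η j T) ≤ C * (K : ℝ) ^ (-(η / 4)) := by
  obtain ⟨C, hC, h⟩ := s3_av
  set ρ : ℝ := (2 : ℝ) ^ (-(3 / 8) : ℝ) / (3 / 8 : ℝ) ^ (1 / 4 : ℝ) with hρ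
  have h38 : (0 : ℝ) < (3 / 8 : ℝ) ^ (1 / 4 : ℝ) := by positivity
  have hρ0 : 0 < ρ := by positivity
  have hρ8 : ρ ^ 8 = 8 / 9 := by
    rw [hρ, div_pow, ← Real.rpow_natCast, ← Real.rpow_natCast, ← Real.rpow_mul (by norm_num),
      ← Real.rpow_mul (by norm_num)]
    have e1 : (-(3 / 8) : ℝ) * ((8 : ℕ) : ℝ) = ((-3 : ℤ) : ℝ) := by norm_num
    have e2 : (1 / 4 : ℝ) * ((8 : ℕ) : ℝ) = ((2 : ℕ) : ℝ) := by norm_num
    rw [e1, e2, Real.rpow_intCast, Real.rpow_natCast]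
    norm_num
  have hρ1 : ρ < 1 := by
    by_contra hc
    rw [not_lt] at hc
    have := one_le_pow₀ hc (n := 8)
    rw [hρ8] at this
    norm_num at this
  refine ⟨C / (1 - ρ), div_pos hC (by linarith), fun K hK η hη => ?_⟩
  have hK0 : (0 : ℝ) < K := by exact_mod_cast hK
  have hKη : 0 < (K : ℝ) ^ (-(η / 4)) := Real.rpow_pos_of_pos hK0 _
  refine (pr_exists _ _ _).trans ?_
  have h1 : ∀ j ∈ Finset.Icc 0 (2 * K), pr (PP (Y (2 * K))) (fun T => ¬ BJ K η j T) ≤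
      C * (K : ℝ) ^ (-(η / 4)) * ρ ^ j := by
    intro j hj
    rw [Finset.mem_Icc] at hj
    have hx : 0 < xj K η j := by
      unfold xj
      have := Real.rpow_pos_of_pos hK0 η
      positivity
    have hx4 : 0 < xj K η j ^ (1 / 4 : ℝ) := Real.rpow_pos_of_pos hx _
    have hm := markov (S := PP (Y (2 * K))) (F := fun T => dd (PP (Y j)) T 0 ^ (1 / 4 : ℝ))
      (c := xj K η j ^ (1 / 4 : ℝ)) (E := C * ((2 : ℝ) ^ (-(3 / 8) : ℝ)) ^ j)
      (fun T _ => Real.rpow_nonneg (dd_nonneg (fun p hp => two_le_of_mem_PP hp) T 0) _) hx4 (h j (2 * K) hj.2)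
    refine (pr_mono (Q := fun T => xj K η j ^ (1 / 4 : ℝ) ≤ dd (PP (Y j)) T 0 ^ (1 / 4 : ℝ)) ?_).trans (hm.trans ?_)
    · intro T _ hT
      unfold BJ at hT
      rw [not_le] at hT
      exact Real.rpow_le_rpow hx.le hT.le (by norm_num)
    · have e1 : xj K η j ^ (1 / 4 : ℝ) = (K : ℝ) ^ (η / 4) * ((3 / 8 : ℝ) ^ (1 / 4 : ℝ)) ^ j := by
        unfold xj
        rw [Real.mul_rpow (Real.rpow_nonneg hK0.le _) (by positivity), ← Real.rpow_mul hK0.le]
        congr 1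
        · congr 1
          ring
        · rw [← Real.rpow_natCast, ← Real.rpow_natCast, ← Real.rpow_mul (by norm_num), ← Real.rpow_mul (by norm_num)]
          congr 1
          ring
      rw [e1, Real.rpow_neg hK0.le, hρ, div_pow]
      have := Real.rpow_pos_of_pos hK0 (η / 4)
      apply le_of_eq
      field_simp
  refine (Finset.sum_le_sum h1).trans ?_
  rw [← Finset.mul_sum]
  have h2 : ∑ j ∈ Finset.Icc 0 (2 * K), ρ ^ j ≤ (1 - ρ)⁻¹ := by
    rw [← tsum_geometric_of_lt_one hρ0.le hρ1]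
    exact (summable_geometric_of_lt_one hρ0.le hρ1).sum_le_tsum _ fun j _ => by positivity
  have h3 := mul_le_mul_of_nonneg_left h2 (mul_pos hC hKη).le
  refine h3.trans (le_of_eq ?_)
  rw [div_eq_mul_inv]
  ring

theorem FP_prob : ∃ C : ℝ, 0 < C ∧ ∀ r : ℕ, pr (PP (Y r)) (fun T => 1 < FP (Y r) T) ≤ C * (2 : ℝ) ^ (-((r : ℝ) / 8)) := by
  obtain ⟨C, hC, h⟩ := s3_av
  obtain ⟨D, hD, hDr⟩ := mertens_prod
  refine ⟨C * D ^ (1 / 4 : ℝ), by positivity, fun r => ?_⟩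
  have hc : 0 < (D * 2 ^ r)⁻¹ ^ (1 / 4 : ℝ) := by positivity
  have hm := markov (S := PP (Y r)) (F := fun T => dd (PP (Y r)) T 0 ^ (1 / 4 : ℝ))
      (c := (D * 2 ^ r)⁻¹ ^ (1 / 4 : ℝ)) (E := C * ((2 : ℝ) ^ (-(3 / 8) : ℝ)) ^ r)
      (fun T _ => Real.rpow_nonneg (dd_nonneg (fun p hp => two_le_of_mem_PP hp) T 0) _) hc (h r r le_rfl)
  refine (pr_mono (Q := fun T => (D * 2 ^ r)⁻¹ ^ (1 / 4 : ℝ) ≤ dd (PP (Y r)) T 0 ^ (1 / 4 : ℝ)) ?_).trans (hm.trans ?_)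
  · intro T _ hT
    refine Real.rpow_le_rpow (by positivity) ?_ (by norm_num)
    have e1 : FP (Y r) T ^ 2 = (∏ p ∈ PP (Y r), (1 + (1 : ℝ) / p)) * dd (PP (Y r)) T 0 := by
      unfold FP dd
      rw [← Finset.prod_pow, ← Finset.prod_mul_distrib]
      refine Finset.prod_congr rfl fun p hp => ?_
      have hp2 : (2 : ℝ) ≤ p := by exact_mod_cast two_le_of_mem_PP hp
      have hp0 : (0 : ℝ) < p := by linarith
      have hs : 0 < Real.sqrt p := Real.sqrt_pos.2 hp0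
      have hss : Real.sqrt p ^ 2 = p := Real.sq_sqrt hp0.le
      have hsg := sg_sq T p
      have e2 : th p 0 = 2 * Real.sqrt p / (p + 1) := by
        unfold th
        rw [zero_mul, Real.cos_zero, mul_one]
      rw [e2]
      have e3 : (1 + (1 : ℝ) / p) * (1 + sg T p * (2 * Real.sqrt p / (p + 1))) =
          1 + 1 / p + sg T p * (2 * Real.sqrt p / p) := by
        field_simp
      rw [e3]
      have e4 : Real.sqrt p / p = 1 / Real.sqrt p := by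
        rw [div_eq_div_iff hp0.ne' hs.ne']
        nlinarith
      have e5 : 2 * Real.sqrt p / p = 2 * (1 / Real.sqrt p) := by
        rw [← e4]
        ring
      rw [e5, add_sq, div_pow, hsg, hss]
      ring
    have hFP : 1 < FP (Y r) T ^ 2 := by nlinarith
    have hdd := dd_nonneg (S := PP (Y r)) (fun p hp => two_le_of_mem_PP hp) T 0
    have e6 : 1 < D * 2 ^ r * dd (PP (Y r)) T 0 := by
      have := mul_le_mul_of_nonneg_right (hDr r) hdd
      linarith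
    rw [inv_eq_one_div, div_le_iff₀ (by positivity)]
    linarith
  · have e1 : (D * 2 ^ r)⁻¹ ^ (1 / 4 : ℝ) = (D ^ (1 / 4 : ℝ) * (2 : ℝ) ^ ((r : ℝ) / 4))⁻¹ := by
      rw [Real.inv_rpow (by positivity), Real.mul_rpow hD.le (by positivity), ← Real.rpow_natCast,
        ← Real.rpow_mul (by norm_num)]
      congr 3
      ring
    rw [e1, div_inv_eq_mul]
    have e2 : ((2 : ℝ) ^ (-(3 / 8) : ℝ)) ^ r * (2 : ℝ) ^ ((r : ℝ) / 4) = (2 : ℝ) ^ (-((r : ℝ) / 8)) := by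
      rw [← Real.rpow_natCast, ← Real.rpow_mul (by norm_num), ← Real.rpow_add (by norm_num)]
      congr 1
      ring
    rw [← e2]
    apply le_of_eq
    ring

end Pool.Agent.Helper96.AG
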