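import Pool.Agent.Helper96.AG.E7
import Pool.Agent.Helper96.AG.E8
import Pool.Agent.Helper96.AG.E9
import Pool.Agent.Helper96.AG.S3
import Pool.Agent.Helper96.AF.E5
import Pool.Agent.Helper96.AF.E6

/-!
# Project AG (MP_a499ba_nt, Q2), block E10

PROOF (cf. AF/E10): `η = δ/4`, `C0` the constant of `barrier`, `a = C0 log K`, `L = 2^r r B`. Off the events of `barrier` (`≤ 1/K`) and `BJ_prob` (`≤ C K^(-δ/16)`): `DG ≤ TG + TF + TN` (`DG_le`). `K^(-1/2+δ) < DG` then implies one of `K^(-1/2+δ)/3 ≤ TG`, `≤ TF`, `≤ TN` for some `r ∈ [K, 2K]`.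
`maxsm` for `TG` (`r ≥ K ≥ J0 K`; to apply it for all `r` replace `TG .. r T` by `0` for `r < K`) and `TF`: `≤ 3 K^(1/2-δ) C K^(δ/4) (C0 log K + log K + J0)/√K` and `≤ 3 K^(1/2-δ) 4/√K`. `TN`: Markov for each `r` and union over `K + 1` values:
`(K+1) 3 K^(1/2-δ) C K^η ((3/4)^(J0) + (2^(2K) ..)` -- precisely `L^2 (3/16)^r = r^2 B^2 (3/4)^r ≤ 4 K^2 B^2 (3/4)^K`, and `(3/4)^(J0 K) ≤ K^(-8)` (`(3/4)^20 ≤ 2^(-8)`, `2^(log2 K + 1) > K`). Everything is `≤ K^(-δ/32)/5` for `K ≥ K1`.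
-/

set_option autoImplicit false

namespace Pool.Agent.Helper96.AG

open Finset Pool.Agent.Helper5.RM Pool.Agent.Helper96.AF

private lemma e10_dd {j r : ℕ} (h : j ≤ r) (T : Finset ℕ) (t : ℝ) :
    dd (PP (Y j)) T t = dd (PP (Y j)) (T ∩ PP (Y r)) t := by
  unfold dd
  refine Finset.prod_congr rfl fun p hp => ?_
  rw [sg_congr (T := T) (T' := T ∩ PP (Y r)) (by simp [PP_Y_mono h hp])]

private lemma e10_BJ {j r : ℕ} (K : ℕ) (η : ℝ) (h : j ≤ r) (T : Finset ℕ) :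
    BJ K η j T ↔ BJ K η j (T ∩ PP (Y r)) := by
  unfold BJ
  rw [e10_dd h T 0]

private lemma e10_TN_dep (K : ℕ) (η L : ℝ) (r : ℕ) (T : Finset ℕ) :
    TN K η L r T = TN K η L r (T ∩ PP (Y r)) := by
  classical
  unfold TN
  have h1 : ∀ j ∈ Finset.Ico (J0 K) r,
      (if BJ K η j T then 4 ^ (j + 1) * ∫ t in Aj j, dd (PP (Y r)) T t else 0) =
      (if BJ K η j (T ∩ PP (Y r)) then 4 ^ (j + 1) * ∫ t in Aj j, dd (PP (Y r)) (T ∩ PP (Y r)) t
        else 0) := by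
    intro j hj
    have hj' : j ≤ r := (Finset.mem_Ico.1 hj).2.le
    have e1 : (fun t => dd (PP (Y r)) T t) = fun t => dd (PP (Y r)) (T ∩ PP (Y r)) t :=
      funext fun t => e10_dd le_rfl T t
    rw [e1]
    by_cases hB : BJ K η j T
    · rw [if_pos hB, if_pos ((e10_BJ K η hj' T).1 hB)]
    · rw [if_neg hB, if_neg (fun h => hB ((e10_BJ K η hj' T).2 h))]
  rw [Finset.sum_congr rfl h1]
  congr 1
  have e1 : (fun t => dd (PP (Y r)) T t) = fun t => dd (PP (Y r)) (T ∩ PP (Y r)) t :=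
    funext fun t => e10_dd le_rfl T t
  rw [e1]
  by_cases hB : BJ K η r T
  · rw [if_pos hB, if_pos ((e10_BJ K η le_rfl T).1 hB)]
  · rw [if_neg hB, if_neg (fun h => hB ((e10_BJ K η le_rfl T).2 h))]

private lemma e10_TN_nonneg (K : ℕ) (η L : ℝ) (r : ℕ) (T : Finset ℕ) : 0 ≤ TN K η L r T := by
  classical
  unfold TN
  have hd : ∀ t, 0 ≤ dd (PP (Y r)) T t := fun t => dd_nonneg (fun p hp => two_le_of_mem_PP hp) T t
  refine add_nonneg (Finset.sum_nonneg fun j _ => ?_) ?_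
  · split_ifs
    · exact mul_nonneg (by positivity) (MeasureTheory.integral_nonneg fun t => hd t)
    · exact le_rfl
  · split_ifs
    · exact mul_nonneg (by positivity) (MeasureTheory.integral_nonneg fun t => hd t)
    · exact le_rfl

private lemma e10_J0 {K : ℕ} (hK : 1 ≤ K) : (J0 K : ℝ) ≤ 40 * Real.log K + 20 := by
  unfold J0
  push_cast
  have h1 : (2 : ℝ) ^ Nat.log 2 K ≤ K := by
    exact_mod_cast Nat.pow_log_le_self 2 (by omega)
  have h2 : (Nat.log 2 K : ℝ) * Real.log 2 ≤ Real.log K := by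
    rw [← Real.log_pow]
    exact Real.log_le_log (by positivity) h1
  have h3 : (1 : ℝ) / 2 ≤ Real.log 2 := by
    have := Real.log_two_gt_d9
    linarith
  have h4 : (0 : ℝ) ≤ Nat.log 2 K := Nat.cast_nonneg _
  nlinarith

private lemma e10_pow {K : ℕ} (hK : 1 ≤ K) : (3 / 4 : ℝ) ^ J0 K ≤ 1 / (K : ℝ) ^ 8 := by
  have hK0 : (0 : ℝ) < K := by exact_mod_cast (by omega : 0 < K)
  unfold J0
  rw [pow_mul]
  have h1 : ((3 / 4 : ℝ) ^ 20) ≤ (1 / 2) ^ 8 := by norm_num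
  have h2 : (K : ℝ) ≤ 2 ^ (Nat.log 2 K + 1) := by
    exact_mod_cast (Nat.lt_pow_succ_log_self (by norm_num) K).le
  calc ((3 / 4 : ℝ) ^ 20) ^ (Nat.log 2 K + 1) ≤ ((1 / 2) ^ 8) ^ (Nat.log 2 K + 1) :=
        pow_le_pow_left₀ (by positivity) h1 _
    _ = 1 / (2 ^ (Nat.log 2 K + 1)) ^ 8 := by
        rw [← pow_mul, mul_comm, pow_mul, one_div, inv_pow, one_div, inv_pow]
    _ ≤ 1 / (K : ℝ) ^ 8 := by
        apply one_div_le_one_div_of_le (by positivity)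
        exact pow_le_pow_left₀ hK0.le h2 8

theorem chaosG (δ : ℝ) (hδ : 0 < δ) (hδ2 : δ ≤ 1 / 2) (B : ℕ) (hB : 1 ≤ B) : ∃ K1 : ℕ, ∀ K : ℕ, K1 ≤ K →
    pr (PP (Y (2 * K))) (fun T => ∃ r ∈ Finset.Icc K (2 * K), (K : ℝ) ^ (-(1 / 2) + δ) < DG (2 ^ r * r * B) r T) ≤
      (K : ℝ) ^ (-(δ / 32)) := by
  classical
  obtain ⟨C0, hC0, hbar⟩ := barrier
  obtain ⟨C1, hC1, hBJ⟩ := BJ_prob
  obtain ⟨C2, hC2, hTG⟩ := TG_mean
  obtain ⟨C3, hC3, hTN⟩ := TN_mean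
  -- the numerical part
  have lim : Filter.Tendsto (fun K : ℕ => (K : ℝ) ^ (-(1 - δ / 32)) + C1 * (K : ℝ) ^ (-(δ / 32)) +
      (3 * C2 * (C0 + 41) * (Real.log K / (K : ℝ) ^ (23 * δ / 32)) + 60 * C2 * (K : ℝ) ^ (-(23 * δ / 32))) +
      12 * (K : ℝ) ^ (-(31 * δ / 32)) +
      (6 * C3 * (K : ℝ) ^ (-5 : ℝ) + 24 * C3 * (B : ℝ) ^ 2 * ((K : ℝ) ^ 5 * (3 / 4) ^ K))) Filter.atTop (nhds 0) := by
    have nat : Filter.Tendsto (fun K : ℕ => (K : ℝ)) Filter.atTop Filter.atTop := tendsto_natCast_atTop_atTop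
    have l1 := (tendsto_rpow_neg_atTop (y := 1 - δ / 32) (by linarith)).comp nat
    have l2 := (tendsto_rpow_neg_atTop (y := δ / 32) (by linarith)).comp nat
    have l3 : Filter.Tendsto (fun x : ℝ => Real.log x / x ^ (23 * δ / 32)) Filter.atTop (nhds 0) :=
      (isLittleO_log_rpow_atTop (by linarith)).tendsto_div_nhds_zero
    have l3' := l3.comp nat
    have l4 := (tendsto_rpow_neg_atTop (y := 23 * δ / 32) (by linarith)).comp nat
    have l5 := (tendsto_rpow_neg_atTop (y := 31 * δ / 32) (by linarith)).comp nat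
    have l6 := (tendsto_rpow_neg_atTop (y := 5) (by norm_num)).comp nat
    have l7 := tendsto_pow_const_mul_const_pow_of_abs_lt_one 5 (r := (3 / 4 : ℝ))
      (by rw [abs_of_pos (by norm_num)]; norm_num)
    have := ((((l1.add (l2.const_mul C1)).add ((l3'.const_mul (3 * C2 * (C0 + 41))).add (l4.const_mul (60 * C2)))).add
      (l5.const_mul 12)).add ((l6.const_mul (6 * C3)).add (l7.const_mul (24 * C3 * (B : ℝ) ^ 2))))
    simpa [Function.comp_def] using this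
  have ev1 := lim.eventually (ge_mem_nhds (by norm_num : (0 : ℝ) < 1))
  have lim2 : Filter.Tendsto (fun K : ℕ => 40 * (Real.log K / (K : ℝ) ^ (1 : ℝ)) + 20 * (K : ℝ) ^ (-(1 : ℝ)))
      Filter.atTop (nhds 0) := by
    have nat : Filter.Tendsto (fun K : ℕ => (K : ℝ)) Filter.atTop Filter.atTop := tendsto_natCast_atTop_atTop
    have l3 : Filter.Tendsto (fun x : ℝ => Real.log x / x ^ (1 : ℝ)) Filter.atTop (nhds 0) :=
      (isLittleO_log_rpow_atTop (by norm_num)).tendsto_div_nhds_zero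
    have l3' := l3.comp nat
    have l4 := (tendsto_rpow_neg_atTop (y := 1) (by norm_num)).comp nat
    have := (l3'.const_mul 40).add (l4.const_mul 20)
    simpa only [Function.comp_def, mul_zero, add_zero] using this
  have ev2 := lim2.eventually (ge_mem_nhds (by norm_num : (0 : ℝ) < 1))
  obtain ⟨K0, hK0⟩ := Filter.eventually_atTop.1 (ev1.and ev2)
  refine ⟨max K0 2, fun K hK => ?_⟩
  have hK2 : 2 ≤ K := (le_max_right _ _).trans hK
  have hK1' : 1 ≤ K := by omega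
  obtain ⟨hnum, hnum2⟩ := hK0 K ((le_max_left _ _).trans hK)
  have hKr : (0 : ℝ) < K := by
    have : 0 < K := by omega
    exact_mod_cast this
  have hK1 : (1 : ℝ) ≤ K := by exact_mod_cast hK1'
  have hlog : 0 ≤ Real.log K := Real.log_nonneg hK1
  have hJK : J0 K ≤ K := by
    have h1 := e10_J0 hK1'
    rw [Real.rpow_one, Real.rpow_neg_one] at hnum2
    have h2 : 40 * Real.log K + 20 ≤ K := by
      have h3 : (40 * (Real.log K / K) + 20 * (K : ℝ)⁻¹) * K ≤ 1 * K :=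
        mul_le_mul_of_nonneg_right hnum2 hKr.le
      have h4 : (40 * (Real.log K / K) + 20 * (K : ℝ)⁻¹) * K = 40 * Real.log K + 20 := by
        field_simp
      linarith
    have h3 : (J0 K : ℝ) ≤ K := h1.trans h2
    exact_mod_cast h3
  set η : ℝ := δ / 4 with hη
  set a : ℝ := C0 * Real.log K with ha
  have ha0 : 0 ≤ a := by positivity
  set lam : ℝ := (K : ℝ) ^ (-(1 / 2) + δ) / 3 with hlam
  have hlam0 : 0 < lam := by positivity
  let XG : ℕ → Finset ℕ → ℝ := fun r T => if r < K then 0 else TG K η a r T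
  let L : ℕ → ℝ := fun r => 2 ^ r * r * B
  have hsub : ∀ T ⊆ PP (Y (2 * K)), (∃ r ∈ Finset.Icc K (2 * K), (K : ℝ) ^ (-(1 / 2) + δ) < DG (2 ^ r * r * B) r T) →
      (∃ l ∈ Finset.Icc 1 (2 * K), ∃ j ∈ Finset.Icc (-((K : ℤ) * 2 ^ l)) ((K : ℤ) * 2 ^ l),
        Real.exp (C0 * Real.log K) < UU l T j) ∨
      ((∃ j ∈ Finset.Icc 0 (2 * K), ¬ BJ K η j T) ∨
      ((∃ r ∈ Finset.Icc K (2 * K), lam ≤ XG r T) ∨
      ((∃ r ∈ Finset.Icc K (2 * K), lam ≤ TF K r T) ∨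
        (∃ r ∈ Finset.Icc K (2 * K), lam ≤ TN K η (L r) r T)))) := by
    rintro T - ⟨r, hr, hD⟩
    by_cases hA : ∃ l ∈ Finset.Icc 1 (2 * K), ∃ j ∈ Finset.Icc (-((K : ℤ) * 2 ^ l)) ((K : ℤ) * 2 ^ l),
        Real.exp (C0 * Real.log K) < UU l T j
    · exact Or.inl hA
    right
    by_cases hBJ' : ∃ j ∈ Finset.Icc 0 (2 * K), ¬ BJ K η j T
    · exact Or.inl hBJ'
    right
    push Not at hA hBJ'
    have hr1 := (Finset.mem_Icc.1 hr).1
    have hr2 := (Finset.mem_Icc.1 hr).2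
    have hL1 : 1 ≤ L r := by
      have h1 : (1 : ℝ) ≤ 2 ^ r := one_le_pow₀ (by norm_num)
      have h2 : (1 : ℝ) ≤ r := by exact_mod_cast (by omega : 1 ≤ r)
      have h3 : (1 : ℝ) ≤ B := by exact_mod_cast hB
      have h4 : (1 : ℝ) ≤ 2 ^ r * r := one_le_mul_of_one_le_of_one_le h1 h2
      exact one_le_mul_of_one_le_of_one_le h4 h3
    have hle := DG_le K r η (L r) a T hK1' (hJK.trans hr1) hr2 hL1 hA hBJ'
    by_cases h1 : lam ≤ XG r T
    · exact Or.inl ⟨r, hr, h1⟩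
    right
    by_cases h2 : lam ≤ TF K r T
    · exact Or.inl ⟨r, hr, h2⟩
    right
    refine ⟨r, hr, ?_⟩
    rw [not_le] at h1 h2
    have h3 : XG r T = TG K η a r T := if_neg (by omega)
    rw [h3] at h1
    have h4 : (K : ℝ) ^ (-(1 / 2) + δ) < DG (L r) r T := hD
    have h5 : (K : ℝ) ^ (-(1 / 2) + δ) = 3 * lam := by rw [hlam]; ring
    linarith
  -- probabilities
  have p1 := hbar K hK2
  have p2 := hBJ K hK1' η (by positivity)
  have p3 : pr (PP (Y (2 * K))) (fun T => ∃ r ∈ Finset.Icc K (2 * K), lam ≤ XG r T) ≤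
      (C2 * (K : ℝ) ^ η * (a + Real.log K + J0 K) / Real.sqrt K) / lam := by
    have h1 := maxsm XG K (2 * K) (by omega) lam hlam0 ?_ ?_ ?_
    · refine h1.trans (div_le_div_of_nonneg_right ?_ hlam0.le)
      have h2 : XG K = TG K η a K := by
        funext T
        exact if_neg (lt_irrefl K)
      rw [h2]
      exact hTG K hK2 hJK a η ha0 (by positivity)
    · intro r T
      change 0 ≤ if r < K then (0 : ℝ) else TG K η a r T
      split_ifs
      · exact le_rfl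
      · exact TG_nonneg K η a r T
    · intro r T
      change (if r < K then (0 : ℝ) else TG K η a r T) = if r < K then (0 : ℝ) else TG K η a r (T ∩ PP (Y r))
      split_ifs with h
      · rfl
      · exact TG_dep K η a r (hJK.trans (not_lt.1 h)) T
    · intro r hr _ T0 hT0
      have e1 : ∀ T, XG (r + 1) T = TG K η a (r + 1) T := fun T => if_neg (by omega)
      have e2 : XG r T0 = TG K η a r T0 := if_neg (by omega)
      simp only [e1, e2]
      exact TG_sup K η a r (hJK.trans hr) T0 hT0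
  have p4 : pr (PP (Y (2 * K))) (fun T => ∃ r ∈ Finset.Icc K (2 * K), lam ≤ TF K r T) ≤
      (4 / Real.sqrt K) / lam := by
    have h1 := maxsm (fun r T => TF K r T) K (2 * K) (by omega) lam hlam0 (fun r T => TF_nonneg K r T)
      (fun r T => TF_dep K r T) (fun r _ _ T0 hT0 => (TF_mart K r hK1' T0 hT0).le)
    exact h1.trans (div_le_div_of_nonneg_right (TF_mean K K hK1') hlam0.le)
  have p5 : pr (PP (Y (2 * K))) (fun T => ∃ r ∈ Finset.Icc K (2 * K), lam ≤ TN K η (L r) r T) ≤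
      (K + 1) * ((C3 * (K : ℝ) ^ η * (1 / (K : ℝ) ^ 8 + 4 * (K : ℝ) ^ 2 * (B : ℝ) ^ 2 * (3 / 4) ^ K)) / lam) := by
    refine (pr_exists (PP (Y (2 * K))) (Finset.Icc K (2 * K)) (fun r T => lam ≤ TN K η (L r) r T)).trans ?_
    have h1 : ∀ r ∈ Finset.Icc K (2 * K), pr (PP (Y (2 * K))) (fun T => lam ≤ TN K η (L r) r T) ≤
        (C3 * (K : ℝ) ^ η * (1 / (K : ℝ) ^ 8 + 4 * (K : ℝ) ^ 2 * (B : ℝ) ^ 2 * (3 / 4) ^ K)) / lam := by
      intro r hr
      have hr1 := (Finset.mem_Icc.1 hr).1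
      have hr2 := (Finset.mem_Icc.1 hr).2
      refine markov (fun T _ => e10_TN_nonneg K η (L r) r T) hlam0 ?_
      rw [av_restrict (PP_Y_mono hr2) _ (fun T => e10_TN_dep K η (L r) r T)]
      refine (hTN K r η (L r) hK1' (hJK.trans hr1)).trans ?_
      refine mul_le_mul_of_nonneg_left ?_ (by positivity)
      refine add_le_add (e10_pow hK1') ?_
      have e1 : (L r) ^ 2 * (3 / 16) ^ r = (r : ℝ) ^ 2 * (B : ℝ) ^ 2 * (3 / 4) ^ r := by
        change (2 ^ r * (r : ℝ) * B) ^ 2 * (3 / 16) ^ r = _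
        have : (3 / 4 : ℝ) ^ r = 4 ^ r * (3 / 16) ^ r := by
          rw [← mul_pow]; norm_num
        rw [this, show (4 : ℝ) = 2 ^ 2 by norm_num, ← pow_mul, mul_comm 2 r, pow_mul]
        ring
      rw [e1]
      have h2 : (r : ℝ) ≤ 2 * K := by exact_mod_cast hr2
      have h3 : (3 / 4 : ℝ) ^ r ≤ (3 / 4) ^ K := pow_le_pow_of_le_one (by norm_num) (by norm_num) hr1
      have h4 : (r : ℝ) ^ 2 ≤ (2 * K) ^ 2 := pow_le_pow_left₀ (by positivity) h2 2
      calc (r : ℝ) ^ 2 * (B : ℝ) ^ 2 * (3 / 4) ^ r ≤ (2 * K) ^ 2 * (B : ℝ) ^ 2 * (3 / 4) ^ K := by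
            apply mul_le_mul (mul_le_mul_of_nonneg_right h4 (by positivity)) h3 (by positivity) (by positivity)
        _ = _ := by ring
    refine (Finset.sum_le_sum h1).trans ?_
    rw [Finset.sum_const, Nat.card_Icc, nsmul_eq_mul]
    have h2 : ((2 * K + 1 - K : ℕ) : ℝ) = K + 1 := by
      have : 2 * K + 1 - K = K + 1 := by omega
      rw [this]; push_cast; ring
    rw [h2]
  have q1 := pr_le_add hsub
  have q2 := pr_or (PP (Y (2 * K))) (fun T => ∃ j ∈ Finset.Icc 0 (2 * K), ¬ BJ K η j T)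
    (fun T => (∃ r ∈ Finset.Icc K (2 * K), lam ≤ XG r T) ∨
      ((∃ r ∈ Finset.Icc K (2 * K), lam ≤ TF K r T) ∨
        (∃ r ∈ Finset.Icc K (2 * K), lam ≤ TN K η (L r) r T)))
  have q3 := pr_or (PP (Y (2 * K))) (fun T => ∃ r ∈ Finset.Icc K (2 * K), lam ≤ XG r T)
    (fun T => (∃ r ∈ Finset.Icc K (2 * K), lam ≤ TF K r T) ∨
        (∃ r ∈ Finset.Icc K (2 * K), lam ≤ TN K η (L r) r T))
  have q4 := pr_or (PP (Y (2 * K))) (fun T => ∃ r ∈ Finset.Icc K (2 * K), lam ≤ TF K r T)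
    (fun T => ∃ r ∈ Finset.Icc K (2 * K), lam ≤ TN K η (L r) r T)
  have key : (1 : ℝ) / K + (C1 * (K : ℝ) ^ (-(η / 4)) +
      ((C2 * (K : ℝ) ^ η * (a + Real.log K + J0 K) / Real.sqrt K) / lam + ((4 / Real.sqrt K) / lam +
      (K + 1) * ((C3 * (K : ℝ) ^ η * (1 / (K : ℝ) ^ 8 + 4 * (K : ℝ) ^ 2 * (B : ℝ) ^ 2 * (3 / 4) ^ K)) / lam)))) ≤
      (K : ℝ) ^ (-(δ / 32)) := by
    have hP : 0 < (K : ℝ) ^ (-(δ / 32)) := by positivity
    have hsq : Real.sqrt K = (K : ℝ) ^ (1 / 2 : ℝ) := Real.sqrt_eq_rpow _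
    have hsl : Real.sqrt K * lam = (K : ℝ) ^ δ / 3 := by
      rw [hsq, hlam, mul_div_assoc', ← Real.rpow_add hKr]
      congr 2
      ring
    have f1 : (1 : ℝ) / K = (K : ℝ) ^ (-(δ / 32)) * (K : ℝ) ^ (-(1 - δ / 32)) := by
      rw [← Real.rpow_add hKr, show -(δ / 32) + -(1 - δ / 32) = (-1 : ℝ) by ring, Real.rpow_neg_one, one_div]
    have f2 : C1 * (K : ℝ) ^ (-(η / 4)) = (K : ℝ) ^ (-(δ / 32)) * (C1 * (K : ℝ) ^ (-(δ / 32))) := by
      rw [mul_left_comm, ← Real.rpow_add hKr, hη]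
      congr 2
      ring
    have f3 : (C2 * (K : ℝ) ^ η * (a + Real.log K + J0 K) / Real.sqrt K) / lam ≤
        (K : ℝ) ^ (-(δ / 32)) * (3 * C2 * (C0 + 41) * (Real.log K / (K : ℝ) ^ (23 * δ / 32)) +
          60 * C2 * (K : ℝ) ^ (-(23 * δ / 32))) := by
      have g1 : (C2 * (K : ℝ) ^ η * (a + Real.log K + J0 K) / Real.sqrt K) / lam =
          3 * C2 * (a + Real.log K + J0 K) * (K : ℝ) ^ (η - δ) := by
        rw [div_div, hsl, Real.rpow_sub hKr]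
        have : 0 < (K : ℝ) ^ δ := by positivity
        field_simp
      have g2 : a + Real.log K + J0 K ≤ (C0 + 41) * Real.log K + 20 := by
        have := e10_J0 hK1'
        rw [ha]
        linarith
      have g3 : (K : ℝ) ^ (η - δ) = (K : ℝ) ^ (-(δ / 32)) * (K : ℝ) ^ (-(23 * δ / 32)) := by
        rw [← Real.rpow_add hKr, hη]
        congr 1
        ring
      rw [g1, g3]
      have g4 : Real.log K / (K : ℝ) ^ (23 * δ / 32) = Real.log K * (K : ℝ) ^ (-(23 * δ / 32)) := by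
        rw [Real.rpow_neg hKr.le, div_eq_mul_inv]
      rw [g4]
      have g5 : 0 < (K : ℝ) ^ (-(23 * δ / 32)) := by positivity
      have g6 : 3 * C2 * (a + Real.log K + J0 K) ≤ 3 * C2 * ((C0 + 41) * Real.log K + 20) :=
        mul_le_mul_of_nonneg_left g2 (by positivity)
      calc 3 * C2 * (a + Real.log K + J0 K) * ((K : ℝ) ^ (-(δ / 32)) * (K : ℝ) ^ (-(23 * δ / 32))) ≤
            3 * C2 * ((C0 + 41) * Real.log K + 20) * ((K : ℝ) ^ (-(δ / 32)) * (K : ℝ) ^ (-(23 * δ / 32))) :=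
            mul_le_mul_of_nonneg_right g6 (by positivity)
        _ = _ := by ring
    have f4 : (4 / Real.sqrt K) / lam = (K : ℝ) ^ (-(δ / 32)) * (12 * (K : ℝ) ^ (-(31 * δ / 32))) := by
      rw [div_div, hsl, mul_left_comm, ← Real.rpow_add hKr, show -(δ / 32) + -(31 * δ / 32) = -δ by ring,
        Real.rpow_neg hKr.le]
      have : 0 < (K : ℝ) ^ δ := by positivity
      field_simp
      norm_num
    have f5 : (K + 1) * ((C3 * (K : ℝ) ^ η * (1 / (K : ℝ) ^ 8 + 4 * (K : ℝ) ^ 2 * (B : ℝ) ^ 2 * (3 / 4) ^ K)) / lam) ≤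
        (K : ℝ) ^ (-(δ / 32)) * (6 * C3 * (K : ℝ) ^ (-5 : ℝ) +
          24 * C3 * (B : ℝ) ^ 2 * ((K : ℝ) ^ 5 * (3 / 4) ^ K)) := by
      set M : ℝ := 1 / (K : ℝ) ^ 8 + 4 * (K : ℝ) ^ 2 * (B : ℝ) ^ 2 * (3 / 4) ^ K with hM
      have hM0 : 0 ≤ M := by positivity
      have g1 : (C3 * (K : ℝ) ^ η * M) / lam = 3 * C3 * M * (K : ℝ) ^ (η + 1 / 2 - δ) := by
        rw [hlam, show η + 1 / 2 - δ = η - (-(1 / 2) + δ) by ring, Real.rpow_sub hKr]
        have : 0 < (K : ℝ) ^ (-(1 / 2) + δ) := by positivity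
        field_simp
      have g2 : (K : ℝ) + 1 ≤ 2 * K := by linarith
      have g3 : (K : ℝ) ^ (η + 1 / 2 - δ) ≤ (K : ℝ) ^ (-(δ / 32)) * (K : ℝ) ^ (2 : ℝ) := by
        rw [← Real.rpow_add hKr]
        exact Real.rpow_le_rpow_of_exponent_le hK1 (by rw [hη]; linarith)
      have g4 : (K : ℝ) ^ (2 : ℝ) = (K : ℝ) ^ 2 := by
        rw [← Real.rpow_natCast]; norm_num
      have g5 : (K : ℝ) ^ (-5 : ℝ) = 1 / (K : ℝ) ^ 5 := by
        rw [Real.rpow_neg hKr.le, ← Real.rpow_natCast]; norm_num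
      rw [g1, g5]
      calc (K + 1) * (3 * C3 * M * (K : ℝ) ^ (η + 1 / 2 - δ)) ≤
            (2 * K) * (3 * C3 * M * ((K : ℝ) ^ (-(δ / 32)) * (K : ℝ) ^ (2 : ℝ))) := by
            apply mul_le_mul g2 (mul_le_mul_of_nonneg_left g3 (by positivity)) (by positivity) (by positivity)
        _ = (K : ℝ) ^ (-(δ / 32)) * (6 * C3 * ((K : ℝ) ^ 3 * M)) := by rw [g4]; ring
        _ = (K : ℝ) ^ (-(δ / 32)) * (6 * C3 * (1 / (K : ℝ) ^ 5) +
          24 * C3 * (B : ℝ) ^ 2 * ((K : ℝ) ^ 5 * (3 / 4) ^ K)) := by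
            rw [hM]
            field_simp
            ring
    rw [f1, f2, f4]
    calc (K : ℝ) ^ (-(δ / 32)) * (K : ℝ) ^ (-(1 - δ / 32)) + ((K : ℝ) ^ (-(δ / 32)) * (C1 * (K : ℝ) ^ (-(δ / 32))) +
        ((C2 * (K : ℝ) ^ η * (a + Real.log K + J0 K) / Real.sqrt K) / lam +
        ((K : ℝ) ^ (-(δ / 32)) * (12 * (K : ℝ) ^ (-(31 * δ / 32))) +
        (K + 1) * ((C3 * (K : ℝ) ^ η * (1 / (K : ℝ) ^ 8 + 4 * (K : ℝ) ^ 2 * (B : ℝ) ^ 2 * (3 / 4) ^ K)) / lam)))) ≤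
        (K : ℝ) ^ (-(δ / 32)) * ((K : ℝ) ^ (-(1 - δ / 32)) + C1 * (K : ℝ) ^ (-(δ / 32)) +
      (3 * C2 * (C0 + 41) * (Real.log K / (K : ℝ) ^ (23 * δ / 32)) + 60 * C2 * (K : ℝ) ^ (-(23 * δ / 32))) +
      12 * (K : ℝ) ^ (-(31 * δ / 32)) +
      (6 * C3 * (K : ℝ) ^ (-5 : ℝ) + 24 * C3 * (B : ℝ) ^ 2 * ((K : ℝ) ^ 5 * (3 / 4) ^ K))) := by
          have e : ∀ x1 x2 x3 x4 x5 P : ℝ, P * (x1 + x2 + x3 + x4 + x5) =
              P * x1 + (P * x2 + (P * x3 + (P * x4 + P * x5))) := by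
            intros; ring
          rw [e]
          exact add_le_add le_rfl (add_le_add le_rfl (add_le_add f3 (add_le_add le_rfl f5)))
      _ ≤ (K : ℝ) ^ (-(δ / 32)) * 1 := mul_le_mul_of_nonneg_left hnum hP.le
      _ = _ := mul_one _
  linarith

end Pool.Agent.Helper96.AG
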