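import Pool.Agent.Helper96.AG.Bas

/-!
# Project AG (MP_a499ba_nt, Q2), block E1a

The Dirichlet polynomial `DA`. PROOF: `norm_DA_le`: `‖a^(-1-2it)‖ = 1/a`, harmonic sum. `norm_DA_le'`, `τ = 2t ≠ 0`: compare with the integral: for `n ≥ 1`, `‖n^(-1-iτ) - ∫_n^(n+1) x^(-1-iτ) dx‖ ≤ |1 + iτ| /n^2`
(mean value inequality, or `∫_n^(n+1) (n+1-x) (1+iτ) x^(-2-iτ)`), and `∫_B^(A+1) x^(-1-iτ) dx = (B^(-iτ) - (A+1)^(-iτ))/(iτ)` has norm `≤ 2/|τ|`. Let `B = ⌈1 + |τ|⌉`. The terms `a < B` contribute `≤ 1 + log (2 + |τ|)`; the terms `B ≤ a ≤ A`: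
`≤ 2/|τ| + |1+iτ| ∑_{n ≥ B} 1/n^2 ≤ 2/|τ| + (1+|τ|) 2/B ≤ 2/|τ| + 2`. Total `≤ 1/|t| + 3 + log (2 + 2|t|)`.
`DA_WG`: with `L = 1 + log Z ≥ 1`, `A ≤ Z`: for `|t| ≤ 1/L` by `norm_DA_le` `‖DA‖^2 ww ≤ L^2 ww 0 ≤ L^2`; for `1/L < |t| ≤ 1` `‖DA‖ ≤ 6/|t|`, `ww t ≤ 1`; for `|t| > 1` `‖DA‖^2 ≤ (5 + log (2 + 2|t|))^2 ≤ C |t|^(1/2)` and `ww t ≤ 1/t^2`.
-/

set_option autoImplicit false

namespace Pool.Agent.Helper96.AG

open Finset Pool.Agent.Helper5.RM Pool.Agent.Helper96.AF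

private lemma h24_norm_term (t : ℝ) {a : ℕ} (ha : 0 < a) :
    ‖(a : ℂ) ^ (-(1 + 2 * (t : ℂ) * Complex.I))‖ = 1 / (a : ℝ) := by
  rw [Complex.norm_natCast_cpow_of_pos ha]
  have h : (-(1 + 2 * (t : ℂ) * Complex.I)).re = -1 := by simp
  rw [h, Real.rpow_neg_one, one_div]

private lemma h24_harm (A : ℕ) : ∑ a ∈ Finset.Icc 1 A, 1 / (a : ℝ) ≤ 1 + Real.log A := by
  have h := harmonic_le_one_add_log A
  have h2 : ((harmonic A : ℚ) : ℝ) = ∑ a ∈ Finset.Icc 1 A, 1 / (a : ℝ) := by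
    rw [harmonic_eq_sum_Icc]
    push_cast
    simp
  rw [← h2]
  exact h

private lemma h24_sum_le (t : ℝ) (S : Finset ℕ) (hS : ∀ a ∈ S, 0 < a) :
    ‖∑ a ∈ S, (a : ℂ) ^ (-(1 + 2 * (t : ℂ) * Complex.I))‖ ≤ ∑ a ∈ S, 1 / (a : ℝ) := by
  refine (norm_sum_le _ _).trans (le_of_eq (Finset.sum_congr rfl fun a ha => ?_))
  exact h24_norm_term t (hS a ha)

theorem norm_DA_le (A : ℕ) (t : ℝ) : ‖DA A t‖ ≤ 1 + Real.log A := by
  unfold DA
  refine (h24_sum_le t _ fun a ha => ?_).trans (h24_harm A)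
  exact (Finset.mem_Icc.1 ha).1

/-- the antiderivative of `x^(-1-2it)` -/
private noncomputable def h24_G (t x : ℝ) : ℂ :=
  (x : ℂ) ^ (-(1 + 2 * (t : ℂ) * Complex.I) + 1) / (-(1 + 2 * (t : ℂ) * Complex.I) + 1)

private lemma h24_r1 (t : ℝ) : -(1 + 2 * (t : ℂ) * Complex.I) + 1 = -(2 * (t : ℂ) * Complex.I) := by
  ring

private lemma h24_normG {t x : ℝ} (hx : 0 < x) : ‖h24_G t x‖ = 1 / (2 * |t|) := by
  unfold h24_G
  rw [norm_div, Complex.norm_cpow_eq_rpow_re_of_pos hx, h24_r1]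
  have h1 : (-(2 * (t : ℂ) * Complex.I)).re = 0 := by simp
  rw [h1, Real.rpow_zero, norm_neg, norm_mul, norm_mul, Complex.norm_I, mul_one]
  simp

private lemma h24_step (t : ℝ) (ht : t ≠ 0) {n : ℕ} (hn : 0 < n) :
    ‖(n : ℂ) ^ (-(1 + 2 * (t : ℂ) * Complex.I)) - (h24_G t (n + 1) - h24_G t n)‖ ≤
      (1 + 2 * |t|) / (n : ℝ) ^ 2 := by
  set r : ℂ := -(1 + 2 * (t : ℂ) * Complex.I) with hr
  have hrne : r ≠ -1 := by
    intro h
    have h1 : r + 1 = 0 := by rw [h]; ring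
    rw [hr, h24_r1, neg_eq_zero, mul_eq_zero, mul_eq_zero] at h1
    rcases h1 with (h1 | h1) | h1
    · norm_num at h1
    · exact ht (by exact_mod_cast h1)
    · exact Complex.I_ne_zero h1
  have hr0 : r ≠ 0 := by
    intro h
    have h1 := congrArg Complex.re h
    rw [hr] at h1
    simp at h1
  have hrnorm : ‖r‖ ≤ 1 + 2 * |t| := by
    rw [hr, norm_neg]
    refine (norm_add_le _ _).trans ?_
    rw [norm_one, norm_mul, norm_mul, Complex.norm_I, mul_one]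
    simp
  have hn0 : (0 : ℝ) < n := by exact_mod_cast hn
  have hpos : ∀ x ∈ Set.Icc (n : ℝ) (n + 1), 0 < x := fun x hx => lt_of_lt_of_le hn0 hx.1
  -- the derivative of `x^r`
  have hd : ∀ x ∈ Set.Icc (n : ℝ) (n + 1), HasDerivWithinAt (fun y : ℝ => (y : ℂ) ^ r)
      (r * (x : ℂ) ^ (r - 1)) (Set.Icc (n : ℝ) (n + 1)) x := fun x hx =>
    (hasDerivAt_ofReal_cpow_const (hpos x hx).ne' hr0).hasDerivWithinAt
  have hbd : ∀ x ∈ Set.Icc (n : ℝ) (n + 1), ‖r * (x : ℂ) ^ (r - 1)‖ ≤ (1 + 2 * |t|) / (n : ℝ) ^ 2 := by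
    intro x hx
    rw [norm_mul, Complex.norm_cpow_eq_rpow_re_of_pos (hpos x hx)]
    have h1 : (r - 1).re = -2 := by
      rw [hr]
      simp
      norm_num
    rw [h1, show (-2 : ℝ) = -((2 : ℕ) : ℝ) by norm_num, Real.rpow_neg (hpos x hx).le,
      Real.rpow_natCast, div_eq_mul_inv]
    have h2 : (x ^ 2)⁻¹ ≤ ((n : ℝ) ^ 2)⁻¹ :=
      inv_anti₀ (by positivity) (pow_le_pow_left₀ hn0.le hx.1 2)
    exact mul_le_mul hrnorm h2 (by have := hpos x hx; positivity) (by positivity)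
  have hconv : Convex ℝ (Set.Icc (n : ℝ) (n + 1)) := convex_Icc _ _
  have hnmem : (n : ℝ) ∈ Set.Icc (n : ℝ) (n + 1) := ⟨le_rfl, by linarith⟩
  have hn1mem : (n : ℝ) + 1 ∈ Set.Icc (n : ℝ) (n + 1) := ⟨by linarith, le_rfl⟩
  have hlip : ∀ x ∈ Set.Icc (n : ℝ) (n + 1), ‖(x : ℂ) ^ r - ((n : ℝ) : ℂ) ^ r‖ ≤
      (1 + 2 * |t|) / (n : ℝ) ^ 2 := by
    intro x hx
    have h1 := hconv.norm_image_sub_le_of_norm_hasDerivWithin_le hd hbd hnmem hx
    refine h1.trans ?_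
    have h2 : ‖x - n‖ ≤ 1 := by
      rw [Real.norm_eq_abs, abs_of_nonneg (by linarith [hx.1])]
      linarith [hx.2]
    have h3 : 0 ≤ (1 + 2 * |t|) / (n : ℝ) ^ 2 := by positivity
    nlinarith
  -- the function `G x - x n^r`
  have hH : ∀ x ∈ Set.Icc (n : ℝ) (n + 1), HasDerivWithinAt
      (fun y : ℝ => h24_G t y - (y : ℂ) * ((n : ℝ) : ℂ) ^ r)
      ((x : ℂ) ^ r - 1 * ((n : ℝ) : ℂ) ^ r) (Set.Icc (n : ℝ) (n + 1)) x := by
    intro x hx
    have h1 : HasDerivAt (h24_G t) ((x : ℂ) ^ r) x :=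
      hasDerivAt_ofReal_cpow_const' (hpos x hx).ne' hrne
    have h2 : HasDerivAt (fun y : ℝ => (y : ℂ) * ((n : ℝ) : ℂ) ^ r) (1 * ((n : ℝ) : ℂ) ^ r) x :=
      ((hasDerivAt_id x).ofReal_comp).mul_const _
    exact (h1.sub h2).hasDerivWithinAt
  have hfin := hconv.norm_image_sub_le_of_norm_hasDerivWithin_le hH
    (fun x hx => by rw [one_mul]; exact hlip x hx) hnmem hn1mem
  have h4 : ‖(n : ℝ) + 1 - n‖ = 1 := by
    rw [add_sub_cancel_left]
    simp
  rw [h4, mul_one] at hfin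
  rw [← norm_neg]
  refine le_trans (le_of_eq ?_) hfin
  congr 1
  push_cast
  ring

private lemma h24_telescope (t : ℝ) {B A : ℕ} (hBA : B ≤ A + 1) :
    ∑ n ∈ Finset.Ico B (A + 1), (h24_G t (n + 1) - h24_G t n) = h24_G t (A + 1) - h24_G t B := by
  have h := Finset.sum_Ico_sub (fun n : ℕ => h24_G t (n : ℝ)) hBA
  push_cast at h
  exact h

private lemma h24_sq_sum {B : ℕ} (hB : 2 ≤ B) (A : ℕ) :
    ∑ n ∈ Finset.Ico B (A + 1), 1 / (n : ℝ) ^ 2 ≤ 2 / (B : ℝ) := by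
  have hB' : (2 : ℝ) ≤ B := by exact_mod_cast hB
  have h1 : ∀ m, B ≤ m → ∑ n ∈ Finset.Ico B m, 1 / (n : ℝ) ^ 2 ≤
      1 / ((B : ℝ) - 1) - 1 / ((m : ℝ) - 1) := by
    intro m hm
    induction m, hm using Nat.le_induction with
    | base => simp
    | succ m hm ih =>
      rw [Finset.sum_Ico_succ_top hm]
      have hm' : (2 : ℝ) ≤ m := hB'.trans (by exact_mod_cast hm)
      have h2 : 1 / (m : ℝ) ^ 2 ≤ 1 / ((m : ℝ) - 1) - 1 / m := by
        rw [div_sub_div _ _ (by linarith) (by linarith), div_le_div_iff₀ (by positivity)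
          (mul_pos (by linarith) (by linarith))]
        nlinarith
      have h3 : ((m + 1 : ℕ) : ℝ) - 1 = m := by push_cast; ring
      rw [h3]
      linarith
  have h5 : 1 / ((B : ℝ) - 1) ≤ 2 / (B : ℝ) := by
    rw [div_le_div_iff₀ (by linarith) (by linarith)]
    linarith
  by_cases hA : B ≤ A + 1
  · have h6 := h1 (A + 1) hA
    have h7 : (0 : ℝ) ≤ 1 / (((A + 1 : ℕ) : ℝ) - 1) := by
      push_cast
      rw [add_sub_cancel_right]
      positivity
    linarith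
  · rw [Finset.Ico_eq_empty (by omega), Finset.sum_empty]
    positivity

theorem norm_DA_le' (A : ℕ) (t : ℝ) (ht : t ≠ 0) : ‖DA A t‖ ≤ 1 / |t| + 4 + Real.log (2 + 2 * |t|) := by
  have ht0 : 0 < |t| := abs_pos.2 ht
  set B : ℕ := ⌈1 + 2 * |t|⌉₊ with hB
  have hB1 : 1 + 2 * |t| ≤ B := Nat.le_ceil _
  have hB2 : (B : ℝ) < 1 + 2 * |t| + 1 := Nat.ceil_lt_add_one (by positivity)
  have hBge : 2 ≤ B := by
    have h1 : (1 : ℝ) < B := by linarith
    have h2 : 1 < B := by exact_mod_cast h1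
    exact h2
  have hinv : 0 < 1 / |t| := by positivity
  have hlog1 : ∀ m : ℕ, m + 1 ≤ B → 1 + Real.log m ≤ 1 + Real.log (2 + 2 * |t|) := by
    intro m hm
    rcases Nat.eq_zero_or_pos m with h0 | h0
    · subst h0
      have : 0 ≤ Real.log (2 + 2 * |t|) := Real.log_nonneg (by linarith)
      simpa using this
    · have h1 : (0 : ℝ) < m := by exact_mod_cast h0
      have h2 : (m : ℝ) + 1 ≤ B := by exact_mod_cast hm
      have h3 := Real.log_le_log h1 (show (m : ℝ) ≤ 2 + 2 * |t| by linarith)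
      linarith
  by_cases hA : A < B
  · have h1 := norm_DA_le A t
    have h2 := hlog1 A hA
    linarith
  · rw [not_lt] at hA
    have hsplit : DA A t = (∑ a ∈ Finset.Icc 1 (B - 1), (a : ℂ) ^ (-(1 + 2 * (t : ℂ) * Complex.I))) +
        ∑ a ∈ Finset.Ico B (A + 1), (a : ℂ) ^ (-(1 + 2 * (t : ℂ) * Complex.I)) := by
      unfold DA
      rw [← Finset.sum_union]
      · refine Finset.sum_congr ?_ fun _ _ => rfl
        ext x
        simp only [Finset.mem_union, Finset.mem_Icc, Finset.mem_Ico]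
        omega
      · rw [Finset.disjoint_left]
        intro x hx hx'
        rw [Finset.mem_Icc] at hx
        rw [Finset.mem_Ico] at hx'
        omega
    have hfirst : ‖∑ a ∈ Finset.Icc 1 (B - 1), (a : ℂ) ^ (-(1 + 2 * (t : ℂ) * Complex.I))‖ ≤
        1 + Real.log (2 + 2 * |t|) := by
      refine (h24_sum_le t _ fun a ha => (Finset.mem_Icc.1 ha).1).trans ?_
      refine (h24_harm (B - 1)).trans ?_
      exact hlog1 (B - 1) (by omega)
    have hB0 : (0 : ℝ) < B := by linarith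
    have hsecond : ‖∑ a ∈ Finset.Ico B (A + 1), (a : ℂ) ^ (-(1 + 2 * (t : ℂ) * Complex.I))‖ ≤
        1 / |t| + 2 := by
      have e1 : ∑ a ∈ Finset.Ico B (A + 1), (a : ℂ) ^ (-(1 + 2 * (t : ℂ) * Complex.I)) =
          (∑ a ∈ Finset.Ico B (A + 1), ((a : ℂ) ^ (-(1 + 2 * (t : ℂ) * Complex.I)) -
            (h24_G t (a + 1) - h24_G t a))) + (h24_G t (A + 1) - h24_G t B) := by
        rw [← h24_telescope t (show B ≤ A + 1 by omega), Finset.sum_sub_distrib]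
        ring
      rw [e1]
      refine (norm_add_le _ _).trans ?_
      have e2 : ‖∑ a ∈ Finset.Ico B (A + 1), ((a : ℂ) ^ (-(1 + 2 * (t : ℂ) * Complex.I)) -
            (h24_G t (a + 1) - h24_G t a))‖ ≤ 2 := by
        refine (norm_sum_le _ _).trans ?_
        have e3 : ∑ a ∈ Finset.Ico B (A + 1), ‖(a : ℂ) ^ (-(1 + 2 * (t : ℂ) * Complex.I)) -
            (h24_G t (a + 1) - h24_G t a)‖ ≤
            ∑ a ∈ Finset.Ico B (A + 1), (1 + 2 * |t|) * (1 / (a : ℝ) ^ 2) := by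
          refine Finset.sum_le_sum fun a ha => ?_
          rw [Finset.mem_Ico] at ha
          refine (h24_step t ht (by omega)).trans (le_of_eq ?_)
          ring
        refine e3.trans ?_
        rw [← Finset.mul_sum]
        have e4 := h24_sq_sum hBge A
        calc (1 + 2 * |t|) * ∑ a ∈ Finset.Ico B (A + 1), 1 / (a : ℝ) ^ 2
            ≤ B * (2 / B) := mul_le_mul hB1 e4 (Finset.sum_nonneg fun _ _ => by positivity)
              hB0.le
          _ = 2 := by field_simp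
      have e5 : ‖h24_G t (A + 1) - h24_G t B‖ ≤ 1 / |t| := by
        refine (norm_sub_le _ _).trans ?_
        have hA0 : (0 : ℝ) < (A : ℝ) + 1 := by positivity
        rw [h24_normG hA0, h24_normG hB0]
        refine le_of_eq ?_
        field_simp
        norm_num
      linarith
    rw [hsplit]
    have h3 := norm_add_le (∑ a ∈ Finset.Icc 1 (B - 1), (a : ℂ) ^ (-(1 + 2 * (t : ℂ) * Complex.I)))
      (∑ a ∈ Finset.Ico B (A + 1), (a : ℂ) ^ (-(1 + 2 * (t : ℂ) * Complex.I)))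
    linarith

private lemma h24_ww_le_one (t : ℝ) : ww t ≤ 1 := by
  unfold ww
  rw [div_le_one (by positivity)]
  have h1 := Real.pi_gt_three
  nlinarith [sq_nonneg t]

private lemma h24_ww_le (t : ℝ) (ht : t ≠ 0) : ww t ≤ 1 / t ^ 2 := by
  unfold ww
  have h0 : 0 < t ^ 2 := by positivity
  refine one_div_le_one_div_of_le h0 ?_
  have h1 := Real.pi_gt_three
  nlinarith

theorem DA_WG : ∃ C : ℝ, 0 < C ∧ ∀ (A Z : ℕ) (t : ℝ), 1 ≤ A → A ≤ Z →
    ‖DA A t‖ ^ 2 * ww t ≤ C * WG (1 + Real.log Z) t := by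
  refine ⟨121, by norm_num, fun A Z t hA hAZ => ?_⟩
  have hA1 : (1 : ℝ) ≤ A := by exact_mod_cast hA
  have hAZ' : (A : ℝ) ≤ Z := by exact_mod_cast hAZ
  have hlogA : 0 ≤ Real.log A := Real.log_nonneg hA1
  have hlog : Real.log A ≤ Real.log Z := Real.log_le_log (by linarith) hAZ'
  set L : ℝ := 1 + Real.log Z with hL
  have hL1 : 1 ≤ L := by linarith
  have hw := ww_pos t
  have hw1 := h24_ww_le_one t
  have hn0 := norm_nonneg (DA A t)
  unfold WG
  split_ifs with h1 h2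
  · have h3 : ‖DA A t‖ ≤ L := (norm_DA_le A t).trans (by linarith)
    have h4 : ‖DA A t‖ ^ 2 ≤ L ^ 2 := pow_le_pow_left₀ hn0 h3 2
    calc ‖DA A t‖ ^ 2 * ww t ≤ L ^ 2 * 1 := mul_le_mul h4 hw1 hw.le (by positivity)
      _ ≤ 121 * L ^ 2 := by nlinarith [sq_nonneg L]
  · rw [not_le] at h1
    have ht0 : 0 < |t| := lt_trans (by positivity) h1
    have htne : t ≠ 0 := abs_pos.1 ht0
    have h3 := norm_DA_le' A t htne
    have h4 : Real.log (2 + 2 * |t|) ≤ 2 := by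
      have e1 : Real.log (2 + 2 * |t|) ≤ Real.log 4 :=
        Real.log_le_log (by positivity) (by linarith)
      have e2 : Real.log 4 = 2 * Real.log 2 := by
        rw [show (4 : ℝ) = 2 ^ 2 by norm_num, Real.log_pow]
        norm_num
      have e3 := Real.log_two_lt_d9
      linarith
    have h5 : ‖DA A t‖ ≤ 7 / |t| := by
      have e1 : 1 ≤ 1 / |t| := by
        rw [le_div_iff₀ ht0]
        linarith
      have e2 : 7 / |t| = 7 * (1 / |t|) := by ring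
      rw [e2]
      linarith
    have h6 : ‖DA A t‖ ^ 2 ≤ 49 / t ^ 2 := by
      calc ‖DA A t‖ ^ 2 ≤ (7 / |t|) ^ 2 := pow_le_pow_left₀ hn0 h5 2
        _ = 49 / t ^ 2 := by
          rw [div_pow, sq_abs]
          norm_num
    have h7 : (0 : ℝ) < 1 / t ^ 2 := by positivity
    calc ‖DA A t‖ ^ 2 * ww t ≤ 49 / t ^ 2 * 1 := mul_le_mul h6 hw1 hw.le (by positivity)
      _ = 49 * (1 / t ^ 2) := by ring
      _ ≤ 121 * (1 / t ^ 2) := by nlinarith
  · rw [not_le] at h1 h2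
    have ht0 : 0 < |t| := by linarith
    have htne : t ≠ 0 := abs_pos.1 ht0
    have h3 := norm_DA_le' A t htne
    set x : ℝ := |t| ^ (1 / 4 : ℝ) with hx
    have hx1 : 1 ≤ x := Real.one_le_rpow h2.le (by norm_num)
    have h4 : Real.log (2 + 2 * |t|) ≤ 2 + 4 * x := by
      have e1 : Real.log (2 + 2 * |t|) ≤ Real.log (4 * |t|) :=
        Real.log_le_log (by positivity) (by linarith)
      have e2 : Real.log (4 * |t|) = 2 * Real.log 2 + Real.log |t| := by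
        rw [Real.log_mul (by norm_num) ht0.ne', show (4 : ℝ) = 2 ^ 2 by norm_num, Real.log_pow]
        norm_num
      have e3 := Real.log_two_lt_d9
      have e4 := Real.log_le_rpow_div ht0.le (show (0 : ℝ) < 1 / 4 by norm_num)
      have e5 : |t| ^ (1 / 4 : ℝ) / (1 / 4) = 4 * x := by
        rw [hx]
        ring
      rw [e5] at e4
      linarith
    have h5 : ‖DA A t‖ ≤ 11 * x := by
      have e1 : 1 / |t| ≤ 1 := by
        rw [div_le_one ht0]
        exact h2.le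
      linarith
    have hxx : x ^ 2 = |t| ^ (1 / 2 : ℝ) := by
      rw [hx, ← Real.rpow_natCast, ← Real.rpow_mul ht0.le]
      norm_num
    have h6 : ‖DA A t‖ ^ 2 ≤ 121 * |t| ^ (1 / 2 : ℝ) := by
      calc ‖DA A t‖ ^ 2 ≤ (11 * x) ^ 2 := pow_le_pow_left₀ hn0 h5 2
        _ = 121 * |t| ^ (1 / 2 : ℝ) := by rw [mul_pow, hxx]; norm_num
    have h7 : ww t ≤ |t| ^ (-2 : ℝ) := by
      refine (h24_ww_le t htne).trans (le_of_eq ?_)
      rw [Real.rpow_neg ht0.le, one_div, ← sq_abs]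
      norm_num
    calc ‖DA A t‖ ^ 2 * ww t ≤ (121 * |t| ^ (1 / 2 : ℝ)) * |t| ^ (-2 : ℝ) :=
          mul_le_mul h6 h7 hw.le (by positivity)
      _ = 121 * |t| ^ (-(3 / 2) : ℝ) := by
          rw [mul_assoc, ← Real.rpow_add ht0]
          norm_num

end Pool.Agent.Helper96.AG
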