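import Pool.Agent.Helper96.AG.E2

/-!
# Project AG (MP_a499ba_nt, Q2), block E3

Truncated masses. `TX_*`: as AF/E7 (`TI_sup`, `TI_dep`, `measurable_AA`) with the weight `w` on the bounded set `A`:
for `T0 ⊆ PP (Y r)`: `av (BL r) (TX A w a (r+1) (T0 ∪ ·)) ≤ TX A w a r T0` (`AA a (r+1)` implies `AA a r`, which does not depend on `T`; `av_integral`, `av_dd_union`).
`TX_mean`: `av (PP (Y r)) (1_E * TX A w a r) = ∫_A w t * aw (PP (Y r)) (th · t) (1_{AA a r · t} 1_E) dt`: interchange average and integral (`av_integral`).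
-/

set_option autoImplicit false

namespace Pool.Agent.Helper96.AG

open Finset Pool.Agent.Helper5.RM Pool.Agent.Helper96.AF

theorem TX_nonneg (A : Set ℝ) (w : ℝ → ℝ) (hw : ∀ t, 0 ≤ w t) (a : ℝ) (r : ℕ) (T : Finset ℕ) : 0 ≤ TX A w a r T := by
  unfold TX
  refine MeasureTheory.integral_nonneg fun t => ?_
  simp only [Pi.zero_apply]
  split_ifs
  · exact mul_nonneg (dd_nonneg (fun p hp => two_le_of_mem_PP hp) T t) (hw t)
  · exact le_rfl

private lemma e3_dd_congr {S T T' : Finset ℕ} (h : ∀ p ∈ S, (p ∈ T ↔ p ∈ T')) (t : ℝ) : dd S T t = dd S T' t := by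
  unfold dd
  refine Finset.prod_congr rfl fun p hp => ?_
  rw [sg_congr (h p hp)]

theorem TX_dep (A : Set ℝ) (w : ℝ → ℝ) (a : ℝ) (r : ℕ) (T : Finset ℕ) : TX A w a r T = TX A w a r (T ∩ PP (Y r)) := by
  unfold TX
  congr 1
  funext t
  have h1 : AA a r T t ↔ AA a r (T ∩ PP (Y r)) t := by
    apply AA_congr
    rw [Finset.inter_assoc, Finset.inter_self]
  have h2 : dd (PP (Y r)) T t = dd (PP (Y r)) (T ∩ PP (Y r)) t := by
    apply e3_dd_congr
    intro p hp
    rw [Finset.mem_inter]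
    exact ⟨fun h => ⟨h, hp⟩, fun h => h.1⟩
  rw [h2]
  by_cases h : AA a r T t
  · rw [if_pos h, if_pos (h1.1 h)]
  · rw [if_neg h, if_neg (fun h' => h (h1.2 h'))]

open Classical in
private lemma e3_int {A : Set ℝ} (hA : MeasurableSet A) {K W : ℝ} (hAK : A ⊆ Set.Icc (-K) K) {w : ℝ → ℝ}
    (hw : ∀ t, 0 ≤ w t) (hwm : Measurable w) (hW : ∀ t ∈ A, w t ≤ W) (a : ℝ) (r s : ℕ) (T T' : Finset ℕ) :
    MeasureTheory.IntegrableOn (fun t => if AA a r T t then dd (PP (Y s)) T' t * w t else 0) A := by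
  have hfin : MeasureTheory.volume A ≠ ⊤ :=
    ((MeasureTheory.measure_mono hAK).trans_lt measure_Icc_lt_top).ne
  have hS : ∀ p ∈ PP (Y s), 2 ≤ p := fun p hp => two_le_of_mem_PP hp
  refine MeasureTheory.Measure.integrableOn_of_bounded (M := 2 ^ (PP (Y s)).card * W) hfin ?_ ?_
  · exact (Measurable.ite (measurable_AA a r T) ((continuous_dd _ T').measurable.mul hwm)
      measurable_const).aestronglyMeasurable
  · refine MeasureTheory.ae_restrict_of_forall_mem hA fun t ht => ?_
    have h1 := dd_nonneg hS T' t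
    have h2 := hw t
    have h3 := hW t ht
    have h4 := dd_le _ hS T' t
    split_ifs
    · rw [Real.norm_eq_abs, abs_of_nonneg (mul_nonneg h1 h2)]
      exact mul_le_mul h4 h3 h2 (by positivity)
    · rw [norm_zero]
      exact mul_nonneg (by positivity) (h2.trans h3)

/-- (the set `A` is bounded: `A ⊆ [-K, K]`; the weight is measurable and bounded by `W`) -/
theorem TX_sup (A : Set ℝ) (hA : MeasurableSet A) (K W : ℝ) (hAK : A ⊆ Set.Icc (-K) K) (w : ℝ → ℝ) (hw : ∀ t, 0 ≤ w t)
    (hwm : Measurable w) (hW : ∀ t ∈ A, w t ≤ W) (a : ℝ) (r : ℕ) (T0 : Finset ℕ) (hT0 : T0 ⊆ PP (Y r)) :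
    av (BL r) (fun T => TX A w a (r + 1) (T0 ∪ T)) ≤ TX A w a r T0 := by
  classical
  have hstep : ∀ T ⊆ BL r, TX A w a (r + 1) (T0 ∪ T) ≤
      ∫ t in A, (if AA a r T0 t then dd (PP (Y (r + 1))) (T0 ∪ T) t * w t else 0) := by
    intro T hT
    unfold TX
    refine MeasureTheory.setIntegral_mono (e3_int hA hAK hw hwm hW a (r + 1) (r + 1) (T0 ∪ T) (T0 ∪ T))
      (e3_int hA hAK hw hwm hW a r (r + 1) T0 (T0 ∪ T)) fun t => ?_
    have hpos : 0 ≤ dd (PP (Y (r + 1))) (T0 ∪ T) t * w t :=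
      mul_nonneg (dd_nonneg (fun p hp => two_le_of_mem_PP hp) _ t) (hw t)
    by_cases h : AA a (r + 1) (T0 ∪ T) t
    · have h1 : AA a r (T0 ∪ T) t := fun l hl =>
        h l (Finset.Icc_subset_Icc le_rfl (Nat.le_succ r) hl)
      have h2 : AA a r T0 t := by
        refine (AA_congr ?_).1 h1
        ext p
        rw [Finset.mem_inter, Finset.mem_inter, Finset.mem_union]
        constructor
        · rintro ⟨h3 | h3, h4⟩
          · exact ⟨h3, h4⟩
          · exact absurd (hT h3) (Finset.disjoint_left.1 (BL_disj r) h4)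
        · rintro ⟨h3, h4⟩
          exact ⟨Or.inl h3, h4⟩
      simp only [if_pos h, if_pos h2, le_refl]
    · simp only [if_neg h]
      split_ifs
      · exact hpos
      · exact le_rfl
  refine (av_mono hstep).trans (le_of_eq ?_)
  rw [av_integral (BL r) (fun T t => if AA a r T0 t then dd (PP (Y (r + 1))) (T0 ∪ T) t * w t else 0)
    A (fun T _ => e3_int hA hAK hw hwm hW a r (r + 1) T0 (T0 ∪ T))]
  unfold TX
  congr 1
  funext t
  by_cases h : AA a r T0 t
  · simp only [if_pos h]
    have h1 : av (BL r) (fun T => dd (PP (Y (r + 1))) (T0 ∪ T) t * w t) =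
        w t * av (BL r) (fun T => dd (PP (Y r) ∪ BL r) (T0 ∪ T) t) := by
      rw [← av_mul_left]
      refine av_congr fun T _ => ?_
      rw [PP_Y_succ, mul_comm]
    rw [h1, av_dd_union _ _ (BL_disj r) T0 hT0, mul_comm]
  · simp only [if_neg h]
    exact av_const _ _

open Classical in
theorem TX_mean (A : Set ℝ) (hA : MeasurableSet A) (K W : ℝ) (hAK : A ⊆ Set.Icc (-K) K) (w : ℝ → ℝ) (hw : ∀ t, 0 ≤ w t)
    (hwm : Measurable w) (hW : ∀ t ∈ A, w t ≤ W) (a : ℝ) (r : ℕ) (E : Finset ℕ → Prop) :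
    av (PP (Y r)) (fun T => if E T then TX A w a r T else 0) =
      ∫ t in A, w t * aw (PP (Y r)) (fun p => th p t) (fun T => if AA a r T t ∧ E T then 1 else 0) := by
  have h1 : av (PP (Y r)) (fun T => if E T then TX A w a r T else 0) =
      av (PP (Y r)) (fun T => ∫ t in A, (if E T then
        (if AA a r T t then dd (PP (Y r)) T t * w t else 0) else 0)) := by
    refine av_congr fun T _ => ?_
    by_cases h : E T
    · simp only [if_pos h]
      rfl
    · simp only [if_neg h]
      rw [MeasureTheory.integral_zero]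
  rw [h1, av_integral]
  · congr 1
    funext t
    unfold aw
    rw [← av_mul_left]
    refine av_congr fun T _ => ?_
    have h2 : ∏ p ∈ PP (Y r), (1 + sg T p * th p t) = dd (PP (Y r)) T t := rfl
    rw [h2]
    beta_reduce
    by_cases hE : E T
    · by_cases hA' : AA a r T t
      · rw [if_pos hE, if_pos hA', if_pos ⟨hA', hE⟩]
        ring
      · rw [if_pos hE, if_neg hA', if_neg (fun h => hA' h.1)]
        ring
    · rw [if_neg hE, if_neg (fun h => hE h.2)]
      ring
  · intro T _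
    by_cases h : E T
    · simp only [if_pos h]
      exact e3_int hA hAK hw hwm hW a r r T T
    · simp only [if_neg h]
      exact MeasureTheory.integrableOn_zero

end Pool.Agent.Helper96.AG
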