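import Pool.Agent.Helper96.AG.E4
import Pool.Agent.Helper66.AF.BA
import Pool.Agent.Helper66.AG.BJ3

/-!
# Project AG (MP_a499ba_nt, Q2), block E5

The ballot estimate from level `j` with the condition `BJ` (proved in Helper66/AG/BJ1, BJ2, BJ3).
-/

set_option autoImplicit false

namespace Pool.Agent.Helper96.AG

open Finset Pool.Agent.Helper5.RM Pool.Agent.Helper96.AF

open Classical in
theorem ballotJ : ∃ C : ℝ, 0 < C ∧ ∀ K : ℕ, 2 ≤ K → ∀ j ≤ K, ∀ t : ℝ, |t| ≤ 1 / 2 ^ j → ∀ a η : ℝ, 0 ≤ a →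
    aw (PP (Y K)) (fun p => th p t) (fun T => if AA a K T t ∧ BJ K η j T then 1 else 0) ≤
      C * (xj K η j) ^ (3 / 4 : ℝ) * (a + Real.log K + j) / Real.sqrt K :=
  Helper66.AG.ballotJ

end Pool.Agent.Helper96.AG
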