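import Pool.Agent.Helper96.AG.E3
import Pool.Agent.Helper96.AG.E5
import Pool.Agent.Helper96.AF.BALL

/-!
# Project AG (MP_a499ba_nt, Q2), block E7

`TG` is a supermartingale for `r ≥ K` and its mean at `r = K`. PROOF of `TG_sup`: `TX_sup` for every term (`Afar K ⊆ [-K, K]`, weight `≤ 1`; `Aj j ⊆ [-1, 1]`); the factor `1_BJ` at level `j < J0 K ≤ r` does not depend on `T` (`BJ_congr`). `TG_mean`: `TX_mean`; on `Afar K` `ballot` and `∫_{1<|t|} |t|^(-3/2) = 4`;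
on `Aj j`: `ballotJ` and the length `2^(-j)` of `Aj j`: `∑_{j < J0} 4^(j+1) 2^(-j) C (K^η (3/8)^j)^(3/4) (a + log K + j)/√K ≤ C' K^η (a + log K + J0)/√K` because `2 (3/8)^(3/4) < 1` (its 4-th power is `16 * 27/512 = 27/32`), `(K^η)^(3/4) ≤ K^η`.
-/

set_option autoImplicit false

namespace Pool.Agent.Helper96.AG

open Finset Pool.Agent.Helper5.RM Pool.Agent.Helper96.AF

private lemma e7_meas_far (K : ℕ) : MeasurableSet (Afar K) := by
  have h1 : MeasurableSet {t : ℝ | 1 < |t|} := measurableSet_lt measurable_const measurable_id.abs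
  have h2 : MeasurableSet {t : ℝ | |t| ≤ K} := measurableSet_le measurable_id.abs measurable_const
  exact h1.inter h2

private lemma e7_meas_j (j : ℕ) : MeasurableSet (Aj j) := by
  have h1 : MeasurableSet {t : ℝ | 1 / 2 ^ (j + 1) < |t|} := measurableSet_lt measurable_const measurable_id.abs
  have h2 : MeasurableSet {t : ℝ | |t| ≤ 1 / 2 ^ j} := measurableSet_le measurable_id.abs measurable_const
  exact h1.inter h2

private lemma e7_far_sub (K : ℕ) : Afar K ⊆ Set.Icc (-(K : ℝ)) K := fun _ ht => abs_le.1 ht.2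

private lemma e7_j_sub (j : ℕ) : Aj j ⊆ Set.Icc (-(1 / 2 ^ j : ℝ)) (1 / 2 ^ j) := fun _ ht => abs_le.1 ht.2

private lemma e7_w_nonneg (t : ℝ) : 0 ≤ |t| ^ (-(3 / 2) : ℝ) := by positivity

private lemma e7_w_meas : Measurable (fun t : ℝ => |t| ^ (-(3 / 2) : ℝ)) := (measurable_id.abs).pow_const _

private lemma e7_w_le {K : ℕ} (t : ℝ) (ht : t ∈ Afar K) : |t| ^ (-(3 / 2) : ℝ) ≤ 1 :=
  Real.rpow_le_one_of_one_le_of_nonpos ht.1.le (by norm_num)

theorem TG_nonneg (K : ℕ) (η a : ℝ) (r : ℕ) (T : Finset ℕ) : 0 ≤ TG K η a r T := by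
  unfold TG
  refine add_nonneg (TX_nonneg _ _ e7_w_nonneg a r T) (Finset.sum_nonneg fun j _ => ?_)
  split_ifs
  · exact mul_nonneg (by positivity) (TX_nonneg _ _ (fun _ => zero_le_one) a r T)
  · exact le_rfl

theorem TG_dep (K : ℕ) (η a : ℝ) (r : ℕ) (hr : J0 K ≤ r) (T : Finset ℕ) : TG K η a r T = TG K η a r (T ∩ PP (Y r)) := by
  unfold TG
  rw [TX_dep (Afar K)]
  congr 1
  refine Finset.sum_congr rfl fun j hj => ?_
  rw [Finset.mem_range] at hj
  have h : BJ K η j T ↔ BJ K η j (T ∩ PP (Y r)) := by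
    refine BJ_congr fun p hp hpY => ?_
    rw [Finset.mem_inter, mem_PP]
    exact ⟨fun h => ⟨h, hp, hpY.trans (Y_mono (hj.le.trans hr))⟩, fun h => h.1⟩
  rw [TX_dep (Aj j)]
  by_cases h1 : BJ K η j T
  · rw [if_pos h1, if_pos (h.1 h1)]
  · rw [if_neg h1, if_neg (fun h2 => h1 (h.2 h2))]

theorem TG_sup (K : ℕ) (η a : ℝ) (r : ℕ) (hr : J0 K ≤ r) (T0 : Finset ℕ) (hT0 : T0 ⊆ PP (Y r)) :
    av (BL r) (fun T => TG K η a (r + 1) (T0 ∪ T)) ≤ TG K η a r T0 := by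
  classical
  unfold TG
  rw [av_add, av_sum]
  refine add_le_add (TX_sup (Afar K) (e7_meas_far K) K 1 (e7_far_sub K) _ e7_w_nonneg e7_w_meas e7_w_le a r T0 hT0)
    (Finset.sum_le_sum fun j hj => ?_)
  rw [Finset.mem_range] at hj
  have h : ∀ T ⊆ BL r, (BJ K η j (T0 ∪ T) ↔ BJ K η j T0) := by
    intro T hT
    refine BJ_congr fun p hp hpY => ?_
    rw [Finset.mem_union]
    constructor
    · rintro (h1 | h1)
      · exact h1
      · exact absurd (hpY.trans (Y_mono (hj.le.trans hr))) (not_le.2 (mem_BL.1 (hT h1)).2.1)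
    · exact fun h1 => Or.inl h1
  have hs := TX_sup (Aj j) (e7_meas_j j) (1 / 2 ^ j) 1 (e7_j_sub j) (fun _ => 1) (fun _ => zero_le_one)
    measurable_const (fun _ _ => le_rfl) a r T0 hT0
  by_cases h1 : BJ K η j T0
  · rw [if_pos h1]
    have h2 : av (BL r) (fun T => if BJ K η j (T0 ∪ T) then
        (4 : ℝ) ^ (j + 1) * TX (Aj j) (fun _ => 1) a (r + 1) (T0 ∪ T) else 0) =
        4 ^ (j + 1) * av (BL r) (fun T => TX (Aj j) (fun _ => 1) a (r + 1) (T0 ∪ T)) := by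
      rw [← av_mul_left]
      refine av_congr fun T hT => ?_
      rw [if_pos ((h T hT).2 h1)]
    rw [h2]
    exact mul_le_mul_of_nonneg_left hs (by positivity)
  · rw [if_neg h1]
    have h2 : av (BL r) (fun T => if BJ K η j (T0 ∪ T) then
        (4 : ℝ) ^ (j + 1) * TX (Aj j) (fun _ => 1) a (r + 1) (T0 ∪ T) else 0) = av (BL r) (fun _ => 0) := by
      refine av_congr fun T hT => ?_
      rw [if_neg (fun h3 => h1 ((h T hT).1 h3))]
    rw [h2, av_const]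

private lemma e7_aw_nonneg {N : ℕ} (t : ℝ) {F : Finset ℕ → ℝ} (hF : ∀ T, 0 ≤ F T) :
    0 ≤ aw (PP N) (fun p => th p t) F := by
  unfold aw
  refine av_nonneg fun T _ => mul_nonneg ?_ (hF T)
  exact Finset.prod_nonneg fun p hp => (fac_pos (two_le_of_mem_PP hp) T t).le

private lemma e7_int_far (K : ℕ) (hK : 2 ≤ K) : ∫ t in Afar K, |t| ^ (-(3 / 2) : ℝ) ≤ 4 := by
  have hK1 : (1 : ℝ) ≤ K := by exact_mod_cast (by omega : 1 ≤ K)
  have h1 : ∫ t in Afar K, |t| ^ (-(3 / 2) : ℝ) =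
      ∫ t : ℝ, (Set.Ioc (1 : ℝ) K).indicator (fun s => s ^ (-(3 / 2) : ℝ)) |t| := by
    rw [← MeasureTheory.integral_indicator (e7_meas_far K)]
    congr 1
  rw [h1, integral_comp_abs (f := (Set.Ioc (1 : ℝ) K).indicator (fun s => s ^ (-(3 / 2) : ℝ)))]
  rw [MeasureTheory.setIntegral_indicator measurableSet_Ioc]
  have h2 : Set.Ioi (0 : ℝ) ∩ Set.Ioc (1 : ℝ) (K : ℝ) = Set.Ioc (1 : ℝ) (K : ℝ) := by
    refine Set.inter_eq_right.2 fun x hx => ?_
    exact lt_trans zero_lt_one hx.1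
  rw [h2, ← intervalIntegral.integral_of_le hK1, integral_rpow]
  · have h3 : (0 : ℝ) ≤ (K : ℝ) ^ (-(3 / 2) + 1 : ℝ) := by positivity
    rw [Real.one_rpow]
    have h4 : ((K : ℝ) ^ (-(3 / 2) + 1 : ℝ) - 1) / (-(3 / 2) + 1) = 2 - 2 * (K : ℝ) ^ (-(3 / 2) + 1 : ℝ) := by
      field_simp
      ring
    rw [h4]
    linarith
  · right
    refine ⟨by norm_num, ?_⟩
    rw [Set.uIcc_of_le hK1]
    intro h
    linarith [h.1]

private lemma e7_q : (2 : ℝ) * (3 / 8) ^ (3 / 4 : ℝ) < 1 := by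
  by_contra h
  rw [not_lt] at h
  have h1 : (1 : ℝ) ≤ (2 * (3 / 8) ^ (3 / 4 : ℝ)) ^ 4 := one_le_pow₀ h
  have h2 : ((3 / 8 : ℝ) ^ (3 / 4 : ℝ)) ^ 4 = (3 / 8) ^ 3 := by
    rw [← Real.rpow_natCast, ← Real.rpow_mul (by norm_num)]
    norm_num
  rw [mul_pow, h2] at h1
  norm_num at h1

open Classical in
private lemma e7_far {C1 : ℝ} (hC1 : ∀ K : ℕ, 2 ≤ K → ∀ t : ℝ, |t| ≤ K → ∀ a : ℝ, 0 ≤ a →
    aw (PP (Y K)) (fun p => th p t) (fun T => if AA a K T t then 1 else 0) ≤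
      C1 * (a + Real.log K) / Real.sqrt K) (hC : 0 < C1) (K : ℕ) (hK : 2 ≤ K) (a : ℝ) (ha : 0 ≤ a) :
    av (PP (Y K)) (TX (Afar K) (fun t => |t| ^ (-(3 / 2) : ℝ)) a K) ≤ 4 * (C1 * (a + Real.log K) / Real.sqrt K) := by
  have hK1 : (1 : ℝ) ≤ K := by exact_mod_cast (by omega : 1 ≤ K)
  have hB : 0 ≤ C1 * (a + Real.log K) / Real.sqrt K := by
    have := Real.log_nonneg hK1
    positivity
  have h1 := TX_mean (Afar K) (e7_meas_far K) K 1 (e7_far_sub K) _ e7_w_nonneg e7_w_meas e7_w_le a K (fun _ => True)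
  simp only [if_true, and_true] at h1
  have h0 : av (PP (Y K)) (TX (Afar K) (fun t => |t| ^ (-(3 / 2) : ℝ)) a K) =
      av (PP (Y K)) (fun T => TX (Afar K) (fun t => |t| ^ (-(3 / 2) : ℝ)) a K T) := rfl
  rw [h0, h1]
  have hint : MeasureTheory.IntegrableOn (fun t : ℝ => |t| ^ (-(3 / 2) : ℝ)) (Afar K) := by
    refine MeasureTheory.Measure.integrableOn_of_bounded (M := 1)
      ((MeasureTheory.measure_mono (e7_far_sub K)).trans_lt measure_Icc_lt_top).ne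
      e7_w_meas.aestronglyMeasurable ?_
    refine MeasureTheory.ae_restrict_of_forall_mem (e7_meas_far K) fun t ht => ?_
    rw [Real.norm_eq_abs, abs_of_nonneg (e7_w_nonneg t)]
    exact e7_w_le t ht
  have h2 : ∫ t in Afar K, |t| ^ (-(3 / 2) : ℝ) *
      aw (PP (Y K)) (fun p => th p t) (fun T => if AA a K T t then 1 else 0) ≤
      ∫ t in Afar K, |t| ^ (-(3 / 2) : ℝ) * (C1 * (a + Real.log K) / Real.sqrt K) := by
    refine MeasureTheory.integral_mono_of_nonneg ?_ (hint.mul_const _) ?_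
    · refine Filter.Eventually.of_forall fun t => ?_
      exact mul_nonneg (e7_w_nonneg t) (e7_aw_nonneg t fun T => by split_ifs <;> norm_num)
    · refine MeasureTheory.ae_restrict_of_forall_mem (e7_meas_far K) fun t ht => ?_
      exact mul_le_mul_of_nonneg_left (hC1 K hK t ht.2 a ha) (e7_w_nonneg t)
  refine h2.trans ?_
  rw [MeasureTheory.integral_mul_const]
  exact mul_le_mul_of_nonneg_right (e7_int_far K hK) hB

open Classical in
private lemma e7_near {C2 : ℝ} (hC2 : ∀ K : ℕ, 2 ≤ K → ∀ j ≤ K, ∀ t : ℝ, |t| ≤ 1 / 2 ^ j → ∀ a η : ℝ, 0 ≤ a →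
    aw (PP (Y K)) (fun p => th p t) (fun T => if AA a K T t ∧ BJ K η j T then 1 else 0) ≤
      C2 * (xj K η j) ^ (3 / 4 : ℝ) * (a + Real.log K + j) / Real.sqrt K) (hC : 0 < C2) (K : ℕ) (hK : 2 ≤ K)
    (a η : ℝ) (ha : 0 ≤ a) (j : ℕ) (hj : j ≤ K) :
    av (PP (Y K)) (fun T => if BJ K η j T then 4 ^ (j + 1) * TX (Aj j) (fun _ => 1) a K T else 0) ≤
      4 ^ (j + 1) * (2 / 2 ^ j * (C2 * (xj K η j) ^ (3 / 4 : ℝ) * (a + Real.log K + j) / Real.sqrt K)) := by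
  have hK1 : (1 : ℝ) ≤ K := by exact_mod_cast (by omega : 1 ≤ K)
  have hx : 0 ≤ xj K η j := by unfold xj; positivity
  have hB : 0 ≤ C2 * (xj K η j) ^ (3 / 4 : ℝ) * (a + Real.log K + j) / Real.sqrt K := by
    have := Real.log_nonneg hK1
    positivity
  have h0 : av (PP (Y K)) (fun T => if BJ K η j T then (4 : ℝ) ^ (j + 1) * TX (Aj j) (fun _ => 1) a K T else 0) =
      4 ^ (j + 1) * av (PP (Y K)) (fun T => if BJ K η j T then TX (Aj j) (fun _ => 1) a K T else 0) := by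
    rw [← av_mul_left]
    refine av_congr fun T _ => ?_
    split_ifs
    · rfl
    · rw [mul_zero]
  rw [h0]
  refine mul_le_mul_of_nonneg_left ?_ (by positivity)
  rw [TX_mean (Aj j) (e7_meas_j j) (1 / 2 ^ j) 1 (e7_j_sub j) (fun _ => 1) (fun _ => zero_le_one)
    measurable_const (fun _ _ => le_rfl) a K (BJ K η j)]
  have hfin : MeasureTheory.volume (Aj j) ≠ ⊤ :=
    ((MeasureTheory.measure_mono (e7_j_sub j)).trans_lt measure_Icc_lt_top).ne
  have h2 : ∫ t in Aj j, (1 : ℝ) *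
      aw (PP (Y K)) (fun p => th p t) (fun T => if AA a K T t ∧ BJ K η j T then 1 else 0) ≤
      ∫ _ in Aj j, (C2 * (xj K η j) ^ (3 / 4 : ℝ) * (a + Real.log K + j) / Real.sqrt K) := by
    refine MeasureTheory.integral_mono_of_nonneg ?_ (MeasureTheory.integrableOn_const hfin) ?_
    · refine Filter.Eventually.of_forall fun t => ?_
      exact mul_nonneg zero_le_one (e7_aw_nonneg t fun T => by split_ifs <;> norm_num)
    · refine MeasureTheory.ae_restrict_of_forall_mem (e7_meas_j j) fun t ht => ?_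
      beta_reduce
      rw [one_mul]
      exact hC2 K hK j hj t ht.2 a η ha
  refine h2.trans ?_
  rw [MeasureTheory.setIntegral_const, smul_eq_mul]
  refine mul_le_mul_of_nonneg_right ?_ hB
  have h3 : MeasureTheory.volume.real (Aj j) ≤ MeasureTheory.volume.real (Set.Icc (-(1 / 2 ^ j : ℝ)) (1 / 2 ^ j)) :=
    MeasureTheory.measureReal_mono (e7_j_sub j) measure_Icc_lt_top.ne
  refine h3.trans ?_
  have h4 : (0 : ℝ) ≤ 1 / 2 ^ j := by positivity
  rw [Real.volume_real_Icc_of_le (by linarith)]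
  refine le_of_eq ?_
  ring

theorem TG_mean : ∃ C : ℝ, 0 < C ∧ ∀ K : ℕ, 2 ≤ K → J0 K ≤ K → ∀ a η : ℝ, 0 ≤ a → 0 ≤ η →
    av (PP (Y K)) (TG K η a K) ≤ C * (K : ℝ) ^ η * (a + Real.log K + J0 K) / Real.sqrt K := by
  classical
  obtain ⟨C1, hC1, h1⟩ := ballot
  obtain ⟨C2, hC2, h2⟩ := ballotJ
  set q : ℝ := 2 * (3 / 8) ^ (3 / 4 : ℝ) with hq
  have hq0 : 0 < q := by positivity
  have hq1 : q < 1 := e7_q
  have hq2 : 0 < 1 - q := by linarith
  refine ⟨4 * C1 + 8 * C2 * (1 - q)⁻¹, by positivity, fun K hK hJ a η ha hη => ?_⟩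
  have hK1 : (1 : ℝ) ≤ K := by exact_mod_cast (by omega : 1 ≤ K)
  have hlog : 0 ≤ Real.log K := Real.log_nonneg hK1
  have hKη : (1 : ℝ) ≤ (K : ℝ) ^ η := Real.one_le_rpow hK1 hη
  have hKη0 : (0 : ℝ) < (K : ℝ) ^ η := by linarith
  have hS : 0 < Real.sqrt K := Real.sqrt_pos.2 (by linarith)
  set B : ℝ := (a + Real.log K + J0 K) / Real.sqrt K with hBdef
  have hB : 0 ≤ B := by positivity
  have hterm : ∀ j ∈ Finset.range (J0 K),
      av (PP (Y K)) (fun T => if BJ K η j T then 4 ^ (j + 1) * TX (Aj j) (fun _ => 1) a K T else 0) ≤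
        (8 * C2 * (K : ℝ) ^ η * B) * q ^ j := by
    intro j hj
    rw [Finset.mem_range] at hj
    refine (e7_near h2 hC2 K hK a η ha j (hj.le.trans hJ)).trans ?_
    have e1 : (xj K η j) ^ (3 / 4 : ℝ) = ((K : ℝ) ^ η) ^ (3 / 4 : ℝ) * ((3 / 8) ^ (3 / 4 : ℝ)) ^ j := by
      unfold xj
      rw [Real.mul_rpow hKη0.le (by positivity)]
      congr 1
      rw [← Real.rpow_natCast, ← Real.rpow_natCast, ← Real.rpow_mul (by norm_num), ← Real.rpow_mul (by norm_num),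
        mul_comm]
    have e2 : ((K : ℝ) ^ η) ^ (3 / 4 : ℝ) ≤ (K : ℝ) ^ η := by
      calc ((K : ℝ) ^ η) ^ (3 / 4 : ℝ) ≤ ((K : ℝ) ^ η) ^ (1 : ℝ) :=
            Real.rpow_le_rpow_of_exponent_le hKη (by norm_num)
        _ = (K : ℝ) ^ η := Real.rpow_one _
    have e3 : (a + Real.log K + j) / Real.sqrt K ≤ B := by
      rw [hBdef]
      refine div_le_div_of_nonneg_right ?_ hS.le
      have : (j : ℝ) ≤ J0 K := by exact_mod_cast hj.le
      linarith
    have e4 : (4 : ℝ) ^ (j + 1) * (2 / 2 ^ j) = 8 * 2 ^ j := by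
      rw [pow_succ, show (4 : ℝ) = 2 * 2 by norm_num, mul_pow]
      field_simp
      ring
    have e5 : q ^ j = 2 ^ j * ((3 / 8) ^ (3 / 4 : ℝ)) ^ j := by
      rw [hq, mul_pow]
    have e6 : (4 : ℝ) ^ (j + 1) * (2 / 2 ^ j * (C2 * (xj K η j) ^ (3 / 4 : ℝ) * (a + Real.log K + j) / Real.sqrt K)) =
        (8 * C2 * q ^ j) * (((K : ℝ) ^ η) ^ (3 / 4 : ℝ) * ((a + Real.log K + j) / Real.sqrt K)) := by
      rw [e5, e1]
      calc _ = ((4 : ℝ) ^ (j + 1) * (2 / 2 ^ j)) * (C2 * ((((K : ℝ) ^ η) ^ (3 / 4 : ℝ)) *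
            ((3 / 8) ^ (3 / 4 : ℝ)) ^ j) * (a + Real.log K + j) / Real.sqrt K) := by ring
        _ = _ := by
          rw [e4]
          ring
    rw [e6]
    have e7 : ((K : ℝ) ^ η) ^ (3 / 4 : ℝ) * ((a + Real.log K + j) / Real.sqrt K) ≤ (K : ℝ) ^ η * B := by
      refine mul_le_mul e2 e3 ?_ hKη0.le
      positivity
    calc (8 * C2 * q ^ j) * (((K : ℝ) ^ η) ^ (3 / 4 : ℝ) * ((a + Real.log K + j) / Real.sqrt K)) ≤
          (8 * C2 * q ^ j) * ((K : ℝ) ^ η * B) := mul_le_mul_of_nonneg_left e7 (by positivity)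
      _ = _ := by ring
  have hTG : av (PP (Y K)) (TG K η a K) =
      av (PP (Y K)) (TX (Afar K) (fun t => |t| ^ (-(3 / 2) : ℝ)) a K) +
      ∑ j ∈ Finset.range (J0 K),
        av (PP (Y K)) (fun T => if BJ K η j T then 4 ^ (j + 1) * TX (Aj j) (fun _ => 1) a K T else 0) := by
    rw [← av_sum, ← av_add]
    rfl
  rw [hTG]
  have hfar := e7_far h1 hC1 K hK a ha
  have hsum : ∑ j ∈ Finset.range (J0 K),
        av (PP (Y K)) (fun T => if BJ K η j T then 4 ^ (j + 1) * TX (Aj j) (fun _ => 1) a K T else 0) ≤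
      (8 * C2 * (K : ℝ) ^ η * B) * (1 - q)⁻¹ := by
    refine (Finset.sum_le_sum hterm).trans ?_
    rw [← Finset.mul_sum]
    refine mul_le_mul_of_nonneg_left ?_ (by positivity)
    rw [← tsum_geometric_of_lt_one hq0.le hq1]
    exact (summable_geometric_of_lt_one hq0.le hq1).sum_le_tsum _ fun _ _ => by positivity
  have hfar2 : 4 * (C1 * (a + Real.log K) / Real.sqrt K) ≤ 4 * C1 * (K : ℝ) ^ η * B := by
    have e1 : (a + Real.log K) / Real.sqrt K ≤ B := by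
      rw [hBdef]
      refine div_le_div_of_nonneg_right ?_ hS.le
      have : (0 : ℝ) ≤ J0 K := by positivity
      linarith
    have e2 : (a + Real.log K) / Real.sqrt K ≤ (K : ℝ) ^ η * B := by
      refine e1.trans ?_
      nlinarith
    calc 4 * (C1 * (a + Real.log K) / Real.sqrt K) = 4 * C1 * ((a + Real.log K) / Real.sqrt K) := by ring
      _ ≤ 4 * C1 * ((K : ℝ) ^ η * B) := mul_le_mul_of_nonneg_left e2 (by positivity)
      _ = _ := by ring
  calc _ ≤ 4 * C1 * (K : ℝ) ^ η * B + (8 * C2 * (K : ℝ) ^ η * B) * (1 - q)⁻¹ :=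
        add_le_add (hfar.trans hfar2) hsum
    _ = _ := by
      rw [hBdef]
      ring

end Pool.Agent.Helper96.AG
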