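import Pool.Agent.Helper96.AG.N2
import Pool.Agent.Helper96.AF.C1
import Pool.Agent.Helper5.RM.HC4

/-!
# Project AG (MP_a499ba_nt, Q2), block S1

The small primes. PROOF: `NG T (y+1) N = ∑_{b ≤ N} rf T b * Nat.sqrt (N/b)`, `√N * FP y T = ∑_b rf T b √(N/b)` over all squarefree `b` with primes `≤ y` (`Finset.prod_one_add`, `b = ∏_{p ∈ U} p`, `U ⊆ PP y`). By orthogonality
(`hyper_sqf`, `k = 1`, `s` = the set of these `b`) the average is `≤ #{b ≤ N} + ∑_{b > N} N/b` (`|Nat.sqrt (N/b) - √(N/b)| ≤ 1`). Rankin with the exponent `1/log y`, as in AF/C1 (`rankin`): both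
`#{b ≤ N smooth sqfree} ≤ e^18 N (1+log N)^12 e^(-log N/log y)` (+ the term `b = 1`; use `rankin`'s proof for the full count or `1 ≤` the same bound) and `N ∑_{b > N} 1/b ≤ N ∑_b (1/b)(b/N)^(1/log y) ≤` the same.
`small_bound`: Markov at `N`, `y = Y (R - (log2 R + c))`, `2^c ≥ 2 A + 200`, exactly as for `S0` in AF/C5.
-/

set_option autoImplicit false

namespace Pool.Agent.Helper96.AG

open Finset Pool.Agent.Helper5.RM Pool.Agent.Helper96.AF

private lemma s1_sum_sqf_le (s Q : Finset ℕ) (c : ℕ → ℝ) (hc : ∀ p ∈ Q, 0 ≤ c p)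
    (hs : ∀ n ∈ s, Squarefree n ∧ n.primeFactors ⊆ Q) :
    ∑ n ∈ s, ∏ p ∈ n.primeFactors, c p ≤ ∏ p ∈ Q, (1 + c p) := by
  classical
  rw [Finset.prod_one_add]
  have hinj : Set.InjOn (fun n : ℕ => n.primeFactors) (s : Set ℕ) := by
    intro a ha b hb hab
    have h1 := Nat.prod_primeFactors_of_squarefree (hs a ha).1
    have h2 := Nat.prod_primeFactors_of_squarefree (hs b hb).1
    simp only at hab
    rw [hab] at h1
    exact h1.symm.trans h2
  rw [← Finset.sum_image (f := fun T : Finset ℕ => ∏ p ∈ T, c p) hinj]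
  refine Finset.sum_le_sum_of_subset_of_nonneg ?_ ?_
  · intro T hT
    obtain ⟨n, hn, rfl⟩ := Finset.mem_image.1 hT
    exact Finset.mem_powerset.2 (hs n hn).2
  · intro T hT _
    exact Finset.prod_nonneg fun p hp => hc p (Finset.mem_powerset.1 hT hp)

private lemma s1_prod (B : ℕ) (hB : 1 ≤ B) :
    ∏ q ∈ PP B, (1 + 3 / (q : ℝ)) ≤ (1 + Real.log B) ^ 12 * Real.exp 18 := by
  have h1 : ∏ q ∈ PP B, (1 + 3 / (q : ℝ)) ≤ ∏ q ∈ PP B, Real.exp (3 * (1 / q)) := by
    refine Finset.prod_le_prod (fun p _ => by positivity) fun p _ => ?_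
    have := Real.add_one_le_exp (3 * (1 / (p : ℝ)))
    rw [mul_one_div] at this ⊢
    linarith
  refine h1.trans ?_
  rw [← Real.exp_sum, ← Finset.mul_sum]
  have h2 := prime_inv B hB
  have hlB : 0 ≤ Real.log B := Real.log_natCast_nonneg B
  calc Real.exp (3 * ∑ q ∈ PP B, 1 / (q : ℝ)) ≤ Real.exp (12 * Real.log (1 + Real.log B) + 18) := by
        apply Real.exp_le_exp.2; linarith
    _ = (1 + Real.log B) ^ 12 * Real.exp 18 := by
        rw [Real.exp_add]
        congr 1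
        rw [show (12 : ℝ) * Real.log (1 + Real.log B) = ((12 : ℕ) : ℝ) * Real.log (1 + Real.log B) by norm_num,
          Real.exp_nat_mul, Real.exp_log (by linarith)]

/-- the weight dominates `min (1, N/n)` -/
private lemma s1_weight {y N n : ℕ} (hy : 3 ≤ y) (hN1 : 1 ≤ N) (hn1 : 1 ≤ n) (hsq : Squarefree n)
    (hn : ∀ p ∈ n.primeFactors, p ≤ y) :
    (n ≤ N → 1 ≤ N * Real.exp (-(Real.log N / Real.log y)) * ∏ q ∈ n.primeFactors, (3 / (q : ℝ))) ∧
    (N ≤ n → (N : ℝ) / n ≤ N * Real.exp (-(Real.log N / Real.log y)) * ∏ q ∈ n.primeFactors, (3 / (q : ℝ))) := by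
  have hn0 : (0 : ℝ) < n := by exact_mod_cast hn1
  have hN0 : (0 : ℝ) < N := by exact_mod_cast (by omega : 0 < N)
  have hy0 : (0 : ℝ) < y := by exact_mod_cast (by omega : 0 < y)
  have hy3 : (3 : ℝ) ≤ y := by exact_mod_cast hy
  have he3 : Real.exp 1 ≤ 3 := by
    have := Real.exp_one_lt_d9
    linarith
  have hly1 : 1 ≤ Real.log y := by
    rw [Real.le_log_iff_exp_le hy0]
    linarith
  have hly : 0 < Real.log y := by linarith
  have hlogn : Real.log n = ∑ q ∈ n.primeFactors, Real.log q := by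
    conv_lhs => rw [← Nat.prod_primeFactors_of_squarefree hsq]
    rw [Nat.cast_prod, Real.log_prod]
    intro q hq
    have := (Nat.prime_of_mem_primeFactors hq).pos
    positivity
  have hlogn2 : Real.log n ≤ (n.primeFactors.card : ℝ) * Real.log y := by
    rw [hlogn]
    calc ∑ q ∈ n.primeFactors, Real.log q ≤ ∑ _q ∈ n.primeFactors, Real.log y := by
          refine Finset.sum_le_sum fun q hq => ?_
          have hq0 : 0 < q := (Nat.prime_of_mem_primeFactors hq).pos
          exact Real.log_le_log (by exact_mod_cast hq0) (by exact_mod_cast hn q hq)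
      _ = (n.primeFactors.card : ℝ) * Real.log y := by rw [Finset.sum_const, nsmul_eq_mul]
  have hk1 : Real.log n / Real.log y ≤ n.primeFactors.card := by
    rw [div_le_iff₀ hly]; exact hlogn2
  have hprod : ∏ q ∈ n.primeFactors, (3 / (q : ℝ)) = 3 ^ n.primeFactors.card / n := by
    rw [Finset.prod_div_distrib, Finset.prod_const]
    congr 1
    rw [← Nat.cast_prod, Nat.prod_primeFactors_of_squarefree hsq]
  rw [hprod]
  have h3 : Real.exp (n.primeFactors.card : ℝ) ≤ 3 ^ n.primeFactors.card := by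
    have h4 : Real.exp 1 ^ n.primeFactors.card ≤ 3 ^ n.primeFactors.card :=
      pow_le_pow_left₀ (Real.exp_pos 1).le he3 _
    rwa [← Real.exp_nat_mul, mul_one] at h4
  have h7 : (0 : ℝ) ≤ N * Real.exp (-(Real.log N / Real.log y)) := by positivity
  have h8 := mul_le_mul_of_nonneg_left (div_le_div_of_nonneg_right h3 hn0.le) h7
  constructor
  · intro hnN
    have hlnN : Real.log n ≤ Real.log N := Real.log_le_log hn0 (by exact_mod_cast hnN)
    -- the key inequality of exponents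
    have hkey : 0 ≤ Real.log N - Real.log N / Real.log y - Real.log n + n.primeFactors.card := by
      have h2 : (Real.log N - Real.log n) / Real.log y ≤ Real.log N - Real.log n := by
        rw [div_le_iff₀ hly]
        nlinarith
      rw [sub_div] at h2
      linarith
    have h5 : 1 ≤ Real.exp (Real.log N - Real.log N / Real.log y - Real.log n + n.primeFactors.card) :=
      Real.one_le_exp hkey
    have h6 : Real.exp (Real.log N - Real.log N / Real.log y - Real.log n + n.primeFactors.card) =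
        N * Real.exp (-(Real.log N / Real.log y)) * (Real.exp (n.primeFactors.card : ℝ) / n) := by
      rw [Real.exp_add, Real.exp_sub, sub_eq_add_neg, Real.exp_add, Real.exp_log hN0, Real.exp_log hn0]
      ring
    rw [h6] at h5
    exact h5.trans h8
  · intro hnN
    have hlnN : Real.log N ≤ Real.log n := Real.log_le_log hN0 (by exact_mod_cast hnN)
    have hkey : 0 ≤ -(Real.log N / Real.log y) + n.primeFactors.card := by
      have h2 : Real.log N / Real.log y ≤ Real.log n / Real.log y := div_le_div_of_nonneg_right hlnN hly.le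
      linarith
    have h5 : 1 ≤ Real.exp (-(Real.log N / Real.log y) + n.primeFactors.card) :=
      Real.one_le_exp hkey
    rw [Real.exp_add] at h5
    refine le_trans ?_ h8
    have h9 : (N : ℝ) * Real.exp (-(Real.log N / Real.log y)) * (Real.exp (n.primeFactors.card : ℝ) / n) =
        N / n * (Real.exp (-(Real.log N / Real.log y)) * Real.exp (n.primeFactors.card : ℝ)) := by ring
    rw [h9]
    exact le_mul_of_one_le_right (by positivity) h5

/-- the error of the integer square root -/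
private lemma s1_sqrt (N b : ℕ) (hb : 1 ≤ b) :
    (b ≤ N → ((Nat.sqrt (N / b) : ℝ) - Real.sqrt (N / b)) ^ 2 ≤ 1) ∧
    (N < b → ((Nat.sqrt (N / b) : ℝ) - Real.sqrt (N / b)) ^ 2 = N / b) := by
  have hb0 : (0 : ℝ) < b := by exact_mod_cast hb
  constructor
  · intro _
    have h1 : (Nat.sqrt (N / b) : ℝ) ≤ Real.sqrt (N / b) := by
      rw [Real.le_sqrt (by positivity) (by positivity)]
      rw [le_div_iff₀ hb0]
      have h2 : Nat.sqrt (N / b) ^ 2 * b ≤ N := by
        rw [← Nat.le_div_iff_mul_le hb]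
        exact Nat.sqrt_le' _
      exact_mod_cast h2
    have h3 : Real.sqrt (N / b) ≤ (Nat.sqrt (N / b) : ℝ) + 1 := by
      rw [Real.sqrt_le_left (by positivity)]
      rw [div_le_iff₀ hb0]
      have h4 : N / b < (Nat.sqrt (N / b) + 1) ^ 2 := by
        have := Nat.lt_succ_sqrt' (N / b)
        exact this
      have h5 : N < (Nat.sqrt (N / b) + 1) ^ 2 * b := by
        rwa [Nat.div_lt_iff_lt_mul hb] at h4
      exact_mod_cast h5.le
    nlinarith
  · intro h
    rw [Nat.div_eq_of_lt h, Nat.sqrt_zero, Nat.cast_zero, zero_sub, neg_sq, Real.sq_sqrt (by positivity)]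

/-- the squarefree integers all of whose prime factors are `≤ y` -/
private noncomputable def SQ (y : ℕ) : Finset ℕ := (PP y).powerset.image (fun U => ∏ p ∈ U, p)

private lemma s1_prime {y : ℕ} {U : Finset ℕ} (hU : U ⊆ PP y) : ∀ p ∈ U, p.Prime :=
  fun p hp => (mem_PP.1 (hU hp)).1

private lemma s1_sqf {y : ℕ} {U : Finset ℕ} (hU : U ⊆ PP y) : Squarefree (∏ p ∈ U, p) := by
  refine Finset.squarefree_prod_of_pairwise_isCoprime (fun p hp q hq hpq => ?_)
    fun _ hp => (s1_prime hU _ hp).prime.squarefree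
  simp only [Function.onFun, ← Nat.coprime_iff_isRelPrime]
  exact (Nat.coprime_primes (s1_prime hU p hp) (s1_prime hU q hq)).mpr hpq

private lemma mem_SQ {y n : ℕ} : n ∈ SQ y ↔ Squarefree n ∧ n.primeFactors ⊆ PP y := by
  unfold SQ
  rw [Finset.mem_image]
  constructor
  · rintro ⟨U, hU, rfl⟩
    rw [Finset.mem_powerset] at hU
    refine ⟨s1_sqf hU, ?_⟩
    rw [Nat.primeFactors_prod (s1_prime hU)]
    exact hU
  · rintro ⟨h1, h2⟩
    exact ⟨n.primeFactors, Finset.mem_powerset.2 h2, Nat.prod_primeFactors_of_squarefree h1⟩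

/-- expansion of the Euler product -/
private lemma s1_prod_eq (y : ℕ) (T : Finset ℕ) :
    FP y T = ∑ b ∈ SQ y, rf T b * (1 / Real.sqrt b) := by
  unfold FP
  rw [Finset.prod_one_add]
  unfold SQ
  rw [Finset.sum_image]
  · refine Finset.sum_congr rfl fun U hU => ?_
    rw [Finset.mem_powerset] at hU
    rw [rf_sqf (s1_sqf hU), Nat.primeFactors_prod (s1_prime hU), Nat.cast_prod]
    have h1 : Real.sqrt (∏ p ∈ U, (p : ℝ)) = ∏ p ∈ U, Real.sqrt p := by
      induction U using Finset.induction_on with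
      | empty => simp
      | insert a s ha ih =>
        rw [Finset.prod_insert ha, Finset.prod_insert ha, Real.sqrt_mul (Nat.cast_nonneg a),
          ih (fun x hx => hU (Finset.mem_insert_of_mem hx))]
    rw [h1, Finset.prod_div_distrib]
    unfold wal
    rw [mul_one_div]
  · intro U hU V hV huv
    have hU' := Finset.mem_powerset.1 hU
    have hV' := Finset.mem_powerset.1 hV
    simp only at huv
    rw [← Nat.primeFactors_prod (s1_prime hU'), huv, Nat.primeFactors_prod (s1_prime hV')]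

private lemma s1_main (y N : ℕ) (T : Finset ℕ) :
    NG T (y + 1) N - Real.sqrt N * FP y T =
      ∑ b ∈ SQ y, rf T b * ((Nat.sqrt (N / b) : ℝ) - Real.sqrt (N / b)) := by
  rw [NG_sum, s1_prod_eq, Finset.mul_sum]
  simp only [mul_sub]
  rw [Finset.sum_sub_distrib]
  congr 1
  · refine Finset.sum_subset_zero_on_sdiff ?_ ?_ (fun _ _ => rfl)
    · intro b hb
      rw [Finset.mem_filter, mem_SM] at hb
      rw [mem_SQ]
      refine ⟨hb.2, fun p hp => ?_⟩
      rw [mem_PP]
      exact ⟨Nat.prime_of_mem_primeFactors hp, Nat.lt_succ_iff.1 (hb.1.2 p hp)⟩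
    · intro b hb
      rw [Finset.mem_sdiff, mem_SQ, Finset.mem_filter, mem_SM] at hb
      obtain ⟨⟨h1, h2⟩, h3⟩ := hb
      have hb0 : 1 ≤ b := Nat.one_le_iff_ne_zero.2 h1.ne_zero
      have hbN : N < b := by
        by_contra h4
        rw [not_lt] at h4
        exact h3 ⟨⟨⟨hb0, h4⟩, fun p hp => Nat.lt_succ_iff.2 (mem_PP.1 (h2 hp)).2⟩, h1⟩
      rw [Nat.div_eq_of_lt hbN, Nat.sqrt_zero, Nat.cast_zero, mul_zero]
  · refine Finset.sum_congr rfl fun b _ => ?_
    rw [Real.sqrt_div (Nat.cast_nonneg N)]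
    ring

theorem av_small_part (y N : ℕ) (hy : 3 ≤ y) (hN : y ≤ N) :
    av (PP N) (fun T => (NG T (y + 1) N - Real.sqrt N * FP y T) ^ 2) ≤
      3 * (Real.exp 18 * N * (1 + Real.log N) ^ 12 * Real.exp (-(Real.log N / Real.log y))) := by
  have h1 := hyper_sqf 1 le_rfl (PP N) (SQ y) (fun n hn => by
    rw [mem_SQ] at hn
    exact ⟨hn.1, hn.2.trans (PP_mono hN)⟩) (fun n => (((Nat.sqrt (N / n) : ℝ) - Real.sqrt (N / n) : ℝ) : ℂ))
  have e1 : ∀ T : Finset ℕ, ‖∑ n ∈ SQ y, (rf T n : ℂ) * (((Nat.sqrt (N / n) : ℝ) - Real.sqrt (N / n) : ℝ) : ℂ)‖ ^ (2 * 1) =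
      (NG T (y + 1) N - Real.sqrt N * FP y T) ^ 2 := by
    intro T
    rw [s1_main, mul_one]
    have h2 : ∑ n ∈ SQ y, (rf T n : ℂ) * (((Nat.sqrt (N / n) : ℝ) - Real.sqrt (N / n) : ℝ) : ℂ) =
        ((∑ b ∈ SQ y, rf T b * ((Nat.sqrt (N / b) : ℝ) - Real.sqrt (N / b)) : ℝ) : ℂ) := by
      push_cast
      rfl
    rw [h2, Complex.norm_real, Real.norm_eq_abs, sq_abs]
  simp only [e1, pow_one] at h1
  refine h1.trans ?_
  have hN1 : 1 ≤ N := by omega
  have h2 : ∑ n ∈ SQ y, (2 * ((1 : ℕ) : ℝ) - 1) ^ om n *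
      ‖(((Nat.sqrt (N / n) : ℝ) - Real.sqrt (N / n) : ℝ) : ℂ)‖ ^ 2 ≤
      ∑ n ∈ SQ y, N * Real.exp (-(Real.log N / Real.log y)) * ∏ q ∈ n.primeFactors, (3 / (q : ℝ)) := by
    refine Finset.sum_le_sum fun n hn => ?_
    rw [mem_SQ] at hn
    have hn1 : 1 ≤ n := Nat.one_le_iff_ne_zero.2 hn.1.ne_zero
    have h3 : (2 * ((1 : ℕ) : ℝ) - 1) = 1 := by norm_num
    rw [h3, one_pow, one_mul, Complex.norm_real, Real.norm_eq_abs, sq_abs]
    obtain ⟨w1, w2⟩ := s1_weight hy hN1 hn1 hn.1 (fun p hp => (mem_PP.1 (hn.2 hp)).2)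
    obtain ⟨q1, q2⟩ := s1_sqrt N n hn1
    rcases le_or_gt n N with h | h
    · exact (q1 h).trans (w1 h)
    · rw [q2 h]
      exact w2 h.le
  refine h2.trans ?_
  rw [← Finset.mul_sum]
  have h4 : ∑ n ∈ SQ y, ∏ q ∈ n.primeFactors, (3 / (q : ℝ)) ≤ ∏ p ∈ PP y, (1 + 3 / (p : ℝ)) := by
    refine s1_sum_sqf_le (SQ y) (PP y) (fun q => 3 / (q : ℝ)) (fun _ _ => by positivity) ?_
    intro n hn
    exact mem_SQ.1 hn
  have h5 := h4.trans (s1_prod y (by omega))
  have hly : 0 ≤ Real.log y := Real.log_natCast_nonneg y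
  have hyN : Real.log y ≤ Real.log N :=
    Real.log_le_log (by exact_mod_cast (by omega : 0 < y)) (by exact_mod_cast hN)
  have h6 : (1 + Real.log y) ^ 12 ≤ (1 + Real.log N) ^ 12 :=
    pow_le_pow_left₀ (by linarith) (by linarith) 12
  have h7 : (0 : ℝ) ≤ N * Real.exp (-(Real.log N / Real.log y)) := by positivity
  have hlN : 0 ≤ Real.log N := hly.trans hyN
  calc N * Real.exp (-(Real.log N / Real.log y)) * ∑ n ∈ SQ y, ∏ q ∈ n.primeFactors, (3 / (q : ℝ))
      ≤ N * Real.exp (-(Real.log N / Real.log y)) * ((1 + Real.log N) ^ 12 * Real.exp 18) := by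
        refine mul_le_mul_of_nonneg_left (h5.trans ?_) h7
        exact mul_le_mul_of_nonneg_right h6 (Real.exp_pos _).le
    _ = 1 * (Real.exp 18 * N * (1 + Real.log N) ^ 12 * Real.exp (-(Real.log N / Real.log y))) := by ring
    _ ≤ 3 * (Real.exp 18 * N * (1 + Real.log N) ^ 12 * Real.exp (-(Real.log N / Real.log y))) := by
        refine mul_le_mul_of_nonneg_right (by norm_num) (by positivity)

private lemma cube_le_two_pow : ∀ R : ℕ, 10 ≤ R → R ^ 3 ≤ 2 ^ R := by
  intro R hR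
  induction R, hR using Nat.le_induction with
  | base => norm_num
  | succ n hn ih =>
    rw [pow_succ 2 n]
    nlinarith [Nat.mul_le_mul hn (Nat.mul_le_mul hn hn), Nat.mul_le_mul hn (Nat.mul_self_le_mul_self hn),
      mul_le_mul hn (le_refl (n * n)) (Nat.zero_le _) (Nat.zero_le _), Nat.mul_le_mul hn (le_refl n)]

private lemma log_le (R N : ℕ) (hR : 1 ≤ R) (hN0 : 1 ≤ N) (hN : N < Y (R + 1)) :
    1 + Real.log N ≤ 2 ^ (R + 1) := by
  have h0 : (0 : ℝ) < N := by exact_mod_cast hN0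
  have h1 : Real.log N ≤ Real.log (Y (R + 1)) := Real.log_le_log h0 (by exact_mod_cast hN.le)
  rw [log_Y] at h1
  have h2 := Real.log_two_lt_d9
  have h3 : (4 : ℝ) ≤ 2 ^ (R + 1) := by
    calc (4 : ℝ) = 2 ^ 2 := by norm_num
      _ ≤ 2 ^ (R + 1) := pow_le_pow_right₀ (by norm_num) (by omega)
  nlinarith

theorem small_bound : ∀ A : ℕ, ∃ c R1 : ℕ, ∀ R N : ℕ, R1 ≤ R → Y R ≤ N → N < Y (R + 1) →
    pr (PP N) (fun T => (N : ℝ) <
      (NG T (Y (R - (Nat.log 2 R + c)) + 1) N - Real.sqrt N * FP (Y (R - (Nat.log 2 R + c))) T) ^ 2) ≤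
      1 / 2 ^ (A * R) := by
  intro A
  obtain ⟨c, hc⟩ : ∃ c, c = A + 46 := ⟨_, rfl⟩
  refine ⟨c, max 10 (4 * (A + 6) * 2 ^ c), ?_⟩
  intro R N hR1 hN1 hN2
  have hR10 : 10 ≤ R := (le_max_left _ _).trans hR1
  have hRK : 4 * (A + 6) * 2 ^ c ≤ R := (le_max_right _ _).trans hR1
  have hN0 : 1 ≤ N := (Y_pos R).trans_le hN1
  have hNpos : (0 : ℝ) < N := by exact_mod_cast hN0
  obtain ⟨m, hm⟩ : ∃ m, m = Nat.log 2 R + c := ⟨_, rfl⟩
  rw [← hm]
  -- sizes
  have hL1 : 2 ^ Nat.log 2 R ≤ R := Nat.pow_log_le_self 2 (by omega)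
  have hL2 : R < 2 ^ (Nat.log 2 R + 1) := Nat.lt_pow_succ_log_self (by norm_num) R
  have hm1 : 2 ^ m ≤ R * 2 ^ c := by
    rw [hm, pow_add]; exact Nat.mul_le_mul_right _ hL1
  have hbig : 2 ^ m * (4 * (A + 6) * R) ≤ 2 ^ R := by
    calc 2 ^ m * (4 * (A + 6) * R) ≤ (R * 2 ^ c) * (4 * (A + 6) * R) := Nat.mul_le_mul_right _ hm1
      _ = (4 * (A + 6) * 2 ^ c) * (R * R) := by ring
      _ ≤ R * (R * R) := Nat.mul_le_mul_right _ hRK
      _ = R ^ 3 := by ring
      _ ≤ 2 ^ R := cube_le_two_pow R hR10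
  have hmR : m < R := by
    have h1 : 2 ^ m < 2 ^ R := by
      refine lt_of_lt_of_le ?_ hbig
      have h3 : 4 * 6 * 10 ≤ 4 * (A + 6) * R :=
        Nat.mul_le_mul (Nat.mul_le_mul_left 4 (Nat.le_add_left 6 A)) hR10
      exact lt_mul_of_one_lt_right (by positivity) (by omega)
    exact (Nat.pow_lt_pow_iff_right (by norm_num)).1 h1
  obtain ⟨r0, hr0⟩ : ∃ r0, r0 = R - m := ⟨_, rfl⟩
  rw [← hr0]
  have hr0m : r0 + m = R := by omega
  have hr0R : r0 ≤ R := by omega
  have hlogN := log_le R N (by omega) hN0 hN2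
  have hlogN0 : 0 ≤ Real.log N := Real.log_nonneg (by exact_mod_cast hN0)
  have hr01 : 1 ≤ r0 := by omega
  have hy3 : 3 ≤ Y r0 := by
    refine le_trans ?_ (Y_mono hr01)
    unfold Y; norm_num
  have hav := av_small_part (Y r0) N hy3 ((Y_mono hr0R).trans hN1)
  have hpr : pr (PP N) (fun T => (N : ℝ) < (NG T (Y r0 + 1) N - Real.sqrt N * FP (Y r0) T) ^ 2) ≤
      pr (PP N) (fun T => (N : ℝ) ≤ (NG T (Y r0 + 1) N - Real.sqrt N * FP (Y r0) T) ^ 2) :=
    pr_mono fun T _ h => h.le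
  refine hpr.trans ?_
  refine (markov (fun T _ => sq_nonneg _) hNpos hav).trans ?_
  have hratio : (2 : ℝ) ^ (c - 1) * R ≤ Real.log N / Real.log (Y r0) := by
    have h1 : Real.log (Y R) ≤ Real.log N :=
      Real.log_le_log (by exact_mod_cast Y_pos R) (by exact_mod_cast hN1)
    rw [log_Y] at h1
    rw [log_Y]
    have hl2 : 0 < Real.log 2 := Real.log_pos (by norm_num)
    rw [le_div_iff₀ (by positivity)]
    refine le_trans ?_ h1
    have h2 : (2 : ℝ) ^ (c - 1) * R ≤ 2 ^ m := by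
      have h3 : 2 ^ (c - 1) * R ≤ 2 ^ m := by
        calc 2 ^ (c - 1) * R ≤ 2 ^ (c - 1) * 2 ^ (Nat.log 2 R + 1) := Nat.mul_le_mul_left _ hL2.le
          _ = 2 ^ m := by rw [← pow_add]; congr 1; omega
      exact_mod_cast h3
    calc (2 : ℝ) ^ (c - 1) * R * (2 ^ r0 * Real.log 2) = ((2 : ℝ) ^ (c - 1) * R) * 2 ^ r0 * Real.log 2 := by ring
      _ ≤ (2 ^ m * 2 ^ r0) * Real.log 2 := by gcongr
      _ = 2 ^ R * Real.log 2 := by rw [← pow_add, add_comm m r0, hr0m]
  have hAc : ((A : ℝ) + 45) ≤ 2 ^ (c - 1) := by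
    have h1 : c - 1 < 2 ^ (c - 1) := Nat.lt_two_pow_self
    have h2 : A + 45 ≤ 2 ^ (c - 1) := by omega
    exact_mod_cast h2
  have hRr : (10 : ℝ) ≤ R := by exact_mod_cast hR10
  have hexp : Real.exp (-(Real.log N / Real.log (Y r0))) ≤ Real.exp (-((A + 45) * R)) := by
    refine Real.exp_le_exp.2 (neg_le_neg (le_trans ?_ hratio))
    exact mul_le_mul_of_nonneg_right hAc (by positivity)
  have he2 : (2 : ℝ) ≤ Real.exp 1 := by
    have := Real.add_one_le_exp (1 : ℝ); linarith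
  have hp : ∀ k : ℕ, (2 : ℝ) ^ k ≤ Real.exp k := by
    intro k
    calc (2 : ℝ) ^ k ≤ Real.exp 1 ^ k := pow_le_pow_left₀ (by norm_num) he2 k
      _ = Real.exp k := by rw [← Real.exp_nat_mul, mul_one]
  have h3e : (3 : ℝ) ≤ Real.exp 2 := by
    have := Real.add_one_le_exp (2 : ℝ); linarith
  calc 3 * (Real.exp 18 * N * (1 + Real.log N) ^ 12 * Real.exp (-(Real.log N / Real.log (Y r0)))) / N
      = 3 * (Real.exp 18 * (1 + Real.log N) ^ 12 * Real.exp (-(Real.log N / Real.log (Y r0)))) := by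
        field_simp
    _ ≤ Real.exp 2 * (Real.exp 18 * (2 ^ (R + 1)) ^ 12 * Real.exp (-((A + 45) * R))) := by
        gcongr
    _ = Real.exp 20 * 2 ^ (12 * (R + 1)) * Real.exp (-((A + 45) * R)) := by
        rw [show 12 * (R + 1) = (R + 1) * 12 by ring, pow_mul, show (20 : ℝ) = 2 + 18 by norm_num, Real.exp_add 2 18]
        ring
    _ ≤ Real.exp 20 * Real.exp ((12 * (R + 1) : ℕ) : ℝ) * Real.exp (-((A + 45) * R)) := by
        gcongr
        exact hp _
    _ = Real.exp (20 + ((12 * (R + 1) : ℕ) : ℝ) + -((A + 45) * R)) := by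
        rw [Real.exp_add, Real.exp_add]
    _ ≤ Real.exp (-((A * R : ℕ) : ℝ)) := by
        refine Real.exp_le_exp.2 ?_
        push_cast
        nlinarith
    _ ≤ 1 / 2 ^ (A * R) := by
        rw [Real.exp_neg, one_div]
        exact inv_anti₀ (by positivity) (hp _)

end Pool.Agent.Helper96.AG
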