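import Pool.Agent.Helper96.AG.F1
import Pool.Agent.Helper96.AG.C5
import Pool.Agent.Helper96.AG.B1
import Pool.Agent.Helper96.AG.S1

/-!
# Project AG (MP_a499ba_nt, Q2), block F2

PROOF: as AF/F2 (`card_test`, `test_as`) with exponent `20`: `card (TPG R) ≤ 2^(21 R + 46)`; `A = 25`, `K = 25 R`. Events with `M R = Y (R+1)`: (1) `VG_bound`; (2) `small_bound`; (3) `azumaG` with `r = R - (log2 R + c)`, `v0 = N R^(-1/2+4δ)`; and (4) `FP (Y r) T > 1` (`FP_prob`, with `M r = Y r`). With `c` from `small_bound`.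
`GM^2 ≤ 2 (GM - NG)^2 + 2 NG^2 ≤ 2 * 50 R v0 + 4 N + 4 N ≤ 108 N R^(1/2+4δ)` (`NG^2 ≤ 2 (NG - √N FP)^2 + 2 N FP^2 ≤ 4 N`, `0 ≤ FP ≤ 1`).
-/

set_option autoImplicit false

namespace Pool.Agent.Helper96.AG

open Finset Pool.Agent.Helper5.RM Pool.Agent.Helper96.AF

open MeasureTheory ProbabilityTheory

noncomputable def alG (k : ℕ) : ℕ := Nat.clog 2 ((k + 2) ^ 20)

/-- the test points `N` with `Y R ≤ N < Y (R+1)` -/
noncomputable def TPG (R : ℕ) : Finset ℕ :=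
  (Finset.Ico (Y R) (Y (R + 1))).filter (fun N => 2 ^ (Nat.log 2 N - alG (Nat.log 2 N)) ∣ N)

private lemma alG_lt (k : ℕ) : 2 ^ (alG k + 1) ≤ 4 * (k + 2) ^ 20 := by
  have h1 : 1 < (k + 2) ^ 20 := by
    calc 1 < 2 ^ 20 := by norm_num
      _ ≤ (k + 2) ^ 20 := Nat.pow_le_pow_left (by omega) 20
  have h2 : 0 < alG k := Nat.clog_pos (by norm_num) (by omega)
  have h3 : 2 ^ (alG k).pred < (k + 2) ^ 20 := Nat.pow_pred_clog_lt_self (by norm_num) h1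
  have h4 : alG k + 1 = (alG k).pred + 2 := by
    rw [Nat.pred_eq_sub_one]; omega
  rw [h4, pow_add]
  omega

private lemma TPG_log {R N : ℕ} (h : N ∈ TPG R) : 2 ^ R ≤ Nat.log 2 N ∧ Nat.log 2 N < 2 ^ (R + 1) := by
  unfold TPG at h
  rw [mem_filter, mem_Ico] at h
  unfold Y at h
  have h0 : N ≠ 0 := by
    intro h0
    have h1 := h.1.1
    have h2 : 0 < 2 ^ 2 ^ R := by positivity
    omega
  constructor
  · exact (Nat.le_log_iff_pow_le (by norm_num) h0).2 h.1.1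
  · exact (Nat.log_lt_iff_lt_pow (by norm_num) h0).2 h.1.2

theorem card_testG (R : ℕ) : ((TPG R).card : ℝ) ≤ 2 ^ (21 * R + 46) := by
  have hsub : TPG R ⊆ (Finset.Ico (2 ^ R) (2 ^ (R + 1))).biUnion
      (fun k => (Finset.range (2 ^ (alG k + 1))).image (fun j => 2 ^ (k - alG k) * j)) := by
    intro N hN
    have hk := TPG_log hN
    rw [mem_biUnion]
    refine ⟨Nat.log 2 N, mem_Ico.2 hk, ?_⟩
    unfold TPG at hN
    rw [mem_filter] at hN
    obtain ⟨j, hj⟩ := hN.2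
    rw [mem_image]
    refine ⟨j, ?_, hj.symm⟩
    rw [mem_range]
    have h1 : N < 2 ^ (Nat.log 2 N + 1) := Nat.lt_pow_succ_log_self (by norm_num) N
    have h2 : 2 ^ (Nat.log 2 N + 1) ≤ 2 ^ (Nat.log 2 N - alG (Nat.log 2 N)) * 2 ^ (alG (Nat.log 2 N) + 1) := by
      rw [← pow_add]
      exact Nat.pow_le_pow_right (by norm_num) (by omega)
    have h3 : 2 ^ (Nat.log 2 N - alG (Nat.log 2 N)) * j <
        2 ^ (Nat.log 2 N - alG (Nat.log 2 N)) * 2 ^ (alG (Nat.log 2 N) + 1) := by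
      rw [← hj]
      exact lt_of_lt_of_le h1 h2
    exact Nat.lt_of_mul_lt_mul_left h3
  have h1 : (TPG R).card ≤ 2 ^ (21 * R + 46) := by
    refine (card_le_card hsub).trans (card_biUnion_le.trans ?_)
    have h2 : ∀ k ∈ Finset.Ico (2 ^ R) (2 ^ (R + 1)),
        ((Finset.range (2 ^ (alG k + 1))).image (fun j => 2 ^ (k - alG k) * j)).card ≤ 2 ^ (20 * R + 42) := by
      intro k hk
      rw [mem_Ico] at hk
      refine (card_image_le).trans ?_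
      rw [card_range]
      refine (alG_lt k).trans ?_
      have h3 : k + 2 ≤ 2 ^ (R + 2) := by
        have : 2 ^ (R + 2) = 2 ^ (R + 1) + 2 ^ (R + 1) := by ring
        have h4 : 2 ≤ 2 ^ (R + 1) := by
          calc 2 = 2 ^ 1 := by norm_num
            _ ≤ 2 ^ (R + 1) := Nat.pow_le_pow_right (by norm_num) (by omega)
        omega
      calc 4 * (k + 2) ^ 20 ≤ 2 ^ 2 * (2 ^ (R + 2)) ^ 20 := by
            have := Nat.pow_le_pow_left h3 20
            omega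
        _ = 2 ^ (20 * R + 42) := by rw [← pow_mul, ← pow_add]; congr 1; ring
    refine (Finset.sum_le_sum h2).trans ?_
    rw [sum_const, Nat.card_Ico, smul_eq_mul]
    have h5 : 2 ^ (R + 1) - 2 ^ R = 2 ^ R := by
      rw [pow_succ]; omega
    rw [h5, ← pow_add]
    exact Nat.pow_le_pow_right (by norm_num) (by omega)
  exact_mod_cast h1

/-- probabilities of events which depend on `T ∩ S'` only -/
private lemma pr_restrict {S S' : Finset ℕ} (h : S' ⊆ S) (P : Finset ℕ → Prop) (hP : ∀ T, P T ↔ P (T ∩ S')) :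
    pr S P = pr S' P := by
  unfold pr
  refine av_restrict h _ fun T => ?_
  by_cases h1 : P T
  · rw [if_pos h1, if_pos ((hP T).1 h1)]
  · rw [if_neg h1, if_neg (fun h2 => h1 ((hP T).2 h2))]

private lemma TPG_lt {R N : ℕ} (h : N ∈ TPG R) : Y R ≤ N ∧ N < Y (R + 1) := by
  unfold TPG at h
  rw [mem_filter, mem_Ico] at h
  exact h.1

private lemma sum_inter {N : ℕ} (s : Finset ℕ) (T T' : Finset ℕ) (h : ∀ p, p.Prime → p ≤ N → (p ∈ T ↔ p ∈ T')) :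
    ∑ r ∈ s, JG r N T = ∑ r ∈ s, JG r N T' :=
  sum_congr rfl fun _ _ => JG_congr fun p hp _ h2 => h p hp h2

private lemma NG_congr' {y N : ℕ} {T T' : Finset ℕ} (h : ∀ p, p.Prime → p ≤ N → (p ∈ T ↔ p ∈ T')) :
    NG T y N = NG T' y N := NG_congr fun p hp _ h2 => h p hp h2

private lemma FP_congr' {r N : ℕ} (hr : Y r ≤ N) {T T' : Finset ℕ}
    (h : ∀ p, p.Prime → p ≤ N → (p ∈ T ↔ p ∈ T')) : FP (Y r) T = FP (Y r) T' :=
  FP_congr fun p hp h2 => h p hp (h2.trans hr)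

private lemma pow_div (R : ℕ) : (2 : ℝ) ^ (21 * R + 46) * (1 / 2 ^ (25 * R)) = 2 ^ 46 * (1 / 16) ^ R := by
  have h1 : (2 : ℝ) ^ (25 * R) = 2 ^ (21 * R) * 16 ^ R := by
    rw [show (16 : ℝ) = 2 ^ 4 by norm_num, ← pow_mul, ← pow_add]
    congr 1; ring
  rw [h1, pow_add, one_div_pow]
  field_simp

private lemma ev_ineq (δ C : ℝ) (hδ : 0 < δ) (hδ2 : δ ≤ 1 / 8) : ∃ R2 : ℕ, ∀ R : ℕ, R2 ≤ R → 1 ≤ R ∧
    C * (R : ℝ) ^ (-(1 / 2) + 3 * δ) + 1 / 2 ^ R ≤ (R : ℝ) ^ (-(1 / 2) + 4 * δ) := by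
  have h1 : Filter.Tendsto (fun R : ℕ => (R : ℝ) ^ δ) Filter.atTop Filter.atTop :=
    (tendsto_rpow_atTop hδ).comp tendsto_natCast_atTop_atTop
  obtain ⟨R2, hR2⟩ := Filter.eventually_atTop.1 (h1.eventually_ge_atTop (C + 1))
  refine ⟨max R2 1, fun R hR => ?_⟩
  have h2 := hR2 R (le_of_max_le_left hR)
  have hR1 : 1 ≤ R := le_of_max_le_right hR
  have hR0 : (0 : ℝ) < R := by exact_mod_cast hR1
  have hR1' : (1 : ℝ) ≤ R := by exact_mod_cast hR1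
  refine ⟨hR1, ?_⟩
  have e1 : (R : ℝ) ^ (-(1 / 2) + 4 * δ) = (R : ℝ) ^ δ * (R : ℝ) ^ (-(1 / 2) + 3 * δ) := by
    rw [← Real.rpow_add hR0]; congr 1; ring
  have h3 : (0 : ℝ) < (R : ℝ) ^ (-(1 / 2) + 3 * δ) := Real.rpow_pos_of_pos hR0 _
  have h4 : (1 : ℝ) / 2 ^ R ≤ (R : ℝ) ^ (-(1 / 2) + 3 * δ) := by
    have h5 : (R : ℝ) ^ (-1 : ℝ) ≤ (R : ℝ) ^ (-(1 / 2) + 3 * δ) :=
      Real.rpow_le_rpow_of_exponent_le hR1' (by linarith)
    refine le_trans ?_ h5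
    rw [Real.rpow_neg_one, one_div]
    apply inv_anti₀ hR0
    have : R < 2 ^ R := Nat.lt_two_pow_self
    exact_mod_cast this.le
  rw [e1]
  nlinarith

private lemma ev_log (c i : ℕ) : ∃ R2 : ℕ, ∀ R : ℕ, R2 ≤ R → i ≤ R - (Nat.log 2 R + c) := by
  have h1 := F1_ev 2 1 one_pos c
  obtain ⟨R2, hR2⟩ := Filter.eventually_atTop.1 h1
  refine ⟨max R2 (2 * i), fun R hR => ?_⟩
  have h2 := hR2 R (le_of_max_le_left hR)
  have h3 : 2 * i ≤ R := le_of_max_le_right hR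
  rw [Real.rpow_one] at h2
  have h4 : (((Nat.log 2 R + c + 1) * 2 : ℕ) : ℝ) ≤ (R : ℝ) := by
    push_cast at h2 ⊢
    linarith
  have h5 : (Nat.log 2 R + c + 1) * 2 ≤ R := by exact_mod_cast h4
  omega

private lemma FP_sq {y : ℕ} {T : Finset ℕ} (h : ¬ 1 < FP y T) : FP y T ^ 2 ≤ 1 := by
  rw [not_lt] at h
  have h0 : 0 ≤ FP y T := by
    unfold FP
    refine Finset.prod_nonneg fun p hp => ?_
    rw [mem_PP] at hp
    have h1 : (1 : ℝ) ≤ Real.sqrt p := by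
      rw [Real.one_le_sqrt]
      exact_mod_cast hp.1.one_lt.le
    have h2 : |sg T p / Real.sqrt p| ≤ 1 := by
      rw [abs_div, abs_of_pos (by linarith : 0 < Real.sqrt p), div_le_one (by linarith)]
      refine le_trans (le_of_eq ?_) h1
      unfold sg
      split_ifs <;> simp
    linarith [(abs_le.1 h2).1]
  nlinarith

private lemma summ_g (C : ℝ) : Summable (fun r : ℕ => C * (2 : ℝ) ^ (-((r : ℝ) / 8))) := by
  have h0 : (fun r : ℕ => C * (2 : ℝ) ^ (-((r : ℝ) / 8))) = fun r : ℕ => C * ((2 : ℝ) ^ (-(1 / 8) : ℝ)) ^ r := by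
    funext r
    rw [← Real.rpow_natCast, ← Real.rpow_mul (by norm_num)]
    congr 2
    ring
  rw [h0]
  exact (summable_geometric_of_lt_one (by positivity)
    (Real.rpow_lt_one_of_one_lt_of_neg (by norm_num) (by norm_num))).mul_left _

theorem testG_as (δ : ℝ) (hδ : 0 < δ) (hδ2 : δ ≤ 1 / 8) {Ω : Type*} [MeasurableSpace Ω] (μ : Measure Ω)
    (ε : ℕ → Ω → ℝ) (hM : Unif μ ε) :
    ∀ᵐ ω ∂μ, ∃ R0 : ℕ, ∀ R, R0 ≤ R → ∀ N ∈ TPG R,
      GM (TT ε ω N) N ^ 2 ≤ 108 * N * (R : ℝ) ^ (1 / 2 + 4 * δ) := by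
  obtain ⟨c, R3, hS⟩ := small_bound 25
  obtain ⟨R1, C, hC, hV⟩ := VG_bound 25 c
  obtain ⟨CF, hCF, hF⟩ := FP_prob
  have hcard := card_testG
  have hsumm : Summable (fun R : ℕ => (2 : ℝ) ^ 47 * (1 / 16) ^ R) :=
    (summable_geometric_of_lt_one (by norm_num) (by norm_num)).mul_left _
  have hTT : ∀ (N : ℕ) (T : Finset ℕ) (p : ℕ), p.Prime → p ≤ N → (p ∈ T ↔ p ∈ T ∩ PP N) := by
    intro N T p hp hpN
    rw [mem_inter, mem_PP]
    tauto
  -- first event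
  have hA := bcU μ ε hM (fun R => Y (R + 1))
    (fun R T => ∃ N ∈ TPG R, C * N * (∑ r ∈ Finset.Icc (R - (Nat.log 2 R + c)) R, JG r N T) + N / 2 ^ R <
      VG (R - (Nat.log 2 R + c)) N T)
    (fun R : ℕ => (2 : ℝ) ^ 47 * (1 / 16) ^ R) hsumm R1 (by
      intro R hR1
      refine (pr_exists _ _ _).trans ?_
      have hb : ∀ N ∈ TPG R, pr (PP (Y (R + 1))) (fun T => C * N *
          (∑ r ∈ Finset.Icc (R - (Nat.log 2 R + c)) R, JG r N T) + N / 2 ^ R < VG (R - (Nat.log 2 R + c)) N T) ≤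
          1 / 2 ^ (25 * R) := by
        intro N hN
        have hN1 := TPG_lt hN
        rw [pr_restrict (PP_mono hN1.2.le)]
        · exact hV R N hR1 hN1.1 hN1.2
        · intro T
          rw [VG_congr (hTT N T), sum_inter _ T _ (hTT N T)]
      refine (sum_le_sum hb).trans ?_
      rw [sum_const, nsmul_eq_mul]
      have h3 := hcard R
      calc ((TPG R).card : ℝ) * (1 / 2 ^ (25 * R)) ≤ 2 ^ (21 * R + 46) * (1 / 2 ^ (25 * R)) := by gcongr
        _ = 2 ^ 46 * (1 / 16) ^ R := pow_div R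
        _ ≤ 2 ^ 47 * (1 / 16) ^ R := by gcongr <;> norm_num)
  -- second event
  have hB := bcU μ ε hM (fun R => Y (R + 1))
    (fun R T => ∃ N ∈ TPG R, 2 * (25 * (R : ℝ)) * (N * (R : ℝ) ^ (-(1 / 2) + 4 * δ)) <
      (GM T N - NG T (Y (R - (Nat.log 2 R + c)) + 1) N) ^ 2 ∧
      VG (R - (Nat.log 2 R + c)) N T ≤ N * (R : ℝ) ^ (-(1 / 2) + 4 * δ))
    (fun R : ℕ => (2 : ℝ) ^ 47 * (1 / 16) ^ R) hsumm 1 (by
      intro R hR1
      have hR0 : (0 : ℝ) < R := by exact_mod_cast hR1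
      refine (pr_exists _ _ _).trans ?_
      have hb : ∀ N ∈ TPG R, pr (PP (Y (R + 1))) (fun T =>
          2 * (25 * (R : ℝ)) * (N * (R : ℝ) ^ (-(1 / 2) + 4 * δ)) <
            (GM T N - NG T (Y (R - (Nat.log 2 R + c)) + 1) N) ^ 2 ∧
          VG (R - (Nat.log 2 R + c)) N T ≤ N * (R : ℝ) ^ (-(1 / 2) + 4 * δ)) ≤ 2 * (1 / 2 ^ (25 * R)) := by
        intro N hN
        have hN1 := TPG_lt hN
        rw [pr_restrict (PP_mono hN1.2.le)]
        · have hYN : Y (R - (Nat.log 2 R + c)) ≤ N := (Y_mono (Nat.sub_le _ _)).trans hN1.1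
          refine (azumaG _ N hYN (25 * R) (N * (R : ℝ) ^ (-(1 / 2) + 4 * δ)) (by positivity) (by positivity)).trans ?_
          have h5 : Real.exp (-(25 * R)) ≤ 1 / 2 ^ (25 * R) := by
            rw [Real.exp_neg, one_div]
            apply inv_anti₀ (by positivity)
            have h6 : Real.exp (25 * (R : ℝ)) = Real.exp 1 ^ (25 * R) := by
              rw [← Real.exp_nat_mul]; congr 1; push_cast; ring
            rw [h6]
            exact pow_le_pow_left₀ (by norm_num) (by have := Real.exp_one_gt_d9; linarith) _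
          linarith
        · intro T
          rw [VG_congr (hTT N T), GM_congr (hTT N T), NG_congr' (hTT N T)]
      refine (sum_le_sum hb).trans ?_
      rw [sum_const, nsmul_eq_mul]
      have h3 := hcard R
      calc ((TPG R).card : ℝ) * (2 * (1 / 2 ^ (25 * R))) ≤ 2 ^ (21 * R + 46) * (2 * (1 / 2 ^ (25 * R))) := by gcongr
        _ = 2 * (2 ^ (21 * R + 46) * (1 / 2 ^ (25 * R))) := by ring
        _ = 2 * (2 ^ 46 * (1 / 16) ^ R) := by rw [pow_div R]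
        _ = 2 ^ 47 * (1 / 16) ^ R := by ring)
  -- third event
  have hD := bcU μ ε hM (fun R => Y (R + 1))
    (fun R T => ∃ N ∈ TPG R, (N : ℝ) < (NG T (Y (R - (Nat.log 2 R + c)) + 1) N -
      Real.sqrt N * FP (Y (R - (Nat.log 2 R + c))) T) ^ 2)
    (fun R : ℕ => (2 : ℝ) ^ 47 * (1 / 16) ^ R) hsumm R3 (by
      intro R hR3
      refine (pr_exists _ _ _).trans ?_
      have hb : ∀ N ∈ TPG R, pr (PP (Y (R + 1))) (fun T => (N : ℝ) < (NG T (Y (R - (Nat.log 2 R + c)) + 1) N -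
          Real.sqrt N * FP (Y (R - (Nat.log 2 R + c))) T) ^ 2) ≤ 1 / 2 ^ (25 * R) := by
        intro N hN
        have hN1 := TPG_lt hN
        have hYN : Y (R - (Nat.log 2 R + c)) ≤ N := (Y_mono (Nat.sub_le _ _)).trans hN1.1
        rw [pr_restrict (PP_mono hN1.2.le)]
        · exact hS R N hR3 hN1.1 hN1.2
        · intro T
          rw [NG_congr' (hTT N T), FP_congr' hYN (hTT N T)]
      refine (sum_le_sum hb).trans ?_
      rw [sum_const, nsmul_eq_mul]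
      have h3 := hcard R
      calc ((TPG R).card : ℝ) * (1 / 2 ^ (25 * R)) ≤ 2 ^ (21 * R + 46) * (1 / 2 ^ (25 * R)) := by gcongr
        _ = 2 ^ 46 * (1 / 16) ^ R := pow_div R
        _ ≤ 2 ^ 47 * (1 / 16) ^ R := by gcongr <;> norm_num)
  -- fourth event
  have hE := bcU μ ε hM Y (fun r T => 1 < FP (Y r) T) _ (summ_g CF) 0 (fun r _ => hF r)
  have hJ := JG_as δ hδ hδ2 c μ ε hM
  obtain ⟨R4, hR4⟩ := ev_ineq δ C hδ hδ2
  filter_upwards [hA, hB, hD, hE, hJ] with ω ⟨RA, hA⟩ ⟨RB, hB⟩ ⟨RD, hD⟩ ⟨RE, hE⟩ ⟨RJ, hJ⟩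
  obtain ⟨R5, hR5⟩ := ev_log c RE
  refine ⟨max (max RA RB) (max (max RJ R4) (max RD R5)), fun R hR N hN => ?_⟩
  have hRA : RA ≤ R := (le_max_left _ _).trans ((le_max_left _ _).trans hR)
  have hRB : RB ≤ R := (le_max_right _ _).trans ((le_max_left _ _).trans hR)
  have hRJ : RJ ≤ R := (le_max_left _ _).trans ((le_max_left _ _).trans ((le_max_right _ _).trans hR))
  have hRR : R4 ≤ R := (le_max_right _ _).trans ((le_max_left _ _).trans ((le_max_right _ _).trans hR))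
  have hRD : RD ≤ R := (le_max_left _ _).trans ((le_max_right _ _).trans ((le_max_right _ _).trans hR))
  have hRE : R5 ≤ R := (le_max_right _ _).trans ((le_max_right _ _).trans ((le_max_right _ _).trans hR))
  have hN1 := TPG_lt hN
  have hYN : Y (R - (Nat.log 2 R + c)) ≤ N := (Y_mono (Nat.sub_le _ _)).trans hN1.1
  have hT : ∀ p, p.Prime → p ≤ N → (p ∈ TT ε ω (Y (R + 1)) ↔ p ∈ TT ε ω N) := by
    intro p hp hpN
    unfold TT
    rw [mem_filter, mem_filter, mem_PP, mem_PP]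
    have : p ≤ Y (R + 1) := hpN.trans hN1.2.le
    tauto
  have a1 := hA R hRA
  have a2 := hB R hRB
  have a5 := hD R hRD
  have a3 := hJ R hRJ N hN1.2.le
  obtain ⟨hR1, a4⟩ := hR4 R hRR
  have a6 := hE _ (hR5 R hRE)
  have a7 : FP (Y (R - (Nat.log 2 R + c))) (TT ε ω (Y (R - (Nat.log 2 R + c)))) =
      FP (Y (R - (Nat.log 2 R + c))) (TT ε ω N) := by
    refine FP_congr fun p hp h3 => ?_
    unfold TT
    rw [mem_filter, mem_filter, mem_PP, mem_PP]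
    have : p ≤ N := h3.trans hYN
    tauto
  rw [a7] at a6
  have a8 := FP_sq a6
  have hN0 : 1 ≤ N := (Y_pos R).trans_le hN1.1
  have hN0' : (0 : ℝ) < N := by exact_mod_cast hN0
  have hR0 : (0 : ℝ) < R := by exact_mod_cast hR1
  push Not at a1 a2 a5
  have b1 := a1 N hN
  rw [VG_congr hT, sum_inter _ _ _ hT] at b1
  have b2 := a2 N hN
  rw [VG_congr hT, GM_congr hT, NG_congr' hT] at b2
  have b5 := a5 N hN
  rw [NG_congr' hT, FP_congr' hYN hT] at b5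
  have b3 : VG (R - (Nat.log 2 R + c)) N (TT ε ω N) ≤ N * (R : ℝ) ^ (-(1 / 2) + 4 * δ) := by
    refine b1.trans ?_
    have h5 : C * N * (∑ r ∈ Finset.Icc (R - (Nat.log 2 R + c)) R, JG r N (TT ε ω N)) ≤
        C * N * (R : ℝ) ^ (-(1 / 2) + 3 * δ) := by gcongr
    have h6 : C * N * (R : ℝ) ^ (-(1 / 2) + 3 * δ) + N / 2 ^ R =
        N * (C * (R : ℝ) ^ (-(1 / 2) + 3 * δ) + 1 / 2 ^ R) := by ring
    calc _ ≤ C * N * (R : ℝ) ^ (-(1 / 2) + 3 * δ) + N / 2 ^ R := by gcongr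
      _ = N * (C * (R : ℝ) ^ (-(1 / 2) + 3 * δ) + 1 / 2 ^ R) := h6
      _ ≤ _ := by gcongr
  have b4 : (GM (TT ε ω N) N - NG (TT ε ω N) (Y (R - (Nat.log 2 R + c)) + 1) N) ^ 2 ≤
      2 * (25 * (R : ℝ)) * (N * (R : ℝ) ^ (-(1 / 2) + 4 * δ)) := by
    by_contra h
    rw [not_le] at h
    exact absurd (b2 h) (not_lt.2 b3)
  have h7 : (R : ℝ) * (R : ℝ) ^ (-(1 / 2) + 4 * δ) = (R : ℝ) ^ (1 / 2 + 4 * δ) := by
    nth_rewrite 1 [← Real.rpow_one (R : ℝ)]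
    rw [← Real.rpow_add hR0]; congr 1; ring
  have h8 : (1 : ℝ) ≤ (R : ℝ) ^ (1 / 2 + 4 * δ) :=
    Real.one_le_rpow (by exact_mod_cast hR1) (by positivity)
  have h9 : 2 * (25 * (R : ℝ)) * (N * (R : ℝ) ^ (-(1 / 2) + 4 * δ)) = 50 * N * (R : ℝ) ^ (1 / 2 + 4 * δ) := by
    rw [← h7]; ring
  rw [h9] at b4
  have h10 : (Real.sqrt N * FP (Y (R - (Nat.log 2 R + c))) (TT ε ω N)) ^ 2 ≤ N := by
    rw [mul_pow, Real.sq_sqrt hN0'.le]
    calc (N : ℝ) * FP (Y (R - (Nat.log 2 R + c))) (TT ε ω N) ^ 2 ≤ N * 1 := by gcongr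
      _ = N := mul_one _
  have h11 : (N : ℝ) ≤ N * (R : ℝ) ^ (1 / 2 + 4 * δ) := le_mul_of_one_le_right hN0'.le h8
  have h12 : ∀ a b f : ℝ, a ^ 2 ≤ 4 * f ^ 2 + 4 * (b - f) ^ 2 + 2 * (a - b) ^ 2 := by
    intro a b f
    nlinarith [sq_nonneg (a - 2 * b), sq_nonneg (b - 2 * f)]
  have h13 := h12 (GM (TT ε ω N) N) (NG (TT ε ω N) (Y (R - (Nat.log 2 R + c)) + 1) N)
    (Real.sqrt N * FP (Y (R - (Nat.log 2 R + c))) (TT ε ω N))
  have h14 : 108 * N * (R : ℝ) ^ (1 / 2 + 4 * δ) = 108 * (N * (R : ℝ) ^ (1 / 2 + 4 * δ)) := by ring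
  have h15 : 50 * N * (R : ℝ) ^ (1 / 2 + 4 * δ) = 50 * (N * (R : ℝ) ^ (1 / 2 + 4 * δ)) := by ring
  rw [h15] at b4
  rw [h14]
  linarith

end Pool.Agent.Helper96.AG
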