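import Pool.Agent.Helper96.AG.F2
import Pool.Agent.Helper96.AG.A3

/-!
# Project AG (MP_a499ba_nt, Q2), block F3

PROOF: as AF/F3.
-/

set_option autoImplicit false

namespace Pool.Agent.Helper96.AG

open Finset Pool.Agent.Helper5.RM Pool.Agent.Helper96.AF

open MeasureTheory ProbabilityTheory

private lemma f3_al_le : ∃ k1 : ℕ, ∀ k, k1 ≤ k → alG k ≤ k := by
  have h1 := tendsto_pow_const_div_const_pow_of_one_lt 20 (r := (2 : ℝ)) (by norm_num)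
  have h2 : ∀ᶠ n : ℕ in Filter.atTop, (n : ℝ) ^ 20 / 2 ^ n < 1 / 4 :=
    h1.eventually_lt_const (by norm_num)
  obtain ⟨n0, hn0⟩ := Filter.eventually_atTop.1 h2
  refine ⟨n0, fun k hk => ?_⟩
  have h3 := hn0 (k + 2) (by omega)
  rw [div_lt_iff₀ (by positivity)] at h3
  have h4 : (k + 2) ^ 20 ≤ 2 ^ k := by
    have h5 : (((k + 2 : ℕ) : ℝ)) ^ 20 ≤ 2 ^ k := by
      refine h3.le.trans (le_of_eq ?_)
      rw [pow_add]
      ring
    exact_mod_cast h5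
  unfold alG
  exact (Nat.clog_le_iff_le_pow (by norm_num)).2 h4

private lemma f3_GM {Ω : Type*} (ε : ℕ → Ω → ℝ) (ω : Ω) {N M : ℕ} (h : N ≤ M) :
    GM (TT ε ω N) N = GM (TT ε ω M) N := by
  refine GM_congr fun p hp hpN => ?_
  unfold TT
  rw [Finset.mem_filter, Finset.mem_filter, mem_PP, mem_PP]
  exact ⟨fun h1 => ⟨⟨hp, hpN.trans h⟩, h1.2⟩, fun h1 => ⟨⟨hp, hpN⟩, h1.2⟩⟩

theorem octaveG_as {Ω : Type*} [MeasurableSpace Ω] (μ : Measure Ω)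
    (ε : ℕ → Ω → ℝ) (hM : Unif μ ε) :
    ∀ᵐ ω ∂μ, ∃ k0 : ℕ, ∀ k, k0 ≤ k → alG k ≤ k ∧ ∀ N ∈ Finset.Ico (2 ^ k) (2 ^ (k + 1)),
      (GM (TT ε ω N) N - GM (TT ε ω (2 ^ (k - alG k) * (N / 2 ^ (k - alG k)))) (2 ^ (k - alG k) * (N / 2 ^ (k - alG k)))) ^ 2 ≤
        2 ^ k := by
  obtain ⟨k1, hk1⟩ := f3_al_le
  have hg : Summable (fun k : ℕ => 2 / ((k : ℝ) + 2) ^ 2) := by
    have h3 : Summable (fun r : ℕ => 1 / (r : ℝ) ^ 2) := Real.summable_one_div_nat_pow.2 (by norm_num)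
    have h4 := ((summable_nat_add_iff 2).2 h3).mul_left 2
    refine h4.congr fun k => ?_
    push_cast
    ring
  have hbc := bcU μ ε hM (fun k => 2 ^ (k + 1))
    (fun k T => ∃ N ∈ Finset.Ico (2 ^ k) (2 ^ (k + 1)),
      (2 : ℝ) ^ k < (GM T N - GM T (2 ^ (k - alG k) * (N / 2 ^ (k - alG k)))) ^ 2)
    (fun k => 2 / ((k : ℝ) + 2) ^ 2) hg k1
    (fun k hk => octaveG k (alG k) (hk1 k hk) (by
      have h5 : (k + 2) ^ 20 ≤ 2 ^ alG k := Nat.le_pow_clog (by norm_num) _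
      exact_mod_cast h5))
  filter_upwards [hbc] with ω hω
  obtain ⟨i1, hi1⟩ := hω
  refine ⟨max i1 k1, fun k hk => ⟨hk1 k (le_trans (le_max_right _ _) hk), fun N hN => ?_⟩⟩
  have hnot := hi1 k (le_trans (le_max_left _ _) hk)
  have hNlt := (Finset.mem_Ico.1 hN).2
  have hle : 2 ^ (k - alG k) * (N / 2 ^ (k - alG k)) ≤ N := Nat.mul_div_le _ _
  rw [f3_GM ε ω hNlt.le, f3_GM ε ω (hle.trans hNlt.le)]
  by_contra hcon
  exact hnot ⟨N, hN, not_le.1 hcon⟩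

end Pool.Agent.Helper96.AG
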