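import Pool.Agent.Helper96.AG.Bas
import Pool.Agent.Helper96.AF.N1

/-!
# Project AG (MP_a499ba_nt, Q2), block N1

PROOF of `gf_sq`: `gf T` is completely multiplicative (`gf_mul`: `Nat.factorization_mul`, products over a common support) and `gf T (a^2) = 1` (`sg_sq`), `gf T b = rf T b` for
squarefree `b` (all exponents are `1`). `GM_eq`: every `n ≥ 1` is `a^2 b` with `b` squarefree in exactly one way (Mathlib `Nat.sq_mul_squarefree`; uniqueness), so
`GM T N = ∑_{a ≤ √N} ∑_{b ≤ N/a^2, sqfree} rf T b = ∑_{a ≤ √N} MM T (N/a^2)`. `NG_top`: `SM (N+1) z = Icc 1 z` for `z ≤ N`.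
`sum_cN`: both sides count the pairs `(a, b)`, `b` squarefree, `z' < a^2 b ≤ z` (`a ≤ √(z/b)` iff `a^2 b ≤ z`: `Nat.le_sqrt'`, `Nat.le_div_iff_mul_le`).
`sq_rep` is the general form: for every `φ`, `∑_{z' < n ≤ z} φ n = ∑_{b ≤ z sqfree} ∑_{a ≤ √z, z' < a^2 b ≤ z} φ (a^2 b)`.
-/

set_option autoImplicit false

namespace Pool.Agent.Helper96.AG

open Finset Pool.Agent.Helper5.RM Pool.Agent.Helper96.AF

private lemma n1g_prod (T : Finset ℕ) (n : ℕ) : gf T n = n.factorization.prod (fun p k => sg T p ^ k) := by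
  unfold gf Finsupp.prod
  rw [Nat.support_factorization]

theorem gf_mul (T : Finset ℕ) (m n : ℕ) (hm : m ≠ 0) (hn : n ≠ 0) : gf T (m * n) = gf T m * gf T n := by
  rw [n1g_prod, n1g_prod, n1g_prod, Nat.factorization_mul hm hn]
  exact Finsupp.prod_add_index' (fun p => pow_zero _) (fun p a b => pow_add _ _ _)

private lemma n1g_sqf {T : Finset ℕ} {b : ℕ} (hb : Squarefree b) : gf T b = rf T b := by
  rw [rf_sqf hb]
  unfold gf wal
  refine Finset.prod_congr rfl fun p hp => ?_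
  have h1 : b.factorization p ≤ 1 := hb.natFactorization_le_one p
  have h2 : 1 ≤ b.factorization p :=
    (Nat.prime_of_mem_primeFactors hp).factorization_pos_of_dvd hb.ne_zero
      (Nat.dvd_of_mem_primeFactors hp)
  have h3 : b.factorization p = 1 := le_antisymm h1 h2
  rw [h3, pow_one]

theorem gf_sq (T : Finset ℕ) (a b : ℕ) (ha : 1 ≤ a) (hb : Squarefree b) : gf T (a ^ 2 * b) = rf T b := by
  have ha0 : a ≠ 0 := by omega
  rw [gf_mul T _ _ (pow_ne_zero 2 ha0) hb.ne_zero, sq, gf_mul T _ _ ha0 ha0, n1g_sqf hb]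
  have : gf T a * gf T a = 1 := by
    unfold gf
    rw [← Finset.prod_mul_distrib]
    refine Finset.prod_eq_one fun p _ => ?_
    rw [← mul_pow, sg_mul_self, one_pow]
  rw [this, one_mul]

private lemma n1g_uniq {a b a' b' : ℕ} (ha : a ≠ 0) (ha' : a' ≠ 0) (hb : Squarefree b)
    (hb' : Squarefree b') (h : a ^ 2 * b = a' ^ 2 * b') : a = a' ∧ b = b' := by
  have e : a = a' := by
    refine Nat.eq_of_factorization_eq ha ha' fun p => ?_
    have h1 := congrArg (fun n => Nat.factorization n p) h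
    simp only [Nat.factorization_mul (pow_ne_zero 2 ha) hb.ne_zero,
      Nat.factorization_mul (pow_ne_zero 2 ha') hb'.ne_zero, Nat.factorization_pow,
      Finsupp.add_apply, Finsupp.smul_apply, smul_eq_mul] at h1
    have h2 : b.factorization p ≤ 1 := hb.natFactorization_le_one p
    have h3 : b'.factorization p ≤ 1 := hb'.natFactorization_le_one p
    omega
  subst e
  exact ⟨rfl, Nat.eq_of_mul_eq_mul_left (pow_pos (Nat.pos_of_ne_zero ha) 2) h⟩

theorem sq_rep (z' z : ℕ) (φ : ℕ → ℝ) :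
    ∑ n ∈ Finset.Ioc z' z, φ n = ∑ b ∈ (Finset.Icc 1 z).filter Squarefree,
      ∑ a ∈ (Finset.Icc 1 (Nat.sqrt z)).filter (fun a => z' < a ^ 2 * b ∧ a ^ 2 * b ≤ z), φ (a ^ 2 * b) := by
  rw [Finset.sum_sigma']
  symm
  refine Finset.sum_bij (fun x _ => x.2 ^ 2 * x.1) ?_ ?_ ?_ ?_
  · rintro ⟨b, a⟩ hx
    rw [Finset.mem_sigma, Finset.mem_filter, Finset.mem_filter] at hx
    exact Finset.mem_Ioc.2 hx.2.2
  · rintro ⟨b, a⟩ hx ⟨b', a'⟩ hx' h
    rw [Finset.mem_sigma, Finset.mem_filter, Finset.mem_filter, Finset.mem_Icc, Finset.mem_Icc] at hx hx'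
    obtain ⟨⟨h1, h2⟩, ⟨h3, h4⟩⟩ := hx
    obtain ⟨⟨h1', h2'⟩, ⟨h3', h4'⟩⟩ := hx'
    dsimp only at h h1 h2 h3 h1' h2' h3'
    obtain ⟨e1, e2⟩ := n1g_uniq (by omega) (by omega) h2 h2' h
    subst e1
    subst e2
    rfl
  · intro n hn
    rw [Finset.mem_Ioc] at hn
    obtain ⟨b, a, h, hs⟩ := Nat.sq_mul_squarefree n
    have hn0 : n ≠ 0 := by omega
    have ha : a ≠ 0 := by
      rintro rfl
      simp at h
      omega
    have hb : b ≠ 0 := hs.ne_zero
    have ha2 : a ^ 2 ≤ n := by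
      rw [← h]
      exact Nat.le_mul_of_pos_right _ (Nat.pos_of_ne_zero hb)
    refine ⟨⟨b, a⟩, ?_, h⟩
    rw [Finset.mem_sigma, Finset.mem_filter, Finset.mem_filter, Finset.mem_Icc, Finset.mem_Icc]
    refine ⟨⟨⟨Nat.pos_of_ne_zero hb, ?_⟩, hs⟩, ⟨⟨Nat.pos_of_ne_zero ha, ?_⟩, ?_⟩⟩
    · refine le_trans ?_ hn.2
      rw [← h]
      exact Nat.le_mul_of_pos_left _ (pow_pos (Nat.pos_of_ne_zero ha) 2)
    · exact Nat.le_sqrt'.2 (ha2.trans hn.2)
    · dsimp only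
      rw [h]
      exact hn
  · rintro ⟨b, a⟩ _
    rfl

private lemma n1g_iff {a b z : ℕ} (hb : 1 ≤ b) : a ^ 2 * b ≤ z ↔ a ≤ Nat.sqrt (z / b) := by
  rw [Nat.le_sqrt', Nat.le_div_iff_mul_le (by omega)]

theorem card_cN (z' z b : ℕ) (hz : z' ≤ z) (hb : 1 ≤ b) :
    ((Finset.Icc 1 (Nat.sqrt z)).filter (fun a => z' < a ^ 2 * b ∧ a ^ 2 * b ≤ z)).card = cN z' z b := by
  have h : (Finset.Icc 1 (Nat.sqrt z)).filter (fun a => z' < a ^ 2 * b ∧ a ^ 2 * b ≤ z) =
      Finset.Ioc (Nat.sqrt (z' / b)) (Nat.sqrt (z / b)) := by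
    ext a
    rw [Finset.mem_filter, Finset.mem_Icc, Finset.mem_Ioc, ← not_le, n1g_iff hb, n1g_iff hb, not_le]
    constructor
    · rintro ⟨_, h⟩
      exact h
    · rintro ⟨h1, h2⟩
      exact ⟨⟨by omega, h2.trans (Nat.sqrt_le_sqrt (Nat.div_le_self z b))⟩, h1, h2⟩
  rw [h, Nat.card_Ioc, cN]

theorem sum_cN (z' z : ℕ) (hz : z' ≤ z) :
    ∑ b ∈ (Finset.Icc 1 z).filter Squarefree, (cN z' z b : ℝ) = (z : ℝ) - z' := by
  have h := sq_rep z' z (fun _ => 1)
  rw [Finset.sum_const, Nat.card_Ioc, nsmul_eq_mul, mul_one, Nat.cast_sub hz] at h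
  rw [h]
  refine Finset.sum_congr rfl fun b hb => ?_
  rw [Finset.mem_filter, Finset.mem_Icc] at hb
  rw [Finset.sum_const, card_cN z' z b hz hb.1.1, nsmul_eq_mul, mul_one]

end Pool.Agent.Helper96.AG
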