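import Pool.Agent.Helper96.AG.N2
import Pool.Agent.Helper5.RM.HC4

/-!
# Project AG (MP_a499ba_nt, Q2), block Q2

Second moments. PROOF of `cN_le`: `cN z' z b ≤ √(z/b) - √(z'/b) + 1` (real square roots; `Nat.sqrt (z/b)` is the integer part of `√(z/b)`: `Real.nat_sqrt_le_real_sqrt`,
`Real.real_sqrt_lt_nat_sqrt_succ`, `Nat.div` is the integer part) `= ((z-z')/b)/(√(z/b) + √(z'/b)) + 1 ≤ (z-z')/(2 √(z' b)) + 1`.
PROOF of `sum_sq_cN`, `k = z - z'`: `∑ c^2 ≤ ∑ c + (k/(2√z')) ∑ c(b)/√b`; by `sum_cN`, `∑ c = k`; `∑_b c(b)/√b = ∑_{(a,b)} 1/√b = ∑ a/√(a^2 b) ≤ (1/√z') ∑_{(a,b), z' < a^2 b ≤ z} a ≤ (1/√z') ∑_{a ≤ √z} a (k/a^2 + 1) ≤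
(1/√z') (k (1 + log z) + z)` (for fixed `a` at most `k/a^2 + 1` values of `b`; `∑_{a ≤ √z} a ≤ z`). Total `≤ k + k (k (1+log z) + z)/(2 z') ≤ k (3 + log z)` as `k ≤ z'`, `z ≤ 2 z'`.
PROOF of `av_NG_diff`: `NG_sum` for `z` and `z'` (`SM y z' ⊆ SM y z`, `Nat.sqrt (z'/b) = 0` for `b > z'`): the difference is `∑_{b ∈ SM y z sqfree} rf T b * cN z' z b`; `hyper_sqf` with `k = 1`; drop the condition on the primes.
-/

set_option autoImplicit false

namespace Pool.Agent.Helper96.AG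

open Finset Pool.Agent.Helper5.RM Pool.Agent.Helper96.AF

theorem cN_le (z' z b : ℕ) (hz' : 1 ≤ z') (hz : z' ≤ z) (hb : 1 ≤ b) :
    (cN z' z b : ℝ) ≤ ((z : ℝ) - z') / (2 * Real.sqrt (z' * b)) + 1 := by
  have hb' : (0 : ℝ) < b := by exact_mod_cast hb
  have hz0 : (0 : ℝ) < z' := by exact_mod_cast hz'
  have hzz : (z' : ℝ) ≤ z := by exact_mod_cast hz
  set A : ℝ := (z : ℝ) / b with hA
  set B : ℝ := (z' : ℝ) / b with hB
  have hB0 : 0 < B := div_pos hz0 hb'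
  have hAB : B ≤ A := div_le_div_of_nonneg_right hzz hb'.le
  have h1 : (Nat.sqrt (z / b) : ℝ) ≤ Real.sqrt A := by
    refine (Real.nat_sqrt_le_real_sqrt).trans (Real.sqrt_le_sqrt ?_)
    rw [hA]
    exact Nat.cast_div_le
  have h2 : Real.sqrt B < (Nat.sqrt (z' / b) : ℝ) + 1 := by
    rw [Real.sqrt_lt' (by positivity)]
    have h3 : z' / b < (Nat.sqrt (z' / b) + 1) ^ 2 := Nat.lt_succ_sqrt' (z' / b)
    have h4 : z' < (Nat.sqrt (z' / b) + 1) ^ 2 * b := by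
      rw [Nat.div_lt_iff_lt_mul (by omega)] at h3
      exact h3
    rw [hB, div_lt_iff₀ hb']
    exact_mod_cast h4
  have h5 : (cN z' z b : ℝ) = (Nat.sqrt (z / b) : ℝ) - Nat.sqrt (z' / b) := by
    unfold cN
    rw [Nat.cast_sub (Nat.sqrt_le_sqrt (Nat.div_le_div_right hz))]
  have hsB : 0 < Real.sqrt B := Real.sqrt_pos.2 hB0
  have hsA : Real.sqrt B ≤ Real.sqrt A := Real.sqrt_le_sqrt hAB
  have hA2 : Real.sqrt A ^ 2 = A := Real.sq_sqrt (hB0.le.trans hAB)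
  have hB2 : Real.sqrt B ^ 2 = B := Real.sq_sqrt hB0.le
  have h6 : Real.sqrt A - Real.sqrt B ≤ (A - B) / (2 * Real.sqrt B) := by
    rw [le_div_iff₀ (by positivity)]
    nlinarith [mul_nonneg (sub_nonneg.2 hsA) (sub_nonneg.2 hsA)]
  have h7 : (A - B) / (2 * Real.sqrt B) = ((z : ℝ) - z') / (2 * Real.sqrt (z' * b)) := by
    have h8 : Real.sqrt (z' * b) = b * Real.sqrt B := by
      have : (z' : ℝ) * b = b ^ 2 * B := by
        rw [hB]
        field_simp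
      rw [this, Real.sqrt_mul (by positivity), Real.sqrt_sq hb'.le]
    rw [h8, hA, hB, ← sub_div]
    field_simp
  rw [h5, ← h7]
  linarith

private lemma q2_pairs (z' z : ℕ) (hz : z' ≤ z) :
    ∑ b ∈ (Finset.Icc 1 z).filter Squarefree,
      ∑ a ∈ (Finset.Icc 1 (Nat.sqrt z)).filter (fun a => z' < a ^ 2 * b ∧ a ^ 2 * b ≤ z), (a : ℝ) ≤
      ((z : ℝ) - z') * (1 + Real.log z) + z := by
  have hzz : (z' : ℝ) ≤ z := by exact_mod_cast hz
  have h1 : ∑ b ∈ (Finset.Icc 1 z).filter Squarefree,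
      ∑ a ∈ (Finset.Icc 1 (Nat.sqrt z)).filter (fun a => z' < a ^ 2 * b ∧ a ^ 2 * b ≤ z), (a : ℝ) ≤
      ∑ b ∈ Finset.Icc 1 z,
      ∑ a ∈ (Finset.Icc 1 (Nat.sqrt z)).filter (fun a => z' < a ^ 2 * b ∧ a ^ 2 * b ≤ z), (a : ℝ) :=
    Finset.sum_le_sum_of_subset_of_nonneg (Finset.filter_subset _ _)
      (fun b _ _ => Finset.sum_nonneg fun a _ => Nat.cast_nonneg a)
  refine h1.trans ?_
  have h2 : ∑ b ∈ Finset.Icc 1 z,
      ∑ a ∈ (Finset.Icc 1 (Nat.sqrt z)).filter (fun a => z' < a ^ 2 * b ∧ a ^ 2 * b ≤ z), (a : ℝ) =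
      ∑ a ∈ Finset.Icc 1 (Nat.sqrt z),
        (((Finset.Icc 1 z).filter (fun b => z' < a ^ 2 * b ∧ a ^ 2 * b ≤ z)).card : ℝ) * a := by
    simp_rw [Finset.sum_filter]
    rw [Finset.sum_comm]
    refine Finset.sum_congr rfl fun a _ => ?_
    rw [← Finset.sum_filter, Finset.sum_const, nsmul_eq_mul]
  rw [h2]
  have h3 : ∀ a ∈ Finset.Icc 1 (Nat.sqrt z),
      (((Finset.Icc 1 z).filter (fun b => z' < a ^ 2 * b ∧ a ^ 2 * b ≤ z)).card : ℝ) * a ≤
        ((z : ℝ) - z') * (a : ℝ)⁻¹ + a := by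
    intro a ha
    rw [Finset.mem_Icc] at ha
    have ha0 : (0 : ℝ) < a := by exact_mod_cast ha.1
    have h4 : (Finset.Icc 1 z).filter (fun b => z' < a ^ 2 * b ∧ a ^ 2 * b ≤ z) ⊆
        Finset.Ioc (z' / a ^ 2) (z / a ^ 2) := by
      intro b hb
      rw [Finset.mem_filter] at hb
      rw [Finset.mem_Ioc]
      have hp : 0 < a ^ 2 := pow_pos ha.1 2
      refine ⟨(Nat.div_lt_iff_lt_mul hp).2 ?_, (Nat.le_div_iff_mul_le hp).2 ?_⟩
      · rw [mul_comm]; exact hb.2.1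
      · rw [mul_comm]; exact hb.2.2
    have h5 := Finset.card_le_card h4
    rw [Nat.card_Ioc] at h5
    have h6 : ((z / a ^ 2 - z' / a ^ 2 : ℕ) : ℝ) ≤ ((z : ℝ) - z') / (a : ℝ) ^ 2 + 1 := by
      rw [Nat.cast_sub (Nat.div_le_div_right hz)]
      have h7 : ((z / a ^ 2 : ℕ) : ℝ) ≤ (z : ℝ) / (a : ℝ) ^ 2 := by
        have := @Nat.cast_div_le ℝ _ _ _ z (a ^ 2)
        rw [Nat.cast_pow] at this
        exact this
      have h8 : (z' : ℝ) / (a : ℝ) ^ 2 < ((z' / a ^ 2 : ℕ) : ℝ) + 1 := by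
        rw [div_lt_iff₀ (by positivity)]
        have h9 : z' < (z' / a ^ 2 + 1) * a ^ 2 := (Nat.div_lt_iff_lt_mul (pow_pos ha.1 2)).1 (Nat.lt_succ_self _)
        exact_mod_cast h9
      rw [sub_div]
      linarith
    have h7 : (((Finset.Icc 1 z).filter (fun b => z' < a ^ 2 * b ∧ a ^ 2 * b ≤ z)).card : ℝ) ≤
        ((z : ℝ) - z') / (a : ℝ) ^ 2 + 1 := by
      refine le_trans ?_ h6
      exact_mod_cast h5
    calc (((Finset.Icc 1 z).filter (fun b => z' < a ^ 2 * b ∧ a ^ 2 * b ≤ z)).card : ℝ) * a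
        ≤ (((z : ℝ) - z') / (a : ℝ) ^ 2 + 1) * a := mul_le_mul_of_nonneg_right h7 ha0.le
      _ = ((z : ℝ) - z') * (a : ℝ)⁻¹ + a := by
          field_simp
  refine (Finset.sum_le_sum h3).trans ?_
  rw [Finset.sum_add_distrib, ← Finset.mul_sum]
  have h8 : ∑ a ∈ Finset.Icc 1 (Nat.sqrt z), (a : ℝ)⁻¹ ≤ 1 + Real.log z := by
    have h9 := harmonic_le_one_add_log (Nat.sqrt z)
    rw [harmonic_eq_sum_Icc] at h9
    push_cast at h9
    refine h9.trans ?_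
    rcases Nat.eq_zero_or_pos (Nat.sqrt z) with h0 | h0
    · rw [h0]
      simp
      exact Real.log_natCast_nonneg z
    · have : Real.log (Nat.sqrt z) ≤ Real.log z :=
        Real.log_le_log (by exact_mod_cast h0) (by exact_mod_cast Nat.sqrt_le_self z)
      linarith
  have h9 : ∑ a ∈ Finset.Icc 1 (Nat.sqrt z), (a : ℝ) ≤ z := by
    have h10 : ∑ a ∈ Finset.Icc 1 (Nat.sqrt z), a ≤ z := by
      calc ∑ a ∈ Finset.Icc 1 (Nat.sqrt z), a ≤ ∑ a ∈ Finset.Icc 1 (Nat.sqrt z), Nat.sqrt z :=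
            Finset.sum_le_sum fun a ha => (Finset.mem_Icc.1 ha).2
        _ = Nat.sqrt z * Nat.sqrt z := by rw [Finset.sum_const, Nat.card_Icc]; simp
        _ ≤ z := Nat.sqrt_le z
    rw [← Nat.cast_sum]
    exact Nat.cast_le.2 h10
  have h10 := mul_le_mul_of_nonneg_left h8 (sub_nonneg.2 hzz)
  linarith

theorem sum_sq_cN (z' z : ℕ) (hz' : 1 ≤ z') (hz : z' ≤ z) (hz2 : z ≤ 2 * z') :
    ∑ b ∈ (Finset.Icc 1 z).filter Squarefree, (cN z' z b : ℝ) ^ 2 ≤ ((z : ℝ) - z') * (3 + Real.log z) := by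
  have hzz : (z' : ℝ) ≤ z := by exact_mod_cast hz
  have hzz2 : (z : ℝ) ≤ 2 * z' := by exact_mod_cast hz2
  have hz0 : (0 : ℝ) < z' := by exact_mod_cast hz'
  set k : ℝ := (z : ℝ) - z' with hk
  have hk0 : 0 ≤ k := sub_nonneg.2 hzz
  have hs0 : 0 < Real.sqrt z' := Real.sqrt_pos.2 hz0
  have hss : Real.sqrt z' * Real.sqrt z' = z' := Real.mul_self_sqrt hz0.le
  have h1 : ∀ b ∈ (Finset.Icc 1 z).filter Squarefree, (cN z' z b : ℝ) ^ 2 ≤
      (cN z' z b : ℝ) + k / (2 * z') *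
        ∑ a ∈ (Finset.Icc 1 (Nat.sqrt z)).filter (fun a => z' < a ^ 2 * b ∧ a ^ 2 * b ≤ z), (a : ℝ) := by
    intro b hb
    rw [Finset.mem_filter, Finset.mem_Icc] at hb
    have hb0 : (0 : ℝ) < b := by exact_mod_cast hb.1.1
    have hc := cN_le z' z b hz' hz hb.1.1
    have hc0 : (0 : ℝ) ≤ cN z' z b := Nat.cast_nonneg _
    have h2 : (cN z' z b : ℝ) * (k / (2 * Real.sqrt (z' * b))) ≤ k / (2 * z') *
        ∑ a ∈ (Finset.Icc 1 (Nat.sqrt z)).filter (fun a => z' < a ^ 2 * b ∧ a ^ 2 * b ≤ z), (a : ℝ) := by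
      rw [← card_cN z' z b hz hb.1.1, ← nsmul_eq_mul, ← Finset.sum_const, Finset.mul_sum]
      refine Finset.sum_le_sum fun a ha => ?_
      rw [Finset.mem_filter, Finset.mem_Icc] at ha
      have ha0 : (0 : ℝ) < a := by exact_mod_cast ha.1.1
      have h3 : (z' : ℝ) ≤ a ^ 2 * b := by exact_mod_cast ha.2.1.le
      have h4 : (z' : ℝ) ≤ a * Real.sqrt (z' * b) := by
        have h5 : Real.sqrt (z' ^ 2) ≤ Real.sqrt (a ^ 2 * (z' * b)) := by
          apply Real.sqrt_le_sqrt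
          nlinarith
        rw [Real.sqrt_sq hz0.le, Real.sqrt_mul (by positivity), Real.sqrt_sq ha0.le] at h5
        exact h5
      have h5 : 0 < Real.sqrt (z' * b) := Real.sqrt_pos.2 (mul_pos hz0 hb0)
      rw [div_mul_eq_mul_div, div_le_div_iff₀ (by positivity) (by positivity)]
      have h6 := mul_le_mul_of_nonneg_left h4 hk0
      nlinarith
    calc (cN z' z b : ℝ) ^ 2 = cN z' z b * cN z' z b := sq _
      _ ≤ cN z' z b * (k / (2 * Real.sqrt (z' * b)) + 1) := mul_le_mul_of_nonneg_left hc hc0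
      _ = cN z' z b + cN z' z b * (k / (2 * Real.sqrt (z' * b))) := by ring
      _ ≤ _ := by linarith
  refine (Finset.sum_le_sum h1).trans ?_
  rw [Finset.sum_add_distrib, sum_cN z' z hz, ← Finset.mul_sum]
  have h2 := q2_pairs z' z hz
  have h3 : k / (2 * z') * ∑ b ∈ (Finset.Icc 1 z).filter Squarefree,
      ∑ a ∈ (Finset.Icc 1 (Nat.sqrt z)).filter (fun a => z' < a ^ 2 * b ∧ a ^ 2 * b ≤ z), (a : ℝ) ≤
      k / (2 * z') * (k * (1 + Real.log z) + z) :=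
    mul_le_mul_of_nonneg_left h2 (by positivity)
  have hlog : 0 ≤ Real.log z := Real.log_natCast_nonneg z
  have h4 : k / (2 * z') * (k * (1 + Real.log z) + z) ≤ k * ((1 + Real.log z) / 2 + 1) := by
    rw [div_mul_eq_mul_div, div_le_iff₀ (by positivity), mul_assoc]
    refine mul_le_mul_of_nonneg_left ?_ hk0
    have hkz : k ≤ z' := by rw [hk]; linarith
    have h5 := mul_le_mul_of_nonneg_right hkz (show 0 ≤ 1 + Real.log z by linarith)
    nlinarith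
  have h5 : 0 ≤ k * Real.log z := mul_nonneg hk0 hlog
  nlinarith

theorem av_NG_diff (S : Finset ℕ) (y z z' : ℕ) (hz' : 1 ≤ z') (hz : z' ≤ z) (hz2 : z ≤ 2 * z')
    (hS : ∀ p, p.Prime → p < y → p ≤ z → p ∈ S) :
    av S (fun T => (NG T y z - NG T y z') ^ 2) ≤ ((z : ℝ) - z') * (3 + Real.log z) := by
  have h1 : ∀ T, NG T y z - NG T y z' = ∑ b ∈ (SM y z).filter Squarefree, rf T b * (cN z' z b : ℝ) := by
    intro T
    have h2 : NG T y z' = ∑ b ∈ (SM y z).filter Squarefree, rf T b * (Nat.sqrt (z' / b) : ℝ) := by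
      rw [NG_sum]
      refine Finset.sum_subset ?_ ?_
      · intro b
        unfold SM
        rw [Finset.mem_filter, Finset.mem_filter, Finset.mem_filter, Finset.mem_filter, Finset.mem_Icc,
          Finset.mem_Icc]
        rintro ⟨⟨⟨h3, h4⟩, h5⟩, h6⟩
        exact ⟨⟨⟨h3, h4.trans hz⟩, h5⟩, h6⟩
      · intro b hb hb'
        have h3 : z' < b := by
          by_contra h4
          apply hb'
          unfold SM at hb ⊢
          rw [Finset.mem_filter, Finset.mem_filter, Finset.mem_Icc] at hb ⊢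
          exact ⟨⟨⟨hb.1.1.1, by omega⟩, hb.1.2⟩, hb.2⟩
        rw [Nat.div_eq_of_lt h3, Nat.sqrt_zero, Nat.cast_zero, mul_zero]
    rw [h2, NG_sum, ← Finset.sum_sub_distrib]
    refine Finset.sum_congr rfl fun b _ => ?_
    unfold cN
    rw [Nat.cast_sub (Nat.sqrt_le_sqrt (Nat.div_le_div_right hz))]
    ring
  have hs : ∀ n ∈ (SM y z).filter Squarefree, Squarefree n ∧ n.primeFactors ⊆ S := by
    intro n hn
    unfold SM at hn
    rw [Finset.mem_filter, Finset.mem_filter, Finset.mem_Icc] at hn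
    refine ⟨hn.2, fun p hp => hS p (Nat.prime_of_mem_primeFactors hp) (hn.1.2 p hp) ?_⟩
    exact (Nat.le_of_mem_primeFactors hp).trans hn.1.1.2
  have h2 := hyper_sqf 1 le_rfl S ((SM y z).filter Squarefree) hs (fun b => ((cN z' z b : ℝ) : ℂ))
  have h3 : av S (fun T => (NG T y z - NG T y z') ^ 2) =
      av S (fun T => ‖∑ n ∈ (SM y z).filter Squarefree, (rf T n : ℂ) * ((cN z' z n : ℝ) : ℂ)‖ ^ (2 * 1)) := by
    refine av_congr fun T _ => ?_
    have h4 : ∑ n ∈ (SM y z).filter Squarefree, (rf T n : ℂ) * ((cN z' z n : ℝ) : ℂ) =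
        ((NG T y z - NG T y z' : ℝ) : ℂ) := by
      rw [h1 T, Complex.ofReal_sum]
      refine Finset.sum_congr rfl fun b _ => ?_
      rw [Complex.ofReal_mul]
    rw [h4, Complex.norm_real, mul_one, Real.norm_eq_abs, sq_abs]
  rw [h3]
  refine h2.trans ?_
  rw [pow_one]
  refine le_trans ?_ (sum_sq_cN z' z hz' hz hz2)
  have h5 : ∀ n ∈ (SM y z).filter Squarefree, (2 * ((1 : ℕ) : ℝ) - 1) ^ om n * ‖((cN z' z n : ℝ) : ℂ)‖ ^ 2 =
      (cN z' z n : ℝ) ^ 2 := by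
    intro n _
    rw [Complex.norm_real, Real.norm_eq_abs, sq_abs]
    norm_num
  rw [Finset.sum_congr rfl h5]
  refine Finset.sum_le_sum_of_subset_of_nonneg ?_ (fun b _ _ => sq_nonneg _)
  intro b
  unfold SM
  rw [Finset.mem_filter, Finset.mem_filter, Finset.mem_filter]
  rintro ⟨⟨h3, _⟩, h5⟩
  exact ⟨h3, h5⟩

end Pool.Agent.Helper96.AG
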