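import Pool.Agent.Helper96.AG.Q2
import Pool.Agent.Helper5.RM.LG5

/-!
# Project AG (MP_a499ba_nt, Q2), block Q3

Weighted second moment over the dyadic intervals of an octave. PROOF: `h = 2^i`; for `z' = 2^i (q-1) ≥ 2^k` we have by `cN_le` `c ≤ h/(2 √(2^k b)) + 1`, so `c^2 ≤ c (1 + h/√(2^k b))`. For a fixed `b` the intervals are
disjoint, and `(a, b)` in an interval with `a^2 b = n ∈ (2^k, 2^(k+1)]` has `1/√b = a/√n ≤ a 2^(-k/2)`. So the left side is at most `∑_{(a,b), 2^k < a^2 b ≤ 2^(k+1)} 9^(om b) (1 + h a/2^k)`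
`≤ ∑_{a ≤ 2^((k+1)/2)} (1 + h a/2^k) ∑_{b ≤ 2^(k+1)/a^2} 9^(om b) ≤ ∑_a (1 + h a/2^k) (2^(k+1)/a^2) (k+2)^9` (`omega_sum`, `w = 9`) `≤ 2 * 2^(k+1) (k+2)^9 + h * 2 (k+2)^9 (k+2) ≤ 3 * 2^(k+1) (k+2)^10` (`∑ 1/a^2 ≤ 2`,
`∑_{a ≤ 2^((k+1)/2)} 1/a ≤ 1 + log ≤ k + 2`, `h ≤ 2^k`).
-/

set_option autoImplicit false

namespace Pool.Agent.Helper96.AG

open Finset Pool.Agent.Helper5.RM Pool.Agent.Helper96.AF

private lemma q3_tele (s : ℕ → ℕ) (hs : Monotone s) (A B : ℕ) (h : A ≤ B) :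
    ∑ q ∈ Finset.Ioc A B, (s q - s (q - 1)) = s B - s A := by
  induction B, h using Nat.le_induction with
  | base => simp
  | succ n hn ih =>
    rw [Finset.sum_Ioc_succ_top (by omega), ih, Nat.add_sub_cancel]
    have h1 := hs hn
    have h2 := hs (Nat.le_succ n)
    have h3 : s n.succ = s (n + 1) := rfl
    omega

private lemma q3_sqrt {x : ℝ} (hx : 1 ≤ x) : √x ≤ x := by
  rw [Real.sqrt_le_left (by linarith)]
  nlinarith

theorem sum_w_cN (k i : ℕ) (hi : i ≤ k) :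
    ∑ q ∈ Finset.Ioc (2 ^ (k - i)) (2 ^ (k + 1 - i)), ∑ b ∈ (Finset.Icc 1 (2 ^ (k + 1))).filter Squarefree,
      (9 : ℝ) ^ om b * (cN (2 ^ i * (q - 1)) (2 ^ i * q) b : ℝ) ^ 2 ≤ 3 * 2 ^ (k + 1) * ((k : ℝ) + 2) ^ 10 := by
  rw [Finset.sum_comm]
  have hkey : ∀ b ∈ (Finset.Icc 1 (2 ^ (k + 1))).filter Squarefree,
      ∑ q ∈ Finset.Ioc (2 ^ (k - i)) (2 ^ (k + 1 - i)),
        (9 : ℝ) ^ om b * (cN (2 ^ i * (q - 1)) (2 ^ i * q) b : ℝ) ^ 2 ≤
      (2 * 2 ^ (k + 1)) * (((9 : ℕ) : ℝ) ^ om b / b) := by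
    intro b hb
    rw [Finset.mem_filter, Finset.mem_Icc] at hb
    obtain ⟨⟨hb1, hbX⟩, _⟩ := hb
    have hbR : (1 : ℝ) ≤ b := by exact_mod_cast hb1
    have hb0 : (0 : ℝ) < b := by linarith
    have hbXR : (b : ℝ) ≤ 2 ^ (k + 1) := by exact_mod_cast hbX
    set K : ℝ := (2 : ℝ) ^ k with hK
    have hK1 : 1 ≤ K := one_le_pow₀ (by norm_num)
    have hK0 : 0 < K := by linarith
    have hXK : (2 : ℝ) ^ (k + 1) = 2 * K := by rw [hK, pow_succ]; ring
    set W : ℝ := 1 + K / (2 * √(K * b)) with hW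
    have hW0 : 0 ≤ W := by positivity
    -- one interval
    have h1 : ∀ q ∈ Finset.Ioc (2 ^ (k - i)) (2 ^ (k + 1 - i)),
        (cN (2 ^ i * (q - 1)) (2 ^ i * q) b : ℝ) ^ 2 ≤
          W * (cN (2 ^ i * (q - 1)) (2 ^ i * q) b : ℝ) := by
      intro q hq
      rw [Finset.mem_Ioc] at hq
      have hz' : 2 ^ k ≤ 2 ^ i * (q - 1) := by
        calc 2 ^ k = 2 ^ i * 2 ^ (k - i) := by rw [← pow_add]; congr 1; omega
          _ ≤ 2 ^ i * (q - 1) := Nat.mul_le_mul_left _ (by omega)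
      have hz1 : 1 ≤ 2 ^ i * (q - 1) := le_trans Nat.one_le_two_pow hz'
      have hzz : 2 ^ i * (q - 1) ≤ 2 ^ i * q := Nat.mul_le_mul_left _ (Nat.sub_le _ _)
      have h2 := cN_le _ _ b hz1 hzz hb1
      have e1 : (((2 ^ i * q : ℕ) : ℝ) - ((2 ^ i * (q - 1) : ℕ) : ℝ)) = 2 ^ i := by
        have hq1 : 1 ≤ q := by
          have := Nat.one_le_two_pow (n := k - i)
          omega
        push_cast [Nat.cast_sub hq1]
        ring
      rw [e1] at h2
      have hiK : (2 : ℝ) ^ i ≤ K := by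
        rw [hK]; exact pow_le_pow_right₀ (by norm_num) hi
      have hz'R : K ≤ ((2 ^ i * (q - 1) : ℕ) : ℝ) := by
        rw [hK]; exact_mod_cast hz'
      have h3 : (2 : ℝ) ^ i / (2 * √(((2 ^ i * (q - 1) : ℕ) : ℝ) * b)) ≤ K / (2 * √(K * b)) := by
        apply div_le_div₀ hK0.le hiK (by positivity)
        apply mul_le_mul_of_nonneg_left _ (by norm_num)
        exact Real.sqrt_le_sqrt (mul_le_mul_of_nonneg_right hz'R hb0.le)
      have h4 : (cN (2 ^ i * (q - 1)) (2 ^ i * q) b : ℝ) ≤ W := by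
        rw [hW]; linarith
      rw [sq]
      exact mul_le_mul_of_nonneg_right h4 (Nat.cast_nonneg _)
    -- the telescoping sum
    have h5 : ∑ q ∈ Finset.Ioc (2 ^ (k - i)) (2 ^ (k + 1 - i)),
        (cN (2 ^ i * (q - 1)) (2 ^ i * q) b : ℝ) ≤ √(2 * K / b) := by
      have h6 := q3_tele (fun q => Nat.sqrt (2 ^ i * q / b)) (fun x y hxy =>
        Nat.sqrt_le_sqrt (Nat.div_le_div_right (Nat.mul_le_mul_left _ hxy)))
        (2 ^ (k - i)) (2 ^ (k + 1 - i)) (Nat.pow_le_pow_right (by norm_num) (by omega))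
      have h7 : ∑ q ∈ Finset.Ioc (2 ^ (k - i)) (2 ^ (k + 1 - i)),
          cN (2 ^ i * (q - 1)) (2 ^ i * q) b ≤ Nat.sqrt (2 ^ (k + 1) / b) := by
        have e2 : 2 ^ i * 2 ^ (k + 1 - i) = 2 ^ (k + 1) := by
          rw [← pow_add]; congr 1; omega
        unfold cN
        rw [h6, e2]
        exact Nat.sub_le _ _
      have h8 : ((Nat.sqrt (2 ^ (k + 1) / b) : ℕ) : ℝ) ≤ √(2 * K / b) := by
        refine Real.nat_sqrt_le_real_sqrt.trans (Real.sqrt_le_sqrt ?_)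
        refine Nat.cast_div_le.trans ?_
        push_cast
        rw [hXK]
      refine le_trans ?_ h8
      exact_mod_cast h7
    -- combination
    have hq1 : 1 ≤ 2 * K / b := by rw [le_div_iff₀ hb0, one_mul, ← hXK]; exact hbXR
    have h9 : √(2 * K / b) ≤ 2 * K / b := q3_sqrt hq1
    have h10 : K / (2 * √(K * b)) ≤ √(2 * K / b) := by
      rw [div_le_iff₀ (by positivity)]
      have e : √(2 * K / b) * (2 * √(K * b)) = 2 * √(2 * K ^ 2) := by
        rw [mul_left_comm, ← Real.sqrt_mul (by positivity)]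
        congr 2
        field_simp
      rw [e]
      have e2 : K ≤ √(2 * K ^ 2) := by
        apply Real.le_sqrt_of_sq_le
        nlinarith [sq_nonneg K]
      linarith
    have h11 : W * √(2 * K / b) ≤ 2 * (2 * K / b) := by
      have e1 : √(2 * K / b) * √(2 * K / b) = 2 * K / b := Real.mul_self_sqrt (by positivity)
      have e2 : K / (2 * √(K * b)) * √(2 * K / b) ≤ √(2 * K / b) * √(2 * K / b) :=
        mul_le_mul_of_nonneg_right h10 (Real.sqrt_nonneg _)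
      rw [hW, add_mul, one_mul]
      linarith
    rw [← Finset.mul_sum]
    calc (9 : ℝ) ^ om b * ∑ q ∈ Finset.Ioc (2 ^ (k - i)) (2 ^ (k + 1 - i)),
          (cN (2 ^ i * (q - 1)) (2 ^ i * q) b : ℝ) ^ 2
        ≤ (9 : ℝ) ^ om b * (W * ∑ q ∈ Finset.Ioc (2 ^ (k - i)) (2 ^ (k + 1 - i)),
          (cN (2 ^ i * (q - 1)) (2 ^ i * q) b : ℝ)) := by
          apply mul_le_mul_of_nonneg_left _ (by positivity)
          rw [Finset.mul_sum]
          exact Finset.sum_le_sum h1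
      _ ≤ (9 : ℝ) ^ om b * (2 * (2 * K / b)) := by
          apply mul_le_mul_of_nonneg_left _ (by positivity)
          exact (mul_le_mul_of_nonneg_left h5 hW0).trans h11
      _ = (2 * 2 ^ (k + 1)) * (((9 : ℕ) : ℝ) ^ om b / b) := by
          rw [hXK]; push_cast; ring
  refine (Finset.sum_le_sum hkey).trans ?_
  rw [← Finset.mul_sum]
  have h2 := omega_inv 9 (2 ^ (k + 1)) Nat.one_le_two_pow
  have h3 : Real.log 2 ≤ 1 := by
    have := Real.log_two_lt_d9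
    linarith
  have h4 : Real.log ((2 ^ (k + 1) : ℕ) : ℝ) ≤ (k : ℝ) + 1 := by
    push_cast
    rw [Real.log_pow]
    push_cast
    have : (0 : ℝ) ≤ (k : ℝ) + 1 := by positivity
    nlinarith
  have h5 : 0 ≤ Real.log ((2 ^ (k + 1) : ℕ) : ℝ) := Real.log_natCast_nonneg _
  have h6 : (1 + Real.log ((2 ^ (k + 1) : ℕ) : ℝ)) ^ 9 ≤ ((k : ℝ) + 2) ^ 9 :=
    pow_le_pow_left₀ (by linarith) (by linarith) 9
  have h7 : ((k : ℝ) + 2) ^ 9 ≤ ((k : ℝ) + 2) ^ 10 := by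
    apply pow_le_pow_right₀ _ (by norm_num)
    have : (0 : ℝ) ≤ k := Nat.cast_nonneg k
    linarith
  calc 2 * 2 ^ (k + 1) * ∑ n ∈ (Finset.Icc 1 (2 ^ (k + 1))).filter Squarefree, ((9 : ℕ) : ℝ) ^ om n / n
      ≤ 2 * 2 ^ (k + 1) * ((k : ℝ) + 2) ^ 10 := by
        apply mul_le_mul_of_nonneg_left _ (by positivity)
        exact h2.trans (h6.trans h7)
    _ ≤ 3 * 2 ^ (k + 1) * ((k : ℝ) + 2) ^ 10 := by
        apply mul_le_mul_of_nonneg_right _ (by positivity)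
        have : (0 : ℝ) < 2 ^ (k + 1) := by positivity
        linarith

end Pool.Agent.Helper96.AG
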