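import Pool.Agent.Helper96.AG.Bas
import Pool.Agent.Helper96.AF.ZI
import Pool.Agent.Helper96.AF.E5

/-!
# Project AG (MP_a499ba_nt, Q2), block S2

The product at `t = 0`. PROOF of `quarter`: `((√(1+x) + √(1-x))/2)^2 = (1 + √(1-x^2))/2 ≤ 1 - x^2/4`, so `(√(1+x) + √(1-x))/2 ≤ 1 - x^2/8`; with `s = √(1+x)`, `t = √(1-x)`: `((√s + √t)/2)^2 = (s+t)/4 + √(s t)/2 ≤ (1 - x^2/8)/2 + (1 - x^2/4)/2`
`= 1 - 3 x^2/16`, so `(√s + √t)/2 ≤ 1 - 3 x^2/32 ≤ exp (-3 x^2/32)`. `av_quarter`: product over `p` (independence: induction with `av_insert`). `th0`: `th p 0 ^2 = 4p/(p+1)^2 ≥ 4/p - 8/p^2`, `Helper66.AF.mertens_lower`, `C2`, `loglog_Y`: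
`∑_{p ∈ PP (Y j)} th p 0 ^2 ≥ 4 j log 2 - C`. So `av (dd^(1/4)) ≤ C 2^(-3j/8)`. `BJ_prob`: Markov for `dd^(1/4)` at level `j`: `≤ C K^(-η/4) (2^(-3/8) (8/3)^(1/4))^j`, and `(2^(-3/8) (8/3)^(1/4))^4 = 2^(-3/2) 8/3 < 1`; sum over `j`; `av_restrict`
(`dd (PP (Y j)) T 0` only depends on `T ∩ PP (Y j)`). `FP_prob`: `FP (Y r) T ^2 = ∏ (1 + 1/p) * dd (PP (Y r)) T 0 ≤ C 2^r dd`, so `1 < FP` implies `C 2^r dd > 1`, i.e. `dd^(1/4) > (C 2^r)^(-1/4)`: probability `≤ C 2^(r/4) 2^(-3r/8) = C 2^(-r/8)`.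
-/

set_option autoImplicit false

namespace Pool.Agent.Helper96.AG

open Finset Pool.Agent.Helper5.RM Pool.Agent.Helper96.AF

theorem quarter {x : ℝ} (hx : |x| < 1) :
    ((1 + x) ^ (1 / 4 : ℝ) + (1 - x) ^ (1 / 4 : ℝ)) / 2 ≤ Real.exp (-(3 / 32) * x ^ 2) := by
  have hx1 := abs_lt.1 hx
  have h1 : (0 : ℝ) ≤ 1 + x := by linarith [hx1.1]
  have h2 : (0 : ℝ) ≤ 1 - x := by linarith [hx1.2]
  have hpow : ∀ y : ℝ, 0 ≤ y → (y ^ (1 / 4 : ℝ)) ^ 4 = y := by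
    intro y hy
    rw [← Real.rpow_natCast, ← Real.rpow_mul hy]
    norm_num
  have hu0 : 0 ≤ (1 + x) ^ (1 / 4 : ℝ) := Real.rpow_nonneg h1 _
  have hv0 : 0 ≤ (1 - x) ^ (1 / 4 : ℝ) := Real.rpow_nonneg h2 _
  have hu4 := hpow _ h1
  have hv4 := hpow _ h2
  generalize (1 + x) ^ (1 / 4 : ℝ) = u at *
  generalize (1 - x) ^ (1 / 4 : ℝ) = v at *
  have hxx : x ^ 2 ≤ 1 := by nlinarith [hx1.1, hx1.2]
  have hx2 : 0 ≤ x ^ 2 := sq_nonneg x
  have hsq : ∀ a b : ℝ, 0 ≤ b → a ^ 2 ≤ b ^ 2 → a ≤ b := fun a b hb h => by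
    by_contra hc
    rw [not_le] at hc
    nlinarith
  have a1 : u ^ 2 * v ^ 2 ≤ 1 - x ^ 2 / 2 := by
    refine hsq _ _ (by linarith) ?_
    have e : (u ^ 2 * v ^ 2) ^ 2 = (1 + x) * (1 - x) := by
      rw [← hu4, ← hv4]
      ring
    rw [e]
    nlinarith [mul_nonneg hx2 hx2]
  have a2 : u ^ 2 + v ^ 2 ≤ 2 - x ^ 2 / 4 := by
    refine hsq _ _ (by linarith) ?_
    have e : (u ^ 2 + v ^ 2) ^ 2 = u ^ 4 + v ^ 4 + 2 * (u ^ 2 * v ^ 2) := by ring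
    rw [e, hu4, hv4]
    nlinarith [mul_nonneg hx2 hx2]
  have a3 : u * v ≤ 1 - x ^ 2 / 4 := by
    refine hsq _ _ (by linarith) ?_
    have e : (u * v) ^ 2 = u ^ 2 * v ^ 2 := by ring
    rw [e]
    nlinarith [mul_nonneg hx2 hx2]
  have a4 : (u + v) / 2 ≤ 1 - 3 / 32 * x ^ 2 := by
    refine hsq _ _ (by linarith) ?_
    have e : ((u + v) / 2) ^ 2 = (u ^ 2 + v ^ 2 + 2 * (u * v)) / 4 := by ring
    rw [e]
    nlinarith [mul_nonneg hx2 hx2]
  have a5 := Real.add_one_le_exp (-(3 / 32) * x ^ 2)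
  linarith

theorem av_quarter (S : Finset ℕ) (hS : ∀ p ∈ S, 2 ≤ p) (t : ℝ) :
    av S (fun T => dd S T t ^ (1 / 4 : ℝ)) ≤ Real.exp (-(3 / 32) * ∑ p ∈ S, th p t ^ 2) := by
  induction S using Finset.induction_on with
  | empty => simp [av_empty, dd]
  | insert q S hq ih =>
    have hS' : ∀ p ∈ S, 2 ≤ p := fun p hp => hS p (Finset.mem_insert_of_mem hp)
    have hq2 : 2 ≤ q := hS q (Finset.mem_insert_self q S)
    have hth := abs_th_lt_one hq2 t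
    have hth' := abs_lt.1 hth
    have hT : ∀ T ⊆ S, dd (insert q S) T t ^ (1 / 4 : ℝ) =
        (1 + th q t) ^ (1 / 4 : ℝ) * dd S T t ^ (1 / 4 : ℝ) := by
      intro T hT
      have e : dd (insert q S) T t = (1 + th q t) * dd S T t := by
        unfold dd
        rw [Finset.prod_insert hq, sg_not_mem (fun h => hq (hT h)), one_mul]
      rw [e, Real.mul_rpow (by linarith [hth'.1]) (dd_nonneg hS' T t)]
    have hT' : ∀ T ⊆ S, dd (insert q S) (insert q T) t ^ (1 / 4 : ℝ) =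
        (1 - th q t) ^ (1 / 4 : ℝ) * dd S T t ^ (1 / 4 : ℝ) := by
      intro T hT
      have e : dd (insert q S) (insert q T) t = (1 - th q t) * dd S T t := by
        unfold dd
        rw [Finset.prod_insert hq, sg_mem (Finset.mem_insert_self q T)]
        congr 1
        · ring
        · refine Finset.prod_congr rfl fun p hp => ?_
          have hne : p ≠ q := fun h => hq (h ▸ hp)
          rw [sg_insert_of_ne hne]
      rw [e, Real.mul_rpow (by linarith [hth'.2]) (dd_nonneg hS' T t)]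
    rw [av_insert hq, av_congr hT, av_congr hT', av_mul_left, av_mul_left]
    have h2 : ((1 + th q t) ^ (1 / 4 : ℝ) * av S (fun T => dd S T t ^ (1 / 4 : ℝ)) +
        (1 - th q t) ^ (1 / 4 : ℝ) * av S (fun T => dd S T t ^ (1 / 4 : ℝ))) / 2 =
        ((1 + th q t) ^ (1 / 4 : ℝ) + (1 - th q t) ^ (1 / 4 : ℝ)) / 2 * av S (fun T => dd S T t ^ (1 / 4 : ℝ)) := by
      ring
    rw [h2, Finset.sum_insert hq, mul_add, Real.exp_add]
    exact mul_le_mul (quarter hth) (ih hS')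
      (av_nonneg fun T _ => Real.rpow_nonneg (dd_nonneg hS' T t) _) (Real.exp_pos _).le

theorem th0 : ∃ C : ℝ, 0 ≤ C ∧ ∀ j : ℕ, 4 * j * Real.log 2 - C ≤ ∑ p ∈ PP (Y j), th p 0 ^ 2 := by
  obtain ⟨C1, hC1, h1⟩ := Helper66.AF.mertens_lower
  have hC2 := Helper66.AF.C2_nonneg
  have e7 := abs_nonneg (Real.log (Real.log 2))
  refine ⟨4 * C1 + 4 * |Real.log (Real.log 2)| + 8 * Helper66.AF.C2, by positivity, fun j => ?_⟩
  rcases Nat.eq_zero_or_pos j with rfl | hj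
  · have e1 : 0 ≤ ∑ p ∈ PP (Y 0), th p 0 ^ 2 := Finset.sum_nonneg fun p _ => sq_nonneg _
    push_cast
    linarith
  · have e1 : ∑ p ∈ PP (Y j), (4 * ((1 : ℝ) / p) - 8 * (1 / (p : ℝ) ^ 2)) ≤ ∑ p ∈ PP (Y j), th p 0 ^ 2 := by
      refine Finset.sum_le_sum fun p hp => ?_
      have e := th_sq_lower (two_le_of_mem_PP hp) 0
      rw [mul_zero, zero_mul, Real.cos_zero] at e
      linarith
    rw [Finset.sum_sub_distrib, ← Finset.mul_sum, ← Finset.mul_sum] at e1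
    have e2 := h1 (Y j) (three_le_Y hj)
    have e4 := Helper66.AF.sum_sq_le (PP (Y j))
    rw [loglog_Y] at e2
    have e6 := neg_abs_le (Real.log (Real.log 2))
    linarith

end Pool.Agent.Helper96.AG
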